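import Pool.Agent.T2S4.Defs

/-!
# The round metric

The round metric `4 / (1 + |x|²)² δ` satisfies the hypotheses of the main theorem (with `Λ = 3`):
this shows that the definitions are not vacuous.
-/

set_option autoImplicit false

namespace Pool.Agent.T2S4

open Matrix
open scoped ContDiff

/-- The round metric of the unit sphere in a stereographic chart. -/
noncomputable def rd (x : P4) : M4 := (4 / (1 + nsq x) ^ 2) • (1 : M4)

private lemma Round_nsq_nonneg (x : P4) : 0 ≤ nsq x := by
  unfold nsq; positivity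

private lemma Round_nsq_pos {x : P4} (hx : x ≠ 0) : 0 < nsq x := by
  rcases (Round_nsq_nonneg x).lt_or_eq with h | h
  · exact h
  · exfalso
    apply hx
    unfold nsq at h
    have h0 := (Finset.sum_eq_zero_iff_of_nonneg (fun i _ => sq_nonneg (x i))).1 h.symm
    funext i
    have := h0 i (Finset.mem_univ i)
    simpa using this

private lemma Round_nsq_smooth : ContDiff ℝ ∞ nsq := by
  unfold nsq
  fun_prop

private lemma Round_pos (x : P4) : 0 < 1 + nsq x := by
  have := Round_nsq_nonneg x; linarith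

theorem rd_metric : IsMetric rd where
  smooth := by
    intro i j
    have h : (fun x : P4 => rd x i j) = fun x => 4 / (1 + nsq x) ^ 2 * (1 : M4) i j := by
      funext x; simp [rd]
    rw [h]
    refine ContDiff.mul (ContDiff.div contDiff_const ?_ ?_) contDiff_const
    · exact (contDiff_const.add Round_nsq_smooth).pow 2
    · intro x; have := Round_pos x; positivity
  posDef := by
    intro x
    have := Round_pos x
    exact Matrix.PosDef.one.smul (by positivity)

theorem rd_sphere : SphereMetric rd rd where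
  left := rd_metric
  right := rd_metric
  glue := by
    intro x hx
    have hp := Round_nsq_pos hx
    have h1 : nsq (inv4 x) = 1 / nsq x := by
      unfold inv4
      have : nsq (fun i => x i / nsq x) = nsq x / nsq x ^ 2 := by
        conv_lhs => unfold nsq
        simp only [div_pow, ← Finset.sum_div]
        rfl
      rw [this]; field_simp
    have h2 : (jac x)ᵀ * jac x = (1 / nsq x ^ 2) • (1 : M4) := by
      ext i j
      have hs : nsq x = x 0 ^ 2 + x 1 ^ 2 + x 2 ^ 2 + x 3 ^ 2 := by
        simp [nsq, Fin.sum_univ_four]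
      simp only [Matrix.mul_apply, Matrix.transpose_apply, jac, Fin.sum_univ_four,
        Matrix.smul_apply, smul_eq_mul]
      have hne : nsq x ≠ 0 := hp.ne'
      fin_cases i <;> fin_cases j <;> simp [Matrix.one_apply] <;> field_simp <;>
        rw [hs] <;> ring
    unfold rd
    rw [Matrix.mul_smul, Matrix.mul_one, Matrix.smul_mul, h2, smul_smul, h1]
    congr 1
    have hne : nsq x ≠ 0 := hp.ne'
    have := (Round_pos x).ne'
    have h3 : 1 + 1 / nsq x ≠ 0 := by positivity
    field_simp
    ring

private lemma Round_nsq_rot (α β : ℝ) (x : P4) : nsq (rot α β *ᵥ x) = nsq x := by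
  have h1 := Real.sin_sq_add_cos_sq α
  have h2 := Real.sin_sq_add_cos_sq β
  simp only [nsq, rot, Matrix.mulVec, dotProduct, Fin.sum_univ_four]
  simp
  linear_combination (x 0 ^ 2 + x 1 ^ 2) * h1 + (x 2 ^ 2 + x 3 ^ 2) * h2

private lemma Round_rot (α β : ℝ) : (rot α β)ᵀ * rot α β = 1 := by
  have h1 := Real.sin_sq_add_cos_sq α
  have h2 := Real.sin_sq_add_cos_sq β
  ext i j
  fin_cases i <;> fin_cases j <;>
    simp [rot, Matrix.mul_apply, Fin.sum_univ_four, Matrix.transpose_apply] <;>
    first | linear_combination h1 | linear_combination h2 | ring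

theorem rd_torus : TorusInvariant rd := by
  intro α β x
  unfold rd
  rw [Round_nsq_rot, Matrix.mul_smul, Matrix.mul_one, Matrix.smul_mul, Round_rot]

private lemma Round_pd_nsq (i : Fin 4) (x : P4) : pd i nsq x = 2 * x i := by
  unfold pd
  have h : HasFDerivAt nsq (∑ j, (2 * x j) • (ContinuousLinearMap.proj (R := ℝ) j :
      P4 →L[ℝ] ℝ)) x := by
    unfold nsq
    refine HasFDerivAt.fun_sum fun j _ => ?_
    have h1 : HasFDerivAt (fun y : P4 => y j) (ContinuousLinearMap.proj (R := ℝ) j :
      P4 →L[ℝ] ℝ) x := (ContinuousLinearMap.proj (R := ℝ) j : P4 →L[ℝ] ℝ).hasFDerivAt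
    have h2 := h1.pow 2
    simpa using h2
  rw [h.fderiv]
  simp [Pi.single_apply]

private noncomputable def Round_v (x : P4) : ℝ := (1 + nsq x)⁻¹

private lemma Round_nsq_diff (x : P4) : DifferentiableAt ℝ nsq x :=
  Round_nsq_smooth.contDiffAt.differentiableAt (by simp)

private lemma Round_v_diff (x : P4) : DifferentiableAt ℝ Round_v x := by
  unfold Round_v
  exact (((differentiableAt_const _).add (Round_nsq_diff x)).inv (Round_pos x).ne')

private lemma Round_pd_v (i : Fin 4) (x : P4) : pd i Round_v x = -2 * x i * Round_v x ^ 2 := by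
  have h := Round_pd_nsq i x
  unfold pd at h ⊢
  have h1 : HasFDerivAt (fun y : P4 => 1 + nsq y) (fderiv ℝ nsq x) x := by
    have := (Round_nsq_diff x).hasFDerivAt.const_add 1
    simpa using this
  have h2 : HasFDerivAt Round_v (-((1 + nsq x) ^ 2)⁻¹ • fderiv ℝ nsq x) x := by
    have := (hasDerivAt_inv (Round_pos x).ne').comp_hasFDerivAt x h1
    exact this
  rw [h2.fderiv]
  have h3 : (-((1 + nsq x) ^ 2)⁻¹ • fderiv ℝ nsq x) (Pi.single i 1) =
      -((1 + nsq x) ^ 2)⁻¹ * fderiv ℝ nsq x (Pi.single i 1) := rfl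
  rw [h3, h, Round_v, inv_pow]
  ring

private lemma Round_pd_mul {f k : P4 → ℝ} {x : P4} (hf : DifferentiableAt ℝ f x)
    (hk : DifferentiableAt ℝ k x) (i : Fin 4) :
    pd i (fun y => f y * k y) x = f x * pd i k x + k x * pd i f x := by
  unfold pd
  rw [fderiv_fun_mul hf hk]
  simp

private lemma Round_pd_coord (i a : Fin 4) (x : P4) :
    pd i (fun y => y a) x = (1 : M4) i a := by
  unfold pd
  have h1 : HasFDerivAt (fun y : P4 => y a) (ContinuousLinearMap.proj (R := ℝ) a :
      P4 →L[ℝ] ℝ) x := (ContinuousLinearMap.proj (R := ℝ) a : P4 →L[ℝ] ℝ).hasFDerivAt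
  rw [h1.fderiv]
  simp [Pi.single_apply, Matrix.one_apply, eq_comm]

private lemma Round_pd_const (i : Fin 4) (c : ℝ) (x : P4) : pd i (fun _ => c) x = 0 := by
  unfold pd; simp

private lemma Round_rd_eq (k j : Fin 4) : (fun y => rd y k j) =
    fun y => (4 * (1 : M4) k j) * (Round_v y * Round_v y) := by
  funext y
  simp only [rd, Round_v, Matrix.smul_apply, smul_eq_mul]
  field_simp

private lemma Round_pd_rd (i k j : Fin 4) (x : P4) :
    pd i (fun y => rd y k j) x = -16 * x i * (1 : M4) k j * Round_v x ^ 3 := by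
  rw [Round_rd_eq, Round_pd_mul (f := fun _ => 4 * (1 : M4) k j)
    (k := fun y => Round_v y * Round_v y) (differentiableAt_const _)
    ((Round_v_diff x).fun_mul (Round_v_diff x)), Round_pd_const,
    Round_pd_mul (Round_v_diff x) (Round_v_diff x), Round_pd_v]
  ring

private lemma Round_v_pos (x : P4) : 0 < Round_v x := inv_pos.2 (Round_pos x)

private lemma Round_inv (x : P4) (k l : Fin 4) :
    (rd x)⁻¹ k l = (1 : M4) k l / (4 * Round_v x ^ 2) := by
  have h1 : rd x = (4 * Round_v x ^ 2) • (1 : M4) := by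
    unfold rd Round_v; congr 1; field_simp
  have h2 : (rd x)⁻¹ = (4 * Round_v x ^ 2)⁻¹ • (1 : M4) := by
    rw [h1]
    apply Matrix.inv_eq_right_inv
    rw [Matrix.smul_mul, Matrix.one_mul, smul_smul, mul_inv_cancel₀, one_smul]
    have := Round_v_pos x
    positivity
  rw [h2, Matrix.smul_apply, smul_eq_mul]
  field_simp

private lemma Round_chr (k i j : Fin 4) : chr rd k i j = fun x => -2 * Round_v x *
    (x i * (1 : M4) k j + x j * (1 : M4) k i - x k * (1 : M4) i j) := by
  funext x
  have hv := (Round_v_pos x).ne'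
  unfold chr
  simp only [Round_pd_rd, Round_inv, Fin.sum_univ_four]
  fin_cases k <;> fin_cases i <;> fin_cases j <;> simp [Matrix.one_apply] <;> field_simp <;> ring

private lemma Round_pd_chr (a k i j : Fin 4) (x : P4) : pd a (chr rd k i j) x =
    4 * x a * Round_v x ^ 2 *
      (x i * (1 : M4) k j + x j * (1 : M4) k i - x k * (1 : M4) i j) -
    2 * Round_v x * ((1 : M4) a i * (1 : M4) k j + (1 : M4) a j * (1 : M4) k i -
      (1 : M4) a k * (1 : M4) i j) := by
  have hc : ∀ b, DifferentiableAt ℝ (fun y : P4 => y b) x := fun b =>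
    (ContinuousLinearMap.proj (R := ℝ) b : P4 →L[ℝ] ℝ).differentiableAt
  have e1 : ∀ (b : Fin 4) (c : ℝ), pd a (fun y => y b * c) x = (1 : M4) a b * c := by
    intro b c
    rw [Round_pd_mul (hc b) (differentiableAt_const c), Round_pd_const, Round_pd_coord]
    ring
  have hd : ∀ (b : Fin 4) (c : ℝ), DifferentiableAt ℝ (fun y : P4 => y b * c) x := fun b c =>
    (hc b).mul (differentiableAt_const c)
  have e2 : pd a (fun y : P4 => y i * (1 : M4) k j + y j * (1 : M4) k i - y k * (1 : M4) i j) x =
      (1 : M4) a i * (1 : M4) k j + (1 : M4) a j * (1 : M4) k i - (1 : M4) a k * (1 : M4) i j := by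
    have := e1 i ((1 : M4) k j)
    have h2 := e1 j ((1 : M4) k i)
    have h3 := e1 k ((1 : M4) i j)
    unfold pd at this h2 h3 ⊢
    rw [fderiv_fun_sub ((hd _ _).fun_add (hd _ _)) (hd _ _), fderiv_fun_add (hd _ _) (hd _ _)]
    exact congrArg₂ (· - ·) (congrArg₂ (· + ·) this h2) h3
  rw [Round_chr]
  have hm : pd a (fun y => -2 * Round_v y) x = 4 * x a * Round_v x ^ 2 := by
    rw [Round_pd_mul (f := fun _ => -2) (differentiableAt_const _) (Round_v_diff x),
      Round_pd_const, Round_pd_v]
    ring
  rw [Round_pd_mul (f := fun y => -2 * Round_v y)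
    (k := fun y => y i * (1 : M4) k j + y j * (1 : M4) k i - y k * (1 : M4) i j)
    ((differentiableAt_const _).fun_mul (Round_v_diff x))
    (((hd _ _).fun_add (hd _ _)).fun_sub (hd _ _)), e2, hm]
  ring

private lemma Round_one (a b : Fin 4) : (1 : M4) a b = if a = b then 1 else 0 :=
  Matrix.one_apply

theorem rd_const : HasConstCurv 1 rd := by
  intro x l k i j
  have hv : Round_v x * (1 + (x 0 ^ 2 + x 1 ^ 2 + x 2 ^ 2 + x 3 ^ 2)) = 1 := by
    have h := inv_mul_cancel₀ (Round_pos x).ne'
    have hs : nsq x = x 0 ^ 2 + x 1 ^ 2 + x 2 ^ 2 + x 3 ^ 2 := by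
      simp [nsq, Fin.sum_univ_four]
    rw [← hs]; exact h
  have hr : ∀ a b, rd x a b = 4 * (1 : M4) a b * Round_v x ^ 2 := by
    intro a b
    have h := congrFun (Round_rd_eq a b) x
    have h2 : rd x a b = (4 * (1 : M4) a b) * (Round_v x * Round_v x) := h
    rw [h2]; ring
  have hsum : ∀ p q : Fin 4, ∑ m, (chr rd l p m x * chr rd m q k x) = 4 * Round_v x ^ 2 *
      (x p * (x q * (1 : M4) l k + x k * (1 : M4) l q - x l * (1 : M4) q k) +
        (1 : M4) l p * (2 * x q * x k - (x 0 ^ 2 + x 1 ^ 2 + x 2 ^ 2 + x 3 ^ 2) * (1 : M4) q k) -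
        x l * (x q * (1 : M4) p k + x k * (1 : M4) p q - x p * (1 : M4) q k)) := by
    intro p q
    have h1 : ∀ m, chr rd l p m x * chr rd m q k x = 4 * Round_v x ^ 2 *
        (x p * ((1 : M4) l m * (x q * (1 : M4) m k + x k * (1 : M4) m q - x m * (1 : M4) q k)) +
          (1 : M4) l p * (x m * (x q * (1 : M4) m k + x k * (1 : M4) m q - x m * (1 : M4) q k)) -
          x l * ((1 : M4) p m *
            (x q * (1 : M4) m k + x k * (1 : M4) m q - x m * (1 : M4) q k))) := by
      intro m
      simp only [Round_chr]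
      ring
    simp only [h1, ← Finset.mul_sum, Finset.sum_sub_distrib, Finset.sum_add_distrib]
    have h2 : ∀ (a : Fin 4) (f : Fin 4 → ℝ), ∑ m, (1 : M4) a m * f m = f a := by
      intro a f
      simp [Matrix.one_apply]
    rw [h2, h2]
    have h3 : ∑ m, x m * (x q * (1 : M4) m k + x k * (1 : M4) m q - x m * (1 : M4) q k) =
        2 * x q * x k - (x 0 ^ 2 + x 1 ^ 2 + x 2 ^ 2 + x 3 ^ 2) * (1 : M4) q k := by
      have h4 : ∀ m, x m * (x q * (1 : M4) m k + x k * (1 : M4) m q - x m * (1 : M4) q k) =
          x q * ((1 : M4) k m * x m) + x k * ((1 : M4) q m * x m) -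
            (1 : M4) q k * x m ^ 2 := by
        intro m
        have e1 : (1 : M4) k m = (1 : M4) m k := by simp [Matrix.one_apply, eq_comm]
        have e2 : (1 : M4) q m = (1 : M4) m q := by simp [Matrix.one_apply, eq_comm]
        rw [e1, e2]; ring
      simp only [h4, Finset.sum_sub_distrib, Finset.sum_add_distrib, ← Finset.mul_sum, h2]
      rw [Fin.sum_univ_four]
      ring
    rw [h3]
  unfold riem
  rw [Finset.sum_sub_distrib, hsum i j, hsum j i, Round_pd_chr, Round_pd_chr, hr, hr]
  have e1 : (1 : M4) i l = (1 : M4) l i := by simp [Matrix.one_apply, eq_comm]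
  have e2 : (1 : M4) j l = (1 : M4) l j := by simp [Matrix.one_apply, eq_comm]
  have e3 : (1 : M4) j i = (1 : M4) i j := by simp [Matrix.one_apply, eq_comm]
  have e4 : (1 : M4) j k = (1 : M4) k j := by simp [Matrix.one_apply, eq_comm]
  have e5 : (1 : M4) i k = (1 : M4) k i := by simp [Matrix.one_apply, eq_comm]
  rw [e1, e2, e3, e4, e5]
  linear_combination (-4 * Round_v x * ((1 : M4) l i * (1 : M4) k j -
    (1 : M4) l j * (1 : M4) k i)) * hv

theorem HasConstCurv.einstein {c : ℝ} {g : P4 → M4} (hg : IsMetric g) (h : HasConstCurv c g) :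
    IsEinstein (3 * c) g := by
  intro x k j
  unfold ric
  have hs : g x j k = g x k j := by
    have := (hg.posDef x).isHermitian
    have h2 := this.apply k j
    simpa using h2
  have h1 : ∀ i, riem g i k i j x = c * (g x k j) - c * ((1 : M4) j i * g x k i) := by
    intro i
    rw [h x i k i j]
    have e : (1 : M4) j i = (1 : M4) i j := by simp [Matrix.one_apply, eq_comm]
    rw [e]
    simp only [Matrix.one_apply_eq]
    ring
  simp only [h1, Finset.sum_sub_distrib, ← Finset.mul_sum]
  have h2 : ∑ i, (1 : M4) j i * g x k i = g x k j := by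
    simp [Matrix.one_apply]
  rw [h2]
  simp
  ring

theorem rd_einstein : IsEinstein 3 rd := by
  have := rd_const.einstein rd_metric
  simpa using this

end Pool.Agent.T2S4
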