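import Pool.Agent.T2S4.LC

/-!
# Change of commuting frames: Christoffel symbols

PACKAGE. Prove the theorems (helper lemmas allowed, private or prefixed by `Gauge_`).

Let `γ' = Pᵀ γ P` on `O`. Write `X'_i f = ∑ a, P_{ai} X_a f` (from `rel` and linearity of `fderiv`).

* `Chg.fr`: `X'_j = ∑ P_{ij} X_i` is smooth; `γ'` is smooth, symmetric, `det γ' = (det P)² det γ`.
  Commuting: `D(X'_j)(X'_i) = ∑ k, (X'_i P_{kj}) X_k + ∑ k, P_{kj} DX_k(X'_i)` and
  `∑ k, P_{kj} DX_k(X'_i) = ∑ k a, P_{kj} P_{ai} DX_k(X_a)`, which is symmetric in `i, j` because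
  `DX_k(X_a) = DX_a(X_k)`; the first sum is symmetric by `closed`.
* `chg_chr`: put `C^m_{ij} = ∑ k, (P⁻¹)_{mk} (X'_i P_{kj} + ∑ a b, Γ^k_{ab} P_{ai} P_{bj})`. It is
  symmetric in `i, j` (`closed`, `chrV_symm`). The metric identity for `γ' = Pᵀ γ P`:
  `X'_l γ'_{ij} = ∑ a b, (X'_l P_{ai}) γ_{ab} P_{bj} + P_{ai} (X'_l γ_{ab}) P_{bj} +
  P_{ai} γ_{ab} (X'_l P_{bj})` and `X'_l γ_{ab} = ∑ c, P_{cl} X_c γ_{ab}`, with `chrV_metric` for `X`;
  and `∑ m, C^m_{li} γ'_{mj} = ∑ k b, (P C)^k_{li} γ_{kb} P_{bj}`. So `chrV_unique` for `X', γ'`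
  gives `C = Γ'`. Multiply by `P`.
-/

set_option autoImplicit false

namespace Pool.Agent.T2S4

open Matrix
open scoped ContDiff

variable {E : Type} [NormedAddCommGroup E] [NormedSpace ℝ E]

/-! ### Rules for the derivative along a field -/

private theorem da {O : Set E} (hO : IsOpen O) {f : E → ℝ} (hf : ContDiffOn ℝ ∞ f O) {x : E}
    (hx : x ∈ O) : DifferentiableAt ℝ f x :=
  (hf.contDiffAt (hO.mem_nhds hx)).differentiableAt (by simp)

private theorem ld_congr {O : Set E} (hO : IsOpen O) {X : E → E} {f g : E → ℝ} {x : E}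
    (hx : x ∈ O) (h : ∀ y ∈ O, f y = g y) : ld X f x = ld X g x := by
  unfold ld
  rw [Filter.EventuallyEq.fderiv_eq (Filter.mem_of_superset (hO.mem_nhds hx) h)]

private theorem ld_mul {X : E → E} {f g : E → ℝ} {x : E} (hf : DifferentiableAt ℝ f x)
    (hg : DifferentiableAt ℝ g x) :
    ld X (fun y => f y * g y) x = ld X f x * g x + f x * ld X g x := by
  unfold ld
  rw [fderiv_fun_mul hf hg]
  simp only [_root_.add_apply, _root_.smul_apply, smul_eq_mul]
  ring

private theorem ld_sum {X : E → E} {f : Fin 4 → E → ℝ} {x : E}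
    (hf : ∀ i, DifferentiableAt ℝ (f i) x) :
    ld X (fun y => ∑ i, f i y) x = ∑ i, ld X (f i) x := by
  unfold ld
  rw [fderiv_fun_sum fun i _ => hf i]
  simp only [_root_.sum_apply]

theorem Chg.ld_eq {O : Set E} {X X' : Fin 4 → E → E} {P : E → M4} (hc : Chg O X X' P) {x : E}
    (hx : x ∈ O) (i : Fin 4) (f : E → ℝ) : ld (X' i) f x = ∑ a, P x a i * ld (X a) f x := by
  unfold ld
  rw [hc.rel x hx i, map_sum]
  exact Finset.sum_congr rfl fun a _ => by rw [map_smul, smul_eq_mul]

/-- The derivative of a field of the new frame. -/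
private theorem fderiv_new {O : Set E} {X X' : Fin 4 → E → E} {γ : E → M4} {P : E → M4}
    (h : Fr O X γ) (hc : Chg O X X' P) {x : E} (hx : x ∈ O) (i j : Fin 4) :
    fderiv ℝ (X' j) x (X' i x) = ∑ k, ld (X' i) (fun y => P y k j) x • X k x +
      ∑ k, ∑ a, (P x k j * P x a i) • fderiv ℝ (X k) x (X a x) := by
  have h1 : X' j =ᶠ[nhds x] fun y => ∑ k, P y k j • X k y :=
    Filter.mem_of_superset (h.isOpen.mem_nhds hx) fun y hy => hc.rel y hy j
  have hX : ∀ k, DifferentiableAt ℝ (X k) x := fun k =>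
    ((h.smX k).contDiffAt (h.isOpen.mem_nhds hx)).differentiableAt (by simp)
  have hP : ∀ k, DifferentiableAt ℝ (fun y => P y k j) x := fun k => da h.isOpen (hc.smP k j) hx
  rw [h1.fderiv_eq, fderiv_fun_sum fun k _ => (hP k).fun_smul (hX k)]
  rw [_root_.sum_apply, ← Finset.sum_add_distrib]
  refine Finset.sum_congr rfl fun k _ => ?_
  rw [fderiv_fun_smul (hP k) (hX k)]
  simp only [_root_.add_apply, _root_.smul_apply, ContinuousLinearMap.smulRight_apply]
  rw [add_comm]
  congr 1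
  conv_lhs => rw [hc.rel x hx i, map_sum, Finset.smul_sum]
  exact Finset.sum_congr rfl fun a _ => by rw [map_smul, smul_smul]

theorem Chg.fr {O : Set E} {X X' : Fin 4 → E → E} {γ γ' : E → M4} {P : E → M4} (h : Fr O X γ)
    (hc : Chg O X X' P) (hγ : ∀ x ∈ O, γ' x = (P x)ᵀ * γ x * P x) : Fr O X' γ' := by
  refine ⟨h.isOpen, fun j => ?_, fun i j => ?_, fun x hx => ?_, fun x hx => ?_,
    fun i j x hx => ?_⟩
  · refine ContDiffOn.congr (f := fun y => ∑ k, P y k j • X k y) ?_ fun y hy => hc.rel y hy j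
    exact ContDiffOn.sum fun k _ => (hc.smP k j).smul (h.smX k)
  · refine ContDiffOn.congr (f := fun y => ∑ d, (∑ c, P y c i * γ y c d) * P y d j) ?_ ?_
    · exact ContDiffOn.sum fun d _ =>
        (ContDiffOn.sum fun c _ => (hc.smP c i).mul (h.smg c d)).mul (hc.smP d j)
    · intro y hy
      rw [hγ y hy]
      rfl
  · rw [hγ x hx, transpose_mul, transpose_mul, transpose_transpose, h.sym x hx, Matrix.mul_assoc]
  · rw [hγ x hx, det_mul, det_mul, det_transpose]
    exact mul_ne_zero (mul_ne_zero (hc.det x hx) (h.det x hx)) (hc.det x hx)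
  · rw [fderiv_new h hc hx i j, fderiv_new h hc hx j i]
    congr 1
    · exact Finset.sum_congr rfl fun k _ => by rw [hc.closed x hx k i j]
    · rw [Finset.sum_comm]
      refine Finset.sum_congr rfl fun a _ => Finset.sum_congr rfl fun k _ => ?_
      rw [h.comm a k x hx, mul_comm]

/-- The derivative of the metric in the new frame, entry by entry. -/
private theorem ld_new {O : Set E} {X X' : Fin 4 → E → E} {γ γ' : E → M4} {P : E → M4}
    (h : Fr O X γ) (hc : Chg O X X' P) (hγ : ∀ x ∈ O, γ' x = (P x)ᵀ * γ x * P x) {x : E}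
    (hx : x ∈ O) (l i j : Fin 4) : ld (X' l) (fun y => γ' y i j) x =
      ((Matrix.of fun k m => ld (X' l) (fun y => P y k m) x)ᵀ * γ x * P x +
        (P x)ᵀ * (Matrix.of fun k m => ld (X' l) (fun y => γ y k m) x) * P x +
        (P x)ᵀ * γ x * (Matrix.of fun k m => ld (X' l) (fun y => P y k m) x)) i j := by
  have hP : ∀ k m, DifferentiableAt ℝ (fun y => P y k m) x := fun k m =>
    da h.isOpen (hc.smP k m) hx
  have hg : ∀ k m, DifferentiableAt ℝ (fun y => γ y k m) x := fun k m =>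
    da h.isOpen (h.smg k m) hx
  have h1 : ∀ y ∈ O, γ' y i j = ∑ d, (∑ c, P y c i * γ y c d) * P y d j := by
    intro y hy
    rw [hγ y hy]
    rfl
  have h2 : ∀ d, DifferentiableAt ℝ (fun y => ∑ c, P y c i * γ y c d) x := fun d =>
    DifferentiableAt.fun_sum fun c _ => (hP c i).fun_mul (hg c d)
  rw [ld_congr h.isOpen hx h1, ld_sum fun d => (h2 d).fun_mul (hP d j)]
  simp only [Matrix.add_apply, Matrix.mul_apply, Matrix.transpose_apply, Matrix.of_apply]
  rw [← Finset.sum_add_distrib, ← Finset.sum_add_distrib]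
  refine Finset.sum_congr rfl fun d _ => ?_
  rw [ld_mul (h2 d) (hP d j), ld_sum fun c => (hP c i).fun_mul (hg c d)]
  congr 1
  rw [← add_mul, ← Finset.sum_add_distrib]
  congr 1
  exact Finset.sum_congr rfl fun c _ => ld_mul (hP c i) (hg c d)

theorem chg_chr {O : Set E} {X X' : Fin 4 → E → E} {γ γ' : E → M4} {P : E → M4} (h : Fr O X γ)
    (hc : Chg O X X' P) (hγ : ∀ x ∈ O, γ' x = (P x)ᵀ * γ x * P x) {x : E} (hx : x ∈ O)
    (k i j : Fin 4) : ∑ m, P x k m * chrV X' γ' m i j x =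
      ld (X' i) (fun y => P y k j) x + ∑ a, ∑ b, chrV X γ k a b x * P x a i * P x b j := by
  have hfr := hc.fr h hγ
  have hu : IsUnit (P x).det := isUnit_iff_ne_zero.2 (hc.det x hx)
  -- the matrices
  let D : Fin 4 → M4 := fun l => Matrix.of fun k m => ld (X' l) (fun y => P y k m) x
  let G : Fin 4 → M4 := fun l => Matrix.of fun k b => ∑ a, P x a l * chrV X γ k a b x
  let R : Fin 4 → M4 := fun l => D l + G l * P x
  let C : Fin 4 → Fin 4 → Fin 4 → ℝ := fun m i j => ((P x)⁻¹ * R i) m j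
  have hR : ∀ k i j, R i k j = ld (X' i) (fun y => P y k j) x +
      ∑ a, ∑ b, chrV X γ k a b x * P x a i * P x b j := by
    intro k i j
    change ld (X' i) (fun y => P y k j) x + (G i * P x) k j = _
    congr 1
    rw [Matrix.mul_apply]
    simp only [G, Matrix.of_apply, Finset.sum_mul]
    rw [Finset.sum_comm]
    exact Finset.sum_congr rfl fun a _ => Finset.sum_congr rfl fun b _ => by ring
  have hs : ∀ k i j, C k i j = C k j i := by
    intro k i j
    change ((P x)⁻¹ * R i) k j = ((P x)⁻¹ * R j) k i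
    rw [Matrix.mul_apply, Matrix.mul_apply]
    refine Finset.sum_congr rfl fun m _ => ?_
    rw [hR, hR, hc.closed x hx m i j]
    congr 2
    rw [Finset.sum_comm]
    refine Finset.sum_congr rfl fun b _ => Finset.sum_congr rfl fun a _ => ?_
    rw [chrV_symm h hx m a b]
    ring
  have hm : ∀ l i j, ld (X' l) (fun y => γ' y i j) x =
      ∑ m, (C m l i * γ' x m j + γ' x i m * C m l j) := by
    intro l i j
    -- the derivative of the old metric
    have h1 : (Matrix.of fun k m => ld (X' l) (fun y => γ y k m) x) =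
        (G l)ᵀ * γ x + γ x * G l := by
      ext c d
      rw [Matrix.of_apply, hc.ld_eq hx]
      simp only [Matrix.add_apply, Matrix.mul_apply, Matrix.transpose_apply, G, Matrix.of_apply]
      rw [← Finset.sum_add_distrib]
      have h2 : ∀ a, P x a l * ld (X a) (fun y => γ y c d) x = ∑ m, P x a l *
          (chrV X γ m a c x * γ x m d + γ x c m * chrV X γ m a d x) := fun a => by
        rw [chrV_metric h hx a c d, Finset.mul_sum]
      rw [Finset.sum_congr rfl fun a _ => h2 a, Finset.sum_comm]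
      refine Finset.sum_congr rfl fun m _ => ?_
      rw [Finset.sum_mul, Finset.mul_sum, ← Finset.sum_add_distrib]
      exact Finset.sum_congr rfl fun a _ => by ring
    have h3 : ∑ m, (C m l i * γ' x m j + γ' x i m * C m l j) =
        (((P x)⁻¹ * R l)ᵀ * γ' x + γ' x * ((P x)⁻¹ * R l)) i j := by
      simp only [Matrix.add_apply, Matrix.mul_apply (M := ((P x)⁻¹ * R l)ᵀ),
        Matrix.mul_apply (M := γ' x), Matrix.transpose_apply]
      rw [← Finset.sum_add_distrib]
    rw [h3, ld_new h hc hγ hx l i j, h1, hγ x hx]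
    refine congrFun (congrFun ?_ i) j
    change (D l)ᵀ * γ x * P x + (P x)ᵀ * ((G l)ᵀ * γ x + γ x * G l) * P x + (P x)ᵀ * γ x * D l = _
    have e1 : (P x)ᵀ * γ x * P x * ((P x)⁻¹ * R l) = (P x)ᵀ * γ x * R l := by
      rw [← Matrix.mul_assoc, Matrix.mul_assoc _ (P x) (P x)⁻¹, Matrix.mul_nonsing_inv _ hu,
        Matrix.mul_one]
    have e2 : ((P x)⁻¹ * R l)ᵀ * ((P x)ᵀ * γ x * P x) = (R l)ᵀ * γ x * P x := by
      rw [Matrix.mul_assoc (P x)ᵀ, ← Matrix.mul_assoc, ← transpose_mul, ← Matrix.mul_assoc (P x),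
        Matrix.mul_nonsing_inv _ hu, Matrix.one_mul, ← Matrix.mul_assoc]
    rw [e1, e2]
    change _ = (D l + G l * P x)ᵀ * γ x * P x + (P x)ᵀ * γ x * (D l + G l * P x)
    rw [transpose_add, transpose_mul]
    simp only [Matrix.mul_add, Matrix.add_mul, Matrix.mul_assoc]
    abel
  have h4 : ∀ m, chrV X' γ' m i j x = ((P x)⁻¹ * R i) m j := fun m =>
    (chrV_unique hfr hx C hs hm m i j).symm
  have h5 : ∑ m, P x k m * chrV X' γ' m i j x = (P x * ((P x)⁻¹ * R i)) k j := by
    rw [Matrix.mul_apply (M := P x)]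
    exact Finset.sum_congr rfl fun m _ => by rw [h4]
  rw [h5, ← Matrix.mul_assoc, Matrix.mul_nonsing_inv _ hu, Matrix.one_mul, hR]

end Pool.Agent.T2S4
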