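import Pool.Agent.T2S4.BlockDefs

/-!
# Block decomposition: algebra

PACKAGE. Prove the theorems (helper lemmas allowed, private or prefixed by `Schur_`).

Everything is pointwise linear algebra of `4 × 4` matrices (fix `p`; `γ p` positive definite).
* `Gf` is a principal block of a positive definite matrix, hence positive definite; the base block of
  `γ⁻¹` is positive definite, hence `hf` is, and `hf_inv`.
* `Pc_block`: `Pcᵀ γ Pc = blk hf Gf` (Schur complement). One way: put `M = Pcᵀ γ Pc`. Its mixed block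
  is `γ_{a,i} - ∑ j, A^j_a G_{ji} = 0` (definition of `A = G⁻¹ · mixed block`), its fibre block is `G`; so
  `M = blk h' G` for some `h'`, and `M⁻¹ = Pc⁻¹ γ⁻¹ Pc⁻ᵀ` has base block the base block of `γ⁻¹` (the
  first two rows of `Pc⁻¹` are those of the identity), so `h'⁻¹ = ` base block of `γ⁻¹`.
* `inv_mixed`: from `γ⁻¹ = Pc (blk hf⁻¹ Gf⁻¹) Pcᵀ`: `(γ⁻¹)_{a, fib j} = - ∑ b, (γ⁻¹)_{ab} A^j_b`.
* smoothness: entries of inverses of smooth invertible matrix functions (`2 × 2`: explicit; or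
  `inv_smooth` of `LC.lean` for the `4 × 4` matrix).
-/

set_option autoImplicit false

namespace Pool.Agent.T2S4

open Matrix Filter Topology
open scoped ContDiff

private theorem Schur_sym {γ : ℝ × ℝ → M4} {p : ℝ × ℝ} (h : (γ p).PosDef) (i j : Fin 4) :
    γ p i j = γ p j i := by
  have h1 := h.isHermitian.apply i j
  simpa using h1.symm

private theorem Schur_inv_sym {γ : ℝ × ℝ → M4} {p : ℝ × ℝ} (h : (γ p).PosDef) (i j : Fin 4) :
    (γ p)⁻¹ i j = (γ p)⁻¹ j i := by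
  have h1 := h.inv.isHermitian.apply i j
  simpa using h1.symm

private theorem Schur_emb_inj : Function.Injective emb := by
  intro i j hij
  fin_cases i <;> fin_cases j <;> simp_all [emb]

private theorem Schur_fib_inj : Function.Injective fib := by
  intro i j hij
  fin_cases i <;> fin_cases j <;> simp_all [fib]

private theorem Schur_base_pos {γ : ℝ × ℝ → M4} {p : ℝ × ℝ} (h : (γ p).PosDef) :
    (Matrix.of fun a b : Fin 2 => (γ p)⁻¹ (emb a) (emb b)).PosDef :=
  h.inv.submatrix Schur_emb_inj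

theorem Gf_pos {γ : ℝ × ℝ → M4} {p : ℝ × ℝ} (h : (γ p).PosDef) : (Gf γ p).PosDef :=
  h.submatrix Schur_fib_inj

theorem hf_pos {γ : ℝ × ℝ → M4} {p : ℝ × ℝ} (h : (γ p).PosDef) : (hf γ p).PosDef :=
  (Schur_base_pos h).inv

theorem hf_inv {γ : ℝ × ℝ → M4} {p : ℝ × ℝ} (h : (γ p).PosDef) (a b : Fin 2) :
    (hf γ p)⁻¹ a b = (γ p)⁻¹ (emb a) (emb b) := by
  unfold hf
  rw [Matrix.nonsing_inv_nonsing_inv _
    (isUnit_iff_ne_zero.2 (Schur_base_pos h).det_pos.ne')]
  rfl

theorem det_Pc (γ : ℝ × ℝ → M4) (p : ℝ × ℝ) : (Pc γ p).det = 1 := by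
  unfold Pc
  simp [Matrix.det_succ_row_zero, Fin.sum_univ_succ]

private theorem Schur_Gf_det {γ : ℝ × ℝ → M4} {p : ℝ × ℝ} (h : (γ p).PosDef) :
    IsUnit (Gf γ p).det := isUnit_iff_ne_zero.2 (Gf_pos h).det_pos.ne'

theorem mixed_eq {γ : ℝ × ℝ → M4} {p : ℝ × ℝ} (h : (γ p).PosDef) (i a : Fin 2) :
    γ p (emb a) (fib i) = ∑ j, Gf γ p i j * Ac γ j a p := by
  have h1 : Gf γ p *ᵥ ((Gf γ p)⁻¹ *ᵥ fun j => γ p (fib j) (emb a)) =
      fun j => γ p (fib j) (emb a) := by
    rw [Matrix.mulVec_mulVec, Matrix.mul_nonsing_inv _ (Schur_Gf_det h), Matrix.one_mulVec]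
  have h2 := congrFun h1 i
  rw [Schur_sym h, ← h2]
  rfl

private theorem Schur_inv_mixed {γ : ℝ × ℝ → M4} {p : ℝ × ℝ} (h : (γ p).PosDef) (a j : Fin 2) :
    (γ p)⁻¹ (fib j) (emb a) = -∑ b, Ac γ j b p * (γ p)⁻¹ (emb b) (emb a) := by
  have hu : IsUnit (γ p).det := isUnit_iff_ne_zero.2 h.det_pos.ne'
  have h0 : γ p * (γ p)⁻¹ = 1 := Matrix.mul_nonsing_inv _ hu
  have h1 : ∀ i : Fin 2, ∑ j, Gf γ p i j * (γ p)⁻¹ (fib j) (emb a) =
      -∑ b, γ p (fib i) (emb b) * (γ p)⁻¹ (emb b) (emb a) := by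
    intro i
    have h2 := congrFun (congrFun h0 (fib i)) (emb a)
    rw [Matrix.mul_apply, Fin.sum_univ_four] at h2
    have h3 : (1 : M4) (fib i) (emb a) = 0 := by
      apply Matrix.one_apply_ne
      fin_cases i <;> fin_cases a <;> simp [fib, emb]
    rw [h3] at h2
    simp only [Fin.sum_univ_two, Gf]
    have e0 : emb 0 = 0 := rfl
    have e1 : emb 1 = 1 := rfl
    have f0 : fib 0 = 2 := rfl
    have f1 : fib 1 = 3 := rfl
    rw [e0, e1, f0, f1]
    linarith
  have h4 : (Gf γ p)⁻¹ *ᵥ (Gf γ p *ᵥ fun j => (γ p)⁻¹ (fib j) (emb a)) =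
      fun j => (γ p)⁻¹ (fib j) (emb a) := by
    rw [Matrix.mulVec_mulVec, Matrix.nonsing_inv_mul _ (Schur_Gf_det h), Matrix.one_mulVec]
  have h5 := congrFun h4 j
  rw [← h5]
  have h6 : (Gf γ p *ᵥ fun j => (γ p)⁻¹ (fib j) (emb a)) =
      fun i => -∑ b, γ p (fib i) (emb b) * (γ p)⁻¹ (emb b) (emb a) := by
    funext i
    exact h1 i
  rw [h6]
  simp only [Matrix.mulVec, dotProduct, Ac, Fin.sum_univ_two]
  ring

theorem inv_mixed {γ : ℝ × ℝ → M4} {p : ℝ × ℝ} (h : (γ p).PosDef) (a j : Fin 2) :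
    (γ p)⁻¹ (emb a) (fib j) = -∑ b, (γ p)⁻¹ (emb a) (emb b) * Ac γ j b p := by
  rw [Schur_inv_sym h, Schur_inv_mixed h]
  congr 1
  refine Finset.sum_congr rfl fun b _ => ?_
  rw [Schur_inv_sym h (emb b) (emb a), mul_comm]

/-- The Schur complement. -/
private theorem Schur_hf {γ : ℝ × ℝ → M4} {p : ℝ × ℝ} (h : (γ p).PosDef) (a b : Fin 2) :
    hf γ p a b = γ p (emb a) (emb b) - ∑ j, γ p (emb a) (fib j) * Ac γ j b p := by
  have hu : IsUnit (γ p).det := isUnit_iff_ne_zero.2 h.det_pos.ne'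
  have h0 : γ p * (γ p)⁻¹ = 1 := Matrix.mul_nonsing_inv _ hu
  set s : M2 := Matrix.of fun a b =>
    γ p (emb a) (emb b) - ∑ j, γ p (emb a) (fib j) * Ac γ j b p with hs
  have h1 : s * (Matrix.of fun a b : Fin 2 => (γ p)⁻¹ (emb a) (emb b)) = 1 := by
    ext a b
    have h2 := congrFun (congrFun h0 (emb a)) (emb b)
    rw [Matrix.mul_apply, Fin.sum_univ_four] at h2
    have h3 : (1 : M4) (emb a) (emb b) = (1 : M2) a b := by
      rw [Matrix.one_apply, Matrix.one_apply]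
      simp only [Schur_emb_inj.eq_iff]
    rw [h3] at h2
    have h4 := Schur_inv_mixed h b 0
    have h5 := Schur_inv_mixed h b 1
    have e0 : emb 0 = 0 := rfl
    have e1 : emb 1 = 1 := rfl
    have f0 : fib 0 = 2 := rfl
    have f1 : fib 1 = 3 := rfl
    rw [← h2, Matrix.mul_apply]
    simp only [Fin.sum_univ_two, hs, Matrix.of_apply] at h4 h5 ⊢
    rw [f0] at h4
    rw [f1] at h5
    rw [h4, h5, e0, e1, f0, f1]
    ring
  have h2 : hf γ p = s := Matrix.inv_eq_left_inv h1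
  rw [h2]
  rfl

theorem Pc_block {γ : ℝ × ℝ → M4} {p : ℝ × ℝ} (h : (γ p).PosDef) :
    (Pc γ p)ᵀ * γ p * Pc γ p = blk (hf γ p) (Gf γ p) := by
  have hh := Schur_hf h
  have h00 := hh 0 0
  have h01 := hh 0 1
  have h10 := hh 1 0
  have h11 := hh 1 1
  have m00 := mixed_eq h 0 0
  have m01 := mixed_eq h 0 1
  have m10 := mixed_eq h 1 0
  have m11 := mixed_eq h 1 1
  have e0 : emb 0 = 0 := rfl
  have e1 : emb 1 = 1 := rfl
  have f0 : fib 0 = 2 := rfl
  have f1 : fib 1 = 3 := rfl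
  simp only [Fin.sum_univ_two, Gf, e0, e1, f0, f1] at h00 h01 h10 h11 m00 m01 m10 m11
  have s20 := Schur_sym h 2 0
  have s21 := Schur_sym h 2 1
  have s30 := Schur_sym h 3 0
  have s31 := Schur_sym h 3 1
  have s32 := Schur_sym h 3 2
  ext i j
  fin_cases i <;> fin_cases j <;>
    simp [Pc, blk, Matrix.mul_apply, Fin.sum_univ_four, Gf, h00, h01, h10, h11, f0, f1,
      s20, s21, s30, s31, s32, m00, m01, m10, m11] <;> ring

private theorem Schur_blk_mul (a b c d : M2) : blk a b * blk c d = blk (a * c) (b * d) := by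
  ext i j
  fin_cases i <;> fin_cases j <;>
    simp [blk, Matrix.mul_apply, Fin.sum_univ_four, Fin.sum_univ_two]

private theorem Schur_blk_one : blk 1 1 = 1 := by
  ext i j
  fin_cases i <;> fin_cases j <;> simp [blk]

theorem blk_posDef {h G : M2} (hh : h.PosDef) (hG : G.PosDef) : (blk h G).PosDef := by
  refine Matrix.PosDef.of_dotProduct_mulVec_pos ?_ ?_
  · have h1 := fun i j => hh.isHermitian.apply i j
    have h2 := fun i j => hG.isHermitian.apply i j
    ext i j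
    simp only [star_trivial] at h1 h2
    fin_cases i <;> fin_cases j <;> simp [blk, h1 1 0, h2 1 0]
  · intro x hx
    have hu := hh.posSemidef.dotProduct_mulVec_nonneg ![x 0, x 1]
    have hv := hG.posSemidef.dotProduct_mulVec_nonneg ![x 2, x 3]
    have e : star x ⬝ᵥ blk h G *ᵥ x = star ![x 0, x 1] ⬝ᵥ h *ᵥ ![x 0, x 1] +
        star ![x 2, x 3] ⬝ᵥ G *ᵥ ![x 2, x 3] := by
      simp [blk, Matrix.mulVec, dotProduct, Fin.sum_univ_four, Fin.sum_univ_two]
      ring
    rw [e]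
    by_cases h1 : ![x 0, x 1] = 0
    · have h2 : ![x 2, x 3] ≠ 0 := by
        intro h2
        apply hx
        have a0 := congrFun h1 0
        have a1 := congrFun h1 1
        have a2 := congrFun h2 0
        have a3 := congrFun h2 1
        funext i
        fin_cases i
        · exact a0
        · exact a1
        · exact a2
        · exact a3
      have := hG.dotProduct_mulVec_pos h2
      linarith
    · have := hh.dotProduct_mulVec_pos h1
      linarith

theorem blk_inv {h G : M2} (hh : h.PosDef) (hG : G.PosDef) : (blk h G)⁻¹ = blk h⁻¹ G⁻¹ := by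
  refine Matrix.inv_eq_left_inv ?_
  rw [Schur_blk_mul, Matrix.nonsing_inv_mul _ (isUnit_iff_ne_zero.2 hh.det_pos.ne'),
    Matrix.nonsing_inv_mul _ (isUnit_iff_ne_zero.2 hG.det_pos.ne'), Schur_blk_one]

theorem blk_det (h G : M2) : (blk h G).det = h.det * G.det := by
  unfold blk
  rw [Matrix.det_fin_two, Matrix.det_fin_two]
  simp [Matrix.det_succ_row_zero, Fin.sum_univ_succ,
    show Fin.succAbove (1 : Fin 4) (2 : Fin 3) = 3 from rfl]
  ring

private theorem Schur_inv2_smooth {B : ℝ × ℝ → M2}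
    (hs : ∀ i j, ContDiff ℝ ∞ (fun p => B p i j)) (hd : ∀ p, (B p).det ≠ 0) (i j : Fin 2) :
    ContDiff ℝ ∞ (fun p => (B p)⁻¹ i j) := by
  have hdet : ContDiff ℝ ∞ (fun p => (B p).det) := by
    simp only [Matrix.det_fin_two]
    exact ((hs 0 0).mul (hs 1 1)).sub ((hs 0 1).mul (hs 1 0))
  have hadj : ContDiff ℝ ∞ (fun p => (B p).adjugate i j) := by
    simp only [Matrix.adjugate_fin_two]
    fin_cases i <;> fin_cases j
    · exact hs 1 1
    · exact (hs 0 1).neg
    · exact (hs 1 0).neg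
    · exact hs 0 0
  have h1 : (fun p => (B p)⁻¹ i j) = fun p => ((B p).det)⁻¹ * (B p).adjugate i j := by
    funext p
    rw [Matrix.inv_def, Ring.inverse_eq_inv', Matrix.smul_apply, smul_eq_mul]
  rw [h1]
  exact (hdet.inv hd).mul hadj

private theorem Schur_inv4_smooth {γ : ℝ × ℝ → M4} (hs : ∀ i j, ContDiff ℝ ∞ (fun p => γ p i j))
    (hp : ∀ p, (γ p).PosDef) (i j : Fin 4) : ContDiff ℝ ∞ (fun p => (γ p)⁻¹ i j) := by
  have h1 := inv_smooth (O := Set.univ) (γ := γ) (fun i j => (hs i j).contDiffOn)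
    (fun p _ => (hp p).det_pos.ne') i j
  exact contDiffOn_univ.1 h1

theorem hf_smooth {γ : ℝ × ℝ → M4} (hs : ∀ i j, ContDiff ℝ ∞ (fun p => γ p i j))
    (hp : ∀ p, (γ p).PosDef) (i j : Fin 2) : ContDiff ℝ ∞ (fun p => hf γ p i j) :=
  Schur_inv2_smooth (B := fun p => Matrix.of fun a b : Fin 2 => (γ p)⁻¹ (emb a) (emb b))
    (fun a b => Schur_inv4_smooth hs hp (emb a) (emb b))
    (fun p => (Schur_base_pos (hp p)).det_pos.ne') i j

theorem Ac_smooth {γ : ℝ × ℝ → M4} (hs : ∀ i j, ContDiff ℝ ∞ (fun p => γ p i j))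
    (hp : ∀ p, (γ p).PosDef) (i a : Fin 2) : ContDiff ℝ ∞ (Ac γ i a) := by
  unfold Ac
  refine ContDiff.sum fun j _ => ?_
  exact (Schur_inv2_smooth (B := Gf γ) (fun a b => hs (fib a) (fib b))
    (fun p => (Gf_pos (hp p)).det_pos.ne') i j).mul (hs _ _)

end Pool.Agent.T2S4
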