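import Pool.Agent.T2S4.AdaptDefs
import Pool.Agent.T2S4.Schur
import Pool.Agent.T2S4.Gauge

/-!
# The adapted frame

PACKAGE. Prove the theorems (helper lemmas allowed, private or prefixed by `Adapt_`).

Write `n = gip h φ φ p > 0`, `w = √det h e^σ`, `φ_a = dd a φ`, `φ^a = gr h φ a`, so `∑ a, φ^a φ_a = n`.
* `adapt_ld`: `ld (XA 0) f = (∑ a, φ^a dd a f) / n`, `ld (XA 1) f = (φ_1 dd 0 f - φ_0 dd 1 f) / (w n)`. In
  particular `ld (XA 0) φ = 1`, `ld (XA 1) φ = 0`.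
* `adapt_metric`: pointwise algebra: `h(X0, X0) = n / n² = 1/n = e^{-2ν}`; with `Y = (φ_1, -φ_0)`,
  `h(Y, Y) = det h · ∑ (h⁻¹)_ab φ_a φ_b = det h · n`, so `h(X1, X1) = 1 / (e^{2σ} n)`; `h(X0, X1) = 0`.
* `adapt_gip`: `gip h f k = e^{2ν} (X0 f)(X0 k) + e^{2ν+2σ} (X1 f)(X1 k)` (the fields `e^ν X0, e^{ν+σ} X1` are
  orthonormal; pointwise algebra, `e^{2ν} = n`).
* `chg_adapt`: `rel` is clear. `closed`: only `k ∈ {0, 1}` and `{i, j} = {0, 1}` is not trivial (`ld` along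
  the zero fields is `0`). Let `W_k = X0(P_{k1}) - X1(P_{k0})`, `k = 0, 1` (the bracket). The two linear
  forms: (1) `∑ k, φ_k W_k = 0`: differentiate `∑ k, φ_k P_{k1} = 0` along `X0` and `∑ k, φ_k P_{k0} = 1` along
  `X1` and subtract; `∑ k, (X0 φ_k) P_{k1} - (X1 φ_k) P_{k0} = 0` by the symmetry of second derivatives
  (`X0 φ_k = ∑ l, P_{l0} dd l φ_k`). (2) Let `β_0 = - w φ^1`, `β_1 = w φ^0`: `dd 0 β_1 = dd 1 β_0` is the
  hypothesis `hL`; `∑ k, β_k P_{k0} = 0`, `∑ k, β_k P_{k1} = (-w φ^1 φ_1 - w φ^0 φ_0)/(w n) = -1`. Hence in the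
  same way `∑ k, β_k W_k = 0`. The forms `(φ_k)`, `(β_k)` are independent:
  `φ_0 β_1 - φ_1 β_0 = w n > 0`. So `W = 0`.
-/

set_option autoImplicit false

namespace Pool.Agent.T2S4

open Matrix Filter Topology
open scoped ContDiff

private theorem Adapt_fd (f : ℝ × ℝ → ℝ) (p : ℝ × ℝ) (a b : ℝ) :
    fderiv ℝ f p (a, b) = a * dd 0 f p + b * dd 1 f p := by
  have e : ((a, b) : ℝ × ℝ) = a • ((1, 0) : ℝ × ℝ) + b • ((0, 1) : ℝ × ℝ) := by
    simp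
  rw [e, map_add, map_smul, map_smul]
  rfl

private theorem Adapt_dd_mul {f g : ℝ × ℝ → ℝ} {p : ℝ × ℝ} (hf : DifferentiableAt ℝ f p)
    (hg : DifferentiableAt ℝ g p) (a : Fin 2) :
    dd a (fun q => f q * g q) p = f p * dd a g p + g p * dd a f p := by
  unfold dd
  rw [fderiv_fun_mul hf hg]
  simp

private theorem Adapt_dd_add {f g : ℝ × ℝ → ℝ} {p : ℝ × ℝ} (hf : DifferentiableAt ℝ f p)
    (hg : DifferentiableAt ℝ g p) (a : Fin 2) :
    dd a (fun q => f q + g q) p = dd a f p + dd a g p := by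
  unfold dd
  rw [fderiv_fun_add hf hg]
  simp

private theorem Adapt_dd_neg {f : ℝ × ℝ → ℝ} {p : ℝ × ℝ} (a : Fin 2) :
    dd a (fun q => -f q) p = -dd a f p := by
  unfold dd
  rw [fderiv_fun_neg]
  simp

private theorem Adapt_dd_const (c : ℝ) (p : ℝ × ℝ) (a : Fin 2) :
    dd a (fun _ => c) p = 0 := by
  unfold dd
  simp

private theorem Adapt_dd_smooth {f : ℝ × ℝ → ℝ} (hf : ContDiff ℝ ∞ f) (a : Fin 2) :
    ContDiff ℝ ∞ (dd a f) := by
  unfold dd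
  exact (hf.fderiv_right (m := ∞) (by simp)).clm_apply contDiff_const

private theorem Adapt_dd_symm {f : ℝ × ℝ → ℝ} (hf : ContDiff ℝ ∞ f) (p : ℝ × ℝ) :
    dd 0 (dd 1 f) p = dd 1 (dd 0 f) p := by
  have h1 : IsSymmSndFDerivAt ℝ f p :=
    (hf.contDiffAt).isSymmSndFDerivAt (by
      simp only [minSmoothness_of_isRCLikeNormedField]
      exact WithTop.coe_le_coe.2 (le_top : (2 : ℕ∞) ≤ ⊤))
  have h2 : DifferentiableAt ℝ (fderiv ℝ f) p :=
    ((hf.fderiv_right (m := ∞) (by simp)).differentiable (by simp)) p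
  have h3 : ∀ v w : ℝ × ℝ, fderiv ℝ (fun x => fderiv ℝ f x v) p w = fderiv ℝ (fderiv ℝ f) p w v := by
    intro v w
    rw [fderiv_clm_apply h2 (differentiableAt_const v)]
    simp
  unfold dd
  rw [h3, h3]
  exact h1 _ _

/-- Two forms which are closed and constant on the fields show that the bracket vanishes. -/
private theorem Adapt_bracket {p00 p10 p01 p11 θ0 θ1 : ℝ × ℝ → ℝ} {c0 c1 : ℝ} {p : ℝ × ℝ}
    (d00 : DifferentiableAt ℝ p00 p) (d10 : DifferentiableAt ℝ p10 p)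
    (d01 : DifferentiableAt ℝ p01 p) (d11 : DifferentiableAt ℝ p11 p)
    (t0 : DifferentiableAt ℝ θ0 p) (t1 : DifferentiableAt ℝ θ1 p)
    (hθ : dd 0 θ1 p = dd 1 θ0 p)
    (h0 : ∀ q, θ0 q * p00 q + θ1 q * p10 q = c0) (h1 : ∀ q, θ0 q * p01 q + θ1 q * p11 q = c1) :
    θ0 p * ((p00 p * dd 0 p01 p + p10 p * dd 1 p01 p) - (p01 p * dd 0 p00 p + p11 p * dd 1 p00 p)) +
    θ1 p * ((p00 p * dd 0 p11 p + p10 p * dd 1 p11 p) -
      (p01 p * dd 0 p10 p + p11 p * dd 1 p10 p)) = 0 := by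
  have e0 : ∀ a, (θ0 p * dd a p00 p + p00 p * dd a θ0 p) +
      (θ1 p * dd a p10 p + p10 p * dd a θ1 p) = 0 := by
    intro a
    rw [← Adapt_dd_mul t0 d00, ← Adapt_dd_mul t1 d10,
      ← Adapt_dd_add (t0.fun_mul d00) (t1.fun_mul d10)]
    rw [← Adapt_dd_const c0 p a]
    congr 1
    funext q
    exact h0 q
  have e1 : ∀ a, (θ0 p * dd a p01 p + p01 p * dd a θ0 p) +
      (θ1 p * dd a p11 p + p11 p * dd a θ1 p) = 0 := by
    intro a
    rw [← Adapt_dd_mul t0 d01, ← Adapt_dd_mul t1 d11,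
      ← Adapt_dd_add (t0.fun_mul d01) (t1.fun_mul d11)]
    rw [← Adapt_dd_const c1 p a]
    congr 1
    funext q
    exact h1 q
  linear_combination p00 p * e1 0 + p10 p * e1 1 - p01 p * e0 0 - p11 p * e0 1 +
    (p01 p * p10 p - p00 p * p11 p) * hθ

/-- Entries of a symmetric positive definite matrix. -/
private theorem Adapt_pos {h : M2} (hp : h.PosDef) :
    h 1 0 = h 0 1 ∧ 0 < h 0 0 * h 1 1 - h 0 1 * h 0 1 := by
  have h1 : h 1 0 = h 0 1 := by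
    have := hp.isHermitian.apply 0 1
    simpa using this
  have h2 : 0 < h.det := hp.det_pos
  rw [Matrix.det_fin_two, h1] at h2
  exact ⟨h1, h2⟩

private theorem Adapt_inv {h : M2} (hp : h.PosDef) :
    h⁻¹ 0 0 = h 1 1 / (h 0 0 * h 1 1 - h 0 1 * h 0 1) ∧
    h⁻¹ 0 1 = -h 0 1 / (h 0 0 * h 1 1 - h 0 1 * h 0 1) ∧
    h⁻¹ 1 0 = -h 0 1 / (h 0 0 * h 1 1 - h 0 1 * h 0 1) ∧
    h⁻¹ 1 1 = h 0 0 / (h 0 0 * h 1 1 - h 0 1 * h 0 1) := by
  obtain ⟨h1, h2⟩ := Adapt_pos hp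
  rw [Matrix.inv_def, Matrix.adjugate_fin_two, Matrix.det_fin_two, h1]
  simp only [Ring.inverse_eq_inv', Matrix.smul_apply, Matrix.of_apply, Matrix.cons_val', 
    Matrix.cons_val_zero, Matrix.cons_val_one, smul_eq_mul, Matrix.cons_val_fin_one]
  refine ⟨?_, ?_, ?_, ?_⟩ <;> ring


theorem adapt_ld0 (h : ℝ × ℝ → M2) (σ φ : ℝ × ℝ → ℝ) (f : ℝ × ℝ → ℝ) (p : ℝ × ℝ) :
    ld (XA h σ φ 0) f p = (∑ a, gr h φ a p * dd a f p) / gip h φ φ p := by
  change fderiv ℝ f p (gr h φ 0 p / gip h φ φ p, gr h φ 1 p / gip h φ φ p) = _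
  rw [Adapt_fd, Fin.sum_univ_two]
  ring

theorem adapt_ld1 (h : ℝ × ℝ → M2) (σ φ : ℝ × ℝ → ℝ) (f : ℝ × ℝ → ℝ) (p : ℝ × ℝ) :
    ld (XA h σ φ 1) f p =
      (dd 1 φ p * dd 0 f p - dd 0 φ p * dd 1 f p) / (wA h σ p * gip h φ φ p) := by
  change fderiv ℝ f p (dd 1 φ p / (wA h σ p * gip h φ φ p),
    -dd 0 φ p / (wA h σ p * gip h φ φ p)) = _
  rw [Adapt_fd]
  ring

private theorem Adapt_gip (h : ℝ × ℝ → M2) (f k : ℝ × ℝ → ℝ) (p : ℝ × ℝ) :
    gip h f k p = ∑ a, dd a f p * gr h k a p := by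
  unfold gip gr
  simp only [Fin.sum_univ_two]
  ring

private theorem Adapt_gip' {h : ℝ × ℝ → M2} (hp : ∀ p, (h p).PosDef) (f k : ℝ × ℝ → ℝ)
    (p : ℝ × ℝ) :
    gip h f k p = ∑ a, gr h f a p * dd a k p := by
  obtain ⟨h1, h2⟩ := Adapt_pos (hp p)
  obtain ⟨i00, i01, i10, i11⟩ := Adapt_inv (hp p)
  unfold gip gr
  simp only [Fin.sum_univ_two, i00, i01, i10, i11]
  ring

theorem adapt_x {h : ℝ × ℝ → M2} {σ φ : ℝ × ℝ → ℝ} (hn : ∀ p, 0 < gip h φ φ p) (p : ℝ × ℝ) :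
    ld (XA h σ φ 0) φ p = 1 ∧ ld (XA h σ φ 1) φ p = 0 := by
  rw [adapt_ld0, adapt_ld1]
  refine ⟨?_, ?_⟩
  · rw [div_eq_one_iff_eq (hn p).ne', Adapt_gip]
    simp only [mul_comm]
  · rw [div_eq_zero_iff]
    left
    ring

private theorem Adapt_inv_smooth {h : ℝ × ℝ → M2} (hs : ∀ i j, ContDiff ℝ ∞ (fun p => h p i j))
    (hp : ∀ p, (h p).PosDef) (a b : Fin 2) : ContDiff ℝ ∞ (fun p => (h p)⁻¹ a b) := by
  have hd : ContDiff ℝ ∞ (fun p => h p 0 0 * h p 1 1 - h p 0 1 * h p 0 1) :=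
    ((hs 0 0).mul (hs 1 1)).sub ((hs 0 1).mul (hs 0 1))
  have hd0 : ∀ p, h p 0 0 * h p 1 1 - h p 0 1 * h p 0 1 ≠ 0 := fun p => (Adapt_pos (hp p)).2.ne'
  fin_cases a <;> fin_cases b
  · refine (congrArg (ContDiff ℝ ∞) (funext fun p => (Adapt_inv (hp p)).1)).mpr ?_
    exact (hs 1 1).div hd hd0
  · refine (congrArg (ContDiff ℝ ∞) (funext fun p => (Adapt_inv (hp p)).2.1)).mpr ?_
    exact (hs 0 1).neg.div hd hd0
  · refine (congrArg (ContDiff ℝ ∞) (funext fun p => (Adapt_inv (hp p)).2.2.1)).mpr ?_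
    exact (hs 0 1).neg.div hd hd0
  · refine (congrArg (ContDiff ℝ ∞) (funext fun p => (Adapt_inv (hp p)).2.2.2)).mpr ?_
    exact (hs 0 0).div hd hd0

private theorem Adapt_gr_smooth {h : ℝ × ℝ → M2} {φ : ℝ × ℝ → ℝ}
    (hs : ∀ i j, ContDiff ℝ ∞ (fun p => h p i j))
    (hp : ∀ p, (h p).PosDef) (hφ : ContDiff ℝ ∞ φ) (a : Fin 2) : ContDiff ℝ ∞ (gr h φ a) := by
  unfold gr
  exact ContDiff.sum fun b _ => (Adapt_inv_smooth hs hp a b).mul (Adapt_dd_smooth hφ b)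

private theorem Adapt_gip_smooth {h : ℝ × ℝ → M2} {φ : ℝ × ℝ → ℝ}
    (hs : ∀ i j, ContDiff ℝ ∞ (fun p => h p i j))
    (hp : ∀ p, (h p).PosDef) (hφ : ContDiff ℝ ∞ φ) : ContDiff ℝ ∞ (gip h φ φ) := by
  unfold gip
  exact ContDiff.sum fun a _ => ContDiff.sum fun b _ =>
    ((Adapt_inv_smooth hs hp a b).mul (Adapt_dd_smooth hφ a)).mul (Adapt_dd_smooth hφ b)

private theorem Adapt_det_smooth {h : ℝ × ℝ → M2}
    (hs : ∀ i j, ContDiff ℝ ∞ (fun p => h p i j)) : ContDiff ℝ ∞ (fun p => (h p).det) := by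
  simp only [Matrix.det_fin_two]
  exact ((hs 0 0).mul (hs 1 1)).sub ((hs 0 1).mul (hs 1 0))

private theorem Adapt_wA_smooth {h : ℝ × ℝ → M2} {σ : ℝ × ℝ → ℝ}
    (hs : ∀ i j, ContDiff ℝ ∞ (fun p => h p i j))
    (hp : ∀ p, (h p).PosDef) (hσ : ContDiff ℝ ∞ σ) : ContDiff ℝ ∞ (wA h σ) := by
  unfold wA
  exact ((Adapt_det_smooth hs).sqrt fun p => (hp p).det_pos.ne').mul hσ.exp

private theorem Adapt_wA_pos {h : ℝ × ℝ → M2} {σ : ℝ × ℝ → ℝ}
    (hp : ∀ p, (h p).PosDef) (p : ℝ × ℝ) : 0 < wA h σ p :=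
  mul_pos (Real.sqrt_pos.2 (hp p).det_pos) (Real.exp_pos _)

private theorem Adapt_wA_sq {h : ℝ × ℝ → M2} {σ : ℝ × ℝ → ℝ}
    (hp : ∀ p, (h p).PosDef) (p : ℝ × ℝ) :
    wA h σ p * wA h σ p =
      (h p 0 0 * h p 1 1 - h p 0 1 * h p 0 1) * Real.exp (2 * σ p) := by
  unfold wA
  rw [mul_mul_mul_comm, Real.mul_self_sqrt (hp p).det_pos.le, ← Real.exp_add, ← two_mul,
    Matrix.det_fin_two, (Adapt_pos (hp p)).1]

private theorem Adapt_XA_smooth {h : ℝ × ℝ → M2} {σ φ : ℝ × ℝ → ℝ}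
    (hs : ∀ i j, ContDiff ℝ ∞ (fun p => h p i j)) (hp : ∀ p, (h p).PosDef)
    (hσ : ContDiff ℝ ∞ σ) (hφ : ContDiff ℝ ∞ φ) (hn : ∀ p, 0 < gip h φ φ p) (i : Fin 4) :
    ContDiff ℝ ∞ (fun p => (XA h σ φ i p).1) ∧ ContDiff ℝ ∞ (fun p => (XA h σ φ i p).2) := by
  have hg := Adapt_gip_smooth hs hp hφ
  have hw := Adapt_wA_smooth hs hp hσ
  have hg0 : ∀ p, gip h φ φ p ≠ 0 := fun p => (hn p).ne'
  have hwg0 : ∀ p, wA h σ p * gip h φ φ p ≠ 0 := fun p =>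
    (mul_pos (Adapt_wA_pos hp p) (hn p)).ne'
  fin_cases i
  · exact ⟨(Adapt_gr_smooth hs hp hφ 0).div hg hg0, (Adapt_gr_smooth hs hp hφ 1).div hg hg0⟩
  · exact ⟨(Adapt_dd_smooth hφ 1).div (hw.mul hg) hwg0,
      (Adapt_dd_smooth hφ 0).neg.div (hw.mul hg) hwg0⟩
  · exact ⟨contDiff_const, contDiff_const⟩
  · exact ⟨contDiff_const, contDiff_const⟩

theorem adapt_smooth {h : ℝ × ℝ → M2} {σ φ : ℝ × ℝ → ℝ}
    (hs : ∀ i j, ContDiff ℝ ∞ (fun p => h p i j)) (hp : ∀ p, (h p).PosDef)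
    (hσ : ContDiff ℝ ∞ σ) (hφ : ContDiff ℝ ∞ φ) (hn : ∀ p, 0 < gip h φ φ p) :
    ContDiff ℝ ∞ (nuA h φ) ∧ ∀ i, ContDiff ℝ ∞ (XA h σ φ i) := by
  refine ⟨?_, fun i => ?_⟩
  · unfold nuA
    exact ((Adapt_gip_smooth hs hp hφ).log fun p => (hn p).ne').div_const 2
  · obtain ⟨h1, h2⟩ := Adapt_XA_smooth hs hp hσ hφ hn i
    exact h1.prodMk h2

/-- Algebra at a point. -/
private theorem Adapt_alg {a b d D g0 g1 u0 u1 n : ℝ} (hD : D = a * d - b * b) (hD0 : 0 < D)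
    (hg0 : g0 = (d * u0 - b * u1) / D) (hg1 : g1 = (-b * u0 + a * u1) / D)
    (hn : n = g0 * u0 + g1 * u1) :
    a * g0 + b * g1 = u0 ∧ b * g0 + d * g1 = u1 ∧
      a * u1 * u1 - 2 * b * u0 * u1 + d * u0 * u0 = D * n := by
  have hne : D ≠ 0 := hD0.ne'
  have e0 : D * g0 = d * u0 - b * u1 := by rw [hg0]; field_simp
  have e1 : D * g1 = -b * u0 + a * u1 := by rw [hg1]; field_simp
  refine ⟨?_, ?_, ?_⟩
  · apply mul_left_cancel₀ hne
    linear_combination a * e0 + b * e1 - u0 * hD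
  · apply mul_left_cancel₀ hne
    linear_combination b * e0 + d * e1 - u1 * hD
  · rw [hn]
    linear_combination -u0 * e0 - u1 * e1

private theorem Adapt_gr {h : ℝ × ℝ → M2} (hp : ∀ p, (h p).PosDef) (φ : ℝ × ℝ → ℝ)
    (p : ℝ × ℝ) :
    gr h φ 0 p = (h p 1 1 * dd 0 φ p - h p 0 1 * dd 1 φ p) /
      (h p 0 0 * h p 1 1 - h p 0 1 * h p 0 1) ∧
    gr h φ 1 p = (-h p 0 1 * dd 0 φ p + h p 0 0 * dd 1 φ p) /
      (h p 0 0 * h p 1 1 - h p 0 1 * h p 0 1) := by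
  obtain ⟨i00, i01, i10, i11⟩ := Adapt_inv (hp p)
  unfold gr
  simp only [Fin.sum_univ_two, i00, i01, i10, i11]
  constructor <;> ring

private theorem Adapt_exp {n : ℝ} (hn : 0 < n) : Real.exp (2 * (Real.log n / 2)) = n := by
  rw [mul_div_cancel₀ _ (two_ne_zero), Real.exp_log hn]

theorem adapt_metric {h : ℝ × ℝ → M2} {σ φ : ℝ × ℝ → ℝ} (hp : ∀ p, (h p).PosDef)
    (hn : ∀ p, 0 < gip h φ φ p) (p : ℝ × ℝ) :
    (PA h σ φ p)ᵀ * blk (h p) (gd σ φ p) * PA h σ φ p = dm σ (nuA h φ) φ p := by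
  obtain ⟨h1, h2⟩ := Adapt_pos (hp p)
  obtain ⟨g0, g1⟩ := Adapt_gr hp φ p
  have hw := Adapt_wA_sq (σ := σ) hp p
  have hw0 := Adapt_wA_pos (σ := σ) hp p
  have hn0 := hn p
  have hgip : gip h φ φ p = gr h φ 0 p * dd 0 φ p + gr h φ 1 p * dd 1 φ p := by
    rw [Adapt_gip' hp, Fin.sum_univ_two]
  obtain ⟨a1, a2, a3⟩ := Adapt_alg rfl h2 g0 g1 hgip
  have he : Real.exp (2 * nuA h φ p) = gip h φ φ p := Adapt_exp hn0
  have x0 : XA h σ φ 0 p = (gr h φ 0 p / gip h φ φ p, gr h φ 1 p / gip h φ φ p) := rfl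
  have x1 : XA h σ φ 1 p = (dd 1 φ p / (wA h σ p * gip h φ φ p),
    -dd 0 φ p / (wA h σ p * gip h φ φ p)) := rfl
  have m0 : Real.exp (2 * (-nuA h φ p)) = 1 / gip h φ φ p := by
    rw [mul_neg, Real.exp_neg, he, one_div]
  have m1 : Real.exp (2 * (-σ p - nuA h φ p)) = 1 / (Real.exp (2 * σ p) * gip h φ φ p) := by
    rw [show 2 * (-σ p - nuA h φ p) = -(2 * σ p + 2 * nuA h φ p) by ring, Real.exp_neg,
      Real.exp_add, he, one_div]
  have m2 : Real.exp (2 * ((σ p - φ p) / 2)) = Real.exp (σ p - φ p) := by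
    rw [mul_div_cancel₀ _ (two_ne_zero)]
  have m3 : Real.exp (2 * ((σ p + φ p) / 2)) = Real.exp (σ p + φ p) := by
    rw [mul_div_cancel₀ _ (two_ne_zero)]
  unfold PA dm al blk gd
  rw [x0, x1]
  generalize wA h σ p = w at hw hw0
  generalize gip h φ φ p = n at *
  generalize gr h φ 0 p = G0 at *
  generalize gr h φ 1 p = G1 at *
  generalize dd 0 φ p = u0 at *
  generalize dd 1 φ p = u1 at *
  generalize Real.exp (2 * σ p) = E at *
  have hE : 0 < E := by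
    by_contra hE
    push Not at hE
    nlinarith [mul_pos hw0 hw0]
  have hwn : w * n ≠ 0 := (mul_pos hw0 hn0).ne'
  have hn' : n ≠ 0 := hn0.ne'
  have hw' : w ≠ 0 := hw0.ne'
  have hE' : E ≠ 0 := hE.ne'
  have hD' : h p 0 0 * h p 1 1 - h p 0 1 * h p 0 1 ≠ 0 := h2.ne'
  ext i j
  fin_cases i <;> fin_cases j <;>
    simp [Matrix.mul_apply, Fin.sum_univ_four, h1]
  · rw [← mul_neg, m0]
    field_simp
    linear_combination G0 * a1 + G1 * a2 - hgip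
  · field_simp
    linear_combination u1 * a1 - u0 * a2
  · field_simp
    linear_combination u1 * a1 - u0 * a2
  · rw [m1]
    have e : (u1 / (w * n) * h p 0 0 + -u0 / (w * n) * h p 0 1) * (u1 / (w * n)) +
      (u1 / (w * n) * h p 0 1 + -u0 / (w * n) * h p 1 1) * (-u0 / (w * n)) =
      ((h p 0 0 * h p 1 1 - h p 0 1 * h p 0 1) * n) / ((w * w) * (n * n)) := by
      rw [← a3]
      field_simp
      ring
    rw [e, hw]
    generalize h p 0 0 * h p 1 1 - h p 0 1 * h p 0 1 = D at hD' ⊢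
    field_simp
  · ring
  · ring

theorem adapt_gip {h : ℝ × ℝ → M2} {σ φ : ℝ × ℝ → ℝ} (hp : ∀ p, (h p).PosDef)
    (hn : ∀ p, 0 < gip h φ φ p) (f k : ℝ × ℝ → ℝ) (p : ℝ × ℝ) :
    gip h f k p = Real.exp (2 * nuA h φ p) * (ld (XA h σ φ 0) f p * ld (XA h σ φ 0) k p) +
      Real.exp (2 * nuA h φ p + 2 * σ p) * (ld (XA h σ φ 1) f p * ld (XA h σ φ 1) k p) := by
  obtain ⟨h1, h2⟩ := Adapt_pos (hp p)
  obtain ⟨g0, g1⟩ := Adapt_gr hp φ p
  obtain ⟨i00, i01, i10, i11⟩ := Adapt_inv (hp p)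
  have hw := Adapt_wA_sq (σ := σ) hp p
  have hw0 := Adapt_wA_pos (σ := σ) hp p
  have hn0 := hn p
  have hgip : gip h φ φ p = gr h φ 0 p * dd 0 φ p + gr h φ 1 p * dd 1 φ p := by
    rw [Adapt_gip' hp, Fin.sum_univ_two]
  obtain ⟨a1, a2, a3⟩ := Adapt_alg rfl h2 g0 g1 hgip
  have he : Real.exp (2 * nuA h φ p) = gip h φ φ p := Adapt_exp hn0
  have hfk : gip h f k p = (h p 1 1 * dd 0 f p * dd 0 k p - h p 0 1 * dd 0 f p * dd 1 k p -
      h p 0 1 * dd 1 f p * dd 0 k p + h p 0 0 * dd 1 f p * dd 1 k p) /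
      (h p 0 0 * h p 1 1 - h p 0 1 * h p 0 1) := by
    unfold gip
    simp only [Fin.sum_univ_two, i00, i01, i10, i11]
    ring
  rw [Real.exp_add, he, adapt_ld0, adapt_ld0, adapt_ld1, adapt_ld1, hfk, Fin.sum_univ_two,
    Fin.sum_univ_two]
  have e : gip h φ φ p * Real.exp (2 * σ p) *
      ((dd 1 φ p * dd 0 f p - dd 0 φ p * dd 1 f p) / (wA h σ p * gip h φ φ p) *
        ((dd 1 φ p * dd 0 k p - dd 0 φ p * dd 1 k p) / (wA h σ p * gip h φ φ p))) =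
      (dd 1 φ p * dd 0 f p - dd 0 φ p * dd 1 f p) * (dd 1 φ p * dd 0 k p - dd 0 φ p * dd 1 k p) *
      Real.exp (2 * σ p) / ((wA h σ p * wA h σ p) * gip h φ φ p) := by
    have := hw0.ne'
    have := hn0.ne'
    field_simp
  rw [e, hw]
  generalize wA h σ p = w at hw hw0
  generalize hnn : gip h φ φ p = n at *
  have hG0 : (h p 0 0 * h p 1 1 - h p 0 1 * h p 0 1) * gr h φ 0 p =
    h p 1 1 * dd 0 φ p - h p 0 1 * dd 1 φ p := by
    rw [g0, mul_div_cancel₀ _ h2.ne']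
  have hG1 : (h p 0 0 * h p 1 1 - h p 0 1 * h p 0 1) * gr h φ 1 p =
    -h p 0 1 * dd 0 φ p + h p 0 0 * dd 1 φ p := by
    rw [g1, mul_div_cancel₀ _ h2.ne']
  generalize gr h φ 0 p = G0 at *
  generalize gr h φ 1 p = G1 at *
  generalize dd 0 φ p = u0 at *
  generalize dd 1 φ p = u1 at *
  have hE : 0 < Real.exp (2 * σ p) := Real.exp_pos _
  generalize Real.exp (2 * σ p) = E at *
  generalize hDD : h p 0 0 * h p 1 1 - h p 0 1 * h p 0 1 = D at *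
  have hD' : D ≠ 0 := h2.ne'
  have hn' : n ≠ 0 := hn0.ne'
  have hE' : E ≠ 0 := hE.ne'
  field_simp
  generalize dd 0 f p = f0 at *
  generalize dd 1 f p = f1 at *
  generalize dd 0 k p = k0 at *
  generalize dd 1 k p = k1 at *
  generalize h p 0 0 = a at *
  generalize h p 0 1 = b at *
  generalize h p 1 1 = d at *
  apply mul_left_cancel₀ hD'
  linear_combination (-(f0 * (d * k0 - b * k1) - k0 * b * f1 + k1 * f1 * a)) * a3 -
    (f0 * hG0 + f1 * hG1) * (k0 * (D * G0) + k1 * (D * G1)) -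
    (f0 * (d * u0 - b * u1) + f1 * (-b * u0 + a * u1)) * (k0 * hG0 + k1 * hG1) +
    ((f0 * u1 - f1 * u0) * (k0 * u1 - k1 * u0)) * hDD

theorem chg_adapt {h : ℝ × ℝ → M2} {σ φ : ℝ × ℝ → ℝ}
    (hs : ∀ i j, ContDiff ℝ ∞ (fun p => h p i j)) (hp : ∀ p, (h p).PosDef)
    (hσ : ContDiff ℝ ∞ σ) (hφ : ContDiff ℝ ∞ φ) (hn : ∀ p, 0 < gip h φ φ p)
    (hL : ∀ p, ∑ a, dd a (fun q => wA h σ q * gr h φ a q) p = 0) :
    Chg Set.univ bas (XA h σ φ) (PA h σ φ) := by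
  obtain ⟨s00, s10⟩ := Adapt_XA_smooth hs hp hσ hφ hn 0
  obtain ⟨s01, s11⟩ := Adapt_XA_smooth hs hp hσ hφ hn 1
  have hw := Adapt_wA_smooth hs hp hσ
  have r0 := Adapt_gr_smooth hs hp hφ 0
  have r1 := Adapt_gr_smooth hs hp hφ 1
  have dne : ∀ {g : ℝ × ℝ → ℝ}, ContDiff ℝ ∞ g → ∀ q, DifferentiableAt ℝ g q :=
    fun hg q => (hg.differentiable (by simp)) q
  have hgip : ∀ q, gip h φ φ q = dd 0 φ q * gr h φ 0 q + dd 1 φ q * gr h φ 1 q := by
    intro q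
    rw [Adapt_gip, Fin.sum_univ_two]
  have E00 : ∀ q, dd 0 φ q * (XA h σ φ 0 q).1 + dd 1 φ q * (XA h σ φ 0 q).2 = 1 := by
    intro q
    have hn0 := (hn q).ne'
    have e : dd 0 φ q * (gr h φ 0 q / gip h φ φ q) + dd 1 φ q * (gr h φ 1 q / gip h φ φ q) =
        (dd 0 φ q * gr h φ 0 q + dd 1 φ q * gr h φ 1 q) / gip h φ φ q := by ring
    change dd 0 φ q * (gr h φ 0 q / gip h φ φ q) + dd 1 φ q * (gr h φ 1 q / gip h φ φ q) = 1
    rw [e, ← hgip, div_self hn0]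
  have E01 : ∀ q, dd 0 φ q * (XA h σ φ 1 q).1 + dd 1 φ q * (XA h σ φ 1 q).2 = 0 := by
    intro q
    change dd 0 φ q * (dd 1 φ q / (wA h σ q * gip h φ φ q)) +
      dd 1 φ q * (-dd 0 φ q / (wA h σ q * gip h φ φ q)) = 0
    ring
  have B00 : ∀ q, -(wA h σ q * gr h φ 1 q) * (XA h σ φ 0 q).1 +
      (wA h σ q * gr h φ 0 q) * (XA h σ φ 0 q).2 = 0 := by
    intro q
    change -(wA h σ q * gr h φ 1 q) * (gr h φ 0 q / gip h φ φ q) +
      (wA h σ q * gr h φ 0 q) * (gr h φ 1 q / gip h φ φ q) = 0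
    ring
  have B01 : ∀ q, -(wA h σ q * gr h φ 1 q) * (XA h σ φ 1 q).1 +
      (wA h σ q * gr h φ 0 q) * (XA h σ φ 1 q).2 = -1 := by
    intro q
    have hn0 := (hn q).ne'
    have hw0 := (Adapt_wA_pos (σ := σ) hp q).ne'
    have e : -(wA h σ q * gr h φ 1 q) * (dd 1 φ q / (wA h σ q * gip h φ φ q)) +
      (wA h σ q * gr h φ 0 q) * (-dd 0 φ q / (wA h σ q * gip h φ φ q)) =
        -(wA h σ q * (dd 0 φ q * gr h φ 0 q + dd 1 φ q * gr h φ 1 q)) /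
          (wA h σ q * gip h φ φ q) := by ring
    change -(wA h σ q * gr h φ 1 q) * (dd 1 φ q / (wA h σ q * gip h φ φ q)) +
      (wA h σ q * gr h φ 0 q) * (-dd 0 φ q / (wA h σ q * gip h φ φ q)) = -1
    rw [e, ← hgip, neg_div, div_self (mul_ne_zero hw0 hn0)]
  have hdet : ∀ q, (PA h σ φ q).det ≠ 0 := by
    intro q
    have hn0 := (hn q).ne'
    have hw0 := (Adapt_wA_pos (σ := σ) hp q).ne'
    have e : PA h σ φ q = blk !![(XA h σ φ 0 q).1, (XA h σ φ 1 q).1; (XA h σ φ 0 q).2,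
        (XA h σ φ 1 q).2] 1 := by
      ext i j
      fin_cases i <;> fin_cases j <;> rfl
    rw [e, blk_det, Matrix.det_one, mul_one, Matrix.det_fin_two_of]
    change gr h φ 0 q / gip h φ φ q * (-dd 0 φ q / (wA h σ q * gip h φ φ q)) -
      dd 1 φ q / (wA h σ q * gip h φ φ q) * (gr h φ 1 q / gip h φ φ q) ≠ 0
    have e2 : gr h φ 0 q / gip h φ φ q * (-dd 0 φ q / (wA h σ q * gip h φ φ q)) -
      dd 1 φ q / (wA h σ q * gip h φ φ q) * (gr h φ 1 q / gip h φ φ q) =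
      -((dd 0 φ q * gr h φ 0 q + dd 1 φ q * gr h φ 1 q) /
        (wA h σ q * gip h φ φ q * gip h φ φ q)) := by ring
    rw [e2, ← hgip]
    exact neg_ne_zero.2 (div_ne_zero hn0 (mul_ne_zero (mul_ne_zero hw0 hn0) hn0))
  have hld : ∀ (i : Fin 4) (f : ℝ × ℝ → ℝ) (q : ℝ × ℝ), ld (XA h σ φ i) f q =
      (XA h σ φ i q).1 * dd 0 f q + (XA h σ φ i q).2 * dd 1 f q := by
    intro i f q
    exact Adapt_fd f q _ _
  refine ⟨?_, fun x _ => hdet x, ?_, ?_⟩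
  · intro i j
    apply ContDiff.contDiffOn
    fin_cases i <;> fin_cases j
    · exact s00
    · exact s01
    · exact contDiff_const
    · exact contDiff_const
    · exact s10
    · exact s11
    · exact contDiff_const
    · exact contDiff_const
    · exact contDiff_const
    · exact contDiff_const
    · exact contDiff_const
    · exact contDiff_const
    · exact contDiff_const
    · exact contDiff_const
    · exact contDiff_const
    · exact contDiff_const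
  · intro x _ j
    fin_cases j
    · simp [Fin.sum_univ_four, PA, bas]
    · simp [Fin.sum_univ_four, PA, bas]
    · simp [Fin.sum_univ_four, PA, bas, XA]
    · simp [Fin.sum_univ_four, PA, bas, XA]
  · intro x _
    have hsym := Adapt_dd_symm hφ x
    have hb : dd 0 (fun q => wA h σ q * gr h φ 0 q) x =
        dd 1 (fun q => -(wA h σ q * gr h φ 1 q)) x := by
      have := hL x
      rw [Fin.sum_univ_two] at this
      rw [Adapt_dd_neg]
      linarith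
    have W1 := Adapt_bracket (dne s00 x) (dne s10 x) (dne s01 x) (dne s11 x)
      (dne (Adapt_dd_smooth hφ 0) x) (dne (Adapt_dd_smooth hφ 1) x) hsym E00 E01
    have W2 := Adapt_bracket (dne s00 x) (dne s10 x) (dne s01 x) (dne s11 x)
      (dne (hw.mul r1).neg x) (dne (hw.mul r0) x) hb B00 B01
    have hne : wA h σ x * gip h φ φ x ≠ 0 := (mul_pos (Adapt_wA_pos hp x) (hn x)).ne'
    have hg := hgip x
    have K0 : ld (XA h σ φ 0) (fun q => (XA h σ φ 1 q).1) x =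
        ld (XA h σ φ 1) (fun q => (XA h σ φ 0 q).1) x := by
      rw [hld, hld]
      apply sub_eq_zero.1
      apply mul_left_cancel₀ hne
      rw [mul_zero]
      linear_combination wA h σ x * gr h φ 0 x * W1 - dd 1 φ x * W2 +
        wA h σ x * (((XA h σ φ 0 x).1 * dd 0 (fun p => (XA h σ φ 1 p).1) x +
            (XA h σ φ 0 x).2 * dd 1 (fun p => (XA h σ φ 1 p).1) x) -
          ((XA h σ φ 1 x).1 * dd 0 (fun p => (XA h σ φ 0 p).1) x +
            (XA h σ φ 1 x).2 * dd 1 (fun p => (XA h σ φ 0 p).1) x)) * hg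
    have K1 : ld (XA h σ φ 0) (fun q => (XA h σ φ 1 q).2) x =
        ld (XA h σ φ 1) (fun q => (XA h σ φ 0 q).2) x := by
      rw [hld, hld]
      apply sub_eq_zero.1
      apply mul_left_cancel₀ hne
      rw [mul_zero]
      linear_combination wA h σ x * gr h φ 1 x * W1 + dd 0 φ x * W2 +
        wA h σ x * (((XA h σ φ 0 x).1 * dd 0 (fun p => (XA h σ φ 1 p).2) x +
            (XA h σ φ 0 x).2 * dd 1 (fun p => (XA h σ φ 1 p).2) x) -
          ((XA h σ φ 1 x).1 * dd 0 (fun p => (XA h σ φ 0 p).2) x +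
            (XA h σ φ 1 x).2 * dd 1 (fun p => (XA h σ φ 0 p).2) x)) * hg
    have hc : ∀ (X : ℝ × ℝ → ℝ × ℝ) (c : ℝ), ld X (fun _ => c) x = 0 := by
      intro X c
      simp [ld]
    have hz2 : ∀ f : ℝ × ℝ → ℝ, ld (XA h σ φ 2) f x = 0 := by
      intro f
      change fderiv ℝ f x 0 = 0
      simp
    have hz3 : ∀ f : ℝ × ℝ → ℝ, ld (XA h σ φ 3) f x = 0 := by
      intro f
      change fderiv ℝ f x 0 = 0
      simp
    intro k i j
    fin_cases k <;> fin_cases i <;> fin_cases j <;>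
      first
        | rfl
        | exact K0
        | exact K1
        | exact K0.symm
        | exact K1.symm
        | exact (hz2 _).trans (hc _ _).symm
        | exact (hz3 _).trans (hc _ _).symm
        | exact (hc _ _).trans (hz2 _).symm
        | exact (hc _ _).trans (hz3 _).symm
        | exact (hc _ _).trans (hc _ _).symm

end Pool.Agent.T2S4
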