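import Pool.Agent.T2S4.BlockDefs

/-!
# The adapted frame: definitions

Definitions only (nothing to prove here).

`XA 0 = ∇φ / |∇φ|²`, `XA 1 = J ∇φ / (ρ |∇φ|²)`, `XA 2 = XA 3 = 0`. In this frame the block metric with
`G = diag(e^{σ-φ}, e^{σ+φ})` becomes the diagonal matrix `dm σ ν φ`, `ν = log |∇φ|`.
-/

set_option autoImplicit false

namespace Pool.Agent.T2S4

open Matrix Filter Topology
open scoped ContDiff

/-- The diagonal Gram matrix. -/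
noncomputable def gd (σ φ : ℝ × ℝ → ℝ) (p : ℝ × ℝ) : M2 :=
  !![Real.exp (σ p - φ p), 0; 0, Real.exp (σ p + φ p)]

/-- The components of the gradient. -/
noncomputable def gr (h : ℝ × ℝ → M2) (φ : ℝ × ℝ → ℝ) (a : Fin 2) (p : ℝ × ℝ) : ℝ :=
  ∑ b, (h p)⁻¹ a b * dd b φ p

/-- The density `√det h · ρ`. -/
noncomputable def wA (h : ℝ × ℝ → M2) (σ : ℝ × ℝ → ℝ) (p : ℝ × ℝ) : ℝ :=
  √(h p).det * Real.exp (σ p)

/-- The adapted fields. -/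
noncomputable def XA (h : ℝ × ℝ → M2) (σ φ : ℝ × ℝ → ℝ) : Fin 4 → ℝ × ℝ → ℝ × ℝ :=
  ![fun p => (gr h φ 0 p / gip h φ φ p, gr h φ 1 p / gip h φ φ p),
    fun p => (dd 1 φ p / (wA h σ p * gip h φ φ p), -dd 0 φ p / (wA h σ p * gip h φ φ p)),
    fun _ => 0, fun _ => 0]

/-- The matrix of the change of frame. -/
noncomputable def PA (h : ℝ × ℝ → M2) (σ φ : ℝ × ℝ → ℝ) (p : ℝ × ℝ) : M4 :=
  !![(XA h σ φ 0 p).1, (XA h σ φ 1 p).1, 0, 0; (XA h σ φ 0 p).2, (XA h σ φ 1 p).2, 0, 0;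
    0, 0, 1, 0; 0, 0, 0, 1]

/-- `ν = log |∇φ|`. -/
noncomputable def nuA (h : ℝ × ℝ → M2) (φ : ℝ × ℝ → ℝ) (p : ℝ × ℝ) : ℝ :=
  Real.log (gip h φ φ p) / 2

/-- The exponents of the diagonal metric. -/
noncomputable def al {E : Type} (σ ν φ : E → ℝ) : Fin 4 → E → ℝ :=
  ![fun x => -ν x, fun x => -σ x - ν x, fun x => (σ x - φ x) / 2, fun x => (σ x + φ x) / 2]

/-- The diagonal metric in the adapted frame. -/
noncomputable def dm {E : Type} (σ ν φ : E → ℝ) (x : E) : M4 :=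
  Matrix.diagonal fun i => Real.exp (2 * al σ ν φ i x)

/-- The function `- ⟨∇ log |ξ_1|, ∇ log |ξ_2|⟩` in the adapted frame. -/
noncomputable def KA {E : Type} [NormedAddCommGroup E] [NormedSpace ℝ E] (X0 X1 : E → E)
    (σ ν : E → ℝ) (x : E) : ℝ :=
  -(Real.exp (2 * ν x) * (ld X0 σ x ^ 2 - 1) +
    Real.exp (2 * ν x + 2 * σ x) * ld X1 σ x ^ 2) / 4

/-- The Einstein equations (with constant `3 c`) in the adapted frame. -/
structure Sys {E : Type} [NormedAddCommGroup E] [NormedSpace ℝ E] (c : ℝ) (X0 X1 : E → E)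
    (σ ν : E → ℝ) (x : E) : Prop where
  A : Real.exp (2 * ν x) * (ld X0 (ld X0 σ) x + Real.exp (2 * σ x) *
    (ld X1 (ld X1 σ) x + 2 * ld X1 σ x ^ 2)) = -6 * c
  B : ld X0 (ld X1 σ) x = -ld X1 ν x * ld X0 σ x - ld X0 ν x * ld X1 σ x -
    3 / 2 * ld X0 σ x * ld X1 σ x
  R0 : KA X0 X1 σ ν x - Real.exp (2 * ν x) * (ld X0 (ld X0 σ) x + ld X0 σ x ^ 2 / 2 + 1 / 2 +
    ld X0 ν x * ld X0 σ x) + Real.exp (2 * ν x + 2 * σ x) * (ld X1 ν x * ld X1 σ x) = 3 * c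
  R1 : KA X0 X1 σ ν x - Real.exp (2 * ν x + 2 * σ x) * (ld X1 (ld X1 σ) x + ld X1 σ x ^ 2 / 2 +
    (ld X1 σ x + ld X1 ν x) * ld X1 σ x) +
    Real.exp (2 * ν x) * ((ld X0 σ x + ld X0 ν x) * ld X0 σ x) = 3 * c
  K : KA X0 X1 σ ν x = Real.exp (2 * ν x) * (ld X0 (ld X0 σ) x + ld X0 (ld X0 ν) x -
    ld X0 σ x * (ld X0 σ x + ld X0 ν x)) +
    Real.exp (2 * ν x + 2 * σ x) * (ld X1 (ld X1 ν) x + ld X1 ν x * ld X1 σ x)

end Pool.Agent.T2S4
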