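import Pool.Agent.T2S4.Curv

/-!
# Change of commuting frames: the Einstein equation and constant curvature

PACKAGE. Prove the theorems (helper lemmas allowed, private or prefixed by `Inv_`), from `chg_riem`.

`P x` is invertible. `ric'_{lj} = ∑ i, R'^i_{lij} = ∑ (P⁻¹)_{ik} R^k_{abc} P_{al} P_{bi} P_{cj} =
∑ a c, ric_{ac} P_{al} P_{cj}`, i.e. `ric' = Pᵀ ric P` as matrices, and `γ' = Pᵀ γ P`; `P` is
invertible, so `ric' = Λ γ'` if and only if `ric = Λ γ`. Constant curvature: the tensor
`δ^l_i γ_{kj} - δ^l_j γ_{ki}` satisfies the same transformation law as `R`; both directions follow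
because the map `R ↦ R'` is injective (`P` invertible; from `P R' = R (P, P, P)` one gets
`R^k_{abc} = ∑ P_{km} R'^m_{lij} (P⁻¹)_{la} (P⁻¹)_{ib} (P⁻¹)_{jc}`).
-/

set_option autoImplicit false

namespace Pool.Agent.T2S4

open Matrix
open scoped ContDiff

variable {E : Type} [NormedAddCommGroup E] [NormedSpace ℝ E]

private theorem Inv_left {P : M4} (hP : P.det ≠ 0) {f : Fin 4 → ℝ}
    (h : ∀ l, ∑ a, f a * P a l = 0) (a : Fin 4) : f a = 0 := by
  have h1 : f ᵥ* P = 0 := by
    ext l
    exact h l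
  exact congrFun (Matrix.eq_zero_of_vecMul_eq_zero hP h1) a

private theorem Inv_right {P : M4} (hP : P.det ≠ 0) {f : Fin 4 → ℝ}
    (h : ∀ k, ∑ m, P k m * f m = 0) (m : Fin 4) : f m = 0 := by
  have h1 : P *ᵥ f = 0 := by
    ext k
    exact h k
  exact congrFun (Matrix.eq_zero_of_mulVec_eq_zero hP h1) m

private theorem Inv_conj (P G : M4) (l j : Fin 4) :
    (Pᵀ * G * P) l j = ∑ a, ∑ c, G a c * P a l * P c j := by
  rw [Matrix.mul_apply, Finset.sum_comm]
  refine Finset.sum_congr rfl fun c _ => ?_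
  rw [Matrix.mul_apply, Finset.sum_mul]
  refine Finset.sum_congr rfl fun a _ => ?_
  rw [Matrix.transpose_apply]
  ring

/-- The Ricci tensor in the new frame. -/
private theorem Inv_ric {O : Set E} {X X' : Fin 4 → E → E} {γ γ' : E → M4} {P : E → M4}
    (h : Fr O X γ) (hc : Chg O X X' P) (hγ : ∀ x ∈ O, γ' x = (P x)ᵀ * γ x * P x) {x : E}
    (hx : x ∈ O) (l j : Fin 4) :
    ricV X' γ' l j x = ∑ a, ∑ c, ricV X γ a c x * P x a l * P x c j := by
  let A : M4 := Matrix.of fun m i => riemV X' γ' m l i j x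
  let B : M4 := Matrix.of fun k b => ∑ a, ∑ c, riemV X γ k a b c x * P x a l * P x c j
  have hAB : P x * A = B * P x := by
    ext k i
    rw [Matrix.mul_apply, Matrix.mul_apply]
    refine (chg_riem h hc hγ hx k l i j).trans ?_
    rw [Finset.sum_comm]
    refine Finset.sum_congr rfl fun b _ => ?_
    change _ = (∑ a, ∑ c, riemV X γ k a b c x * P x a l * P x c j) * P x b i
    rw [Finset.sum_mul]
    refine Finset.sum_congr rfl fun a _ => ?_
    rw [Finset.sum_mul]
    refine Finset.sum_congr rfl fun c _ => ?_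
    ring
  have hu : IsUnit (P x).det := isUnit_iff_ne_zero.2 (hc.det x hx)
  have htr : A.trace = B.trace := by
    have h1 : A = (P x)⁻¹ * (B * P x) := by
      rw [← hAB, Matrix.nonsing_inv_mul_cancel_left _ _ hu]
    rw [h1, Matrix.trace_mul_comm, Matrix.mul_nonsing_inv_cancel_right _ _ hu]
  have h2 : A.trace = ricV X' γ' l j x := rfl
  have h3 : B.trace = ∑ b, ∑ a, ∑ c, riemV X γ b a b c x * P x a l * P x c j := rfl
  rw [← h2, htr, h3, Finset.sum_comm]
  refine Finset.sum_congr rfl fun a _ => ?_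
  rw [Finset.sum_comm]
  refine Finset.sum_congr rfl fun c _ => ?_
  unfold ricV
  rw [Finset.sum_mul, Finset.sum_mul]

theorem chg_ein {O : Set E} {X X' : Fin 4 → E → E} {γ γ' : E → M4} {P : E → M4} (h : Fr O X γ)
    (hc : Chg O X X' P) (hγ : ∀ x ∈ O, γ' x = (P x)ᵀ * γ x * P x) {x : E} (hx : x ∈ O) (Λ : ℝ) :
    EinV Λ X' γ' x ↔ EinV Λ X γ x := by
  have key : ∀ l j, ricV X' γ' l j x - Λ * γ' x l j =
      ∑ a, (∑ c, (ricV X γ a c x - Λ * γ x a c) * P x c j) * P x a l := by
    intro l j
    rw [Inv_ric h hc hγ hx, hγ x hx, Inv_conj, Finset.mul_sum, ← Finset.sum_sub_distrib]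
    refine Finset.sum_congr rfl fun a _ => ?_
    rw [Finset.mul_sum, ← Finset.sum_sub_distrib, Finset.sum_mul]
    refine Finset.sum_congr rfl fun c _ => ?_
    ring
  constructor
  · intro h1 a c
    have h2 : ∀ j a, ∑ c, (ricV X γ a c x - Λ * γ x a c) * P x c j = 0 := fun j =>
      Inv_left (hc.det x hx) fun l => by rw [← key l j, h1 l j, sub_self]
    exact sub_eq_zero.1 (Inv_left (f := fun c => ricV X γ a c x - Λ * γ x a c) (hc.det x hx)
      (fun j => h2 j a) c)
  · intro h1 l j
    refine sub_eq_zero.1 ?_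
    rw [key]
    refine Finset.sum_eq_zero fun a _ => ?_
    rw [Finset.sum_eq_zero, zero_mul]
    intro c _
    rw [h1 a c, sub_self, zero_mul]

theorem chg_CC {O : Set E} {X X' : Fin 4 → E → E} {γ γ' : E → M4} {P : E → M4} (h : Fr O X γ)
    (hc : Chg O X X' P) (hγ : ∀ x ∈ O, γ' x = (P x)ᵀ * γ x * P x) {x : E} (hx : x ∈ O) (c : ℝ) :
    CC c X' γ' x ↔ CC c X γ x := by
  have hd := hc.det x hx
  have h1 : ∀ k i : Fin 4, ∀ t : ℝ, ∑ m, P x k m * ((1 : M4) m i * t) = P x k i * t := by
    intro k i t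
    have h2 : ∑ m, P x k m * ((1 : M4) m i * t) = (P x * 1) k i * t := by
      rw [Matrix.mul_apply, Finset.sum_mul]
      exact Finset.sum_congr rfl fun m _ => (mul_assoc _ _ _).symm
    rw [h2, Matrix.mul_one]
  have h1' : ∀ k i : Fin 4, ∀ t : ℝ, ∑ b, (1 : M4) k b * (P x b i * t) = P x k i * t := by
    intro k i t
    have h2 : ∑ b, (1 : M4) k b * (P x b i * t) = (1 * P x) k i * t := by
      rw [Matrix.mul_apply, Finset.sum_mul]
      exact Finset.sum_congr rfl fun m _ => (mul_assoc _ _ _).symm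
    rw [h2, Matrix.one_mul]
  have key : ∀ k l i j, ∑ m, P x k m * (riemV X' γ' m l i j x -
      c * ((1 : M4) m i * γ' x l j - (1 : M4) m j * γ' x l i)) =
      ∑ a, (∑ b, (∑ d, (riemV X γ k a b d x -
        c * ((1 : M4) k b * γ x a d - (1 : M4) k d * γ x a b)) * P x d j) * P x b i) * P x a l := by
    intro k l i j
    have h2 : ∑ m, P x k m * (riemV X' γ' m l i j x -
        c * ((1 : M4) m i * γ' x l j - (1 : M4) m j * γ' x l i)) =
        ∑ m, P x k m * riemV X' γ' m l i j x -
          c * (P x k i * γ' x l j - P x k j * γ' x l i) := by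
      rw [← h1 k i, ← h1 k j, ← Finset.sum_sub_distrib, Finset.mul_sum, ← Finset.sum_sub_distrib]
      refine Finset.sum_congr rfl fun m _ => ?_
      ring
    have h3 : P x k i * γ' x l j = ∑ a, ∑ b, ∑ d, (1 : M4) k b * γ x a d * P x a l * P x b i *
        P x d j := by
      rw [hγ x hx, Inv_conj, Finset.mul_sum]
      refine Finset.sum_congr rfl fun a _ => ?_
      rw [Finset.sum_comm, Finset.mul_sum]
      refine Finset.sum_congr rfl fun d _ => ?_
      rw [← h1' k i]
      refine Finset.sum_congr rfl fun b _ => ?_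
      ring
    have h4 : P x k j * γ' x l i = ∑ a, ∑ b, ∑ d, (1 : M4) k d * γ x a b * P x a l * P x b i *
        P x d j := by
      rw [hγ x hx, Inv_conj, Finset.mul_sum]
      refine Finset.sum_congr rfl fun a _ => ?_
      rw [Finset.mul_sum]
      refine Finset.sum_congr rfl fun b _ => ?_
      rw [← h1' k j]
      refine Finset.sum_congr rfl fun d _ => ?_
      ring
    rw [h2, chg_riem h hc hγ hx, h3, h4, ← Finset.sum_sub_distrib, Finset.mul_sum,
      ← Finset.sum_sub_distrib]
    refine Finset.sum_congr rfl fun a _ => ?_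
    rw [← Finset.sum_sub_distrib, Finset.mul_sum, ← Finset.sum_sub_distrib, Finset.sum_mul]
    refine Finset.sum_congr rfl fun b _ => ?_
    rw [← Finset.sum_sub_distrib, Finset.mul_sum, ← Finset.sum_sub_distrib, Finset.sum_mul,
      Finset.sum_mul]
    refine Finset.sum_congr rfl fun d _ => ?_
    ring
  constructor
  · intro h5 k a b d
    have h6 : ∀ l i j, ∑ a, (∑ b, (∑ d, (riemV X γ k a b d x -
        c * ((1 : M4) k b * γ x a d - (1 : M4) k d * γ x a b)) * P x d j) * P x b i) *
          P x a l = 0 := by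
      intro l i j
      rw [← key]
      refine Finset.sum_eq_zero fun m _ => ?_
      rw [h5 m l i j, sub_self, mul_zero]
    have h7 := fun i j => Inv_left hd (fun l => h6 l i j) a
    have h8 := fun j => Inv_left hd (fun i => h7 i j) b
    exact sub_eq_zero.1 (Inv_left (f := fun d => riemV X γ k a b d x -
      c * ((1 : M4) k b * γ x a d - (1 : M4) k d * γ x a b)) hd h8 d)
  · intro h5 m l i j
    refine sub_eq_zero.1 (Inv_right (f := fun m => riemV X' γ' m l i j x -
      c * ((1 : M4) m i * γ' x l j - (1 : M4) m j * γ' x l i)) hd (fun k => ?_) m)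
    rw [key]
    refine Finset.sum_eq_zero fun a _ => ?_
    rw [Finset.sum_eq_zero, zero_mul]
    intro b _
    rw [Finset.sum_eq_zero, zero_mul]
    intro d _
    rw [h5 k a b d, sub_self, zero_mul]

end Pool.Agent.T2S4
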