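import Pool.Agent.T2S4.Closed
import Pool.Agent.T2S4.Inv

/-!
# The block metric

PACKAGE. Prove the theorems (helper lemmas allowed, private or prefixed by `Block_`).

* `chg_Pc`: `Chg Set.univ bas bas (Pc γ)`: `rel`: `bas j = ∑ i, P_ij • bas i` because
  `bas 2 = bas 3 = 0` and the upper two rows of `Pc` are those of the identity. `closed`: for `k = 2, 3` and `{i, j} = {0, 1}`
  it is `closed_A` (note `ld (bas 0) = dd 0`, `ld (bas 1) = dd 1`); if `i` or `j` is a fibre index both sides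
  are `0` (`bas 2 = bas 3 = 0`, and the columns 2, 3 and the rows 0, 1 of `Pc` are constant).
* `good_block`: `chg_ein` and `Pc_block`.
* `CC_block`: `chg_CC`.
-/

set_option autoImplicit false

namespace Pool.Agent.T2S4

open Matrix Filter Topology
open scoped ContDiff

private theorem Block_c (X : ℝ × ℝ → ℝ × ℝ) (c : ℝ) (x : ℝ × ℝ) : ld X (fun _ => c) x = 0 := by
  unfold ld
  simp

private theorem Block_z {i : Fin 4} (hi : i = 2 ∨ i = 3) (f : ℝ × ℝ → ℝ) (x : ℝ × ℝ) :
    ld (bas i) f x = 0 := by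
  have h : bas i x = 0 := by
    rcases hi with rfl | rfl <;> rfl
  unfold ld
  rw [h, map_zero]

private theorem Block_col (γ : ℝ × ℝ → M4) {j : Fin 4} (hj : j = 2 ∨ j = 3) (k : Fin 4) :
    ∃ c : ℝ, (fun y => Pc γ y k j) = fun _ => c := by
  rcases hj with rfl | rfl <;> fin_cases k <;> first | exact ⟨0, rfl⟩ | exact ⟨1, rfl⟩

theorem chg_Pc {γ : ℝ × ℝ → M4} (hs : ∀ i j, ContDiff ℝ ∞ (fun p => γ p i j))
    (hp : ∀ p, (γ p).PosDef) (htw : ∀ i : Fin 2, ∀ p, twist γ (fib i) p = 0) :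
    Chg Set.univ bas bas (Pc γ) where
  smP i j := by
    have hA : ∀ a b : Fin 2, ContDiff ℝ ∞ fun p => -Ac γ a b p := fun a b =>
      (Ac_smooth hs hp a b).neg
    rw [contDiffOn_univ]
    fin_cases i <;> fin_cases j <;>
      first
      | exact hA 0 0
      | exact hA 0 1
      | exact hA 1 0
      | exact hA 1 1
      | exact (contDiff_const : ContDiff ℝ ∞ fun _ : ℝ × ℝ => (0 : ℝ))
      | exact (contDiff_const : ContDiff ℝ ∞ fun _ : ℝ × ℝ => (1 : ℝ))
  det x _ := by
    rw [det_Pc]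
    exact one_ne_zero
  rel x _ j := by
    rw [Fin.sum_univ_four]
    have h2 : bas 2 x = 0 := rfl
    have h3 : bas 3 x = 0 := rfl
    rw [h2, h3, smul_zero, smul_zero, add_zero, add_zero]
    fin_cases j
    · show bas 0 x = (1 : ℝ) • bas 0 x + (0 : ℝ) • bas 1 x
      rw [one_smul, zero_smul, add_zero]
    · show bas 1 x = (0 : ℝ) • bas 0 x + (1 : ℝ) • bas 1 x
      rw [one_smul, zero_smul, zero_add]
    · show (0 : ℝ × ℝ) = (0 : ℝ) • bas 0 x + (0 : ℝ) • bas 1 x
      rw [zero_smul, zero_smul, zero_add]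
    · show (0 : ℝ × ℝ) = (0 : ℝ) • bas 0 x + (0 : ℝ) • bas 1 x
      rw [zero_smul, zero_smul, zero_add]
  closed x _ k i j := by
    have key : ∀ k, ld (bas 0) (fun y => Pc γ y k 1) x = ld (bas 1) (fun y => Pc γ y k 0) x := by
      intro k
      have hneg : ∀ (f g : ℝ × ℝ → ℝ), dd 0 f x = dd 1 g x →
          ld (bas 0) (fun y => -f y) x = ld (bas 1) (fun y => -g y) x := by
        intro f g hfg
        unfold ld
        rw [fderiv_fun_neg, fderiv_fun_neg]
        exact congrArg Neg.neg hfg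
      fin_cases k
      · exact (Block_c _ 0 x).trans (Block_c _ 1 x).symm
      · exact (Block_c _ 1 x).trans (Block_c _ 0 x).symm
      · exact hneg _ _ (closed_A hs hp htw 0 x)
      · exact hneg _ _ (closed_A hs hp htw 1 x)
    have hF : ∀ i : Fin 4, i = 0 ∨ i = 1 ∨ i = 2 ∨ i = 3 := by decide
    have hzero : ∀ {i j : Fin 4}, (i = 2 ∨ i = 3) → ld (bas i) (fun y => Pc γ y k j) x =
        ld (bas j) (fun y => Pc γ y k i) x := by
      intro i j hi
      obtain ⟨c, hc⟩ := Block_col γ hi k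
      rw [Block_z hi, hc, Block_c]
    rcases hF i with hi | hi | hi
    · rcases hF j with hj | hj | hj
      · rw [hi, hj]
      · rw [hi, hj]
        exact key k
      · exact (hzero hj).symm
    · rcases hF j with hj | hj | hj
      · rw [hi, hj]
        exact (key k).symm
      · rw [hi, hj]
      · exact (hzero hj).symm
    · exact hzero hi

theorem good_block {Λ : ℝ} {γ : ℝ × ℝ → M4} (h : Good Λ γ)
    (htw : ∀ i : Fin 2, ∀ p, twist γ (fib i) p = 0) : GoodB Λ (hf γ) (Gf γ) where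
  smh i j := hf_smooth h.sm h.pos i j
  smG i j := h.sm (fib i) (fib j)
  posh p := hf_pos (h.pos p)
  posG p := Gf_pos (h.pos p)
  ein p := (chg_ein (γ' := fun q => blk (hf γ q) (Gf γ q)) (fr_bas h.sm h.pos)
    (chg_Pc h.sm h.pos htw) (fun x _ => (Pc_block (h.pos x)).symm) (Set.mem_univ p) Λ).2 (h.ein p)

theorem CC_block {Λ c : ℝ} {γ : ℝ × ℝ → M4} (h : Good Λ γ)
    (htw : ∀ i : Fin 2, ∀ p, twist γ (fib i) p = 0) (p : ℝ × ℝ)
    (hC : CC c bas (fun q => blk (hf γ q) (Gf γ q)) p) : CC c bas γ p :=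
  (chg_CC (γ' := fun q => blk (hf γ q) (Gf γ q)) (fr_bas h.sm h.pos)
    (chg_Pc h.sm h.pos htw) (fun x _ => (Pc_block (h.pos x)).symm) (Set.mem_univ p) c).1 hC

end Pool.Agent.T2S4
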