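import Pool.Agent.T2S4.Ends

/-!
# Block decomposition: definitions

Definitions only (nothing to prove here).
-/

set_option autoImplicit false

namespace Pool.Agent.T2S4

open Matrix Filter Topology
open scoped ContDiff

/-- `2 × 2` matrices. -/
abbrev M2 : Type := Matrix (Fin 2) (Fin 2) ℝ

/-- The Gram matrix of the Killing fields. -/
def Gf (γ : ℝ × ℝ → M4) (p : ℝ × ℝ) : M2 := fun i j => γ p (fib i) (fib j)

/-- The metric of the orbit space: the inverse of the base block of the inverse matrix. -/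
noncomputable def hf (γ : ℝ × ℝ → M4) (p : ℝ × ℝ) : M2 :=
  (Matrix.of fun a b : Fin 2 => (γ p)⁻¹ (emb a) (emb b))⁻¹

/-- The connection coefficients: `G⁻¹` times the mixed block. -/
noncomputable def Ac (γ : ℝ × ℝ → M4) (i a : Fin 2) (p : ℝ × ℝ) : ℝ :=
  ∑ j, (Gf γ p)⁻¹ i j * γ p (fib j) (emb a)

/-- The change of frame to horizontal fields. -/
noncomputable def Pc (γ : ℝ × ℝ → M4) (p : ℝ × ℝ) : M4 :=
  !![1, 0, 0, 0; 0, 1, 0, 0; -Ac γ 0 0 p, -Ac γ 0 1 p, 1, 0; -Ac γ 1 0 p, -Ac γ 1 1 p, 0, 1]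

/-- The volume density of a block metric. -/
noncomputable def vol (h G : ℝ × ℝ → M2) (p : ℝ × ℝ) : ℝ := √((h p).det * (G p).det)

/-- The Laplace operator of a block metric on functions of the orbit space. -/
noncomputable def Lop (h G : ℝ × ℝ → M2) (f : ℝ × ℝ → ℝ) (p : ℝ × ℝ) : ℝ :=
  (vol h G p)⁻¹ * ∑ a, dd a (fun q => vol h G q * ∑ b, (h q)⁻¹ a b * dd b f q) p

/-- The inner product of two gradients. -/
noncomputable def gip (h : ℝ × ℝ → M2) (f k : ℝ × ℝ → ℝ) (p : ℝ × ℝ) : ℝ :=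
  ∑ a, ∑ b, (h p)⁻¹ a b * dd a f p * dd b k p

/-- Elliptic operators in non-divergence form. -/
noncomputable def Lnd (a : ℝ × ℝ → M2) (b : Fin 2 → ℝ × ℝ → ℝ) (f : ℝ × ℝ → ℝ) (p : ℝ × ℝ) : ℝ :=
  ∑ i, ∑ j, a p i j * dd i (dd j f) p + ∑ i, b i p * dd i f p

/-- The reduced Einstein equations for a block metric. -/
structure GoodB (Λ : ℝ) (h G : ℝ × ℝ → M2) : Prop where
  smh : ∀ i j, ContDiff ℝ ∞ (fun p => h p i j)
  smG : ∀ i j, ContDiff ℝ ∞ (fun p => G p i j)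
  posh : ∀ p, (h p).PosDef
  posG : ∀ p, (G p).PosDef
  ein : ∀ p, EinV Λ bas (fun q => blk (h q) (G q)) p

end Pool.Agent.T2S4
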