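import Pool.Agent.T2S4.Ends

/-!
# The twist is constant

PACKAGE. Prove the theorems (helper lemmas allowed, private or prefixed by `TwistC_`).

* `good_fr`: a `Good` matrix function gives a frame `Fr Set.univ bas γ` (constant fields; positive
  definite matrices are symmetric with positive determinant).
* `good_CC_fr` etc. as needed.
* `twist_const`: for `i = 2` or `i = 3`, `bas i = 0`, so `komar` applies: the sum over `ν` has only the
  terms `ν = 0, 1` (`ld (bas 2) = ld (bas 3) = 0`), and for `μ = 0`, `FK i 0 0 = 0` by `komar_anti`: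
  `dd 1 (twist γ i) p = √det ∑ κ, (γ⁻¹)_{0κ} ric_{κi} = Λ √det ∑ κ, (γ⁻¹)_{0κ} γ_{κi} = Λ √det δ_{0i} = 0`.
  For `μ = 1`: `FK i 1 1 = 0`, `FK i 1 0 = - FK i 0 1`: `dd 0 (twist γ i) p = 0`. So the derivative of the
  smooth function `twist γ i` is `0` everywhere (`is_const_of_fderiv_eq_zero`).
-/

set_option autoImplicit false

namespace Pool.Agent.T2S4

open Matrix Filter Topology
open scoped ContDiff

private theorem TwistC_bas_const (i : Fin 4) : ∃ c : ℝ × ℝ, bas i = fun _ => c := by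
  fin_cases i
  · exact ⟨(1, 0), rfl⟩
  · exact ⟨(0, 1), rfl⟩
  · exact ⟨0, rfl⟩
  · exact ⟨0, rfl⟩

theorem fr_bas {γ : ℝ × ℝ → M4} (hs : ∀ i j, ContDiff ℝ ∞ (fun p => γ p i j))
    (hp : ∀ p, (γ p).PosDef) : Fr Set.univ bas γ := by
  refine ⟨isOpen_univ, fun i => ?_, fun i j => (hs i j).contDiffOn, fun x _ => ?_,
    fun x _ => (hp x).det_pos.ne', fun i j x _ => ?_⟩
  · obtain ⟨c, hc⟩ := TwistC_bas_const i
    rw [hc]
    exact contDiffOn_const
  · have h1 := (hp x).isHermitian.eq
    rwa [Matrix.conjTranspose_eq_transpose_of_trivial] at h1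
  · obtain ⟨c, hc⟩ := TwistC_bas_const i
    obtain ⟨d, hd⟩ := TwistC_bas_const j
    rw [hc, hd]
    simp

theorem twist_const {Λ : ℝ} {γ : ℝ × ℝ → M4} (h : Good Λ γ) {i : Fin 4} (hi : i = 2 ∨ i = 3)
    (p q : ℝ × ℝ) : twist γ i p = twist γ i q := by
  have hF : Fr Set.univ bas γ := fr_bas h.sm h.pos
  have hpos : ∀ x ∈ (Set.univ : Set (ℝ × ℝ)), 0 < (γ x).det := fun x _ => (h.pos x).det_pos
  have hz : ∀ x, bas i x = 0 := by
    intro x
    rcases hi with rfl | rfl <;> rfl
  have hi0 : i ≠ 0 := by rcases hi with rfl | rfl <;> decide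
  have hi1 : i ≠ 1 := by rcases hi with rfl | rfl <;> decide
  have hR : ∀ (x : ℝ × ℝ) (μ : Fin 4), μ ≠ i → ∑ κ, (γ x)⁻¹ μ κ * ricV bas γ κ i x = 0 := by
    intro x μ hμ
    have h1 : ∀ κ, (γ x)⁻¹ μ κ * ricV bas γ κ i x = Λ * ((γ x)⁻¹ μ κ * γ x κ i) := by
      intro κ
      rw [h.ein x κ i]
      ring
    rw [Finset.sum_congr rfl fun κ _ => h1 κ, ← Finset.mul_sum, ← Matrix.mul_apply,
      Matrix.nonsing_inv_mul _ (isUnit_iff_ne_zero.2 (h.pos x).det_pos.ne'), Matrix.one_apply_ne hμ,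
      mul_zero]
  have hK : ∀ (x : ℝ × ℝ) (μ : Fin 4), μ ≠ i →
      ld (bas 0) (fun y => √(γ y).det * FK bas γ i μ 0 y) x +
        ld (bas 1) (fun y => √(γ y).det * FK bas γ i μ 1 y) x = 0 := by
    intro x μ hμ
    have h1 := komar hF hpos hz (Set.mem_univ x) μ
    rw [hR x μ hμ, mul_zero, Fin.sum_univ_four] at h1
    have h2 : ∀ f : ℝ × ℝ → ℝ, ld (bas 2) f x = 0 := fun f => by
      unfold ld
      exact map_zero _
    have h3 : ∀ f : ℝ × ℝ → ℝ, ld (bas 3) f x = 0 := fun f => by
      unfold ld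
      exact map_zero _
    rw [h2, h3, add_zero, add_zero] at h1
    exact h1
  have hA : ∀ (μ : Fin 4), (fun y => √(γ y).det * FK bas γ i μ μ y) = fun _ => (0 : ℝ) := by
    intro μ
    funext y
    have h1 := komar_anti hF hz (Set.mem_univ y) μ μ
    have h2 : FK bas γ i μ μ y = 0 := by linarith
    rw [h2, mul_zero]
  have hl0 : ∀ (X : ℝ × ℝ → ℝ × ℝ) (x : ℝ × ℝ), ld X (fun _ => (0 : ℝ)) x = 0 := by
    intro X x
    unfold ld
    simp
  have h1 : ∀ x, ld (bas 1) (twist γ i) x = 0 := by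
    intro x
    have e := hK x 0 (Ne.symm hi0)
    rw [hA 0, hl0, zero_add] at e
    exact e
  have h0 : ∀ x, ld (bas 0) (twist γ i) x = 0 := by
    intro x
    have e := hK x 1 (Ne.symm hi1)
    rw [hA 1, hl0, add_zero] at e
    have e2 : (fun y => √(γ y).det * FK bas γ i 1 0 y) = fun y => -twist γ i y := by
      funext y
      unfold twist
      rw [komar_anti hF hz (Set.mem_univ y) 1 0]
      ring
    rw [e2] at e
    unfold ld at e ⊢
    rw [fderiv_fun_neg] at e
    simpa using e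
  have hd : Differentiable ℝ (twist γ i) := by
    intro x
    have hg : ∀ a b, DifferentiableAt ℝ (fun y => γ y a b) x := fun a b =>
      (h.sm a b).differentiable (by simp) x
    have hdet : DifferentiableAt ℝ (fun y => (γ y).det) x := by
      have h2 : (fun y => (γ y).det) = fun y => ∑ σ : Equiv.Perm (Fin 4),
          ((Equiv.Perm.sign σ : ℤ) : ℝ) • ∏ i, γ y (σ i) i := by
        funext y
        rw [Matrix.det_apply']
        rfl
      rw [h2]
      refine DifferentiableAt.fun_sum fun σ _ => ?_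
      exact (HasFDerivAt.finsetProd fun i _ => (hg (σ i) i).hasFDerivAt).differentiableAt.const_smul
        ((Equiv.Perm.sign σ : ℤ) : ℝ)
    have hs : DifferentiableAt ℝ (fun y => √(γ y).det) x := hdet.sqrt (h.pos x).det_pos.ne'
    have hF' : DifferentiableAt ℝ (fun y => FK bas γ i 0 1 y) x := by
      unfold FK
      refine DifferentiableAt.fun_sum fun l _ => DifferentiableAt.fun_mul ?_ ?_
      · exact ((inv_smooth hF.smg hF.det 0 l).contDiffAt
          (isOpen_univ.mem_nhds (Set.mem_univ x))).differentiableAt (by simp)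
      · exact ((chrV_smooth hF 1 l i).contDiffAt
          (isOpen_univ.mem_nhds (Set.mem_univ x))).differentiableAt (by simp)
    exact hs.fun_mul hF'
  refine is_const_of_fderiv_eq_zero hd (fun x => ?_) p q
  have e0 := h0 x
  have e1 := h1 x
  unfold ld at e0 e1
  ext
  · simpa [bas] using e0
  · simpa [bas] using e1

end Pool.Agent.T2S4
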