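import Pool.Agent.T2S4.Schur
import Pool.Agent.T2S4.TwistC

/-!
# Zero twist: the horizontal distribution is integrable

PACKAGE. Prove the theorem (helper lemmas allowed, private or prefixed by `Closed_`).

Write `W = γ⁻¹`. Since `ld (bas 2) = ld (bas 3) = 0`,
`2 Γ^ν_{l i} = ∑ k, W_{νk} (X_l γ_{ki} - X_k γ_{li})` for a fibre index `i` (`X_i = 0`; use the symmetry of `γ`),
so `2 FK i 0 1 = ∑ l k, W_{0l} W_{1k} (X_l γ_{ki} - X_k γ_{li})`. In the first part `l` is a base index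
`c` (otherwise `X_l = 0`); with `γ_{d i} = ∑ j, G_ij A^j_d` (`mixed_eq`) and `W_{1, fib j} = - ∑ d, W_{1d} A^j_d`
(`inv_mixed`):
`∑ c k, W_{0c} W_{1k} ∂_c γ_{ki} = ∑ c d, W_{0c} W_{1d} (∂_c (∑ j, G_ij A^j_d) - ∑ j, A^j_d ∂_c G_ji)
 = ∑ c d, W_{0c} W_{1d} ∑ j, G_ij ∂_c A^j_d`.
The second part is `∑ c d, W_{0c} W_{1d} ∑ j, G_ij ∂_d A^j_c`. The difference:
`2 FK i 0 1 = (W_00 W_11 - W_01 W_10) ∑ j, G_ij (∂_0 A^j_1 - ∂_1 A^j_0)`.
The determinant of the base block of `W` is positive and `G` is invertible, `twist = √det γ · FK = 0`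
for both fibre indices, so `∂_0 A^j_1 = ∂_1 A^j_0`.
-/

set_option autoImplicit false

namespace Pool.Agent.T2S4

open Matrix Filter Topology
open scoped ContDiff

private theorem Closed_sym {γ : ℝ × ℝ → M4} (hp : ∀ p, (γ p).PosDef) (p : ℝ × ℝ) (a b : Fin 4) :
    γ p a b = γ p b a := by
  have h2 := (hp p).1.apply a b
  rw [star_trivial] at h2
  exact h2.symm

private theorem Closed_D {γ : ℝ × ℝ → M4} (hs : ∀ i j, ContDiff ℝ ∞ (fun p => γ p i j))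
    (hp : ∀ p, (γ p).PosDef) (i a c : Fin 2) (p : ℝ × ℝ) :
    ∑ k, (γ p)⁻¹ (emb a) k * dd c (fun q => γ q k (fib i)) p =
      ∑ d, (γ p)⁻¹ (emb a) (emb d) * ∑ j, Gf γ p i j * dd c (Ac γ j d) p := by
  have hA : ∀ j d, DifferentiableAt ℝ (Ac γ j d) p := fun j d =>
    (Ac_smooth hs hp j d).differentiable (by simp) p
  have hG : ∀ i j, DifferentiableAt ℝ (fun q => Gf γ q i j) p := fun i j =>
    (hs (fib i) (fib j)).differentiable (by simp) p
  have h1 : ∀ d, dd c (fun q => γ q (emb d) (fib i)) p =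
      ∑ j, (dd c (fun q => Gf γ q i j) p * Ac γ j d p + Gf γ p i j * dd c (Ac γ j d) p) := by
    intro d
    have e1 : (fun q => γ q (emb d) (fib i)) = fun q => ∑ j, Gf γ q i j * Ac γ j d q := by
      funext q
      exact mixed_eq (hp q) i d
    rw [e1]
    unfold dd
    rw [fderiv_fun_sum fun j _ => (hG i j).fun_mul (hA j d)]
    simp only [_root_.sum_apply]
    refine Finset.sum_congr rfl fun j _ => ?_
    rw [fderiv_fun_mul (hG i j) (hA j d)]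
    simp only [_root_.add_apply, _root_.smul_apply, smul_eq_mul]
    ring
  have h2 : ∀ j, dd c (fun q => γ q (fib j) (fib i)) p = dd c (fun q => Gf γ q i j) p := by
    intro j
    congr 1
    funext q
    exact Closed_sym hp q _ _
  have h3 : ∀ f : Fin 4 → ℝ, ∑ k, f k = ∑ d, f (emb d) + ∑ j, f (fib j) := by
    intro f
    rw [Fin.sum_univ_four, Fin.sum_univ_two, Fin.sum_univ_two]
    change f 0 + f 1 + f 2 + f 3 = f 0 + f 1 + (f 2 + f 3)
    ring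
  rw [h3]
  simp only [h1, h2, inv_mixed (hp p), Fin.sum_univ_two]
  ring

private theorem Closed_FK (γ : ℝ × ℝ → M4) (i : Fin 2) (p : ℝ × ℝ) :
    FK bas γ (fib i) 0 1 p = 1 / 2 *
      (∑ c, (γ p)⁻¹ (emb 0) (emb c) * ∑ k, (γ p)⁻¹ (emb 1) k * dd c (fun q => γ q k (fib i)) p -
        ∑ c, (γ p)⁻¹ (emb 1) (emb c) *
          ∑ k, (γ p)⁻¹ (emb 0) k * dd c (fun q => γ q k (fib i)) p) := by
  have h0 : ∀ f : ℝ × ℝ → ℝ, ld (bas 0) f p = dd 0 f p := fun f => rfl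
  have h1 : ∀ f : ℝ × ℝ → ℝ, ld (bas 1) f p = dd 1 f p := fun f => rfl
  have h2 : ∀ f : ℝ × ℝ → ℝ, ld (bas 2) f p = 0 := fun f => (fderiv ℝ f p).map_zero
  have h3 : ∀ f : ℝ × ℝ → ℝ, ld (bas 3) f p = 0 := fun f => (fderiv ℝ f p).map_zero
  have h4 : ∀ f : ℝ × ℝ → ℝ, ld (bas (fib i)) f p = 0 := by
    intro f
    fin_cases i
    · exact h2 f
    · exact h3 f
  have e0 : emb 0 = 0 := rfl
  have e1 : emb 1 = 1 := rfl
  unfold FK chrV
  simp only [Fin.sum_univ_four, Fin.sum_univ_two, h0, h1, h2, h3, h4, e0, e1]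
  ring

theorem closed_A {γ : ℝ × ℝ → M4} (hs : ∀ i j, ContDiff ℝ ∞ (fun p => γ p i j))
    (hp : ∀ p, (γ p).PosDef) (htw : ∀ i : Fin 2, ∀ p, twist γ (fib i) p = 0) (j : Fin 2)
    (p : ℝ × ℝ) : dd 0 (Ac γ j 1) p = dd 1 (Ac γ j 0) p := by
  have hFK : ∀ i : Fin 2, FK bas γ (fib i) 0 1 p = 0 := by
    intro i
    have h1 := htw i p
    unfold twist at h1
    exact (mul_eq_zero.1 h1).resolve_left (Real.sqrt_pos.2 (hp p).det_pos).ne'
  have hdet : (γ p)⁻¹ (emb 0) (emb 0) * (γ p)⁻¹ (emb 1) (emb 1) -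
      (γ p)⁻¹ (emb 0) (emb 1) * (γ p)⁻¹ (emb 1) (emb 0) ≠ 0 := by
    have h1 : ((hf γ p)⁻¹).det ≠ 0 := by
      rw [Matrix.det_nonsing_inv, Ring.inverse_eq_inv']
      exact inv_ne_zero (hf_pos (hp p)).det_pos.ne'
    rw [Matrix.det_fin_two] at h1
    simp only [hf_inv (hp p)] at h1
    exact h1
  have hH : ∀ i : Fin 2, ∑ j, Gf γ p i j * (dd 0 (Ac γ j 1) p - dd 1 (Ac γ j 0) p) = 0 := by
    intro i
    have h1 := hFK i
    rw [Closed_FK] at h1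
    simp only [Closed_D hs hp, Fin.sum_univ_two] at h1
    rw [Fin.sum_univ_two]
    have h2 : ((γ p)⁻¹ (emb 0) (emb 0) * (γ p)⁻¹ (emb 1) (emb 1) -
        (γ p)⁻¹ (emb 0) (emb 1) * (γ p)⁻¹ (emb 1) (emb 0)) *
        (Gf γ p i 0 * (dd 0 (Ac γ 0 1) p - dd 1 (Ac γ 0 0) p) +
          Gf γ p i 1 * (dd 0 (Ac γ 1 1) p - dd 1 (Ac γ 1 0) p)) = 0 := by
      linear_combination 2 * h1
    exact (mul_eq_zero.1 h2).resolve_left hdet
  have hv : Gf γ p *ᵥ (fun j => dd 0 (Ac γ j 1) p - dd 1 (Ac γ j 0) p) = 0 := by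
    ext i
    exact hH i
  have h3 := Matrix.eq_zero_of_mulVec_eq_zero (Gf_pos (hp p)).det_pos.ne' hv
  exact sub_eq_zero.1 (congrFun h3 j)

end Pool.Agent.T2S4
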