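import Pool.Agent.T2S4.MaxP

/-!
# The superlevel sets and sublevel sets of `φ` are connected

PACKAGE. Prove the theorem (helper lemmas allowed, private or prefixed by `Comp_`).

Let `|φ(s, t) - (t - s)| ≤ C`, `Y = |c| + C + 1`, and `X` as in `h2` for this `Y`, `X ≥ 0`. `T = {t - s > Y}`
is convex and contained in `D = {φ > c}`; `φ < c` where `t - s < -Y`. Let `q ∈ D` and let `D_q` be the
component of `q` in the open set `D` (`connectedComponentIn D q`, open). Suppose `D_q ∩ T = ∅`.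
(1) If `q' = (s, t) ∈ D_q` then `|t - s| ≤ Y`. If moreover `|s + t| ≥ X`: along the line
`τ ↦ (s - τ, t + τ)`, `τ ≥ 0` (`s + t` constant, `t - s` increasing), `φ` is strictly increasing as long as
`|t - s| ≤ Y` (its derivative is `dd 1 φ - dd 0 φ > 0`), so the line stays in `D` until it reaches
`t - s > Y`, i.e. `T`: so `D_q ∩ T ≠ ∅`, a contradiction. Hence `D_q ⊆ {|t - s| ≤ Y, |s + t| ≤ X}` is bounded.
(2) `K = closure D_q` is compact, `U = D_q` open. A point `p ∈ K \ U` has `φ p ≤ c`: if `φ p > c` then a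
ball around `p` in `D` meets `D_q`, so `p ∈ D_q`. `max_principle` gives `φ q ≤ c`, a contradiction.
So every component of `D` meets the connected set `T`: `D` is connected; `D` is open in `ℝ × ℝ`, so it
is path connected (`IsOpen.isConnected_iff_isPathConnected`). For `{φ < c}` apply the first part to
`φ'(s, t) = -φ(t, s)`?? (`φ'` satisfies the same conditions with `a, b` transported by the swap), or
repeat the proof with `-φ` and the region `{t - s < -Y}`.
-/

set_option autoImplicit false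

namespace Pool.Agent.T2S4

open Matrix Filter Topology
open scoped ContDiff

private theorem Comp_dd_neg (i : Fin 2) (f : ℝ × ℝ → ℝ) :
    dd i (fun x => -f x) = fun x => -dd i f x := by
  funext x
  unfold dd
  rw [fderiv_fun_neg]
  rfl

private theorem Comp_Lnd_neg (a : ℝ × ℝ → M2) (b : Fin 2 → ℝ × ℝ → ℝ) (f : ℝ × ℝ → ℝ)
    (p : ℝ × ℝ) : Lnd a b (fun x => -f x) p = -Lnd a b f p := by
  unfold Lnd
  simp only [Comp_dd_neg]
  simp only [Fin.sum_univ_two]
  ring

private theorem Comp_deriv {f : ℝ × ℝ → ℝ} (hf : Differentiable ℝ f) (σ s t τ : ℝ) :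
    HasDerivAt (fun τ : ℝ => f (s - σ * τ, t + σ * τ))
      (σ * (dd 1 f (s - σ * τ, t + σ * τ) - dd 0 f (s - σ * τ, t + σ * τ))) τ := by
  have h1 : HasDerivAt (fun τ : ℝ => (s - σ * τ, t + σ * τ)) ((-σ, σ) : ℝ × ℝ) τ := by
    have h2 : HasDerivAt (fun τ : ℝ => s - σ * τ) (-σ) τ := by
      simpa using ((hasDerivAt_id τ).const_mul σ).const_sub s
    have h3 : HasDerivAt (fun τ : ℝ => t + σ * τ) σ τ := by
      simpa using ((hasDerivAt_id τ).const_mul σ).const_add t
    exact h2.prodMk h3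
  have h4 := (hf (s - σ * τ, t + σ * τ)).hasFDerivAt.comp_hasDerivAt τ h1
  have h5 : fderiv ℝ f (s - σ * τ, t + σ * τ) ((-σ, σ) : ℝ × ℝ) =
      σ * (dd 1 f (s - σ * τ, t + σ * τ) - dd 0 f (s - σ * τ, t + σ * τ)) := by
    have h6 : ((-σ, σ) : ℝ × ℝ) = (-σ) • bv 0 + σ • bv 1 := by
      simp [bv]
    rw [h6, map_add, map_smul, map_smul]
    simp only [dd, smul_eq_mul]
    ring
  rw [h5] at h4
  exact h4

private theorem Comp_key {a : ℝ × ℝ → M2} {b : Fin 2 → ℝ × ℝ → ℝ} {f : ℝ × ℝ → ℝ}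
    (hac : ∀ i j, Continuous (fun p => a p i j)) (ha : ∀ p, (a p).PosDef)
    (hb : ∀ i, Continuous (b i)) (hf : ContDiff ℝ ∞ f) (hL : ∀ p, Lnd a b f p = 0)
    {σ : ℝ} (hσ : σ = 1 ∨ σ = -1)
    (h1 : ∃ C : ℝ, ∀ p : ℝ × ℝ, |f p - σ * (p.2 - p.1)| ≤ C)
    (h2 : ∀ Y : ℝ, ∃ X : ℝ, ∀ p : ℝ × ℝ, |p.2 - p.1| ≤ Y → X ≤ |p.1 + p.2| →
      0 < σ * (dd 1 f p - dd 0 f p)) (c : ℝ) {p q : ℝ × ℝ} (hp : c < f p) (hq : c < f q) :
    JoinedIn {x | c < f x} p q := by
  obtain ⟨C, hC⟩ := h1
  have hσ2 : σ * σ = 1 := by rcases hσ with h | h <;> rw [h] <;> norm_num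
  have hσa : |σ| = 1 := by rcases hσ with h | h <;> rw [h] <;> norm_num
  have hC0 : 0 ≤ C := le_trans (abs_nonneg _) (hC 0)
  obtain ⟨Y, hY⟩ : ∃ Y : ℝ, Y = |c| + C + 1 := ⟨_, rfl⟩
  obtain ⟨X, hX⟩ := h2 Y
  have hc1 := le_abs_self c
  have hc2 := neg_abs_le c
  have hdf : Differentiable ℝ f := hf.differentiable (by simp)
  have hcf : Continuous f := hf.continuous
  have hDo : IsOpen {x | c < f x} := isOpen_lt continuous_const hcf
  have hTD : ∀ x : ℝ × ℝ, Y < σ * (x.2 - x.1) → c < f x := by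
    intro x hx
    have := (abs_le.1 (hC x)).1
    linarith
  have hTc : Convex ℝ {x : ℝ × ℝ | Y < σ * (x.2 - x.1)} := by
    intro x hx y hy u v hu hv huv
    simp only [Set.mem_setOf_eq, Prod.snd_add, Prod.smul_snd, Prod.fst_add, Prod.smul_fst,
      smul_eq_mul] at hx hy ⊢
    have e : σ * (u * x.2 + v * y.2 - (u * x.1 + v * y.1)) =
      u * (σ * (x.2 - x.1)) + v * (σ * (y.2 - y.1)) := by ring
    rw [e]
    rcases hu.eq_or_lt with hu0 | hu0
    · subst hu0
      have hv1 : v = 1 := by linarith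
      subst hv1
      linarith
    · nlinarith
  have main : ∀ q : ℝ × ℝ, c < f q → ∃ t : ℝ × ℝ, Y < σ * (t.2 - t.1) ∧
      JoinedIn {x | c < f x} q t := by
    intro q hq
    by_contra hcon
    push Not at hcon
    obtain ⟨P, hP⟩ : ∃ P : Set (ℝ × ℝ), P = pathComponentIn {x | c < f x} q := ⟨_, rfl⟩
    have hPo : IsOpen P := by rw [hP]; exact hDo.pathComponentIn q
    have hqP : q ∈ P := by rw [hP]; exact mem_pathComponentIn_self hq
    have hPm : ∀ x, x ∈ P ↔ JoinedIn {x | c < f x} q x := by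
      intro x; rw [hP]; rfl
    have hP1 : ∀ x ∈ P, |x.2 - x.1| ≤ Y := by
      intro x hx
      have hxj := (hPm x).1 hx
      have hx1 : ¬ Y < σ * (x.2 - x.1) := fun h => hcon x h hxj
      have hx2 : c < f x := hxj.target_mem
      have h3 := (abs_le.1 (hC x)).2
      have h4 : |σ * (x.2 - x.1)| ≤ Y := by
        rw [abs_le]
        constructor
        · linarith
        · linarith
      rwa [abs_mul, hσa, one_mul] at h4
    have hP2 : ∀ x ∈ P, |x.1 + x.2| < X := by
      intro x hx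
      by_contra hXx
      push Not at hXx
      have hxj := (hPm x).1 hx
      have hx2 : c < f x := hxj.target_mem
      have hxY := hP1 x hx
      have hxY' : |σ * (x.2 - x.1)| ≤ Y := by rwa [abs_mul, hσa, one_mul]
      obtain ⟨τ0, hτ0⟩ : ∃ τ0 : ℝ, τ0 = (Y - σ * (x.2 - x.1)) / 2 := ⟨_, rfl⟩
      have hτ0n : 0 ≤ τ0 := by rw [hτ0]; linarith [(abs_le.1 hxY').2]
      have hline : ∀ τ : ℝ, 0 ≤ τ → c < f (x.1 - σ * τ, x.2 + σ * τ) := by
        intro τ hτ
        rcases le_or_gt τ τ0 with hle | hgt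
        · have hmono : MonotoneOn (fun τ : ℝ => f (x.1 - σ * τ, x.2 + σ * τ))
              (Set.Icc 0 τ0) := by
            apply monotoneOn_of_deriv_nonneg (convex_Icc _ _)
            · exact fun u _ => (Comp_deriv hdf σ x.1 x.2 u).continuousAt.continuousWithinAt
            · exact fun u _ =>
                (Comp_deriv hdf σ x.1 x.2 u).differentiableAt.differentiableWithinAt
            · intro u hu
              rw [interior_Icc] at hu
              rw [(Comp_deriv hdf σ x.1 x.2 u).deriv]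
              refine (hX (x.1 - σ * u, x.2 + σ * u) ?_ ?_).le
              · show |x.2 + σ * u - (x.1 - σ * u)| ≤ Y
                have e : |x.2 + σ * u - (x.1 - σ * u)| = |σ * (x.2 - x.1) + 2 * u| := by
                  have e2 : σ * (x.2 + σ * u - (x.1 - σ * u)) =
                      σ * (x.2 - x.1) + 2 * u := by
                    linear_combination 2 * u * hσ2
                  rw [← e2, abs_mul, hσa, one_mul]
                rw [e, abs_le]
                have := (abs_le.1 hxY').1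
                constructor
                · linarith [hu.1]
                · linarith [hu.2]
              · show X ≤ |x.1 - σ * u + (x.2 + σ * u)|
                have e : x.1 - σ * u + (x.2 + σ * u) = x.1 + x.2 := by ring
                rw [e]
                exact hXx
          have h5 := hmono (Set.left_mem_Icc.2 hτ0n) (Set.mem_Icc.2 ⟨hτ, hle⟩) hτ
          simp only [mul_zero, sub_zero, add_zero] at h5
          exact lt_of_lt_of_le hx2 h5
        · apply hTD
          show Y < σ * (x.2 + σ * τ - (x.1 - σ * τ))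
          have e2 : σ * (x.2 + σ * τ - (x.1 - σ * τ)) = σ * (x.2 - x.1) + 2 * τ := by
            linear_combination 2 * τ * hσ2
          rw [e2]
          linarith
      obtain ⟨z, hz⟩ : ∃ z : ℝ × ℝ, z = (x.1 - σ * (τ0 + 1), x.2 + σ * (τ0 + 1)) := ⟨_, rfl⟩
      have hj : JoinedIn {x | c < f x} x z := by
        apply JoinedIn.of_segment_subset
        intro y hy
        rw [segment_eq_image] at hy
        obtain ⟨θ, hθ, rfl⟩ := hy
        have h6 := hline (θ * (τ0 + 1)) (mul_nonneg hθ.1 (by linarith))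
        have h7 : (1 - θ) • x + θ • z =
            (x.1 - σ * (θ * (τ0 + 1)), x.2 + σ * (θ * (τ0 + 1))) := by
          rw [hz]
          ext
          · simp only [Prod.fst_add, Prod.smul_fst, smul_eq_mul]
            ring
          · simp only [Prod.snd_add, Prod.smul_snd, smul_eq_mul]
            ring
        show c < f ((1 - θ) • x + θ • z)
        rw [h7]
        exact h6
      refine hcon z ?_ (hxj.trans hj)
      rw [hz]
      show Y < σ * (x.2 + σ * (τ0 + 1) - (x.1 - σ * (τ0 + 1)))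
      have e2 : σ * (x.2 + σ * (τ0 + 1) - (x.1 - σ * (τ0 + 1))) =
          σ * (x.2 - x.1) + 2 * (τ0 + 1) := by
        linear_combination 2 * (τ0 + 1) * hσ2
      rw [e2]
      linarith
    have hKc : IsCompact (closure P) := by
      have hPb : P ⊆ Set.Icc (-(|X| + |Y|)) (|X| + |Y|) ×ˢ Set.Icc (-(|X| + |Y|)) (|X| + |Y|) := by
        intro x hx
        have h3 := abs_le.1 (hP1 x hx)
        have h4 := abs_lt.1 (hP2 x hx)
        have h5 := le_abs_self X
        have h6 := le_abs_self Y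
        have h7 := abs_nonneg X
        have h8 := abs_nonneg Y
        refine ⟨⟨?_, ?_⟩, ⟨?_, ?_⟩⟩ <;> linarith
      have hcl : closure P ⊆
          Set.Icc (-(|X| + |Y|)) (|X| + |Y|) ×ˢ Set.Icc (-(|X| + |Y|)) (|X| + |Y|) :=
        closure_minimal hPb (isClosed_Icc.prod isClosed_Icc)
      exact (isCompact_Icc.prod isCompact_Icc).of_isClosed_subset isClosed_closure hcl
    have hfin := max_principle hac ha hb hf hKc hPo subset_closure (m := c) (by
      intro y hy hyP
      by_contra hlt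
      push Not at hlt
      apply hyP
      have hyo : IsOpen (pathComponentIn {x | c < f x} y) := hDo.pathComponentIn y
      have hys : y ∈ pathComponentIn {x | c < f x} y := mem_pathComponentIn_self hlt
      obtain ⟨w, hw1, hw2⟩ := mem_closure_iff.1 hy _ hyo hys
      have hw3 : JoinedIn {x | c < f x} y w := hw1
      exact (hPm y).2 (((hPm w).1 hw2).trans hw3.symm)) (fun x _ => (hL x).ge) q
      (subset_closure hqP)
    linarith
  obtain ⟨p', hp1, hp2⟩ := main p hp
  obtain ⟨q', hq1, hq2⟩ := main q hq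
  have hj : JoinedIn {x | c < f x} p' q' := by
    apply JoinedIn.of_segment_subset
    intro y hy
    exact hTD y (hTc.segment_subset hp1 hq1 hy)
  exact (hp2.trans hj).trans hq2.symm

theorem joined_super {a : ℝ × ℝ → M2} {b : Fin 2 → ℝ × ℝ → ℝ} {φ : ℝ × ℝ → ℝ}
    (hac : ∀ i j, Continuous (fun p => a p i j)) (ha : ∀ p, (a p).PosDef)
    (hb : ∀ i, Continuous (b i)) (hf : ContDiff ℝ ∞ φ) (hL : ∀ p, Lnd a b φ p = 0)
    (h1 : ∃ C : ℝ, ∀ p : ℝ × ℝ, |φ p - (p.2 - p.1)| ≤ C)
    (h2 : ∀ Y : ℝ, ∃ X : ℝ, ∀ p : ℝ × ℝ, |p.2 - p.1| ≤ Y → X ≤ |p.1 + p.2| →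
      0 < dd 1 φ p - dd 0 φ p) (c : ℝ) {p q : ℝ × ℝ} (hp : c < φ p) (hq : c < φ q) :
    JoinedIn {x | c < φ x} p q := by
  refine Comp_key hac ha hb hf hL (σ := 1) (Or.inl rfl) ?_ ?_ c hp hq
  · simpa using h1
  · simpa using h2

theorem joined_sub {a : ℝ × ℝ → M2} {b : Fin 2 → ℝ × ℝ → ℝ} {φ : ℝ × ℝ → ℝ}
    (hac : ∀ i j, Continuous (fun p => a p i j)) (ha : ∀ p, (a p).PosDef)
    (hb : ∀ i, Continuous (b i)) (hf : ContDiff ℝ ∞ φ) (hL : ∀ p, Lnd a b φ p = 0)
    (h1 : ∃ C : ℝ, ∀ p : ℝ × ℝ, |φ p - (p.2 - p.1)| ≤ C)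
    (h2 : ∀ Y : ℝ, ∃ X : ℝ, ∀ p : ℝ × ℝ, |p.2 - p.1| ≤ Y → X ≤ |p.1 + p.2| →
      0 < dd 1 φ p - dd 0 φ p) (c : ℝ) {p q : ℝ × ℝ} (hp : φ p < c) (hq : φ q < c) :
    JoinedIn {x | φ x < c} p q := by
  have key := Comp_key (f := fun x => -φ x) hac ha hb hf.neg
    (fun p => by rw [Comp_Lnd_neg, hL, neg_zero]) (σ := -1) (Or.inr rfl) ?_ ?_ (-c)
    (p := p) (q := q) (neg_lt_neg hp) (neg_lt_neg hq)
  · have e : {x : ℝ × ℝ | -c < -φ x} = {x | φ x < c} := by
      ext x
      simp
    rwa [e] at key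
  · obtain ⟨C, hC⟩ := h1
    refine ⟨C, fun p => ?_⟩
    have e : -φ p - -1 * (p.2 - p.1) = -(φ p - (p.2 - p.1)) := by ring
    rw [e, abs_neg]
    exact hC p
  · intro Y
    obtain ⟨X, hX⟩ := h2 Y
    refine ⟨X, fun p hp1 hp2 => ?_⟩
    rw [Comp_dd_neg, Comp_dd_neg]
    have := hX p hp1 hp2
    linarith

end Pool.Agent.T2S4
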