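import Pool.Agent.T2S4.CoreB
import Pool.Agent.T2S4.Block

/-!
# Constant curvature on the orbit space

PACKAGE. Prove the theorem (helper lemmas allowed, private or prefixed by `Core_`).

`twist γ (fib i)` is constant (`twist_const`, `fib i = 2` or `3`) and tends to `0` along the diagonal, so
it is `0`. `good_block`, `CC_block`. With `h = hf γ`, `G = Gf γ`: `G_00 = γ_22` etc.,
`(Gf γ p).det = rho2 γ p` (`γ` is symmetric), so `Ends γ` gives the hypotheses of `core_block`; for `hK`:
`-gip (hf γ) (log γ_22 / 2) (log γ_33 / 2) = KK γ` by `hf_inv`.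
-/

set_option autoImplicit false

namespace Pool.Agent.T2S4

open Matrix Filter Topology
open scoped ContDiff

private theorem Core_twist {Λ : ℝ} {γ : ℝ × ℝ → M4} (h : Good Λ γ)
    (htw : ∀ i : Fin 2, Tendsto (fun s : ℝ => twist γ (fib i) (s, s)) atBot (𝓝 0))
    (i : Fin 2) (p : ℝ × ℝ) : twist γ (fib i) p = 0 := by
  have hi : fib i = 2 ∨ fib i = 3 := by
    fin_cases i
    · exact Or.inl rfl
    · exact Or.inr rfl
  have h1 : (fun s : ℝ => twist γ (fib i) (s, s)) = fun _ => twist γ (fib i) p :=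
    funext fun s => twist_const h hi (s, s) p
  have h2 := htw i
  rw [h1] at h2
  exact tendsto_nhds_unique tendsto_const_nhds h2

private theorem Core_det {γ : ℝ × ℝ → M4} (hp : ∀ p, (γ p).PosDef) (p : ℝ × ℝ) :
    (Gf γ p).det = rho2 γ p := by
  have h1 : γ p 3 2 = γ p 2 3 := by
    have h2 := (hp p).isHermitian.apply 3 2
    simpa using h2.symm
  rw [Matrix.det_fin_two]
  change γ p 2 2 * γ p 3 3 - γ p 2 3 * γ p 3 2 = rho2 γ p
  rw [h1, rho2]
  ring

theorem core {Λ : ℝ} {γ : ℝ × ℝ → M4} (h : Good Λ γ)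
    (htw : ∀ i : Fin 2, Tendsto (fun s : ℝ => twist γ (fib i) (s, s)) atBot (𝓝 0))
    (hE : Ends γ) : 0 < Λ ∧ ∀ p, CC (Λ / 3) bas γ p := by
  have htw' := Core_twist h htw
  have hdet := Core_det h.pos
  have hdet' : (fun p => (Gf γ p).det) = rho2 γ := funext hdet
  have hg := good_block h htw'
  have hK : ∀ p, -gip (hf γ) (fun q => Real.log (Gf γ q 0 0) / 2)
      (fun q => Real.log (Gf γ q 1 1) / 2) p = KK γ p := by
    intro p
    unfold gip KK
    refine congrArg Neg.neg (Finset.sum_congr rfl fun a _ => Finset.sum_congr rfl fun b _ => ?_)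
    rw [hf_inv (h.pos p)]
    rfl
  have hcb := core_block hg
    (by
      refine hE.B.congr fun q => ?_
      rw [hdet]
      rfl)
    (by
      refine hE.sg.congr fun q => ?_
      rw [hdet]
      rfl)
    hE.ph1 hE.ph2
    (by
      intro c
      refine (hE.K c).congr fun p => ?_
      rw [hK, hdet]
      rfl)
  exact ⟨hcb.1, fun p => CC_block h htw' p (hcb.2 p)⟩

end Pool.Agent.T2S4
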