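import Pool.Agent.T2S4.DiagChr

/-!
# The Einstein equations of the diagonal metric

PACKAGE. Prove the theorem (helper lemmas allowed, private or prefixed by `DiagSys_`).

The metric is `diag(e^{2α_i})`, `α_0 = -ν, α_1 = -σ-ν, α_2 = (σ-φ)/2, α_3 = (σ+φ)/2`; `X_2 = X_3 = 0`,
`X_0 φ = 1, X_1 φ = 0` on `O`; write `f_x = X_0 f, f_y = X_1 f`; `f_xy = f_yx` (`ld_comm`). From `chrV_dm`
(the Christoffel symbols; the derivative of `e^{2α_i - 2α_k} X_k α_i` by the product rule) the Ricci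
tensor of a diagonal metric is, with `∂_2 = ∂_3 = 0`:
`R_01 = ∑ k=2,3, (α_0,y α_k,x + α_1,x α_k,y - α_k,x α_k,y - α_k,xy)`,
`R_ii = - ∑ k≠i, (α_k,ii + α_k,i² - α_i,i α_k,i)
   - ∑ k≠i, e^{2α_i-2α_k} (α_i,kk + α_i,k² - α_i,k α_k,k + α_i,k ∑ m≠i,k, α_m,k)`.
With `α_2 + α_3 = σ`, `∑ k=2,3 α_k,x² = (σ_x² + 1)/2`, `∑ α_k,y² = σ_y²/2`, `∑ α_k,x α_k,y = σ_x σ_y / 2`,
`e^{-2α_0} = e^{2ν}`, `e^{-2α_1} = e^{2ν+2σ}`, `∑ α_i = -2ν`:
* `R_01 = 0` is the equation `B`: `σ_xy = -ν_y σ_x - ν_x σ_y - (3/2) σ_x σ_y`.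
* `R_22 = 3c e^{2α_2}` and `R_33`: `e^{2ν}(α_k,xx + e^{2σ}(α_k,yy + 2 σ_y α_k,y)) = -3c`, the sum is `A`.
* Let `K' = -e^{2ν}(α_1,xx + α_1,x² - α_0,x α_1,x) - e^{2ν+2σ}(α_0,yy + α_0,y² - α_0,y α_1,y)`
  `= e^{2ν}(σ_xx + ν_xx - σ_x(σ_x + ν_x)) + e^{2ν+2σ}(ν_yy + ν_y σ_y)`. Then
  `R_00 e^{-2α_0} = K' - e^{2ν}(σ_xx + σ_x²/2 + 1/2 + ν_x σ_x) + e^{2ν+2σ} ν_y σ_y = 3c`,
  `R_11 e^{-2α_1} = K' - e^{2ν+2σ}(σ_yy + σ_y²/2 + (σ_y + ν_y) σ_y) + e^{2ν}(σ_x + ν_x) σ_x = 3c`.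
  The sum of the two together with `A` gives
  `2 K' = -(e^{2ν}(σ_x² - 1) + e^{2ν+2σ} σ_y²)/2 = 2 KA`, i.e. `K' = KA` (field `K`), then `R0`, `R1`.
-/

set_option autoImplicit false

namespace Pool.Agent.T2S4

open Matrix Filter Topology
open scoped ContDiff

variable {E : Type} [NormedAddCommGroup E] [NormedSpace ℝ E]

private theorem DiagSys_da {O : Set E} (hO : IsOpen O) {f : E → ℝ} (hf : ContDiffOn ℝ ∞ f O) {x : E}
    (hx : x ∈ O) : DifferentiableAt ℝ f x :=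
  (hf.contDiffAt (hO.mem_nhds hx)).differentiableAt (by simp)

private theorem DiagSys_congr (X : E → E) {f g : E → ℝ} {x : E} (h : f =ᶠ[nhds x] g) :
    ld X f x = ld X g x := by
  unfold ld
  rw [h.fderiv_eq]

private theorem DiagSys_add (X : E → E) {f g : E → ℝ} {x : E} (hf : DifferentiableAt ℝ f x)
    (hg : DifferentiableAt ℝ g x) : ld X (fun y => f y + g y) x = ld X f x + ld X g x := by
  have h : HasFDerivAt (fun y => f y + g y) (fderiv ℝ f x + fderiv ℝ g x) x :=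
    hf.hasFDerivAt.add hg.hasFDerivAt
  unfold ld
  rw [h.fderiv]
  rfl

private theorem DiagSys_sub (X : E → E) {f g : E → ℝ} {x : E} (hf : DifferentiableAt ℝ f x)
    (hg : DifferentiableAt ℝ g x) : ld X (fun y => f y - g y) x = ld X f x - ld X g x := by
  have h : HasFDerivAt (fun y => f y - g y) (fderiv ℝ f x - fderiv ℝ g x) x :=
    hf.hasFDerivAt.sub hg.hasFDerivAt
  unfold ld
  rw [h.fderiv]
  rfl

private theorem DiagSys_mul (X : E → E) {f g : E → ℝ} {x : E} (hf : DifferentiableAt ℝ f x)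
    (hg : DifferentiableAt ℝ g x) :
    ld X (fun y => f y * g y) x = ld X f x * g x + f x * ld X g x := by
  have h : HasFDerivAt (fun y => f y * g y) (f x • fderiv ℝ g x + g x • fderiv ℝ f x) x :=
    hf.hasFDerivAt.mul hg.hasFDerivAt
  unfold ld
  rw [h.fderiv]
  simp only [_root_.add_apply, _root_.smul_apply, smul_eq_mul]
  ring

private theorem DiagSys_const (X : E → E) (r : ℝ) (x : E) : ld X (fun _ => r) x = 0 := by
  unfold ld
  rw [fderiv_fun_const]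
  rfl

private theorem DiagSys_smul (X : E → E) {f : E → ℝ} {x : E} (r : ℝ)
    (hf : DifferentiableAt ℝ f x) : ld X (fun y => r * f y) x = r * ld X f x := by
  rw [DiagSys_mul X (differentiableAt_const r) hf, DiagSys_const]
  ring

private theorem DiagSys_exp (X : E → E) {f : E → ℝ} {x : E} (hf : DifferentiableAt ℝ f x) :
    ld X (fun y => Real.exp (f y)) x = Real.exp (f x) * ld X f x := by
  have h : HasFDerivAt (fun y => Real.exp (f y)) (Real.exp (f x) • fderiv ℝ f x) x :=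
    hf.hasFDerivAt.exp
  unfold ld
  rw [h.fderiv]
  rfl

private theorem DiagSys_ite (X : E → E) (f : E → ℝ) (x : E) (p : Prop) [Decidable p] :
    ld X (fun y => if p then f y else 0) x = if p then ld X f x else 0 := by
  split_ifs with h
  · rfl
  · exact DiagSys_const X 0 x

private theorem DiagSys_dite {f : E → ℝ} {x : E} (p : Prop) [Decidable p]
    (hf : DifferentiableAt ℝ f x) : DifferentiableAt ℝ (fun y => if p then f y else 0) x := by
  split_ifs with h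
  · exact hf
  · exact differentiableAt_const 0

private theorem DiagSys_al {O : Set E} {σ ν φ : E → ℝ}
    (hσ : ContDiffOn ℝ ∞ σ O) (hν : ContDiffOn ℝ ∞ ν O) (hφ : ContDiffOn ℝ ∞ φ O) (k : Fin 4) :
    ContDiffOn ℝ ∞ (al σ ν φ k) O := by
  fin_cases k
  · exact hν.neg
  · exact hσ.neg.sub hν
  · exact (hσ.sub hφ).div_const 2
  · exact (hσ.add hφ).div_const 2

/-- The derivatives of the Christoffel symbols. -/
private theorem DiagSys_chr {O : Set E} {X : Fin 4 → E → E} {σ ν φ : E → ℝ}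
    (hF : Fr O X (dm σ ν φ))
    (hσ : ContDiffOn ℝ ∞ σ O) (hν : ContDiffOn ℝ ∞ ν O) (hφ : ContDiffOn ℝ ∞ φ O) {x : E}
    (hx : x ∈ O) (n k i j : Fin 4) : ld (X n) (chrV X (dm σ ν φ) k i j) x =
      (if k = i then ld (X n) (ld (X j) (al σ ν φ k)) x else 0) +
      (if k = j then ld (X n) (ld (X i) (al σ ν φ k)) x else 0) -
      (if i = j then Real.exp (2 * al σ ν φ i x - 2 * al σ ν φ k x) *
        ((2 * ld (X n) (al σ ν φ i) x - 2 * ld (X n) (al σ ν φ k) x) *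
          ld (X k) (al σ ν φ i) x + ld (X n) (ld (X k) (al σ ν φ i)) x) else 0) := by
  have hO := hF.isOpen
  have dA : ∀ k, DifferentiableAt ℝ (al σ ν φ k) x := fun k =>
    DiagSys_da hO (DiagSys_al hσ hν hφ k) hx
  have dB : ∀ k i, DifferentiableAt ℝ (ld (X i) (al σ ν φ k)) x := fun k i =>
    DiagSys_da hO (ld_smooth hO (hF.smX i) (DiagSys_al hσ hν hφ k)) hx
  have dC : DifferentiableAt ℝ (fun y => 2 * al σ ν φ i y - 2 * al σ ν φ k y) x :=
    ((dA i).const_mul 2).sub ((dA k).const_mul 2)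
  have dD : DifferentiableAt ℝ (fun y => Real.exp (2 * al σ ν φ i y - 2 * al σ ν φ k y)) x :=
    dC.exp
  have h1 : chrV X (dm σ ν φ) k i j =ᶠ[nhds x] fun y =>
      (if k = i then ld (X j) (al σ ν φ k) y else 0) +
      (if k = j then ld (X i) (al σ ν φ k) y else 0) -
      (if i = j then Real.exp (2 * al σ ν φ i y - 2 * al σ ν φ k y) * ld (X k) (al σ ν φ i) y
        else 0) := by
    filter_upwards [hO.mem_nhds hx] with y hy
    exact chrV_dm hO hσ hν hφ hy k i j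
  have d1 := DiagSys_dite (k = i) (dB k j)
  have d2 := DiagSys_dite (k = j) (dB k i)
  have d3 := DiagSys_dite (i = j) (dD.fun_mul (dB i k))
  rw [DiagSys_congr _ h1, DiagSys_sub _ (d1.fun_add d2) d3, DiagSys_add _ d1 d2, DiagSys_ite,
    DiagSys_ite, DiagSys_ite, DiagSys_mul _ dD (dB i k), DiagSys_exp _ dC,
    DiagSys_sub _ ((dA i).const_mul 2) ((dA k).const_mul 2), DiagSys_smul _ _ (dA i),
    DiagSys_smul _ _ (dA k)]
  congr 1
  split_ifs
  · ring
  · rfl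

private theorem DiagSys_zero {X : E → E} (h : ∀ x, X x = 0) (f : E → ℝ) (x : E) :
    ld X f x = 0 := by
  unfold ld
  rw [h x]
  exact map_zero _

private theorem DiagSys_zero' {X : E → E} (h : ∀ x, X x = 0) (Y : E → E) (f : E → ℝ) (x : E) :
    ld Y (ld X f) x = 0 := by
  have h1 : ld X f = fun _ => 0 := funext fun y => DiagSys_zero h f y
  rw [h1, DiagSys_const]

/-- The second derivatives of the exponents. -/
private theorem DiagSys_snd {O : Set E} {X : Fin 4 → E → E} {σ ν φ : E → ℝ}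
    (hF : Fr O X (dm σ ν φ))
    (hσ : ContDiffOn ℝ ∞ σ O) (hν : ContDiffOn ℝ ∞ ν O) (hφ : ContDiffOn ℝ ∞ φ O) {x : E}
    (hx : x ∈ O) (n m : Fin 4) {r : ℝ} (hr : ∀ y ∈ O, ld (X m) φ y = r) :
    ld (X n) (ld (X m) (al σ ν φ 0)) x = -ld (X n) (ld (X m) ν) x ∧
    ld (X n) (ld (X m) (al σ ν φ 1)) x =
      -ld (X n) (ld (X m) σ) x - ld (X n) (ld (X m) ν) x ∧
    ld (X n) (ld (X m) (al σ ν φ 2)) x = ld (X n) (ld (X m) σ) x / 2 ∧
    ld (X n) (ld (X m) (al σ ν φ 3)) x = ld (X n) (ld (X m) σ) x / 2 := by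
  have hO := hF.isOpen
  have hn := hO.mem_nhds hx
  have dσ : DifferentiableAt ℝ (ld (X m) σ) x := DiagSys_da hO (ld_smooth hO (hF.smX m) hσ) hx
  have dν : DifferentiableAt ℝ (ld (X m) ν) x := DiagSys_da hO (ld_smooth hO (hF.smX m) hν) hx
  refine ⟨?_, ?_, ?_, ?_⟩
  · have h1 : ld (X m) (al σ ν φ 0) =ᶠ[nhds x] fun y => (-1) * ld (X m) ν y := by
      filter_upwards [hn] with y hy
      rw [(al_ld hO hσ hν hφ hy).1]
      ring
    rw [DiagSys_congr _ h1, DiagSys_smul _ _ dν]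
    ring
  · have h1 : ld (X m) (al σ ν φ 1) =ᶠ[nhds x] fun y =>
        (-1) * ld (X m) σ y + (-1) * ld (X m) ν y := by
      filter_upwards [hn] with y hy
      rw [(al_ld hO hσ hν hφ hy).2.1]
      ring
    rw [DiagSys_congr _ h1, DiagSys_add _ (dσ.const_mul _) (dν.const_mul _),
      DiagSys_smul _ _ dν, DiagSys_smul _ _ dσ]
    ring
  · have h1 : ld (X m) (al σ ν φ 2) =ᶠ[nhds x] fun y => (1 / 2) * ld (X m) σ y - r / 2 := by
      filter_upwards [hn] with y hy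
      rw [(al_ld hO hσ hν hφ hy).2.2.1, hr y hy]
      ring
    rw [DiagSys_congr _ h1, DiagSys_sub _ (dσ.const_mul _) (differentiableAt_const _),
      DiagSys_smul _ _ dσ, DiagSys_const]
    ring
  · have h1 : ld (X m) (al σ ν φ 3) =ᶠ[nhds x] fun y => (1 / 2) * ld (X m) σ y + r / 2 := by
      filter_upwards [hn] with y hy
      rw [(al_ld hO hσ hν hφ hy).2.2.2, hr y hy]
      ring
    rw [DiagSys_congr _ h1, DiagSys_add _ (dσ.const_mul _) (differentiableAt_const _),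
      DiagSys_smul _ _ dσ, DiagSys_const]
    ring

theorem diag_sys {O : Set E} {X : Fin 4 → E → E} {σ ν φ : E → ℝ} {c : ℝ}
    (hF : Fr O X (dm σ ν φ)) (h2 : ∀ x, X 2 x = 0) (h3 : ∀ x, X 3 x = 0)
    (hσ : ContDiffOn ℝ ∞ σ O) (hν : ContDiffOn ℝ ∞ ν O) (hφ : ContDiffOn ℝ ∞ φ O)
    (hx : ∀ x ∈ O, ld (X 0) φ x = 1) (hy : ∀ x ∈ O, ld (X 1) φ x = 0)
    (hE : ∀ x ∈ O, EinV (3 * c) X (dm σ ν φ) x) : ∀ x ∈ O, Sys c (X 0) (X 1) σ ν x := by
  intro x hxO
  have hO := hF.isOpen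
  have z2 : ∀ f : E → ℝ, ∀ y, ld (X 2) f y = 0 := DiagSys_zero h2
  have z3 : ∀ f : E → ℝ, ∀ y, ld (X 3) f y = 0 := DiagSys_zero h3
  have w2 : ∀ (Y : E → E) (f : E → ℝ) y, ld Y (ld (X 2) f) y = 0 := DiagSys_zero' h2
  have w3 : ∀ (Y : E → E) (f : E → ℝ) y, ld Y (ld (X 3) f) y = 0 := DiagSys_zero' h3
  obtain ⟨a00, a10, a20, a30⟩ := al_ld hO (X := X 0) hσ hν hφ hxO
  obtain ⟨a01, a11, a21, a31⟩ := al_ld hO (X := X 1) hσ hν hφ hxO
  rw [hx x hxO] at a20 a30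
  rw [hy x hxO] at a21 a31
  obtain ⟨b000, b001, b002, b003⟩ := DiagSys_snd hF hσ hν hφ hxO 0 0 hx
  obtain ⟨b010, b011, b012, b013⟩ := DiagSys_snd hF hσ hν hφ hxO 0 1 hy
  obtain ⟨b100, b101, b102, b103⟩ := DiagSys_snd hF hσ hν hφ hxO 1 0 hx
  obtain ⟨b110, b111, b112, b113⟩ := DiagSys_snd hF hσ hν hφ hxO 1 1 hy
  have cσ := ld_comm hF hσ hxO 1 0
  have cν := ld_comm hF hν hxO 1 0
  have e01 := hE x hxO 0 1
  have e00 := hE x hxO 0 0
  have e11 := hE x hxO 1 1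
  have e22 := hE x hxO 2 2
  have e33 := hE x hxO 3 3
  have hc : ∀ k i j, chrV X (dm σ ν φ) k i j x = _ := fun k i j =>
    chrV_dm hO hσ hν hφ hxO k i j
  have hd : ∀ n k i j, ld (X n) (chrV X (dm σ ν φ) k i j) x = _ := fun n k i j =>
    DiagSys_chr hF hσ hν hφ hxO n k i j
  have d01 : dm σ ν φ x 0 1 = 0 := Matrix.diagonal_apply_ne _ (by decide)
  have dii : ∀ i, dm σ ν φ x i i = Real.exp (2 * al σ ν φ i x) := fun i =>
    Matrix.diagonal_apply_eq _ i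
  rw [d01] at e01
  rw [dii] at e00 e11 e22 e33
  simp only [ricV, riemV, Fin.sum_univ_four, hd, hc, z2, z3, w2, w3, a00, a10, a20, a30, a01, a11,
    a21, a31, b000, b001, b002, b003, b010, b011, b100, b101, b102, b103, b110, b111,
    b112, b113, cσ, cν] at e01 e00 e11 e22 e33
  simp only [Fin.isValue, Fin.reduceEq, if_true, if_false, sub_self, Real.exp_zero, add_zero,
    zero_add, mul_zero, zero_mul, sub_zero, one_mul] at e01 e00 e11 e22 e33
  have v0 : al σ ν φ 0 x = -ν x := rfl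
  have v1 : al σ ν φ 1 x = -σ x - ν x := rfl
  have v2 : al σ ν φ 2 x = (σ x - φ x) / 2 := rfl
  have v3 : al σ ν φ 3 x = (σ x + φ x) / 2 := rfl
  have q01 : Real.exp (2 * al σ ν φ 0 x - 2 * al σ ν φ 1 x) = Real.exp (2 * σ x) := by
    rw [v0, v1]
    congr 1
    ring
  have q20 : Real.exp (2 * al σ ν φ 2 x - 2 * al σ ν φ 0 x) =
      Real.exp (2 * al σ ν φ 2 x) * Real.exp (2 * ν x) := by
    rw [← Real.exp_add, v0, v2]
    congr 1
    ring
  have q21 : Real.exp (2 * al σ ν φ 2 x - 2 * al σ ν φ 1 x) =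
      Real.exp (2 * al σ ν φ 2 x) * (Real.exp (2 * ν x) * Real.exp (2 * σ x)) := by
    rw [← Real.exp_add, ← Real.exp_add, v1, v2]
    congr 1
    ring
  have q30 : Real.exp (2 * al σ ν φ 3 x - 2 * al σ ν φ 0 x) =
      Real.exp (2 * al σ ν φ 3 x) * Real.exp (2 * ν x) := by
    rw [← Real.exp_add, v0, v3]
    congr 1
    ring
  have q31 : Real.exp (2 * al σ ν φ 3 x - 2 * al σ ν φ 1 x) =
      Real.exp (2 * al σ ν φ 3 x) * (Real.exp (2 * ν x) * Real.exp (2 * σ x)) := by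
    rw [← Real.exp_add, ← Real.exp_add, v1, v3]
    congr 1
    ring
  have ha0 : Real.exp (2 * ν x) * Real.exp (2 * al σ ν φ 0 x) = 1 := by
    rw [← Real.exp_add, v0, ← Real.exp_zero]
    congr 1
    ring
  have ha1 : Real.exp (2 * ν x) * Real.exp (2 * σ x) * Real.exp (2 * al σ ν φ 1 x) = 1 := by
    rw [← Real.exp_add, ← Real.exp_add, v1, ← Real.exp_zero]
    congr 1
    ring
  have hst : Real.exp (2 * σ x) * Real.exp (2 * al σ ν φ 1 x - 2 * al σ ν φ 0 x) = 1 := by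
    rw [← Real.exp_add, v0, v1, ← Real.exp_zero]
    congr 1
    ring
  have hg2 : Real.exp (2 * al σ ν φ 2 x) ≠ 0 := Real.exp_ne_zero _
  have hg3 : Real.exp (2 * al σ ν φ 3 x) ≠ 0 := Real.exp_ne_zero _
  have hexp : Real.exp (2 * ν x + 2 * σ x) = Real.exp (2 * ν x) * Real.exp (2 * σ x) :=
    Real.exp_add _ _
  have hKA : KA (X 0) (X 1) σ ν x = -(Real.exp (2 * ν x) * (ld (X 0) σ x ^ 2 - 1) +
      Real.exp (2 * ν x) * Real.exp (2 * σ x) * ld (X 1) σ x ^ 2) / 4 := by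
    unfold KA
    rw [hexp]
  rw [q01] at e01 e00
  rw [q20, q21] at e22
  rw [q30, q31] at e33
  generalize Real.exp (2 * al σ ν φ 1 x - 2 * al σ ν φ 0 x) = t at *
  generalize Real.exp (2 * al σ ν φ 0 x) = u0 at *
  generalize Real.exp (2 * al σ ν φ 1 x) = u1 at *
  generalize Real.exp (2 * al σ ν φ 2 x) = g2 at *
  generalize Real.exp (2 * al σ ν φ 3 x) = g3 at *
  have key : ∀ sx sy nx ny sxx sxy syy nxx nyy a s kA : ℝ,
      sx = ld (X 0) σ x → sy = ld (X 1) σ x → nx = ld (X 0) ν x → ny = ld (X 1) ν x →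
      sxx = ld (X 0) (ld (X 0) σ) x → sxy = ld (X 0) (ld (X 1) σ) x →
      syy = ld (X 1) (ld (X 1) σ) x → nxx = ld (X 0) (ld (X 0) ν) x →
      nyy = ld (X 1) (ld (X 1) ν) x → a = Real.exp (2 * ν x) → s = Real.exp (2 * σ x) →
      kA = KA (X 0) (X 1) σ ν x →
      a * (sxx + s * (syy + 2 * sy ^ 2)) = -6 * c ∧
      sxy = -ny * sx - nx * sy - 3 / 2 * sx * sy ∧
      kA - a * (sxx + sx ^ 2 / 2 + 1 / 2 + nx * sx) + a * s * (ny * sy) = 3 * c ∧
      kA - a * s * (syy + sy ^ 2 / 2 + (sy + ny) * sy) + a * ((sx + nx) * sx) = 3 * c ∧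
      kA = a * (sxx + nxx - sx * (sx + nx)) + a * s * (nyy + ny * sy) := by
    intro sx sy nx ny sxx sxy syy nxx nyy a s kA h1 h2 h3 h4 h5 h6 h7 h8 h9 h10 h11 h12
    rw [← h1, ← h2, ← h10, ← h11, ← h12] at hKA
    rw [← h10] at ha0 ha1
    rw [← h11] at ha1 hst
    simp only [← h1, ← h2, ← h3, ← h4, ← h5, ← h6, ← h7, ← h8, ← h9, ← h10, ← h11]
      at e01 e00 e11 e22 e33
    have f00 : a * (sxx + nxx - sx * (sx + nx)) + a * s * (nyy + ny * sy) -
        a * (sxx + sx ^ 2 / 2 + 1 / 2 + nx * sx) + a * s * (ny * sy) = 3 * c := by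
      linear_combination a * e00 + 3 * c * ha0
    have f11 : a * (sxx + nxx - sx * (sx + nx)) + a * s * (nyy + ny * sy) -
        a * s * (syy + sy ^ 2 / 2 + (sy + ny) * sy) + a * ((sx + nx) * sx) = 3 * c := by
      linear_combination (a * s) * e11 + 3 * c * ha1 - a * (sxx + nxx) * hst
    have f22 : a * (sxx / 2 + s * (syy / 2 + sy ^ 2)) = -3 * c := by
      refine mul_left_cancel₀ hg2 ?_
      linear_combination (-1) * e22
    have f33 : a * (sxx / 2 + s * (syy / 2 + sy ^ 2)) = -3 * c := by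
      refine mul_left_cancel₀ hg3 ?_
      linear_combination (-1) * e33
    have fA : a * (sxx + s * (syy + 2 * sy ^ 2)) = -6 * c := by
      linear_combination f22 + f33
    have fK : kA = a * (sxx + nxx - sx * (sx + nx)) + a * s * (nyy + ny * sy) := by
      rw [hKA]
      linear_combination (-1 / 2) * (f00 + f11 + fA)
    refine ⟨fA, ?_, ?_, ?_, fK⟩
    · linear_combination (-1) * e01 - ny * (sx + nx) * hst
    · linear_combination f00 + fK
    · linear_combination f11 + fK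
  obtain ⟨k1, k2, k3, k4, k5⟩ := key _ _ _ _ _ _ _ _ _ _ _ _ rfl rfl rfl rfl rfl rfl rfl rfl rfl
    rfl rfl rfl
  rw [← hexp] at k3 k4 k5
  exact ⟨k1, k2, k3, k4, k5⟩

end Pool.Agent.T2S4
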