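import Pool.Agent.T2S4.BlockDefs

/-!
# Unique continuation: definitions

Definitions only (nothing to prove here). `u` solves the elliptic equation `div(A ∇u) = 0` on the
plane, `A 0 = 1`. `Hu`, `Du`, `Su` are integrals over the circle of radius `r`:
`Hu = ∫ ⟨A ν, ν⟩ u² dS`, `Du = ∫ u ⟨A ∇u, ν⟩ dS`, `Su = ∫ ⟨A ∇u, ν⟩² / ⟨A ν, ν⟩ dS`.
-/

set_option autoImplicit false

namespace Pool.Agent.T2S4

open Matrix Filter Topology MeasureTheory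
open scoped ContDiff Real

/-- A solution of an elliptic equation in normal form at the origin. -/
structure UCd (A : ℝ × ℝ → M2) (u : ℝ × ℝ → ℝ) : Prop where
  smA : ∀ i j, ContDiff ℝ ∞ (fun x => A x i j)
  posA : ∀ x, (A x).PosDef
  A0 : A 0 = 1
  smu : ContDiff ℝ ∞ u
  eq : ∀ x, ∑ i, dd i (fun y => ∑ j, A y i j * dd j u y) x = 0

/-- Unit vectors. -/
noncomputable def nu (θ : ℝ) : Fin 2 → ℝ := ![Real.cos θ, Real.sin θ]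

/-- Polar coordinates. -/
noncomputable def ev (r θ : ℝ) : ℝ × ℝ := (r * Real.cos θ, r * Real.sin θ)

/-- The flux of a vector field through the circle of radius `r`. -/
noncomputable def flux (F : Fin 2 → ℝ × ℝ → ℝ) (r : ℝ) : ℝ :=
  ∫ θ in (0 : ℝ)..(2 * π), (∑ i, F i (ev r θ) * nu θ i) * r

/-- The divergence. -/
noncomputable def diver (F : Fin 2 → ℝ × ℝ → ℝ) (x : ℝ × ℝ) : ℝ := ∑ i, dd i (F i) x

/-- `⟨A ν, ν⟩`. -/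
noncomputable def am (A : ℝ × ℝ → M2) (r θ : ℝ) : ℝ :=
  ∑ i, ∑ j, A (ev r θ) i j * nu θ i * nu θ j

/-- `⟨A ∇u, ν⟩`. -/
noncomputable def bm (A : ℝ × ℝ → M2) (u : ℝ × ℝ → ℝ) (r θ : ℝ) : ℝ :=
  ∑ i, ∑ j, A (ev r θ) i j * nu θ i * dd j u (ev r θ)

noncomputable def Hu (A : ℝ × ℝ → M2) (u : ℝ × ℝ → ℝ) (r : ℝ) : ℝ :=
  ∫ θ in (0 : ℝ)..(2 * π), am A r θ * u (ev r θ) ^ 2 * r

noncomputable def Du (A : ℝ × ℝ → M2) (u : ℝ × ℝ → ℝ) (r : ℝ) : ℝ :=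
  ∫ θ in (0 : ℝ)..(2 * π), u (ev r θ) * bm A u r θ * r

noncomputable def Su (A : ℝ × ℝ → M2) (u : ℝ × ℝ → ℝ) (r : ℝ) : ℝ :=
  ∫ θ in (0 : ℝ)..(2 * π), bm A u r θ ^ 2 / am A r θ * r

/-- The Dirichlet density `⟨A ∇u, ∇u⟩`. -/
noncomputable def qm (A : ℝ × ℝ → M2) (u : ℝ × ℝ → ℝ) (x : ℝ × ℝ) : ℝ :=
  ∑ i, ∑ j, A x i j * dd i u x * dd j u x

end Pool.Agent.T2S4
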