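import Pool.Agent.T2S4.Harm
import Pool.Agent.T2S4.UCDefs

/-!
# The leading part of a solution at a critical point

The Taylor polynomials are built by the recursion `Q (n+1) f y = (∑ j, y j Q n (∂_j f) y) / (n+1)`,
so that `∂_i Q (n+1) f = Q n (∂_i f)`. If `m` is the least `n` with `Q n v ≠ 0` then
`v = Q m v + o(‖x‖^m)`, `∂_i ∂_j v = ∂_i ∂_j Q m v + o(‖x‖^(m-2))` and `∂_j v = o(‖x‖^(m-2))`. The
equation in non-divergence form gives `Δ (Q m v) = o(‖x‖^(m-2))`, and this function is homogeneous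
of degree `m-2`, hence zero. `harm_homog` gives `Q m v = Re (c z^m)`.
-/

set_option autoImplicit false

namespace Pool.Agent.T2S4

open Matrix Filter Topology Asymptotics
open scoped ContDiff

private theorem Leading_dd_smooth {f : ℝ × ℝ → ℝ} (hf : ContDiff ℝ ∞ f) (i : Fin 2) :
    ContDiff ℝ ∞ (dd i f) := by
  unfold dd
  exact (hf.fderiv_right (m := ∞) (by norm_num)).clm_apply contDiff_const

private theorem Leading_fd_apply {f : ℝ × ℝ → ℝ} (x w : ℝ × ℝ) :
    fderiv ℝ f x w = w.1 * dd 0 f x + w.2 * dd 1 f x := by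
  have : w = w.1 • bv 0 + w.2 • bv 1 := by
    ext <;> simp [bv]
  conv_lhs => rw [this]
  rw [map_add, map_smul, map_smul]
  rfl

private theorem Leading_dd_comm {f : ℝ × ℝ → ℝ} (hf : ContDiff ℝ ∞ f) (i j : Fin 2) :
    dd i (dd j f) = dd j (dd i f) := by
  funext x
  have hd : DifferentiableAt ℝ (fderiv ℝ f) x :=
    ((hf.fderiv_right (m := ∞) (by norm_num)).differentiable (by norm_num)) x
  have key : ∀ a b : Fin 2, dd a (dd b f) x = fderiv ℝ (fderiv ℝ f) x (bv a) (bv b) := by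
    intro a b
    have : dd b f = fun p => fderiv ℝ f p (bv b) := rfl
    unfold dd
    rw [fderiv_clm_apply hd (differentiableAt_const _)]
    simp
  rw [key, key]
  have hs : IsSymmSndFDerivAt ℝ f x := by
    apply ContDiffAt.isSymmSndFDerivAt (n := ∞) hf.contDiffAt
    simp only [minSmoothness_of_isRCLikeNormedField]
    exact ENat.LEInfty.out
  exact hs.eq _ _

private theorem Leading_dd_zero (i : Fin 2) : dd i (0 : ℝ × ℝ → ℝ) = 0 := by
  funext x
  simp [dd]

/-- The homogeneous parts of the Taylor series. -/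
private noncomputable def Leading_Q : ℕ → (ℝ × ℝ → ℝ) → ℝ × ℝ → ℝ
  | 0, f, _ => f 0
  | n + 1, f, y =>
    (1 / ((n : ℝ) + 1)) * (y.1 * Leading_Q n (dd 0 f) y + y.2 * Leading_Q n (dd 1 f) y)

private theorem Leading_Q_smooth (n : ℕ) : ∀ f : ℝ × ℝ → ℝ, ContDiff ℝ ∞ (Leading_Q n f) := by
  induction n with
  | zero => intro f; exact contDiff_const
  | succ n ih =>
    intro f
    have h0 := ih (dd 0 f)
    have h1 := ih (dd 1 f)
    show ContDiff ℝ ∞ (fun y : ℝ × ℝ =>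
      (1 / ((n : ℝ) + 1)) * (y.1 * Leading_Q n (dd 0 f) y + y.2 * Leading_Q n (dd 1 f) y))
    exact contDiff_const.mul ((contDiff_fst.mul h0).add (contDiff_snd.mul h1))

private theorem Leading_Q_homog (n : ℕ) : ∀ (f : ℝ × ℝ → ℝ) (t : ℝ) (y : ℝ × ℝ),
    Leading_Q n f (t • y) = t ^ n * Leading_Q n f y := by
  induction n with
  | zero => intro f t y; simp [Leading_Q]
  | succ n ih =>
    intro f t y
    simp only [Leading_Q]
    rw [ih, ih]
    simp only [Prod.smul_fst, Prod.smul_snd, smul_eq_mul]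
    ring

private theorem Leading_Q_bound (n : ℕ) : ∀ (f : ℝ × ℝ → ℝ), ∃ C : ℝ, ∀ y : ℝ × ℝ,
    ‖Leading_Q n f y‖ ≤ C * ‖y‖ ^ n := by
  induction n with
  | zero => intro f; exact ⟨‖f 0‖, fun y => by simp [Leading_Q]⟩
  | succ n ih =>
    intro f
    obtain ⟨C0, h0⟩ := ih (dd 0 f)
    obtain ⟨C1, h1⟩ := ih (dd 1 f)
    refine ⟨‖(1 / ((n : ℝ) + 1))‖ * (C0 + C1), fun y => ?_⟩
    simp only [Leading_Q]
    rw [norm_mul, mul_assoc]
    refine mul_le_mul_of_nonneg_left ?_ (norm_nonneg _)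
    have w1 : ‖y.1‖ ≤ ‖y‖ := norm_fst_le y
    have w2 : ‖y.2‖ ≤ ‖y‖ := norm_snd_le y
    calc ‖y.1 * Leading_Q n (dd 0 f) y + y.2 * Leading_Q n (dd 1 f) y‖
        ≤ ‖y.1‖ * ‖Leading_Q n (dd 0 f) y‖ + ‖y.2‖ * ‖Leading_Q n (dd 1 f) y‖ := by
          rw [← norm_mul, ← norm_mul]; exact norm_add_le _ _
      _ ≤ ‖y‖ * (C0 * ‖y‖ ^ n) + ‖y‖ * (C1 * ‖y‖ ^ n) := by
          apply add_le_add
          · exact mul_le_mul w1 (h0 y) (norm_nonneg _) (norm_nonneg _)
          · exact mul_le_mul w2 (h1 y) (norm_nonneg _) (norm_nonneg _)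
      _ = (C0 + C1) * ‖y‖ ^ (n + 1) := by ring

private theorem Leading_Q_succ_has (n : ℕ) (f : ℝ × ℝ → ℝ) (i : Fin 2) (y : ℝ × ℝ) :
    dd i (Leading_Q (n + 1) f) y = (1 / ((n : ℝ) + 1)) *
      (((bv i).1 * Leading_Q n (dd 0 f) y + y.1 * dd i (Leading_Q n (dd 0 f)) y) +
       ((bv i).2 * Leading_Q n (dd 1 f) y + y.2 * dd i (Leading_Q n (dd 1 f)) y)) := by
  have h0 := ((Leading_Q_smooth n (dd 0 f)).differentiable (by norm_num) y).hasFDerivAt
  have h1 := ((Leading_Q_smooth n (dd 1 f)).differentiable (by norm_num) y).hasFDerivAt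
  have hA := (((hasFDerivAt_fst (𝕜 := ℝ) (p := y)).mul h0).add
    ((hasFDerivAt_snd (𝕜 := ℝ) (p := y)).mul h1)).const_mul (1 / ((n : ℝ) + 1))
  have hB : HasFDerivAt (Leading_Q (n + 1) f) _ y := hA
  show fderiv ℝ (Leading_Q (n + 1) f) y (bv i) = (1 / ((n : ℝ) + 1)) *
      (((bv i).1 * Leading_Q n (dd 0 f) y + y.1 * fderiv ℝ (Leading_Q n (dd 0 f)) y (bv i)) +
       ((bv i).2 * Leading_Q n (dd 1 f) y + y.2 * fderiv ℝ (Leading_Q n (dd 1 f)) y (bv i)))
  rw [hB.fderiv]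
  simp
  ring

private theorem Leading_Q_dd (n : ℕ) : ∀ (f : ℝ × ℝ → ℝ), ContDiff ℝ ∞ f → ∀ (i : Fin 2),
    dd i (Leading_Q (n + 1) f) = Leading_Q n (dd i f) := by
  induction n with
  | zero =>
    intro f hf i
    funext y
    rw [Leading_Q_succ_has]
    have hc : ∀ g : ℝ × ℝ → ℝ, dd i (Leading_Q 0 g) y = 0 := by
      intro g
      have : Leading_Q 0 g = fun _ => g 0 := rfl
      rw [this]
      unfold dd
      simp
    rw [hc, hc]
    fin_cases i <;> simp [Leading_Q, bv]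
  | succ n ih =>
    intro f hf i
    funext y
    rw [Leading_Q_succ_has, ih _ (Leading_dd_smooth hf 0), ih _ (Leading_dd_smooth hf 1),
      Leading_dd_comm hf i 0, Leading_dd_comm hf i 1]
    have hE : ((n : ℝ) + 1) * Leading_Q (n + 1) (dd i f) y =
        y.1 * Leading_Q n (dd 0 (dd i f)) y + y.2 * Leading_Q n (dd 1 (dd i f)) y := by
      simp only [Leading_Q]
      have : ((n : ℝ) + 1) ≠ 0 := by positivity
      field_simp
    have hb : (bv i).1 * Leading_Q (n + 1) (dd 0 f) y + (bv i).2 * Leading_Q (n + 1) (dd 1 f) y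
        = Leading_Q (n + 1) (dd i f) y := by
      fin_cases i <;> simp [bv]
    have hn : ((n : ℝ) + 1 + 1) ≠ 0 := by positivity
    push_cast
    rw [one_div, inv_mul_eq_iff_eq_mul₀ hn]
    linarith [hE, hb]

/-- Mean value inequality. -/
private theorem Leading_mv {R : ℝ × ℝ → ℝ} (hR : ContDiff ℝ ∞ R) (h0 : R 0 = 0) (n : ℕ)
    (h : ∀ i, dd i R =o[𝓝 0] (fun x : ℝ × ℝ => ‖x‖ ^ n)) :
    R =o[𝓝 0] (fun x : ℝ × ℝ => ‖x‖ ^ (n + 1)) := by
  rw [isLittleO_iff]
  intro c hc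
  have hc2 : (0 : ℝ) < c / 2 := by positivity
  have e0 := (h 0).def hc2
  have e1 := (h 1).def hc2
  obtain ⟨δ, hδ, hb⟩ := Metric.eventually_nhds_iff_ball.mp (e0.and e1)
  refine Metric.eventually_nhds_iff_ball.mpr ⟨δ, hδ, ?_⟩
  intro x hx
  have hx' : ‖x‖ < δ := by simpa using hx
  have bound : ∀ z ∈ Metric.closedBall (0 : ℝ × ℝ) ‖x‖, ‖fderiv ℝ R z‖ ≤ c * ‖x‖ ^ n := by
    intro z hz
    have hz' : ‖z‖ ≤ ‖x‖ := by simpa using hz
    have hzb : z ∈ Metric.ball (0 : ℝ × ℝ) δ := by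
      simpa using lt_of_le_of_lt hz' hx'
    obtain ⟨b0, b1⟩ := hb z hzb
    have hp : ‖z‖ ^ n ≤ ‖x‖ ^ n := pow_le_pow_left₀ (norm_nonneg _) hz' n
    have hpn : ‖‖z‖ ^ n‖ = ‖z‖ ^ n := by simp
    rw [hpn] at b0 b1
    refine ContinuousLinearMap.opNorm_le_bound _ (by positivity) ?_
    intro w
    rw [Leading_fd_apply]
    have w1 : |w.1| ≤ ‖w‖ := norm_fst_le w
    have w2 : |w.2| ≤ ‖w‖ := norm_snd_le w
    rw [Real.norm_eq_abs] at b0 b1 ⊢
    calc |w.1 * dd 0 R z + w.2 * dd 1 R z| ≤ |w.1| * |dd 0 R z| + |w.2| * |dd 1 R z| := by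
          rw [← abs_mul, ← abs_mul]; exact abs_add_le _ _
      _ ≤ ‖w‖ * (c / 2 * ‖x‖ ^ n) + ‖w‖ * (c / 2 * ‖x‖ ^ n) := by
          apply add_le_add
          · exact mul_le_mul w1 (b0.trans (by gcongr)) (abs_nonneg _) (norm_nonneg _)
          · exact mul_le_mul w2 (b1.trans (by gcongr)) (abs_nonneg _) (norm_nonneg _)
      _ = c * ‖x‖ ^ n * ‖w‖ := by ring
  have hmv := Convex.norm_image_sub_le_of_norm_fderiv_le (𝕜 := ℝ) (f := R)
    (s := Metric.closedBall (0 : ℝ × ℝ) ‖x‖) (C := c * ‖x‖ ^ n) (x := 0) (y := x)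
    (fun z _ => hR.differentiable (by norm_num) z) bound (convex_closedBall _ _)
    (by simp) (by simp)
  rw [h0, sub_zero, sub_zero] at hmv
  calc ‖R x‖ ≤ c * ‖x‖ ^ n * ‖x‖ := hmv
    _ = c * ‖‖x‖ ^ (n + 1)‖ := by
      rw [norm_pow, norm_norm, pow_succ]; ring

private theorem Leading_dd_sub {f g : ℝ × ℝ → ℝ} (hf : ContDiff ℝ ∞ f) (hg : ContDiff ℝ ∞ g)
    (i : Fin 2) : dd i (fun x => f x - g x) = fun x => dd i f x - dd i g x := by
  funext x
  unfold dd
  have := ((hf.differentiable (by norm_num) x).hasFDerivAt.sub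
    (hg.differentiable (by norm_num) x).hasFDerivAt).fderiv
  rw [show (fun x => f x - g x) = f - g from rfl, this]
  rfl

private theorem Leading_dd_sum {ι : Type} (s : Finset ι) {g : ι → ℝ × ℝ → ℝ}
    (hg : ∀ k, ContDiff ℝ ∞ (g k)) (i : Fin 2) :
    dd i (fun x => ∑ k ∈ s, g k x) = fun x => ∑ k ∈ s, dd i (g k) x := by
  funext x
  unfold dd
  have := (HasFDerivAt.fun_sum (u := s) (A := g) (x := x)
    (fun k _ => ((hg k).differentiable (by norm_num) x).hasFDerivAt)).fderiv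
  rw [this]
  simp

/-- Taylor's theorem. -/
private theorem Leading_taylor (n : ℕ) : ∀ f : ℝ × ℝ → ℝ, ContDiff ℝ ∞ f →
    (fun x => f x - ∑ k ∈ Finset.range (n + 1), Leading_Q k f x)
      =o[𝓝 0] (fun x : ℝ × ℝ => ‖x‖ ^ n) := by
  induction n with
  | zero =>
    intro f hf
    simp only [zero_add, Finset.range_one, Finset.sum_singleton, pow_zero]
    rw [isLittleO_one_iff]
    have : Tendsto (fun x => f x - Leading_Q 0 f x) (𝓝 0) (𝓝 (f 0 - f 0)) := by
      exact (hf.continuous.tendsto 0).sub tendsto_const_nhds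
    simpa using this
  | succ n ih =>
    intro f hf
    have hS : ContDiff ℝ ∞ (fun x => ∑ k ∈ Finset.range (n + 1 + 1), Leading_Q k f x) :=
      ContDiff.sum (fun k _ => Leading_Q_smooth k f)
    apply Leading_mv (hf.sub hS)
    · rw [Finset.sum_eq_single 0]
      · simp [Leading_Q]
      · intro k _ hk
        obtain ⟨k, rfl⟩ := Nat.exists_eq_succ_of_ne_zero hk
        simp [Leading_Q]
      · simp
    · intro i
      rw [Leading_dd_sub hf hS, Leading_dd_sum _ (fun k => Leading_Q_smooth k f)]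
      refine (ih (dd i f) (Leading_dd_smooth hf i)).congr_left ?_
      intro x
      show _ = dd i f x - ∑ k ∈ Finset.range (n + 1 + 1), dd i (Leading_Q k f) x
      rw [Finset.sum_range_succ' _ (n + 1)]
      have hc : dd i (Leading_Q 0 f) x = 0 := by
        have : Leading_Q 0 f = fun _ => f 0 := rfl
        rw [this]
        unfold dd
        simp
      rw [hc, add_zero]
      congr 1
      refine Finset.sum_congr rfl fun k _ => ?_
      rw [Leading_Q_dd k f hf i]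

private theorem Leading_taylor' {n : ℕ} {f : ℝ × ℝ → ℝ} (hf : ContDiff ℝ ∞ f)
    (h : ∀ k < n, Leading_Q k f = 0) :
    (fun x => f x - Leading_Q n f x) =o[𝓝 0] (fun x : ℝ × ℝ => ‖x‖ ^ n) := by
  refine (Leading_taylor n f hf).congr_left ?_
  intro x
  rw [Finset.sum_range_succ, Finset.sum_eq_zero, zero_add]
  intro k hk
  rw [h k (Finset.mem_range.mp hk)]
  rfl

/-- If all the Taylor polynomials vanish then all the derivatives vanish. -/
private theorem Leading_iter (n : ℕ) : ∀ f : ℝ × ℝ → ℝ, ContDiff ℝ ∞ f →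
    (∀ k, Leading_Q k f = 0) → iteratedFDeriv ℝ n f 0 = 0 := by
  induction n with
  | zero =>
    intro f hf h
    have h0 : f 0 = 0 := congrFun (h 0) 0
    ext
    simp [iteratedFDeriv_zero_apply, h0]
  | succ n ih =>
    intro f hf h
    have hj : ∀ j : Fin 2, iteratedFDeriv ℝ n (dd j f) 0 = 0 := by
      intro j
      apply ih _ (Leading_dd_smooth hf j)
      intro k
      rw [← Leading_Q_dd k f hf j, h (k + 1), Leading_dd_zero]
    rw [← norm_eq_zero, ← norm_iteratedFDeriv_fderiv, norm_eq_zero]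
    let L : Fin 2 → ℝ × ℝ →L[ℝ] ℝ := ![ContinuousLinearMap.fst ℝ ℝ ℝ, ContinuousLinearMap.snd ℝ ℝ ℝ]
    let T : Fin 2 → ℝ →L[ℝ] (ℝ × ℝ →L[ℝ] ℝ) := fun j =>
      ContinuousLinearMap.smulRight (1 : ℝ →L[ℝ] ℝ) (L j)
    have hfd : fderiv ℝ f = (fun x => (T 0 ∘ dd 0 f) x + (T 1 ∘ dd 1 f) x) := by
      funext x
      ext
      · simp [T, L, dd, bv]
      · simp [T, L, dd, bv]
    rw [hfd]
    have hT : ∀ j, ContDiff ℝ ∞ (T j ∘ dd j f) := fun j =>
      (T j).contDiff.comp (Leading_dd_smooth hf j)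
    rw [show (fun x => (T 0 ∘ dd 0 f) x + (T 1 ∘ dd 1 f) x) = (T 0 ∘ dd 0 f) + (T 1 ∘ dd 1 f)
      from rfl]
    rw [iteratedFDeriv_add_apply ((hT 0).of_le (by exact_mod_cast le_top)).contDiffAt
      ((hT 1).of_le (by exact_mod_cast le_top)).contDiffAt]
    rw [(T 0).iteratedFDeriv_comp_left (Leading_dd_smooth hf 0).contDiffAt
      (by exact_mod_cast le_top),
      (T 1).iteratedFDeriv_comp_left (Leading_dd_smooth hf 1).contDiffAt
      (by exact_mod_cast le_top), hj 0, hj 1]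
    ext w
    · simp
    · simp

private theorem Leading_eq {A : ℝ × ℝ → M2} {v : ℝ × ℝ → ℝ} (h : UCd A v) (x : ℝ × ℝ) :
    dd 0 (dd 0 v) x + dd 1 (dd 1 v) x =
      -(∑ i, ∑ j, (dd i (fun y => A y i j) x * dd j v x +
        (A x i j - (1 : M2) i j) * dd i (dd j v) x)) := by
  have h1 := h.eq x
  have h2 : ∀ i : Fin 2, dd i (fun y => ∑ j, A y i j * dd j v y) x =
      ∑ j, (dd i (fun y => A y i j) x * dd j v x + A x i j * dd i (dd j v) x) := by
    intro i
    have hs : ∀ j ∈ (Finset.univ : Finset (Fin 2)), HasFDerivAt (fun y => A y i j * dd j v y)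
        (A x i j • fderiv ℝ (dd j v) x + dd j v x • fderiv ℝ (fun y => A y i j) x) x := fun j _ =>
      (((h.smA i j).differentiable (by norm_num) x).hasFDerivAt.mul
        ((Leading_dd_smooth h.smu j).differentiable (by norm_num) x).hasFDerivAt)
    have := (HasFDerivAt.fun_sum hs).fderiv
    unfold dd at *
    rw [this]
    simp
    ring
  simp only [h2] at h1
  simp only [Fin.sum_univ_two, Matrix.one_apply] at h1 ⊢
  simp at h1 ⊢
  linarith

theorem leading {A : ℝ × ℝ → M2} {v : ℝ × ℝ → ℝ} (h : UCd A v) (h0 : v 0 = 0)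
    (h1 : fderiv ℝ v 0 = 0) (hn : ∃ n : ℕ, iteratedFDeriv ℝ n v 0 ≠ 0) :
    ∃ (m : ℕ) (c : ℂ), 2 ≤ m ∧ c ≠ 0 ∧
      (fun x : ℝ × ℝ => v x - (c * (⟨x.1, x.2⟩ : ℂ) ^ m).re) =o[𝓝 0]
        (fun x : ℝ × ℝ => ‖x‖ ^ m) := by
  classical
  have hv := h.smu
  have hex : ∃ k, Leading_Q k v ≠ 0 := by
    by_contra hc
    push Not at hc
    obtain ⟨n, hn⟩ := hn
    exact hn (Leading_iter n v hv hc)
  obtain ⟨m, hm, hmin⟩ : ∃ m, Leading_Q m v ≠ 0 ∧ ∀ k < m, Leading_Q k v = 0 :=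
    ⟨Nat.find hex, Nat.find_spec hex, fun k hk => by
      simpa using Nat.find_min hex hk⟩
  have hm2 : 2 ≤ m := by
    rcases m with _ | _ | m
    · exfalso; apply hm; funext x; simp [Leading_Q, h0]
    · exfalso; apply hm; funext x; simp [Leading_Q, dd, h1]
    · omega
  obtain ⟨q, rfl⟩ : ∃ q, m = q + 2 := ⟨m - 2, by omega⟩
  have hd2 : ∀ i j, dd i (dd j (Leading_Q (q + 2) v)) = Leading_Q q (dd i (dd j v)) := by
    intro i j
    rw [Leading_Q_dd (q + 1) v hv j, Leading_Q_dd q (dd j v) (Leading_dd_smooth hv j) i]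
  -- the second derivatives
  have hT2 : ∀ i j, (fun x => dd i (dd j v) x - Leading_Q q (dd i (dd j v)) x)
      =o[𝓝 0] (fun x : ℝ × ℝ => ‖x‖ ^ q) := by
    intro i j
    apply Leading_taylor' (Leading_dd_smooth (Leading_dd_smooth hv j) i)
    intro k hk
    rw [← Leading_Q_dd k _ (Leading_dd_smooth hv j) i, ← Leading_Q_dd (k + 1) v hv j,
      hmin (k + 1 + 1) (by omega), Leading_dd_zero, Leading_dd_zero]
  have hT1 : ∀ j, (dd j v) =o[𝓝 0] (fun x : ℝ × ℝ => ‖x‖ ^ q) := by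
    intro j
    have hz : ∀ k, k < q + 1 → Leading_Q k (dd j v) = 0 := by
      intro k hk
      rw [← Leading_Q_dd k v hv j, hmin (k + 1) (by omega), Leading_dd_zero]
    refine (Leading_taylor' (n := q) (Leading_dd_smooth hv j)
      (fun k hk => hz k (by omega))).congr_left ?_
    intro x
    rw [hz q (by omega)]
    simp
  -- the Laplacian is small
  have hlap : (fun x => dd 0 (dd 0 v) x + dd 1 (dd 1 v) x) =o[𝓝 0]
      (fun x : ℝ × ℝ => ‖x‖ ^ q) := by
    have hterm : ∀ i j, (fun x => dd i (fun y => A y i j) x * dd j v x +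
        (A x i j - (1 : M2) i j) * dd i (dd j v) x) =o[𝓝 0] (fun x : ℝ × ℝ => ‖x‖ ^ q) := by
      intro i j
      apply IsLittleO.add
      · have hO : (dd i (fun y => A y i j)) =O[𝓝 0] (fun _ : ℝ × ℝ => (1 : ℝ)) :=
          ((Leading_dd_smooth (h.smA i j) i).continuous.tendsto 0).isBigO_one ℝ
        simpa using hO.mul_isLittleO (hT1 j)
      · have ho : (fun x => A x i j - (1 : M2) i j) =o[𝓝 0] (fun _ : ℝ × ℝ => (1 : ℝ)) := by
          rw [isLittleO_one_iff]
          have := ((h.smA i j).continuous.tendsto 0).sub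
            (tendsto_const_nhds (x := (1 : M2) i j))
          rw [h.A0, sub_self] at this
          exact this
        have hO : (dd i (dd j v)) =O[𝓝 0] (fun x : ℝ × ℝ => ‖x‖ ^ q) := by
          have hQ : (Leading_Q q (dd i (dd j v))) =O[𝓝 0] (fun x : ℝ × ℝ => ‖x‖ ^ q) := by
            obtain ⟨C, hC⟩ := Leading_Q_bound q (dd i (dd j v))
            refine IsBigO.of_bound C (Eventually.of_forall fun y => ?_)
            rw [norm_pow, norm_norm]
            exact hC y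
          refine ((hT2 i j).isBigO.add hQ).congr_left ?_
          intro x
          ring
        simpa using ho.mul_isBigO hO
    have hsum : (fun x => ∑ i, ∑ j, (dd i (fun y => A y i j) x * dd j v x +
        (A x i j - (1 : M2) i j) * dd i (dd j v) x)) =o[𝓝 0] (fun x : ℝ × ℝ => ‖x‖ ^ q) :=
      IsLittleO.fun_sum (fun i _ => IsLittleO.fun_sum (fun j _ => hterm i j))
    refine hsum.neg_left.congr_left ?_
    intro x
    rw [Leading_eq h x]
  -- the Laplacian of the leading part vanishes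
  have hL : ∀ x, dd 0 (dd 0 (Leading_Q (q + 2) v)) x + dd 1 (dd 1 (Leading_Q (q + 2) v)) x
      = 0 := by
    intro y
    rw [hd2, hd2]
    have hsm : (fun x => Leading_Q q (dd 0 (dd 0 v)) x + Leading_Q q (dd 1 (dd 1 v)) x)
        =o[𝓝 0] (fun x : ℝ × ℝ => ‖x‖ ^ q) := by
      refine (hlap.sub ((hT2 0 0).add (hT2 1 1))).congr_left ?_
      intro x
      ring
    by_contra hne
    set s : ℝ := Leading_Q q (dd 0 (dd 0 v)) y + Leading_Q q (dd 1 (dd 1 v)) y with hs
    have hpos : 0 < |s| := abs_pos.mpr hne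
    -- choose a constant
    have hcpos : 0 < |s| / (2 * (‖y‖ ^ q + 1)) := by positivity
    have hev := hsm.def hcpos
    have htend : Tendsto (fun t : ℝ => t • y) (𝓝 0) (𝓝 0) := by
      have : Tendsto (fun t : ℝ => t • y) (𝓝 0) (𝓝 ((0 : ℝ) • y)) :=
        (continuous_id.smul continuous_const).tendsto 0
      simpa using this
    have hev2 := htend.eventually hev
    obtain ⟨δ, hδ, hb⟩ := Metric.eventually_nhds_iff_ball.mp hev2
    have hb2 := hb (δ / 2) (by simp [abs_of_pos hδ]; linarith [abs_of_pos hδ])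
    rw [Leading_Q_homog, Leading_Q_homog, ← mul_add, ← hs, norm_mul, norm_pow, norm_pow,
      norm_norm, norm_smul, mul_pow] at hb2
    have hdp : 0 < ‖δ / 2‖ ^ q := by
      apply pow_pos
      rw [Real.norm_eq_abs]
      positivity
    have hb3 : ‖s‖ ≤ |s| / (2 * (‖y‖ ^ q + 1)) * ‖y‖ ^ q := by
      have : ‖δ / 2‖ ^ q * ‖s‖ ≤ ‖δ / 2‖ ^ q * (|s| / (2 * (‖y‖ ^ q + 1)) * ‖y‖ ^ q) := by
        calc _ ≤ _ := hb2
          _ = _ := by ring
      exact le_of_mul_le_mul_left this hdp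
    rw [Real.norm_eq_abs] at hb3
    have hy : 0 ≤ ‖y‖ ^ q := by positivity
    have : |s| / (2 * (‖y‖ ^ q + 1)) * ‖y‖ ^ q < |s| := by
      rw [div_mul_eq_mul_div, div_lt_iff₀ (by positivity)]
      nlinarith
    linarith
  obtain ⟨c, hc⟩ := harm_homog (m := q + 2) (by omega) (Leading_Q_smooth (q + 2) v)
    (Leading_Q_homog (q + 2) v) hL
  refine ⟨q + 2, c, by omega, ?_, ?_⟩
  · rintro rfl
    apply hm
    funext x
    rw [hc x]
    simp
  · refine (Leading_taylor' hv hmin).congr_left ?_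
    intro x
    rw [hc x]

end Pool.Agent.T2S4
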