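import Pool.Agent.T2S4.Schur

/-!
# Rules for the Laplace operator of a block metric

PACKAGE. Prove the theorems (helper lemmas allowed, private or prefixed by `LopRules_`).

`vol` is smooth and positive, the entries of `(h p)⁻¹` are smooth. Product rule:
`dd a (vol * ∑ b, (h⁻¹)_ab * dd b f) = ∑ b, dd a (vol (h⁻¹)_ab) dd b f + vol ∑ b, (h⁻¹)_ab dd a (dd b f)`.
`bco` are the coefficients of the first order part. The rules for products, logarithms and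
exponentials follow from the product rule and the chain rule, with the symmetry of `(h p)⁻¹`.
-/

set_option autoImplicit false

namespace Pool.Agent.T2S4

open Matrix Filter Topology
open scoped ContDiff

/-- First order coefficients of `Lop`. -/
noncomputable def bco (h G : ℝ × ℝ → M2) (b : Fin 2) (p : ℝ × ℝ) : ℝ :=
  (vol h G p)⁻¹ * ∑ a, dd a (fun q => vol h G q * (h q)⁻¹ a b) p

private theorem lr_diff {f : ℝ × ℝ → ℝ} (hf : ContDiff ℝ ∞ f) (p : ℝ × ℝ) :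
    DifferentiableAt ℝ f p := (hf.differentiable (by simp)) p

private theorem lr_add {f k : ℝ × ℝ → ℝ} (hf : ContDiff ℝ ∞ f) (hk : ContDiff ℝ ∞ k)
    (a : Fin 2) (p : ℝ × ℝ) : dd a (fun q => f q + k q) p = dd a f p + dd a k p := by
  unfold dd
  rw [fderiv_fun_add (lr_diff hf p) (lr_diff hk p)]
  rfl

private theorem lr_mul {f k : ℝ × ℝ → ℝ} (hf : ContDiff ℝ ∞ f) (hk : ContDiff ℝ ∞ k)
    (a : Fin 2) (p : ℝ × ℝ) : dd a (fun q => f q * k q) p = f p * dd a k p + k p * dd a f p := by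
  unfold dd
  rw [fderiv_fun_mul (lr_diff hf p) (lr_diff hk p)]
  rfl

private theorem lr_smul {f : ℝ × ℝ → ℝ} (hf : ContDiff ℝ ∞ f) (c : ℝ)
    (a : Fin 2) (p : ℝ × ℝ) : dd a (fun q => c * f q) p = c * dd a f p := by
  unfold dd
  rw [fderiv_const_mul (lr_diff hf p)]
  rfl

private theorem lr_log {f : ℝ × ℝ → ℝ} (hf : ContDiff ℝ ∞ f) (hpos : ∀ q, 0 < f q)
    (a : Fin 2) (p : ℝ × ℝ) : dd a (fun q => Real.log (f q)) p = (f p)⁻¹ * dd a f p := by
  unfold dd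
  rw [fderiv.log (lr_diff hf p) (hpos p).ne']
  rfl

private theorem lr_sm {f : ℝ × ℝ → ℝ} (hf : ContDiff ℝ ∞ f) (a : Fin 2) :
    ContDiff ℝ ∞ (dd a f) := by
  unfold dd
  exact (hf.fderiv_right (m := ∞) (by simp)).clm_apply contDiff_const

theorem vol_pos {Λ : ℝ} {h G : ℝ × ℝ → M2} (hg : GoodB Λ h G) (p : ℝ × ℝ) : 0 < vol h G p :=
  Real.sqrt_pos.2 (mul_pos (hg.posh p).det_pos (hg.posG p).det_pos)

private theorem lr_det {h : ℝ × ℝ → M2} (hs : ∀ i j, ContDiff ℝ ∞ (fun p => h p i j)) :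
    ContDiff ℝ ∞ (fun p => (h p).det) := by
  have e : (fun p => (h p).det) = fun p => h p 0 0 * h p 1 1 - h p 0 1 * h p 1 0 := by
    funext p
    exact Matrix.det_fin_two _
  rw [e]
  exact ((hs 0 0).mul (hs 1 1)).sub ((hs 0 1).mul (hs 1 0))

theorem vol_smooth {Λ : ℝ} {h G : ℝ × ℝ → M2} (hg : GoodB Λ h G) :
    ContDiff ℝ ∞ (vol h G) := by
  unfold vol
  exact ((lr_det hg.smh).mul (lr_det hg.smG)).sqrt fun p =>
    (mul_pos (hg.posh p).det_pos (hg.posG p).det_pos).ne'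

theorem hinv_smooth {Λ : ℝ} {h G : ℝ × ℝ → M2} (hg : GoodB Λ h G) (a b : Fin 2) :
    ContDiff ℝ ∞ (fun p => (h p)⁻¹ a b) := by
  have hd : ContDiff ℝ ∞ (fun p => ((h p).det)⁻¹) :=
    (lr_det hg.smh).inv fun p => (hg.posh p).det_pos.ne'
  have e : ∀ p, (h p)⁻¹ = ((h p).det)⁻¹ • !![h p 1 1, -h p 0 1; -h p 1 0, h p 0 0] := by
    intro p
    rw [Matrix.inv_def, Matrix.adjugate_fin_two, Ring.inverse_eq_inv']
  have e2 : (fun p => (h p)⁻¹ a b) = fun p => ((h p).det)⁻¹ *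
      (!![h p 1 1, -h p 0 1; -h p 1 0, h p 0 0] : M2) a b := by
    funext p
    rw [e p, Matrix.smul_apply, smul_eq_mul]
  rw [e2]
  refine hd.mul ?_
  fin_cases a <;> fin_cases b
  · exact hg.smh 1 1
  · exact (hg.smh 0 1).neg
  · exact (hg.smh 1 0).neg
  · exact hg.smh 0 0

theorem hinv_pos {Λ : ℝ} {h G : ℝ × ℝ → M2} (hg : GoodB Λ h G) (p : ℝ × ℝ) :
    ((h p)⁻¹).PosDef := (hg.posh p).inv

private theorem lr_hsymm {Λ : ℝ} {h G : ℝ × ℝ → M2} (hg : GoodB Λ h G) (p : ℝ × ℝ) :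
    (h p)⁻¹ 1 0 = (h p)⁻¹ 0 1 := by
  have h1 := (hinv_pos hg p).isHermitian.apply 0 1
  simpa using h1

theorem bco_smooth {Λ : ℝ} {h G : ℝ × ℝ → M2} (hg : GoodB Λ h G) (b : Fin 2) :
    ContDiff ℝ ∞ (bco h G b) := by
  unfold bco
  refine ((vol_smooth hg).inv fun p => (vol_pos hg p).ne').mul ?_
  exact ContDiff.sum fun a _ => lr_sm ((vol_smooth hg).mul (hinv_smooth hg a b)) a

theorem Lop_eq {Λ : ℝ} {h G : ℝ × ℝ → M2} (hg : GoodB Λ h G) {f : ℝ × ℝ → ℝ}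
    (hf : ContDiff ℝ ∞ f) (p : ℝ × ℝ) :
    Lop h G f p = Lnd (fun q => (h q)⁻¹) (bco h G) f p := by
  have hv := (vol_pos hg p).ne'
  have hvs := vol_smooth hg
  have key : ∀ a, dd a (fun q => vol h G q * ∑ b, (h q)⁻¹ a b * dd b f q) p =
      ∑ b, (dd a (fun q => vol h G q * (h q)⁻¹ a b) p * dd b f p +
        vol h G p * (h p)⁻¹ a b * dd a (dd b f) p) := by
    intro a
    have e : (fun q => vol h G q * ∑ b, (h q)⁻¹ a b * dd b f q) = fun q =>
        (vol h G q * (h q)⁻¹ a 0) * dd 0 f q + (vol h G q * (h q)⁻¹ a 1) * dd 1 f q := by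
      funext q
      rw [Fin.sum_univ_two]
      ring
    have s0 : ContDiff ℝ ∞ (fun q => vol h G q * (h q)⁻¹ a 0) := hvs.mul (hinv_smooth hg a 0)
    have s1 : ContDiff ℝ ∞ (fun q => vol h G q * (h q)⁻¹ a 1) := hvs.mul (hinv_smooth hg a 1)
    rw [e, lr_add (s0.mul (lr_sm hf 0)) (s1.mul (lr_sm hf 1)), lr_mul s0 (lr_sm hf 0),
      lr_mul s1 (lr_sm hf 1), Fin.sum_univ_two]
    ring
  unfold Lop Lnd bco
  rw [Finset.sum_congr rfl fun a _ => key a]
  simp only [Fin.sum_univ_two]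
  field_simp
  ring

theorem gip_symm {Λ : ℝ} {h G : ℝ × ℝ → M2} (hg : GoodB Λ h G) (f k : ℝ × ℝ → ℝ) (p : ℝ × ℝ) :
    gip h f k p = gip h k f p := by
  unfold gip
  simp only [Fin.sum_univ_two]
  rw [lr_hsymm hg p]
  ring

theorem gip_self {Λ : ℝ} {h G : ℝ × ℝ → M2} (hg : GoodB Λ h G) (f : ℝ × ℝ → ℝ) (p : ℝ × ℝ) :
    0 ≤ gip h f f p := by
  have h1 := (hinv_pos hg p).posSemidef.dotProduct_mulVec_nonneg ![dd 0 f p, dd 1 f p]
  unfold gip
  simp only [Fin.sum_univ_two]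
  simp only [dotProduct, Matrix.mulVec, Fin.sum_univ_two, star_trivial, Matrix.cons_val_zero,
    Matrix.cons_val_one] at h1
  nlinarith [h1]

theorem Lop_add {Λ : ℝ} {h G : ℝ × ℝ → M2} (hg : GoodB Λ h G) {f k : ℝ × ℝ → ℝ}
    (hf : ContDiff ℝ ∞ f) (hk : ContDiff ℝ ∞ k) (p : ℝ × ℝ) :
    Lop h G (fun q => f q + k q) p = Lop h G f p + Lop h G k p := by
  rw [Lop_eq hg (hf.add hk), Lop_eq hg hf, Lop_eq hg hk]
  have e1 : ∀ b, dd b (fun q => f q + k q) = fun q => dd b f q + dd b k q := fun b =>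
    funext fun q => lr_add hf hk b q
  unfold Lnd
  simp only [e1, Fin.sum_univ_two, lr_add (lr_sm hf 0) (lr_sm hk 0),
    lr_add (lr_sm hf 1) (lr_sm hk 1)]
  ring

theorem Lop_smul {Λ : ℝ} {h G : ℝ × ℝ → M2} (hg : GoodB Λ h G) {f : ℝ × ℝ → ℝ}
    (hf : ContDiff ℝ ∞ f) (c : ℝ) (p : ℝ × ℝ) :
    Lop h G (fun q => c * f q) p = c * Lop h G f p := by
  rw [Lop_eq hg (contDiff_const.mul hf), Lop_eq hg hf]
  have e1 : ∀ b, dd b (fun q => c * f q) = fun q => c * dd b f q := fun b =>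
    funext fun q => lr_smul hf c b q
  unfold Lnd
  simp only [e1, Fin.sum_univ_two, lr_smul (lr_sm hf 0), lr_smul (lr_sm hf 1)]
  ring

theorem Lop_mul {Λ : ℝ} {h G : ℝ × ℝ → M2} (hg : GoodB Λ h G) {f k : ℝ × ℝ → ℝ}
    (hf : ContDiff ℝ ∞ f) (hk : ContDiff ℝ ∞ k) (p : ℝ × ℝ) :
    Lop h G (fun q => f q * k q) p =
      f p * Lop h G k p + k p * Lop h G f p + 2 * gip h f k p := by
  rw [Lop_eq hg (hf.mul hk), Lop_eq hg hf, Lop_eq hg hk]
  have e1 : ∀ b, dd b (fun q => f q * k q) = fun q => f q * dd b k q + k q * dd b f q := fun b =>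
    funext fun q => lr_mul hf hk b q
  have e2 : ∀ a b, dd a (fun q => f q * dd b k q + k q * dd b f q) p =
      (f p * dd a (dd b k) p + dd b k p * dd a f p) +
        (k p * dd a (dd b f) p + dd b f p * dd a k p) := by
    intro a b
    rw [lr_add (hf.mul (lr_sm hk b)) (hk.mul (lr_sm hf b)), lr_mul hf (lr_sm hk b),
      lr_mul hk (lr_sm hf b)]
  unfold Lnd gip
  simp only [e1, e2, Fin.sum_univ_two]
  rw [lr_hsymm hg p]
  ring

theorem Lop_log {Λ : ℝ} {h G : ℝ × ℝ → M2} (hg : GoodB Λ h G) {f : ℝ × ℝ → ℝ}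
    (hf : ContDiff ℝ ∞ f) (hpos : ∀ q, 0 < f q) (p : ℝ × ℝ) :
    Lop h G (fun q => Real.log (f q)) p = Lop h G f p / f p - gip h f f p / f p ^ 2 := by
  have hne := (hpos p).ne'
  have hl : ContDiff ℝ ∞ (fun q => Real.log (f q)) := hf.log fun q => (hpos q).ne'
  have hi : ContDiff ℝ ∞ (fun q => (f q)⁻¹) := hf.inv fun q => (hpos q).ne'
  rw [Lop_eq hg hl, Lop_eq hg hf]
  have e1 : ∀ b, dd b (fun q => Real.log (f q)) = fun q => (f q)⁻¹ * dd b f q := fun b =>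
    funext fun q => lr_log hf hpos b q
  have e0 : ∀ a, dd a (fun q => (f q)⁻¹) p = -(dd a f p) / f p ^ 2 := by
    intro a
    have h1 := lr_mul hf hi a p
    have h2 : (fun q => f q * (f q)⁻¹) = fun _ => (1 : ℝ) := by
      funext q
      exact mul_inv_cancel₀ (hpos q).ne'
    rw [h2] at h1
    have h3 : dd a (fun _ : ℝ × ℝ => (1 : ℝ)) p = 0 := by
      unfold dd
      simp
    rw [h3] at h1
    field_simp at h1 ⊢
    linarith
  have e2 : ∀ a b, dd a (fun q => (f q)⁻¹ * dd b f q) p =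
      (f p)⁻¹ * dd a (dd b f) p + dd b f p * (-(dd a f p) / f p ^ 2) := by
    intro a b
    rw [lr_mul hi (lr_sm hf b), e0]
  unfold Lnd gip
  simp only [e1, e2, Fin.sum_univ_two]
  field_simp
  ring

end Pool.Agent.T2S4
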