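import Pool.Agent.T2S4.BlockDefs
import Pool.Agent.Confl.HalfPlane

/-!
# Four sectors are impossible

`v 0 = 0` (the `o` relation at `x = 0`). Let `c = |c| e^{iδ}`, `θ_k = (k π - δ)/m`, `k = 0, 1, 2, 3`:
`Re (c (r e^{iθ_k})^m) = (-1)^k |c| r^m`, so there is `r₀ > 0` such that `v (r e^{iθ_k})` has the sign
`(-1)^k` for `0 < r ≤ r₀` (the norm of `ℝ × ℝ` is the sup norm, `‖x‖ ≤ r`). Let `a_k = r₀ e^{iθ_k}`. Take a
path from `a_0` to `a_2` in `{v > 0}` and one from `a_1` to `a_3` in `{v < 0}`; they are compact and avoid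
`0`, so there is `0 < r₁ < r₀` such that they avoid the closed (euclidean) disc of radius `r₁`. Let `S`
be the union of the first path and of the segments `{r e^{iθ_k} : r₁ ≤ r ≤ r₀}`, `k = 0, 2`, and `T` the
union of the second path and of the segments for `k = 1, 3`. `S ⊆ {v > 0}`, `T ⊆ {v < 0}`, both in
`{|z| ≥ r₁}`, and on the circle of radius `r₁` they contain only the points of angle `θ_0, θ_2` and
`θ_1, θ_3`. Let `θ_b = θ_0 - π/(2m)`, `w = z / (r₁ e^{iθ_b})`, `M(w) = -i (w + 1)/(w - 1)`: it maps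
`{|w| ≥ 1, w ≠ 1}` injectively to the closed lower half-plane, `e^{iα} ↦ -cot(α/2)`, which is increasing
for `0 < α < 2π`. The four points have `α_k = π/(2m) + k π/m ∈ (0, 2π)` (`m ≥ 2`). So the images of `S` and
`T` under `M` join interlacing real points and `Pool.Agent.Confl.joined_cross` gives a common point:
a contradiction to `v > 0`, `v < 0`. (`Im M(w) = -(|w|² - 1)/|w - 1|² ≤ 0`.)
-/

set_option autoImplicit false

namespace Pool.Agent.T2S4

open Matrix Filter Topology Asymptotics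
open scoped ContDiff

/-- the Cayley map -/
private noncomputable def Sector_M (b z : ℂ) : ℂ := -Complex.I * (z + b) / (z - b)

private theorem Sector_im {b z : ℂ} (h : ‖b‖ ≤ ‖z‖) : (Sector_M b z).im ≤ 0 := by
  have h1 : (Sector_M b z).im =
      -(Complex.normSq z - Complex.normSq b) / Complex.normSq (z - b) := by
    unfold Sector_M
    rw [Complex.div_im]
    simp only [Complex.neg_re, Complex.neg_im, Complex.mul_re, Complex.mul_im, Complex.I_re,
      Complex.I_im, Complex.add_re, Complex.add_im, Complex.sub_re, Complex.sub_im]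
    rw [← sub_div]
    congr 1
    simp only [Complex.normSq_apply]
    ring
  rw [h1]
  have h2 : Complex.normSq b ≤ Complex.normSq z := by
    rw [Complex.normSq_eq_norm_sq, Complex.normSq_eq_norm_sq]
    have := norm_nonneg b
    gcongr
  exact div_nonpos_of_nonpos_of_nonneg (by linarith) (Complex.normSq_nonneg _)

private theorem Sector_inj {b z w : ℂ} (hb : b ≠ 0) (hz : z ≠ b) (hw : w ≠ b)
    (h : Sector_M b z = Sector_M b w) : z = w := by
  unfold Sector_M at h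
  rw [div_eq_div_iff (sub_ne_zero.2 hz) (sub_ne_zero.2 hw)] at h
  have h1 : (2 * Complex.I * b) * (z - w) = 0 := by linear_combination h
  rcases mul_eq_zero.1 h1 with h2 | h2
  · exfalso
    exact (mul_ne_zero (mul_ne_zero two_ne_zero Complex.I_ne_zero) hb) h2
  · exact sub_eq_zero.1 h2

private theorem Sector_val {b : ℂ} (hb : b ≠ 0) {β : ℝ} (h : Real.sin β ≠ 0) :
    b * Complex.exp ((2 * β : ℝ) * Complex.I) ≠ b ∧
    Sector_M b (b * Complex.exp ((2 * β : ℝ) * Complex.I)) =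
      ((-(Real.cos β / Real.sin β) : ℝ) : ℂ) := by
  have hs : (Real.sin β : ℂ) ≠ 0 := by exact_mod_cast h
  have h1 : Complex.exp ((2 * β : ℝ) * Complex.I) = (Real.cos β + Real.sin β * Complex.I) ^ 2 := by
    have : ((2 * β : ℝ) : ℂ) * Complex.I = β * Complex.I + β * Complex.I := by push_cast; ring
    rw [this, Complex.exp_add, Complex.exp_mul_I, ← Complex.ofReal_cos, ← Complex.ofReal_sin]
    ring
  have h2 : (Real.cos β : ℂ) ^ 2 + (Real.sin β : ℂ) ^ 2 = 1 := by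
    exact_mod_cast Real.cos_sq_add_sin_sq β
  have hI : Complex.I ^ 2 = -1 := Complex.I_sq
  set C : ℂ := (Real.cos β : ℂ) with hC
  set S : ℂ := (Real.sin β : ℂ) with hS
  set H : ℂ := C + S * Complex.I with hH
  have hHne : H ≠ 0 := by
    intro h0
    have h3 : (C + S * Complex.I) * (C - S * Complex.I) = 1 := by
      linear_combination h2 - S ^ 2 * hI
    rw [← hH, h0, zero_mul] at h3
    exact zero_ne_one h3
  have h4 : b * H ^ 2 - b = b * (2 * Complex.I * S * H) := by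
    rw [hH]
    linear_combination b * h2 + (-b * S ^ 2) * hI
  have h5 : b * H ^ 2 + b = b * (2 * C * H) := by
    rw [hH]
    linear_combination (-b) * h2 + b * S ^ 2 * hI
  have hne : b * H ^ 2 - b ≠ 0 := by
    rw [h4]
    exact mul_ne_zero hb (mul_ne_zero (mul_ne_zero (mul_ne_zero two_ne_zero Complex.I_ne_zero) hs)
      hHne)
  rw [h1]
  refine ⟨fun h6 => hne (by rw [h6, sub_self]), ?_⟩
  unfold Sector_M
  rw [div_eq_iff hne, h4, h5]
  rw [Complex.ofReal_neg, Complex.ofReal_div, ← hC, ← hS]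
  field_simp

private theorem Sector_cot {x y : ℝ} (hx : 0 < x) (hxy : x < y) (hy : y < Real.pi) :
    -(Real.cos x / Real.sin x) < -(Real.cos y / Real.sin y) := by
  have h1 : 0 < Real.sin x := Real.sin_pos_of_pos_of_lt_pi hx (hxy.trans hy)
  have h2 : 0 < Real.sin y := Real.sin_pos_of_pos_of_lt_pi (hx.trans hxy) hy
  have h3 : 0 < Real.sin (y - x) := Real.sin_pos_of_pos_of_lt_pi (by linarith) (by linarith)
  rw [Real.sin_sub] at h3
  rw [neg_lt_neg_iff, div_lt_div_iff₀ h2 h1]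
  linarith

private theorem Sector_seg {S : Set ℂ} {e : ℂ} {r s : ℝ} (hrs : r ≤ s)
    (h : ∀ t : ℝ, r ≤ t → t ≤ s → (t : ℂ) * e ∈ S) :
    JoinedIn S ((r : ℂ) * e) ((s : ℂ) * e) := by
  refine JoinedIn.ofLine (f := fun t : ℝ => ((r + t * (s - r) : ℝ) : ℂ) * e) ?_ ?_ ?_ ?_
  · exact (by fun_prop : Continuous fun t : ℝ => ((r + t * (s - r) : ℝ) : ℂ) * e).continuousOn
  · simp
  · simp
  · rintro _ ⟨t, ht, rfl⟩
    exact h _ (by nlinarith [ht.1, ht.2]) (by nlinarith [ht.1, ht.2])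

/-- a path which avoids `0` stays away from a disc -/
private theorem Sector_away {S : Set (ℝ × ℝ)} {x y : ℝ × ℝ} (h : JoinedIn S x y)
    (h0 : (0 : ℝ × ℝ) ∉ S) : ∃ r : ℝ, 0 < r ∧ JoinedIn {z : ℂ | (z.re, z.im) ∈ S ∧ r < ‖z‖}
      (⟨x.1, x.2⟩ : ℂ) (⟨y.1, y.2⟩ : ℂ) := by
  set ψ : ℝ × ℝ → ℂ := fun p => ⟨p.1, p.2⟩ with hψ
  have hψc : Continuous ψ := Complex.equivRealProdCLM.symm.continuous
  set γ := h.somePath with hγ
  have hcomp : IsCompact (Set.range fun t => ‖ψ (γ t)‖) :=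
    isCompact_range (by fun_prop)
  obtain ⟨t₀, -, ht₀⟩ := isCompact_univ.exists_isMinOn (Set.univ_nonempty)
    (f := fun t : unitInterval => ‖ψ (γ t)‖) (by fun_prop)
  have hpos : 0 < ‖ψ (γ t₀)‖ := by
    rw [norm_pos_iff]
    intro h1
    apply h0
    have h2 : γ t₀ = 0 := by
      have h3 := congrArg Complex.re h1
      have h4 := congrArg Complex.im h1
      exact Prod.ext h3 h4
    rw [← h2]
    exact h.somePath_mem t₀
  refine ⟨‖ψ (γ t₀)‖ / 2, by positivity, ⟨γ.map hψc, fun t => ⟨?_, ?_⟩⟩⟩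
  · exact h.somePath_mem t
  · have h1 : ‖ψ (γ t₀)‖ ≤ ‖ψ (γ t)‖ := ht₀ (Set.mem_univ t)
    change _ < ‖ψ (γ t)‖
    linarith

/-- the signs near the origin -/
private theorem Sector_sign {v : ℝ × ℝ → ℝ} {m : ℕ} {c : ℂ} (hc0 : c ≠ 0)
    (ha : (fun x : ℝ × ℝ => v x - (c * (⟨x.1, x.2⟩ : ℂ) ^ m).re) =o[𝓝 0]
      (fun x : ℝ × ℝ => ‖x‖ ^ m)) :
    ∃ r₀ : ℝ, 0 < r₀ ∧ ∀ (t θ : ℝ), 0 < t → t ≤ r₀ → ∀ s : ℝ, (s = 1 ∨ s = -1) →
      c * Complex.exp (θ * Complex.I) ^ m = ((s * ‖c‖ : ℝ) : ℂ) →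
      0 < s * v (((t : ℂ) * Complex.exp (θ * Complex.I)).re,
        ((t : ℂ) * Complex.exp (θ * Complex.I)).im) := by
  have hcp : 0 < ‖c‖ := norm_pos_iff.2 hc0
  have h1 := ha.def (half_pos hcp)
  rw [Metric.eventually_nhds_iff] at h1
  obtain ⟨ε, hε, h2⟩ := h1
  refine ⟨ε / 2, by positivity, fun t θ ht htr s hs hcs => ?_⟩
  set z : ℂ := (t : ℂ) * Complex.exp (θ * Complex.I) with hz
  have hnz : ‖z‖ = t := by
    rw [hz, norm_mul, Complex.norm_exp_ofReal_mul_I, mul_one, Complex.norm_real, Real.norm_eq_abs,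
      abs_of_pos ht]
  have hsup : ‖((z.re, z.im) : ℝ × ℝ)‖ ≤ t := by
    rw [Prod.norm_def, ← hnz]
    exact max_le (Complex.abs_re_le_norm z) (Complex.abs_im_le_norm z)
  have h3 := h2 (y := ((z.re, z.im) : ℝ × ℝ)) (by
    rw [dist_zero_right]
    linarith)
  have h4 : (⟨((z.re, z.im) : ℝ × ℝ).1, ((z.re, z.im) : ℝ × ℝ).2⟩ : ℂ) = z := rfl
  rw [h4] at h3
  have h5 : (c * z ^ m).re = s * ‖c‖ * t ^ m := by
    have : c * z ^ m = ((s * ‖c‖ * t ^ m : ℝ) : ℂ) := by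
      rw [hz, mul_pow]
      have e : c * ((t : ℂ) ^ m * Complex.exp (θ * Complex.I) ^ m) =
        (c * Complex.exp (θ * Complex.I) ^ m) * (t : ℂ) ^ m := by ring
      rw [e, hcs]
      push_cast
      ring
    rw [this, Complex.ofReal_re]
  rw [h5, Real.norm_eq_abs, Real.norm_eq_abs, abs_of_nonneg (by positivity :
    (0 : ℝ) ≤ ‖((z.re, z.im) : ℝ × ℝ)‖ ^ m)] at h3
  have h6 : ‖((z.re, z.im) : ℝ × ℝ)‖ ^ m ≤ t ^ m := pow_le_pow_left₀ (norm_nonneg _) hsup m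
  have h7 : |v (z.re, z.im) - s * ‖c‖ * t ^ m| ≤ ‖c‖ / 2 * t ^ m :=
    h3.trans (mul_le_mul_of_nonneg_left h6 (by positivity))
  have h8 : 0 < t ^ m := pow_pos ht m
  have h9 : 0 < ‖c‖ * t ^ m := mul_pos hcp h8
  obtain ⟨h10, h11⟩ := abs_le.1 h7
  rcases hs with rfl | rfl
  · nlinarith
  · nlinarith

/-- the endpoints joined outside a disc -/
private theorem Sector_join {S : Set (ℝ × ℝ)} {e e' : ℂ} {r₀ : ℝ} (he : ‖e‖ = 1) (he' : ‖e'‖ = 1)
    (h : JoinedIn S (((r₀ : ℂ) * e).re, ((r₀ : ℂ) * e).im) (((r₀ : ℂ) * e').re, ((r₀ : ℂ) * e').im))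
    (h0 : (0 : ℝ × ℝ) ∉ S) (hr₀ : 0 < r₀)
    (h1 : ∀ t : ℝ, 0 < t → t ≤ r₀ → (((t : ℂ) * e).re, ((t : ℂ) * e).im) ∈ S)
    (h2 : ∀ t : ℝ, 0 < t → t ≤ r₀ → (((t : ℂ) * e').re, ((t : ℂ) * e').im) ∈ S) :
    ∃ r₁ : ℝ, 0 < r₁ ∧ ∀ r : ℝ, 0 < r → r ≤ r₁ → ∀ b : ℂ, ‖b‖ = r → (r : ℂ) * e ≠ b →
      (r : ℂ) * e' ≠ b →
      JoinedIn {z : ℂ | (z.re, z.im) ∈ S ∧ r ≤ ‖z‖ ∧ z ≠ b} ((r : ℂ) * e) ((r : ℂ) * e') := by
  obtain ⟨r₁, hr₁, h3⟩ := Sector_away h h0
  have hn : ∀ (f : ℂ), ‖f‖ = 1 → ∀ t : ℝ, 0 < t → ‖(t : ℂ) * f‖ = t := by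
    intro f hf t ht
    rw [norm_mul, hf, mul_one, Complex.norm_real, Real.norm_eq_abs, abs_of_pos ht]
  refine ⟨min r₁ r₀, lt_min hr₁ hr₀, fun r hr hrr b hb hb1 hb2 => ?_⟩
  have hr1 : r ≤ r₁ := hrr.trans (min_le_left _ _)
  have hr0 : r ≤ r₀ := hrr.trans (min_le_right _ _)
  have hseg : ∀ f : ℂ, ‖f‖ = 1 → (r : ℂ) * f ≠ b →
      (∀ t : ℝ, 0 < t → t ≤ r₀ → (((t : ℂ) * f).re, ((t : ℂ) * f).im) ∈ S) →
      JoinedIn {z : ℂ | (z.re, z.im) ∈ S ∧ r ≤ ‖z‖ ∧ z ≠ b} ((r : ℂ) * f) ((r₀ : ℂ) * f) := by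
    intro f hf hfb hfS
    refine Sector_seg hr0 fun t ht1 ht2 => ?_
    have htp : 0 < t := hr.trans_le ht1
    refine ⟨hfS t htp ht2, by rw [hn f hf t htp]; exact ht1, ?_⟩
    intro h4
    have h5 := hn f hf t htp
    rw [h4, hb] at h5
    rw [← h5] at h4
    exact hfb h4
  refine (hseg e he hb1 h1).trans (JoinedIn.trans ?_ (hseg e' he' hb2 h2).symm)
  refine JoinedIn.mono h3 ?_
  rintro z ⟨hz1, hz2⟩
  refine ⟨hz1, by linarith, ?_⟩
  rintro rfl
  linarith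

theorem no_sectors {v : ℝ × ℝ → ℝ} (hc : Continuous v) {m : ℕ} (hm : 2 ≤ m) {c : ℂ} (hc0 : c ≠ 0)
    (ha : (fun x : ℝ × ℝ => v x - (c * (⟨x.1, x.2⟩ : ℂ) ^ m).re) =o[𝓝 0]
      (fun x : ℝ × ℝ => ‖x‖ ^ m))
    (hp : ∀ x y, 0 < v x → 0 < v y → JoinedIn {z | 0 < v z} x y)
    (hn : ∀ x y, v x < 0 → v y < 0 → JoinedIn {z | v z < 0} x y) : False := by
  have hm0 : (0 : ℝ) < m := by
    have : 0 < m := by omega
    exact_mod_cast this
  have hm2 : (2 : ℝ) ≤ m := by exact_mod_cast hm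
  have hπ := Real.pi_pos
  obtain ⟨r₀, hr₀, hsign⟩ := Sector_sign hc0 ha
  -- the value at the origin
  have hv0 : v 0 = 0 := by
    have h1 := ha.def (zero_lt_one' ℝ)
    have h2 := h1.self_of_nhds
    have h3 : (⟨(0 : ℝ × ℝ).1, (0 : ℝ × ℝ).2⟩ : ℂ) = 0 := rfl
    rw [h3, zero_pow (by omega), norm_zero, zero_pow (by omega), mul_zero, Complex.zero_re,
      sub_zero, norm_zero, mul_zero] at h2
    exact norm_le_zero_iff.1 h2
  -- the four directions
  set δ : ℝ := Complex.arg c with hδ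
  set θ : ℕ → ℝ := fun k => (k * Real.pi - δ) / m with hθ
  set E : ℕ → ℂ := fun k => Complex.exp ((θ k : ℝ) * Complex.I) with hE
  have hEn : ∀ k, ‖E k‖ = 1 := fun k => Complex.norm_exp_ofReal_mul_I _
  have hEc : ∀ k, c * E k ^ m = (((-1) ^ k * ‖c‖ : ℝ) : ℂ) := by
    intro k
    have h1 : E k ^ m = Complex.exp (((k * Real.pi - δ : ℝ) : ℂ) * Complex.I) := by
      rw [hE, ← Complex.exp_nat_mul]
      congr 1
      rw [hθ]
      push_cast
      have hmc : (m : ℂ) ≠ 0 := by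
        have : m ≠ 0 := by omega
        exact_mod_cast this
      field_simp
    have h2 : c = (‖c‖ : ℂ) * Complex.exp ((δ : ℂ) * Complex.I) :=
      (Complex.norm_mul_exp_arg_mul_I c).symm
    have h3 : Complex.exp ((δ : ℂ) * Complex.I) *
        Complex.exp (((k * Real.pi - δ : ℝ) : ℂ) * Complex.I) = (-1) ^ k := by
      rw [← Complex.exp_add]
      have : (δ : ℂ) * Complex.I + ((k * Real.pi - δ : ℝ) : ℂ) * Complex.I =
          (k : ℂ) * (Real.pi * Complex.I) := by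
        push_cast
        ring
      rw [this, Complex.exp_nat_mul, Complex.exp_pi_mul_I]
    rw [h1]
    calc c * Complex.exp (((k * Real.pi - δ : ℝ) : ℂ) * Complex.I)
        = (‖c‖ : ℂ) * (Complex.exp ((δ : ℂ) * Complex.I) *
          Complex.exp (((k * Real.pi - δ : ℝ) : ℂ) * Complex.I)) := by
          conv_lhs => rw [h2]
          ring
      _ = _ := by
          rw [h3]
          push_cast
          ring
  have hs : ∀ (k : ℕ) (t : ℝ), 0 < t → t ≤ r₀ →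
      0 < (-1 : ℝ) ^ k * v (((t : ℂ) * E k).re, ((t : ℂ) * E k).im) := fun k t ht1 ht2 =>
    hsign t (θ k) ht1 ht2 ((-1) ^ k) (neg_one_pow_eq_or ℝ k) (hEc k)
  have hsp : ∀ (k : ℕ) (t : ℝ), k = 0 ∨ k = 2 → 0 < t → t ≤ r₀ →
      (((t : ℂ) * E k).re, ((t : ℂ) * E k).im) ∈ {z : ℝ × ℝ | 0 < v z} := by
    intro k t hk ht1 ht2
    have h1 := hs k t ht1 ht2
    rcases hk with rfl | rfl
    · simpa using h1
    · simpa using h1
  have hsn : ∀ (k : ℕ) (t : ℝ), k = 1 ∨ k = 3 → 0 < t → t ≤ r₀ →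
      (((t : ℂ) * E k).re, ((t : ℂ) * E k).im) ∈ {z : ℝ × ℝ | v z < 0} := by
    intro k t hk ht1 ht2
    have h1 := hs k t ht1 ht2
    rcases hk with rfl | rfl
    · have h2 : (-1 : ℝ) ^ 1 = -1 := by norm_num
      rw [h2] at h1
      change v _ < 0
      linarith
    · have h2 : (-1 : ℝ) ^ 3 = -1 := by norm_num
      rw [h2] at h1
      change v _ < 0
      linarith
  obtain ⟨r₁, hr₁, hjp⟩ := Sector_join (hEn 0) (hEn 2)
    (hp _ _ (hsp 0 r₀ (Or.inl rfl) hr₀ le_rfl) (hsp 2 r₀ (Or.inr rfl) hr₀ le_rfl))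
    (by change ¬ (0 < v 0); rw [hv0]; exact lt_irrefl _) hr₀ (fun t => hsp 0 t (Or.inl rfl))
    (fun t => hsp 2 t (Or.inr rfl))
  obtain ⟨r₂, hr₂, hjn⟩ := Sector_join (hEn 1) (hEn 3)
    (hn _ _ (hsn 1 r₀ (Or.inl rfl) hr₀ le_rfl) (hsn 3 r₀ (Or.inr rfl) hr₀ le_rfl))
    (by change ¬ (v 0 < 0); rw [hv0]; exact lt_irrefl _) hr₀ (fun t => hsn 1 t (Or.inl rfl))
    (fun t => hsn 3 t (Or.inr rfl))
  set r : ℝ := min r₁ r₂ with hr
  have hrp : 0 < r := lt_min hr₁ hr₂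
  set b : ℂ := (r : ℂ) * Complex.exp (((θ 0 - Real.pi / (2 * m) : ℝ) : ℂ) * Complex.I) with hb
  have hbn : ‖b‖ = r := by
    rw [hb, norm_mul, Complex.norm_exp_ofReal_mul_I, mul_one, Complex.norm_real, Real.norm_eq_abs,
      abs_of_pos hrp]
  have hb0 : b ≠ 0 := by
    rw [← norm_pos_iff, hbn]
    exact hrp
  -- the half angles
  set β : ℕ → ℝ := fun k => (2 * k + 1) * Real.pi / (4 * m) with hβ
  have hrE : ∀ k, (r : ℂ) * E k = b * Complex.exp ((2 * β k : ℝ) * Complex.I) := by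
    intro k
    rw [hb, mul_assoc, ← Complex.exp_add]
    congr 1
    change Complex.exp _ = _
    congr 1
    rw [hβ, hθ]
    push_cast
    field_simp
    ring
  have hβpos : ∀ k, 0 < β k := fun k => by
    rw [hβ]
    positivity
  have hβmono : ∀ k l, k < l → β k < β l := by
    intro k l hkl
    have h1 : (k : ℝ) < l := by exact_mod_cast hkl
    rw [hβ]
    simp only
    gcongr
  have hβlt : ∀ k, k ≤ 3 → β k < Real.pi := by
    intro k hk
    have h1 : (k : ℝ) ≤ 3 := by exact_mod_cast hk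
    rw [hβ]
    simp only
    rw [div_lt_iff₀ (by positivity)]
    nlinarith
  have hsin : ∀ k, k ≤ 3 → Real.sin (β k) ≠ 0 := fun k hk =>
    (Real.sin_pos_of_pos_of_lt_pi (hβpos k) (hβlt k hk)).ne'
  have hval : ∀ k, k ≤ 3 → (r : ℂ) * E k ≠ b ∧
      Sector_M b ((r : ℂ) * E k) = ((-(Real.cos (β k) / Real.sin (β k)) : ℝ) : ℂ) := by
    intro k hk
    rw [hrE]
    exact Sector_val hb0 (hsin k hk)
  have hcont : ∀ S : Set (ℝ × ℝ),
      ContinuousOn (Sector_M b) {z : ℂ | (z.re, z.im) ∈ S ∧ r ≤ ‖z‖ ∧ z ≠ b} := by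
    intro S z hz
    refine ContinuousAt.continuousWithinAt ?_
    unfold Sector_M
    exact ContinuousAt.div (by fun_prop) (by fun_prop) (sub_ne_zero.2 hz.2.2)
  have hP := (hjp r hrp (min_le_left _ _) b hbn (hval 0 (by omega)).1
    (hval 2 (by omega)).1).map_continuousOn (hcont _)
  have hN := (hjn r hrp (min_le_right _ _) b hbn (hval 1 (by omega)).1
    (hval 3 (by omega)).1).map_continuousOn (hcont _)
  rw [(hval 0 (by omega)).2, (hval 2 (by omega)).2] at hP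
  rw [(hval 1 (by omega)).2, (hval 3 (by omega)).2] at hN
  obtain ⟨w, ⟨z, hz, hzw⟩, ⟨z', hz', hzw'⟩⟩ := Pool.Agent.Confl.joined_cross
    (Sector_cot (hβpos 0) (hβmono 0 1 (by omega)) (hβlt 1 (by omega)))
    (Sector_cot (hβpos 1) (hβmono 1 2 (by omega)) (hβlt 2 (by omega)))
    (Sector_cot (hβpos 2) (hβmono 2 3 (by omega)) (hβlt 3 (by omega)))
    (by
      rintro _ ⟨z, hz, rfl⟩
      exact Sector_im (by rw [hbn]; exact hz.2.1))
    (by
      rintro _ ⟨z, hz, rfl⟩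
      exact Sector_im (by rw [hbn]; exact hz.2.1)) hP hN
  have h1 : z = z' := Sector_inj hb0 hz.2.2 hz'.2.2 (hzw.trans hzw'.symm)
  have h2 : 0 < v (z.re, z.im) := hz.1
  have h3 : v (z'.re, z'.im) < 0 := hz'.1
  rw [h1] at h2
  exact lt_asymm h2 h3

end Pool.Agent.T2S4
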