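import Pool.Agent.T2S4.UC
import Pool.Agent.T2S4.Leading
import Pool.Agent.T2S4.Sector
import Pool.Agent.T2S4.Comp
import Pool.Agent.T2S4.LopRules

/-!
# The function `φ` has no critical point

`Lop h G φ = 0` says (multiply by `vol`) that `∑ a, dd a (∑ b, A_ab dd b φ) = 0` with
`A_ab = vol (h⁻¹)_ab`, smooth and positive definite. Suppose `dd 0 φ p = dd 1 φ p = 0`. Let
`u = φ - φ p`. Not all derivatives of `u` vanish at `p`: otherwise `u = 0` everywhere (`unique_cont`), but
`φ(0, t) ≥ t - C` is unbounded. `exists_normal` at `p`: `v y = u (p + L y)`, `UCd A' v`, `v 0 = 0`,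
`Dv(0) = 0`, and some `iteratedFDeriv` of `v` at `0` is not `0` (composition with the affine
isomorphism). `leading` gives `m ≥ 2, c ≠ 0`. `{v > 0}` and `{v < 0}` are the preimages of `{φ > φ p}`,
`{φ < φ p}` under a homeomorphism, hence path connected: `joined_super`, `joined_sub` (with
`a = h⁻¹, b = bco h G`, `Lop_eq`). `no_sectors`.
-/

set_option autoImplicit false

namespace Pool.Agent.T2S4

open Matrix Filter Topology Asymptotics
open scoped ContDiff

private theorem NoCrit_fderiv {φ : ℝ × ℝ → ℝ} {p : ℝ × ℝ} (h0 : dd 0 φ p = 0) (h1 : dd 1 φ p = 0) :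
    fderiv ℝ φ p = 0 := by
  ext
  · simpa [dd, bv] using h0
  · simpa [dd, bv] using h1

private theorem NoCrit_gip {Λ : ℝ} {h G : ℝ × ℝ → M2} (hg : GoodB Λ h G) {φ : ℝ × ℝ → ℝ}
    {p : ℝ × ℝ} (hn : ¬ 0 < gip h φ φ p) : dd 0 φ p = 0 ∧ dd 1 φ p = 0 := by
  set w : Fin 2 → ℝ := fun i => dd i φ p with hw
  have hw0 : w = 0 := by
    by_contra hne
    apply hn
    have h1 := (hinv_pos hg p).dotProduct_mulVec_pos hne
    have e : gip h φ φ p = star w ⬝ᵥ ((h p)⁻¹ *ᵥ w) := by
      unfold gip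
      simp only [dotProduct, mulVec, Fin.sum_univ_two, star_trivial, hw]
      ring
    rw [e]
    exact h1
  exact ⟨congrFun hw0 0, congrFun hw0 1⟩

private theorem NoCrit_dd_sub (i : Fin 2) (f : ℝ × ℝ → ℝ) (c : ℝ) :
    dd i (fun x => f x - c) = dd i f := by
  funext x
  unfold dd
  rw [fderiv_sub_const]

theorem no_crit {Λ : ℝ} {h G : ℝ × ℝ → M2} (hg : GoodB Λ h G) {φ : ℝ × ℝ → ℝ}
    (hf : ContDiff ℝ ∞ φ) (hL : ∀ p, Lop h G φ p = 0)
    (h1 : ∃ C : ℝ, ∀ p : ℝ × ℝ, |φ p - (p.2 - p.1)| ≤ C)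
    (h2 : ∀ Y : ℝ, ∃ X : ℝ, ∀ p : ℝ × ℝ, |p.2 - p.1| ≤ Y → X ≤ |p.1 + p.2| →
      0 < dd 1 φ p - dd 0 φ p) (p : ℝ × ℝ) : 0 < gip h φ φ p := by
  by_contra hcon
  obtain ⟨hd0, hd1⟩ := NoCrit_gip hg hcon
  have hfd := NoCrit_fderiv hd0 hd1
  -- the coefficients
  set A : ℝ × ℝ → M2 := fun q => vol h G q • (h q)⁻¹ with hA
  have hAs : ∀ i j, ContDiff ℝ ∞ (fun x => A x i j) := by
    intro i j
    have e : (fun x => A x i j) = fun x => vol h G x * (h x)⁻¹ i j := by
      funext x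
      rw [hA]
      simp
    rw [e]
    exact (vol_smooth hg).mul (hinv_smooth hg i j)
  have hAp : ∀ x, (A x).PosDef := fun x => (hinv_pos hg x).smul (vol_pos hg x)
  set u : ℝ × ℝ → ℝ := fun x => φ x - φ p with hu
  have hus : ContDiff ℝ ∞ u := hf.sub contDiff_const
  have heq : ∀ x, ∑ i, dd i (fun y => ∑ j, A y i j * dd j u y) x = 0 := by
    intro x
    have h3 := hL x
    unfold Lop at h3
    have h4 := (mul_eq_zero.1 h3).resolve_left (inv_ne_zero (vol_pos hg x).ne')
    rw [← h4]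
    refine Finset.sum_congr rfl fun a _ => ?_
    congr 1
    funext y
    rw [Finset.mul_sum]
    refine Finset.sum_congr rfl fun b _ => ?_
    rw [hu, NoCrit_dd_sub, hA]
    simp only [Matrix.smul_apply, smul_eq_mul]
    ring
  -- not all derivatives vanish
  have hne : ¬ ∀ n : ℕ, iteratedFDeriv ℝ n u p = 0 := by
    intro h0
    have h3 := unique_cont hAs hAp hus heq h0
    obtain ⟨C, hC⟩ := h1
    have h4 := hC (0, C + |φ p| + 1)
    have h5 : φ (0, C + |φ p| + 1) = φ p := sub_eq_zero.1 (h3 (0, C + |φ p| + 1))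
    rw [h5] at h4
    have h6 := (abs_le.1 h4).1
    have h7 := le_abs_self (φ p)
    simp only [sub_zero] at h6
    linarith
  obtain ⟨L, A', hUC⟩ := exists_normal hAs hAp hus heq p
  set v : ℝ × ℝ → ℝ := fun y => u (p + L y) with hv
  have hv0 : v 0 = 0 := by
    rw [hv, hu]
    simp
  have hvd : fderiv ℝ v 0 = 0 := by
    have h3 : HasFDerivAt u (0 : ℝ × ℝ →L[ℝ] ℝ) (p + L 0) := by
      have h4 : HasFDerivAt φ (0 : ℝ × ℝ →L[ℝ] ℝ) (p + L 0) := by
        rw [map_zero, add_zero, ← hfd]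
        exact (hf.differentiable (by simp) p).hasFDerivAt
      exact h4.sub_const _
    have h5 : HasFDerivAt (fun y : ℝ × ℝ => p + L y) (L : (ℝ × ℝ) →L[ℝ] (ℝ × ℝ)) 0 :=
      L.hasFDerivAt.const_add p
    have h6 := h3.comp (0 : ℝ × ℝ) h5
    rw [ContinuousLinearMap.zero_comp] at h6
    exact h6.fderiv
  have hvn : ∃ n : ℕ, iteratedFDeriv ℝ n v 0 ≠ 0 := by
    by_contra h3
    push Not at h3
    apply hne
    intro n
    have h4 : (fun z => u (p + z)) = v ∘ (L.symm : (ℝ × ℝ) →L[ℝ] (ℝ × ℝ)) := by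
      funext z
      simp [hv]
    have h5 : iteratedFDeriv ℝ n (fun z => u (p + z)) 0 = 0 := by
      rw [h4, ContinuousLinearMap.iteratedFDeriv_comp_right _ hUC.smu 0 (i := n)
        (by exact_mod_cast le_top)]
      have h6 : (L.symm : (ℝ × ℝ) →L[ℝ] (ℝ × ℝ)) 0 = 0 := map_zero _
      rw [h6, h3 n]
      ext m
      simp
    rw [iteratedFDeriv_comp_add_left, add_zero] at h5
    exact h5
  obtain ⟨m, c, hm, hc, ho⟩ := leading hUC hv0 hvd hvn
  have hback : Continuous (fun z : ℝ × ℝ => L.symm (z - p)) :=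
    L.symm.continuous.comp (continuous_id.sub continuous_const)
  have hb : ∀ x : ℝ × ℝ, L.symm (p + L x - p) = x := by
    intro x
    rw [add_sub_cancel_left, ContinuousLinearEquiv.symm_apply_apply]
  have hb' : ∀ z : ℝ × ℝ, v (L.symm (z - p)) = φ z - φ p := by
    intro z
    rw [hv, hu]
    simp
  have hac : ∀ i j, Continuous (fun p => (fun q => (h q)⁻¹) p i j) := fun i j =>
    (hinv_smooth hg i j).continuous
  have hbc : ∀ i, Continuous (bco h G i) := fun i => (bco_smooth hg i).continuous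
  have hLn : ∀ q, Lnd (fun q => (h q)⁻¹) (bco h G) φ q = 0 := fun q => by
    rw [← Lop_eq hg hf, hL]
  refine no_sectors hUC.smu.continuous hm hc ho ?_ ?_
  · intro x y hx hy
    have hx' : φ p < φ (p + L x) := by
      have : 0 < φ (p + L x) - φ p := hx
      linarith
    have hy' : φ p < φ (p + L y) := by
      have : 0 < φ (p + L y) - φ p := hy
      linarith
    have h3 := (joined_super hac (hinv_pos hg) hbc hf hLn h1 h2 (φ p) hx' hy').map hback
    simp only [hb] at h3
    refine h3.mono ?_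
    rintro _ ⟨z, hz, rfl⟩
    change 0 < v (L.symm (z - p))
    rw [hb']
    exact sub_pos.2 hz
  · intro x y hx hy
    have hx' : φ (p + L x) < φ p := by
      have : φ (p + L x) - φ p < 0 := hx
      linarith
    have hy' : φ (p + L y) < φ p := by
      have : φ (p + L y) - φ p < 0 := hy
      linarith
    have h3 := (joined_sub hac (hinv_pos hg) hbc hf hLn h1 h2 (φ p) hx' hy').map hback
    simp only [hb] at h3
    refine h3.mono ?_
    rintro _ ⟨z, hz, rfl⟩
    change v (L.symm (z - p)) < 0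
    rw [hb']
    exact sub_neg.2 hz

end Pool.Agent.T2S4
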