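import Pool.Agent.T2S4.Diag
import Pool.Agent.T2S4.NoCrit
import Pool.Agent.T2S4.Adapt
import Pool.Agent.T2S4.DiagSys
import Pool.Agent.T2S4.Inv
import Pool.Agent.T2S4.TwistC

/-!
# The Einstein equations in the adapted frame

PACKAGE. Prove the theorem (helper lemmas allowed, private or prefixed by `CoreA_`).

Let `σ = log (det G) / 2`, `φ = log (G_11 / G_00) / 2` (smooth). `B_zero`: `G_01 = 0` (and `G_10 = 0`), so
`G_00 = e^{σ-φ}`, `G_11 = e^{σ+φ}`, `G = gd σ φ`. `Lop_phi` and `no_crit`: `gip h φ φ > 0` everywhere.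
`vol h G = √det h e^σ = wA h σ`, so `Lop h G φ = 0` is the hypothesis `hL` of `chg_adapt`. Take
`X = XA h σ φ`, `P = PA h σ φ`, `ν = nuA h φ`. `Fr Set.univ bas (blk h G)` (`fr_bas`, `blk_posDef`), `Chg.fr` and
`adapt_metric` give `Fr Set.univ X (dm σ ν φ)`; `chg_ein` transfers the Einstein equation, `diag_sys`
gives `Sys` with `c = Λ / 3`. `KA = - gip h (log G_00 / 2) (log G_11 / 2)`: `adapt_gip` with
`log G_00 / 2 = (σ - φ)/2`, `log G_11 / 2 = (σ + φ)/2` and `adapt_x`.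
-/

set_option autoImplicit false

namespace Pool.Agent.T2S4

open Matrix Filter Topology
open scoped ContDiff

private theorem CoreA_ld {X : ℝ × ℝ → ℝ × ℝ} {σ φ : ℝ × ℝ → ℝ} (hσ : ContDiff ℝ ∞ σ)
    (hφ : ContDiff ℝ ∞ φ) (c : ℝ) (p : ℝ × ℝ) :
    ld X (fun q => (σ q + c * φ q) / 2) p = (ld X σ p + c * ld X φ p) / 2 := by
  have h1 : HasFDerivAt σ (fderiv ℝ σ p) p := (hσ.differentiable (by simp) p).hasFDerivAt
  have h2 : HasFDerivAt φ (fderiv ℝ φ p) p := (hφ.differentiable (by simp) p).hasFDerivAt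
  have h3 := ((h1.add (h2.const_mul c)).const_mul (1 / 2)).fderiv
  have h4 : (fun q => (σ q + c * φ q) / 2) = fun q => 1 / 2 * (σ q + c * φ q) := by
    funext q
    ring
  have h5 : fderiv ℝ (fun q => 1 / 2 * (σ q + c * φ q)) p =
      (1 / 2 : ℝ) • (fderiv ℝ σ p + c • fderiv ℝ φ p) := h3
  unfold ld
  rw [h4, h5]
  simp only [_root_.add_apply, _root_.smul_apply, smul_eq_mul]
  ring

private theorem CoreA_blk_smooth {h G : ℝ × ℝ → M2} (hh : ∀ i j, ContDiff ℝ ∞ (fun p => h p i j))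
    (hG : ∀ i j, ContDiff ℝ ∞ (fun p => G p i j)) (i j : Fin 4) :
    ContDiff ℝ ∞ (fun p => blk (h p) (G p) i j) := by
  fin_cases i <;> fin_cases j
  · exact hh 0 0
  · exact hh 0 1
  · exact contDiff_const
  · exact contDiff_const
  · exact hh 1 0
  · exact hh 1 1
  · exact contDiff_const
  · exact contDiff_const
  · exact contDiff_const
  · exact contDiff_const
  · exact hG 0 0
  · exact hG 0 1
  · exact contDiff_const
  · exact contDiff_const
  · exact hG 1 0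
  · exact hG 1 1

theorem core_frame {Λ : ℝ} {h G : ℝ × ℝ → M2} (hg : GoodB Λ h G)
    (hB : Tendsto (fun q => G q 0 1 / √(G q).det) (cocompact (ℝ × ℝ)) (𝓝 0))
    (h1 : ∃ C : ℝ, ∀ p : ℝ × ℝ, |Real.log (G p 1 1 / G p 0 0) / 2 - (p.2 - p.1)| ≤ C)
    (h2 : ∀ Y : ℝ, ∃ X : ℝ, ∀ p : ℝ × ℝ, |p.2 - p.1| ≤ Y → X ≤ |p.1 + p.2| →
      0 < dd 1 (fun q => Real.log (G q 1 1 / G q 0 0) / 2) p -
        dd 0 (fun q => Real.log (G q 1 1 / G q 0 0) / 2) p) :
    ∃ (σ ν φ : ℝ × ℝ → ℝ) (X : Fin 4 → ℝ × ℝ → ℝ × ℝ) (P : ℝ × ℝ → M4),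
      ContDiff ℝ ∞ σ ∧ ContDiff ℝ ∞ ν ∧ ContDiff ℝ ∞ φ ∧
      (∀ p, σ p = Real.log (G p).det / 2) ∧
      Chg Set.univ bas X P ∧ (∀ p, dm σ ν φ p = (P p)ᵀ * blk (h p) (G p) * P p) ∧
      Fr Set.univ bas (fun p => blk (h p) (G p)) ∧ Fr Set.univ X (dm σ ν φ) ∧
      (∀ p, X 2 p = 0) ∧ (∀ p, X 3 p = 0) ∧ (∀ p, ld (X 0) φ p = 1) ∧ (∀ p, ld (X 1) φ p = 0) ∧
      (∀ p, Sys (Λ / 3) (X 0) (X 1) σ ν p) ∧
      ∀ p, KA (X 0) (X 1) σ ν p =
        -gip h (fun q => Real.log (G q 0 0) / 2) (fun q => Real.log (G q 1 1) / 2) p := by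
  have h01 : ∀ p, G p 0 1 = 0 := B_zero hg hB
  have h10 : ∀ p, G p 1 0 = 0 := by
    intro p
    have e := (hg.posG p).isHermitian.apply 0 1
    simp only [star_trivial] at e
    rw [e, h01]
  have g0 : ∀ p, 0 < G p 0 0 := fun p => (hg.posG p).diag_pos
  have g1 : ∀ p, 0 < G p 1 1 := fun p => (hg.posG p).diag_pos
  have gdet : ∀ p, 0 < (G p).det := fun p => (hg.posG p).det_pos
  have edet : ∀ p, (G p).det = G p 0 0 * G p 1 1 := by
    intro p
    rw [Matrix.det_fin_two, h01, zero_mul, sub_zero]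
  obtain ⟨σ, hσd⟩ : ∃ σ : ℝ × ℝ → ℝ, σ = fun p => Real.log (G p).det / 2 := ⟨_, rfl⟩
  obtain ⟨φ, hφd⟩ : ∃ φ : ℝ × ℝ → ℝ, φ = fun q => Real.log (G q 1 1 / G q 0 0) / 2 := ⟨_, rfl⟩
  have hσp : ∀ p, σ p = Real.log (G p).det / 2 := fun p => by rw [hσd]
  have hφp : ∀ p, φ p = Real.log (G p 1 1 / G p 0 0) / 2 := fun p => by rw [hφd]
  have e0 : ∀ p, Real.log (G p 0 0) = σ p - φ p := by
    intro p
    rw [hσp, hφp, edet, Real.log_mul (g0 p).ne' (g1 p).ne', Real.log_div (g1 p).ne' (g0 p).ne']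
    ring
  have e1 : ∀ p, Real.log (G p 1 1) = σ p + φ p := by
    intro p
    rw [hσp, hφp, edet, Real.log_mul (g0 p).ne' (g1 p).ne', Real.log_div (g1 p).ne' (g0 p).ne']
    ring
  have hgd : ∀ p, G p = gd σ φ p := by
    intro p
    have a0 : G p 0 0 = Real.exp (σ p - φ p) := by rw [← e0, Real.exp_log (g0 p)]
    have a1 : G p 1 1 = Real.exp (σ p + φ p) := by rw [← e1, Real.exp_log (g1 p)]
    ext i j
    fin_cases i <;> fin_cases j
    · exact a0
    · exact h01 p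
    · exact h10 p
    · exact a1
  have hσs : ContDiff ℝ ∞ σ := by
    have e : σ = fun p => Real.log (G p 0 0 * G p 1 1) / 2 := by
      funext p
      rw [hσp, edet]
    rw [e]
    exact (((hg.smG 0 0).mul (hg.smG 1 1)).log
      (fun p => (mul_pos (g0 p) (g1 p)).ne')).div_const 2
  have hφs : ContDiff ℝ ∞ φ := by
    rw [hφd]
    exact (((hg.smG 1 1).div (hg.smG 0 0) (fun p => (g0 p).ne')).log
      (fun p => (div_pos (g1 p) (g0 p)).ne')).div_const 2
  have hLop : ∀ p, Lop h G φ p = 0 := by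
    rw [hφd]
    exact Lop_phi hg h01
  have hn : ∀ p, 0 < gip h φ φ p := by
    refine no_crit hg hφs hLop ?_ ?_
    · obtain ⟨C, hC⟩ := h1
      exact ⟨C, fun p => by rw [hφp]; exact hC p⟩
    · rw [hφd]
      exact h2
  have hexp : ∀ p, Real.exp (σ p) = √(G p).det := by
    intro p
    rw [hσp, Real.exp_half, Real.exp_log (gdet p)]
  have hw : ∀ q, wA h σ q = vol h G q := by
    intro q
    unfold wA vol
    rw [hexp, Real.sqrt_mul (hg.posh q).det_pos.le]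
  have hL : ∀ p, ∑ a, dd a (fun q => wA h σ q * gr h φ a q) p = 0 := by
    intro p
    have hh := hLop p
    unfold Lop at hh
    rcases mul_eq_zero.1 hh with h3 | h3
    · exact absurd h3 (inv_pos.2 (vol_pos hg p)).ne'
    · simp only [hw]
      exact h3
  have hchg := chg_adapt hg.smh hg.posh hσs hφs hn hL
  have hfr : Fr Set.univ bas (fun p => blk (h p) (G p)) :=
    fr_bas (CoreA_blk_smooth hg.smh hg.smG) (fun p => blk_posDef (hg.posh p) (hg.posG p))
  have hmet : ∀ p, dm σ (nuA h φ) φ p = (PA h σ φ p)ᵀ * blk (h p) (G p) * PA h σ φ p := by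
    intro p
    rw [hgd p]
    exact (adapt_metric hg.posh hn p).symm
  have hfr2 : Fr Set.univ (XA h σ φ) (dm σ (nuA h φ) φ) :=
    Chg.fr hfr hchg (fun p _ => hmet p)
  have hns := (adapt_smooth hg.smh hg.posh hσs hφs hn).1
  have hein : ∀ x ∈ Set.univ, EinV (3 * (Λ / 3)) (XA h σ φ) (dm σ (nuA h φ) φ) x := by
    intro x hx
    have e3 : 3 * (Λ / 3) = Λ := by ring
    rw [e3, chg_ein hfr hchg (fun p _ => hmet p) hx]
    exact hg.ein x
  refine ⟨σ, nuA h φ, φ, XA h σ φ, PA h σ φ, hσs, hns, hφs, hσp, hchg, hmet, hfr, hfr2,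
    fun _ => rfl, fun _ => rfl, fun p => (adapt_x hn p).1, fun p => (adapt_x hn p).2, ?_, ?_⟩
  · intro p
    exact diag_sys hfr2 (fun _ => rfl) (fun _ => rfl) hσs.contDiffOn hns.contDiffOn
      hφs.contDiffOn (fun x _ => (adapt_x hn x).1) (fun x _ => (adapt_x hn x).2) hein p
      (Set.mem_univ p)
  · intro p
    have f0 : (fun q => Real.log (G q 0 0) / 2) = fun q => (σ q + (-1) * φ q) / 2 := by
      funext q
      rw [e0]
      ring
    have f1 : (fun q => Real.log (G q 1 1) / 2) = fun q => (σ q + 1 * φ q) / 2 := by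
      funext q
      rw [e1]
      ring
    rw [f0, f1, adapt_gip (σ := σ) hg.posh hn]
    simp only [CoreA_ld hσs hφs, (adapt_x hn p).1, (adapt_x hn p).2]
    unfold KA
    ring

end Pool.Agent.T2S4
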