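import Pool.Agent.T2S4.DiagChr

/-!
# Constant curvature of the diagonal metric

PACKAGE. Prove the theorem (helper lemmas allowed, private or prefixed by `DiagCC_`).

Notation of `DiagSys.lean`. The hypotheses: `Sys` on `O` and `KA = c` on `O`, and `u1 : σ_x + ν_x = 0`,
`u2 : ν_y + σ_y / 2 = 0` on `O` (so also their derivatives: `ν_xx = -σ_xx`, `ν_yy = -σ_yy/2`, ...).
The curvature of a diagonal metric `diag(e^{2α_i})` with `∂_2 = ∂_3 = 0`; the only components which can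
be nonzero are (up to the symmetries) those with index pairs `(i, j; i, j)` and `(0, k; 1, k)`:
* `R_0101 / (e^{2α_0} e^{2α_1}) = K' = c` (field `K` of `Sys`),
* for `k = 2, 3`: `R_0k0k / (e^{2α_0} e^{2α_k}) = -e^{-2α_0}(α_k,xx + α_k,x² - α_0,x α_k,x)
    - e^{-2α_1} α_0,y α_k,y`, `R_1k1k / (...) = -e^{-2α_1}(α_k,yy + α_k,y² - α_1,y α_k,y)
    - e^{-2α_0} α_1,x α_k,x`, `R_0k1k / e^{2α_k} = -(α_k,xy + α_k,x α_k,y - α_0,y α_k,x - α_1,x α_k,y)`,
* `R_2323 / (e^{2α_2} e^{2α_3}) = -e^{2ν} α_2,x α_3,x - e^{2ν+2σ} α_2,y α_3,y = KA = c`.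
With `α_0,x = -ν_x = σ_x`, `α_0,y = -ν_y = σ_y/2`, `α_1,x = 0`, `α_1,y = -σ_y/2`,
`α_k,x = (σ_x ∓ 1)/2`, `α_k,y = σ_y/2` and `R0, R1, B` (which say `e^{2ν} σ_xx = -2c + e^{2ν}(σ_x² - 1)/2 -
e^{2ν+2σ} σ_y²/2`, `e^{2ν+2σ}(σ_yy + σ_y²) = -2c`, and `B` with `ν_y = -σ_y/2, ν_x = -σ_x`:
`σ_xy = σ_y σ_x/2 + σ_x σ_y - (3/2) σ_x σ_y = 0`) all sectional components are `c`
and `R_0k1k = -(0 + (σ_x ∓ 1) σ_y/4 - (σ_y/2)(σ_x ∓ 1)/2) = 0`.
(Check for `k = 2`: `-e^{2ν}(σ_xx/2 + (σ_x-1)²/4 - σ_x(σ_x-1)/2) - e^{2ν+2σ} σ_y²/4 = c - e^{2ν}(σ_x²-1)/4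
+ e^{2ν}(σ_x²-1)/4 = c`.)
In the convention of `riemV`: `R^l_{kij}` with `R^l_{kij} = c (δ_li γ_kj - δ_lj γ_ki)`. It is enough to treat
`i < j` (antisymmetry, and `i = j` gives `0`), and for each pair `(i, j)` all `l, k`, from `chrV_dm`.
-/

set_option autoImplicit false

namespace Pool.Agent.T2S4

open Matrix Filter Topology
open scoped ContDiff

variable {E : Type} [NormedAddCommGroup E] [NormedSpace ℝ E]

private noncomputable def DiagCC_A : Fin 4 → Fin 4 → ℝ :=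
  ![![1, 0, 0, 0], ![0, 0, 0, 0], ![1 / 2, 0, 0, 0], ![1 / 2, 0, 0, 0]]

private noncomputable def DiagCC_B : Fin 4 → Fin 4 → ℝ :=
  ![![0, 1 / 2, 0, 0], ![0, -1 / 2, 0, 0], ![0, 1 / 2, 0, 0], ![0, 1 / 2, 0, 0]]

private noncomputable def DiagCC_C : Fin 4 → Fin 4 → ℝ :=
  ![![0, 0, 0, 0], ![0, 0, 0, 0], ![-1 / 2, 0, 0, 0], ![1 / 2, 0, 0, 0]]

private noncomputable def DiagCC_a (s0 s1 : ℝ) (i j : Fin 4) : ℝ :=
  s0 * DiagCC_A i j + s1 * DiagCC_B i j + DiagCC_C i j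

private noncomputable def DiagCC_b (D0 D1 : Fin 4 → ℝ) (i j l : Fin 4) : ℝ :=
  D0 l * DiagCC_A i j + D1 l * DiagCC_B i j

private noncomputable def DiagCC_G (e : Fin 4 → ℝ) (a : Fin 4 → Fin 4 → ℝ) (k i j : Fin 4) : ℝ :=
  (if k = i then a k j else 0) + (if k = j then a k i else 0) -
    (if i = j then e i * (e k)⁻¹ * a i k else 0)

private noncomputable def DiagCC_dG (e : Fin 4 → ℝ) (a : Fin 4 → Fin 4 → ℝ)
    (b : Fin 4 → Fin 4 → Fin 4 → ℝ) (l k i j : Fin 4) : ℝ :=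
  (if k = i then b k j l else 0) + (if k = j then b k i l else 0) -
    (if i = j then e i * (e k)⁻¹ * (2 * (a i l - a k l) * a i k + b i k l) else 0)

private theorem DiagCC_num (p t s0 s1 e2 e3 : ℝ) (hp : p ≠ 0) (ht : t ≠ 0) (h2 : e2 ≠ 0)
    (h3 : e3 ≠ 0) {e D0 D1 : Fin 4 → ℝ} (he : e = ![p⁻¹, (p * t)⁻¹, e2, e3])
    (hD0 : D0 = ![s0 ^ 2 - 1, 0, 0, 0]) (hD1 : D1 = ![0, ((s0 ^ 2 - 1) / t - s1 ^ 2) / 2, 0, 0])
    (l k i j : Fin 4) :
    DiagCC_dG e (DiagCC_a s0 s1) (DiagCC_b D0 D1) i l j k -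
      DiagCC_dG e (DiagCC_a s0 s1) (DiagCC_b D0 D1) j l i k +
      ∑ m, (DiagCC_G e (DiagCC_a s0 s1) l i m * DiagCC_G e (DiagCC_a s0 s1) m j k -
        DiagCC_G e (DiagCC_a s0 s1) l j m * DiagCC_G e (DiagCC_a s0 s1) m i k) =
      -(p * (s0 ^ 2 - 1) + p * t * s1 ^ 2) / 4 *
        ((if l = i then 1 else 0) * (if k = j then e k else 0) -
          (if l = j then 1 else 0) * (if k = i then e k else 0)) := by
  subst he hD0 hD1
  rw [Fin.sum_univ_four]
  fin_cases l <;> fin_cases k <;> fin_cases i <;> fin_cases j <;>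
    simp [DiagCC_dG, DiagCC_G, DiagCC_a, DiagCC_b, DiagCC_A, DiagCC_B, DiagCC_C] <;>
    first
      | done
      | ring1
      | (field_simp; ring1)

/-- `f` is differentiable and its derivative along `X` is `d` -/
private def DiagCC_HL (X : E → E) (f : E → ℝ) (x : E) (d : ℝ) : Prop :=
  DifferentiableAt ℝ f x ∧ ld X f x = d

private theorem DiagCC_HL.add {X : E → E} {f g : E → ℝ} {x : E} {a b : ℝ}
    (hf : DiagCC_HL X f x a) (hg : DiagCC_HL X g x b) :
    DiagCC_HL X (fun y => f y + g y) x (a + b) := by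
  have h : HasFDerivAt (fun y => f y + g y) (fderiv ℝ f x + fderiv ℝ g x) x :=
    hf.1.hasFDerivAt.add hg.1.hasFDerivAt
  refine ⟨h.differentiableAt, ?_⟩
  rw [← hf.2, ← hg.2]
  unfold ld
  rw [h.fderiv]
  rfl

private theorem DiagCC_HL.sub {X : E → E} {f g : E → ℝ} {x : E} {a b : ℝ}
    (hf : DiagCC_HL X f x a) (hg : DiagCC_HL X g x b) :
    DiagCC_HL X (fun y => f y - g y) x (a - b) := by
  have h : HasFDerivAt (fun y => f y - g y) (fderiv ℝ f x - fderiv ℝ g x) x :=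
    hf.1.hasFDerivAt.sub hg.1.hasFDerivAt
  refine ⟨h.differentiableAt, ?_⟩
  rw [← hf.2, ← hg.2]
  unfold ld
  rw [h.fderiv]
  rfl

private theorem DiagCC_HL.mul {X : E → E} {f g : E → ℝ} {x : E} {a b : ℝ}
    (hf : DiagCC_HL X f x a) (hg : DiagCC_HL X g x b) :
    DiagCC_HL X (fun y => f y * g y) x (a * g x + f x * b) := by
  have h : HasFDerivAt (fun y => f y * g y) (f x • fderiv ℝ g x + g x • fderiv ℝ f x) x :=
    hf.1.hasFDerivAt.mul hg.1.hasFDerivAt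
  refine ⟨h.differentiableAt, ?_⟩
  rw [← hf.2, ← hg.2]
  unfold ld
  rw [h.fderiv]
  simp only [ContinuousLinearMap.add_apply, ContinuousLinearMap.smul_apply, smul_eq_mul]
  ring

private theorem DiagCC_HL.const (X : E → E) (c : ℝ) (x : E) :
    DiagCC_HL X (fun _ => c) x 0 := by
  have h : HasFDerivAt (fun _ : E => c) (0 : E →L[ℝ] ℝ) x := hasFDerivAt_const c x
  refine ⟨h.differentiableAt, ?_⟩
  unfold ld
  rw [h.fderiv]
  rfl

private theorem DiagCC_HL.ite {X : E → E} {f : E → ℝ} {x : E} {a : ℝ} (c : Prop) [Decidable c]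
    (hf : DiagCC_HL X f x a) :
    DiagCC_HL X (fun y => if c then f y else 0) x (if c then a else 0) := by
  by_cases h : c
  · simp only [if_pos h]
    exact hf
  · simp only [if_neg h]
    exact DiagCC_HL.const X 0 x

private theorem DiagCC_HL.exp {X : E → E} {f : E → ℝ} {x : E} {a : ℝ}
    (hf : DiagCC_HL X f x a) :
    DiagCC_HL X (fun y => Real.exp (f y)) x (Real.exp (f x) * a) := by
  have h : HasFDerivAt (fun y => Real.exp (f y)) (Real.exp (f x) • fderiv ℝ f x) x :=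
    hf.1.hasFDerivAt.exp
  refine ⟨h.differentiableAt, ?_⟩
  rw [← hf.2]
  unfold ld
  rw [h.fderiv]
  rfl

private theorem DiagCC_HL.of_smooth {O : Set E} (hO : IsOpen O) (X : E → E) {f : E → ℝ}
    (hf : ContDiffOn ℝ ∞ f O) {x : E} (hx : x ∈ O) : DiagCC_HL X f x (ld X f x) :=
  ⟨(hf.contDiffAt (hO.mem_nhds hx)).differentiableAt (by simp), rfl⟩

theorem diag_CC {O : Set E} {X : Fin 4 → E → E} {σ ν φ : E → ℝ} {c : ℝ}
    (hF : Fr O X (dm σ ν φ)) (h2 : ∀ x, X 2 x = 0) (h3 : ∀ x, X 3 x = 0)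
    (hσ : ContDiffOn ℝ ∞ σ O) (hν : ContDiffOn ℝ ∞ ν O) (hφ : ContDiffOn ℝ ∞ φ O)
    (hx : ∀ x ∈ O, ld (X 0) φ x = 1) (hy : ∀ x ∈ O, ld (X 1) φ x = 0)
    (hS : ∀ x ∈ O, Sys c (X 0) (X 1) σ ν x) (hK : ∀ x ∈ O, KA (X 0) (X 1) σ ν x = c)
    (u1 : ∀ x ∈ O, ld (X 0) σ x + ld (X 0) ν x = 0)
    (u2 : ∀ x ∈ O, ld (X 1) ν x + ld (X 1) σ x / 2 = 0) :
    ∀ x ∈ O, CC c X (dm σ ν φ) x := by
  intro x hxO
  have hO := hF.isOpen
  have l2 : ∀ (f : E → ℝ) (y : E), ld (X 2) f y = 0 := by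
    intro f y
    unfold ld
    rw [h2, map_zero]
  have l3 : ∀ (f : E → ℝ) (y : E), ld (X 3) f y = 0 := by
    intro f y
    unfold ld
    rw [h3, map_zero]
  -- first derivatives of the exponents
  have hal : ∀ y ∈ O, ∀ i j : Fin 4, ld (X j) (al σ ν φ i) y =
      DiagCC_a (ld (X 0) σ y) (ld (X 1) σ y) i j := by
    intro y hyO i j
    obtain ⟨a0, a1, a2, a3⟩ := al_ld hO (X := X 0) hσ hν hφ hyO
    obtain ⟨b0, b1, b2, b3⟩ := al_ld hO (X := X 1) hσ hν hφ hyO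
    have e1 := u1 y hyO
    have e2 := u2 y hyO
    have e3 := hx y hyO
    have e4 := hy y hyO
    fin_cases j
    · fin_cases i
      · change ld (X 0) (al σ ν φ 0) y = _
        rw [a0]
        simp [DiagCC_a, DiagCC_A, DiagCC_B, DiagCC_C]
        linarith
      · change ld (X 0) (al σ ν φ 1) y = _
        rw [a1]
        simp [DiagCC_a, DiagCC_A, DiagCC_B, DiagCC_C]
        linarith
      · change ld (X 0) (al σ ν φ 2) y = _
        rw [a2]
        simp [DiagCC_a, DiagCC_A, DiagCC_B, DiagCC_C]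
        linarith
      · change ld (X 0) (al σ ν φ 3) y = _
        rw [a3]
        simp [DiagCC_a, DiagCC_A, DiagCC_B, DiagCC_C]
        linarith
    · fin_cases i
      · change ld (X 1) (al σ ν φ 0) y = _
        rw [b0]
        simp [DiagCC_a, DiagCC_A, DiagCC_B, DiagCC_C]
        linarith
      · change ld (X 1) (al σ ν φ 1) y = _
        rw [b1]
        simp [DiagCC_a, DiagCC_A, DiagCC_B, DiagCC_C]
        linarith
      · change ld (X 1) (al σ ν φ 2) y = _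
        rw [b2]
        simp [DiagCC_a, DiagCC_A, DiagCC_B, DiagCC_C]
        linarith
      · change ld (X 1) (al σ ν φ 3) y = _
        rw [b3]
        simp [DiagCC_a, DiagCC_A, DiagCC_B, DiagCC_C]
        linarith
    · refine (l2 _ _).trans ?_
      fin_cases i <;> simp [DiagCC_a, DiagCC_A, DiagCC_B, DiagCC_C]
    · refine (l3 _ _).trans ?_
      fin_cases i <;> simp [DiagCC_a, DiagCC_A, DiagCC_B, DiagCC_C]
  -- the Christoffel symbols on `O`
  have hG : ∀ y ∈ O, ∀ k i j : Fin 4, chrV X (dm σ ν φ) k i j y =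
      (if k = i then DiagCC_a (ld (X 0) σ y) (ld (X 1) σ y) k j else 0) +
      (if k = j then DiagCC_a (ld (X 0) σ y) (ld (X 1) σ y) k i else 0) -
      (if i = j then Real.exp (2 * al σ ν φ i y - 2 * al σ ν φ k y) *
        DiagCC_a (ld (X 0) σ y) (ld (X 1) σ y) i k else 0) := by
    intro y hy k i j
    rw [chrV_dm hO hσ hν hφ hy, hal y hy, hal y hy, hal y hy]
  set e : Fin 4 → ℝ := fun i => Real.exp (2 * al σ ν φ i x) with he
  have hE : ∀ i k : Fin 4, Real.exp (2 * al σ ν φ i x - 2 * al σ ν φ k x) = e i * (e k)⁻¹ := by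
    intro i k
    rw [Real.exp_sub, div_eq_mul_inv]
  have hGx : ∀ k i j : Fin 4, chrV X (dm σ ν φ) k i j x =
      DiagCC_G e (DiagCC_a (ld (X 0) σ x) (ld (X 1) σ x)) k i j := by
    intro k i j
    rw [hG x hxO, hE]
    rfl
  -- their derivatives
  set D0 : Fin 4 → ℝ := fun l => ld (X l) (ld (X 0) σ) x with hD0
  set D1 : Fin 4 → ℝ := fun l => ld (X l) (ld (X 1) σ) x with hD1
  have hs0 : ∀ l, DiagCC_HL (X l) (ld (X 0) σ) x (D0 l) := fun l =>
    DiagCC_HL.of_smooth hO (X l) (ld_smooth hO (hF.smX 0) hσ) hxO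
  have hs1 : ∀ l, DiagCC_HL (X l) (ld (X 1) σ) x (D1 l) := fun l =>
    DiagCC_HL.of_smooth hO (X l) (ld_smooth hO (hF.smX 1) hσ) hxO
  have hda : ∀ l i j : Fin 4, DiagCC_HL (X l)
      (fun y => DiagCC_a (ld (X 0) σ y) (ld (X 1) σ y) i j) x (DiagCC_b D0 D1 i j l) := by
    intro l i j
    have h := (((hs0 l).mul (DiagCC_HL.const (X l) (DiagCC_A i j) x)).add
      ((hs1 l).mul (DiagCC_HL.const (X l) (DiagCC_B i j) x))).add
      (DiagCC_HL.const (X l) (DiagCC_C i j) x)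
    have e1 : DiagCC_b D0 D1 i j l = D0 l * DiagCC_A i j + ld (X 0) σ x * 0 +
        (D1 l * DiagCC_B i j + ld (X 1) σ x * 0) + 0 := by
      unfold DiagCC_b
      ring
    rw [e1]
    exact h
  have hald : ∀ l i : Fin 4, DiagCC_HL (X l) (al σ ν φ i) x
      (DiagCC_a (ld (X 0) σ x) (ld (X 1) σ x) i l) := by
    intro l i
    refine ⟨?_, hal x hxO i l⟩
    have dσ := (DiagCC_HL.of_smooth hO (X 0) hσ hxO).1
    have dν := (DiagCC_HL.of_smooth hO (X 0) hν hxO).1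
    have dφ := (DiagCC_HL.of_smooth hO (X 0) hφ hxO).1
    fin_cases i
    · change DifferentiableAt ℝ (fun y => -ν y) x
      exact dν.fun_neg
    · change DifferentiableAt ℝ (fun y => -σ y - ν y) x
      exact dσ.fun_neg.fun_sub dν
    · change DifferentiableAt ℝ (fun y => (σ y - φ y) / 2) x
      simp only [div_eq_mul_inv]
      exact (dσ.fun_sub dφ).mul_const _
    · change DifferentiableAt ℝ (fun y => (σ y + φ y) / 2) x
      simp only [div_eq_mul_inv]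
      exact (dσ.fun_add dφ).mul_const _
  have hdG : ∀ l k i j : Fin 4, ld (X l) (chrV X (dm σ ν φ) k i j) x =
      DiagCC_dG e (DiagCC_a (ld (X 0) σ x) (ld (X 1) σ x)) (DiagCC_b D0 D1) l k i j := by
    intro l k i j
    have e1 : ld (X l) (chrV X (dm σ ν φ) k i j) x = ld (X l) (fun y =>
        (if k = i then DiagCC_a (ld (X 0) σ y) (ld (X 1) σ y) k j else 0) +
        (if k = j then DiagCC_a (ld (X 0) σ y) (ld (X 1) σ y) k i else 0) -
        (if i = j then Real.exp (2 * al σ ν φ i y - 2 * al σ ν φ k y) *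
          DiagCC_a (ld (X 0) σ y) (ld (X 1) σ y) i k else 0)) x := by
      have e2 : chrV X (dm σ ν φ) k i j =ᶠ[𝓝 x] fun y =>
        (if k = i then DiagCC_a (ld (X 0) σ y) (ld (X 1) σ y) k j else 0) +
        (if k = j then DiagCC_a (ld (X 0) σ y) (ld (X 1) σ y) k i else 0) -
        (if i = j then Real.exp (2 * al σ ν φ i y - 2 * al σ ν φ k y) *
          DiagCC_a (ld (X 0) σ y) (ld (X 1) σ y) i k else 0) :=
        Filter.eventually_of_mem (hO.mem_nhds hxO) fun y hy => hG y hy k i j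
      unfold ld
      rw [e2.fderiv_eq]
      rfl
    rw [e1]
    have h := (((hda l k j).ite (k = i)).add ((hda l k i).ite (k = j))).sub
      (DiagCC_HL.ite (i = j) (DiagCC_HL.mul (DiagCC_HL.exp
        (((DiagCC_HL.const (X l) 2 x).mul (hald l i)).sub
          ((DiagCC_HL.const (X l) 2 x).mul (hald l k)))) (hda l i k)))
    rw [h.2]
    unfold DiagCC_dG
    rw [hE]
    congr 2
    ring
  -- the equations at `x`
  have hSx := hS x hxO
  have hKx := hK x hxO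
  have v1 : ld (X 0) ν x = -ld (X 0) σ x := by linarith [u1 x hxO]
  have v2 : ld (X 1) ν x = -(ld (X 1) σ x / 2) := by linarith [u2 x hxO]
  set p := Real.exp (2 * ν x) with hp
  set t := Real.exp (2 * σ x) with ht
  have hp0 : p ≠ 0 := (Real.exp_pos _).ne'
  have ht0 : t ≠ 0 := (Real.exp_pos _).ne'
  have hpt : Real.exp (2 * ν x + 2 * σ x) = p * t := by rw [Real.exp_add]
  have q4 : -(p * (ld (X 0) σ x ^ 2 - 1) + p * t * ld (X 1) σ x ^ 2) / 4 = c := by
    rw [← hKx]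
    unfold KA
    rw [hpt]
  have q0 := hSx.R0
  have q1 := hSx.R1
  have qB := hSx.B
  rw [hKx, hpt, v1, v2] at q0 q1
  rw [v1, v2] at qB
  have r0 : D0 0 = ld (X 0) σ x ^ 2 - 1 := by
    have : p * D0 0 = p * (ld (X 0) σ x ^ 2 - 1) := by
      have h5 : D0 0 = ld (X 0) (ld (X 0) σ) x := rfl
      rw [h5]
      linear_combination -q0 + 2 * q4
    exact mul_left_cancel₀ hp0 this
  have r1 : D1 1 = ((ld (X 0) σ x ^ 2 - 1) / t - ld (X 1) σ x ^ 2) / 2 := by
    have : p * t * D1 1 =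
        p * t * (((ld (X 0) σ x ^ 2 - 1) / t - ld (X 1) σ x ^ 2) / 2) := by
      have h5 : D1 1 = ld (X 1) (ld (X 1) σ) x := rfl
      have h6 : p * t * (((ld (X 0) σ x ^ 2 - 1) / t - ld (X 1) σ x ^ 2) / 2) =
          (p * (ld (X 0) σ x ^ 2 - 1) - p * t * ld (X 1) σ x ^ 2) / 2 := by
        field_simp
      rw [h5, h6]
      linear_combination -q1 + 2 * q4
    exact mul_left_cancel₀ (mul_ne_zero hp0 ht0) this
  have r01 : D1 0 = 0 := by
    have h5 : D1 0 = ld (X 0) (ld (X 1) σ) x := rfl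
    rw [h5, qB]
    ring
  have r10 : D0 1 = 0 := by
    have h5 : D0 1 = ld (X 1) (ld (X 0) σ) x := rfl
    rw [h5, ld_comm hF hσ hxO 1 0]
    exact r01
  have hD0' : D0 = ![ld (X 0) σ x ^ 2 - 1, 0, 0, 0] := by
    funext l
    fin_cases l
    · exact r0
    · exact r10
    · exact l2 _ _
    · exact l3 _ _
  have hD1' : D1 = ![0, ((ld (X 0) σ x ^ 2 - 1) / t - ld (X 1) σ x ^ 2) / 2, 0, 0] := by
    funext l
    fin_cases l
    · exact r01
    · exact r1
    · exact l2 _ _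
    · exact l3 _ _
  have he' : e = ![p⁻¹, (p * t)⁻¹, e 2, e 3] := by
    funext l
    fin_cases l
    · change Real.exp (2 * -ν x) = p⁻¹
      rw [hp, ← Real.exp_neg]
      congr 1
      ring
    · change Real.exp (2 * (-σ x - ν x)) = (p * t)⁻¹
      rw [← hpt, ← Real.exp_neg]
      congr 1
      ring
    · rfl
    · rfl
  intro l k i j
  have hnum := DiagCC_num p t (ld (X 0) σ x) (ld (X 1) σ x) (e 2) (e 3) hp0 ht0
    (Real.exp_pos _).ne' (Real.exp_pos _).ne' he' hD0' hD1' l k i j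
  unfold riemV
  simp only [hdG, hGx]
  rw [hnum, q4]
  unfold dm
  rw [Matrix.diagonal_apply, Matrix.diagonal_apply, Matrix.one_apply, Matrix.one_apply]

end Pool.Agent.T2S4
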