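import Pool.Agent.T2S4.Gauge

/-!
# Change of commuting frames: curvature

PACKAGE. Prove the theorems (helper lemmas allowed, private or prefixed by `Curv_`).

* `ld_comm`: commuting fields: `X_i X_j f = X_j X_i f` for `f` smooth on `O`: the derivative of
  `x ↦ Df(x)(X_j x)` in the direction `X_i x` is `D²f(X_i, X_j) + Df(DX_j(X_i))`; symmetry of the
  second derivative (`second_derivative_symmetric`, `ContDiffAt.isSymmSndFDerivAt`) and `comm`.
* `chg_riem`: matrix form. Let `Γ_i` be the matrix `(Γ_i)_{kj} = Γ^k_{ij}`, and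
  `Γt_i = ∑ a, P_{ai} Γ_a`. `chg_chr` says `P Γ'_i = X'_i P + Γt_i P` (on all of `O`). The curvature
  matrices `(R_{ij})_{lk} = R^l_{kij}` are `R_{ij} = X_i Γ_j - X_j Γ_i + Γ_i Γ_j - Γ_j Γ_i`. Apply `X'_i`
  to `P Γ'_j = X'_j P + Γt_j P`:
  `(X'_i P) Γ'_j + P X'_i Γ'_j = X'_i X'_j P + (X'_i Γt_j) P + Γt_j (X'_i P)`.
  Antisymmetrise; `X'_i X'_j P` is symmetric (`ld_comm` for `X'`, `Chg.fr`). Insert
  `X'_i P = P Γ'_i - Γt_i P`:
  `P (X'_i Γ'_j - X'_j Γ'_i + Γ'_i Γ'_j - Γ'_j Γ'_i) =
    (X'_i Γt_j - X'_j Γt_i + Γt_i Γt_j - Γt_j Γt_i) P`.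
  Finally `X'_i Γt_j - X'_j Γt_i = ∑ b, (X'_i P_{bj} - X'_j P_{bi}) Γ_b +
  ∑ a b, P_{ai} P_{bj} (X_a Γ_b - X_b Γ_a)`, and the first sum is `0` by `closed`.
-/

set_option autoImplicit false

namespace Pool.Agent.T2S4

open Matrix
open scoped ContDiff

variable {E : Type} [NormedAddCommGroup E] [NormedSpace ℝ E]

private theorem Curv_da {O : Set E} (hO : IsOpen O) {f : E → ℝ} (hf : ContDiffOn ℝ ∞ f O) {x : E}
    (hx : x ∈ O) : DifferentiableAt ℝ f x :=
  (hf.contDiffAt (hO.mem_nhds hx)).differentiableAt (by simp)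

private theorem Curv_congr (X : E → E) {f g : E → ℝ} {x : E} (h : f =ᶠ[nhds x] g) :
    ld X f x = ld X g x := by
  unfold ld
  rw [h.fderiv_eq]

private theorem Curv_add (X : E → E) {f g : E → ℝ} {x : E} (hf : DifferentiableAt ℝ f x)
    (hg : DifferentiableAt ℝ g x) : ld X (fun y => f y + g y) x = ld X f x + ld X g x := by
  have h : HasFDerivAt (fun y => f y + g y) (fderiv ℝ f x + fderiv ℝ g x) x :=
    hf.hasFDerivAt.add hg.hasFDerivAt
  unfold ld
  rw [h.fderiv]
  rfl

private theorem Curv_mul (X : E → E) {f g : E → ℝ} {x : E} (hf : DifferentiableAt ℝ f x)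
    (hg : DifferentiableAt ℝ g x) :
    ld X (fun y => f y * g y) x = ld X f x * g x + f x * ld X g x := by
  have h : HasFDerivAt (fun y => f y * g y) (f x • fderiv ℝ g x + g x • fderiv ℝ f x) x :=
    hf.hasFDerivAt.mul hg.hasFDerivAt
  unfold ld
  rw [h.fderiv]
  simp only [ContinuousLinearMap.add_apply, ContinuousLinearMap.smul_apply, smul_eq_mul]
  ring

private theorem Curv_sum (X : E → E) {f : Fin 4 → E → ℝ} {x : E}
    (hf : ∀ a, DifferentiableAt ℝ (f a) x) :
    ld X (fun y => ∑ a, f a y) x = ∑ a, ld X (f a) x := by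
  unfold ld
  rw [(HasFDerivAt.fun_sum fun a (_ : a ∈ Finset.univ) => (hf a).hasFDerivAt).fderiv]
  rw [_root_.sum_apply]

private theorem Curv_mat (P Ai Aj Di Dj Ti Tj dAij dAji dTij dTji dd : M4)
    (h1 : P * Ai = Di + Ti * P) (h2 : P * Aj = Dj + Tj * P)
    (h3 : Di * Aj + P * dAij = dd + (dTij * P + Tj * Di))
    (h4 : Dj * Ai + P * dAji = dd + (dTji * P + Ti * Dj)) :
    P * (dAij - dAji + (Ai * Aj - Aj * Ai)) = (dTij - dTji + (Ti * Tj - Tj * Ti)) * P := by
  have e3 : P * dAij = dd + (dTij * P + Tj * Di) - Di * Aj := by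
    rw [← h3]
    abel
  have e4 : P * dAji = dd + (dTji * P + Ti * Dj) - Dj * Ai := by
    rw [← h4]
    abel
  calc P * (dAij - dAji + (Ai * Aj - Aj * Ai))
      = P * dAij - P * dAji + ((P * Ai) * Aj - (P * Aj) * Ai) := by noncomm_ring
    _ = (dd + (dTij * P + Tj * Di) - Di * Aj) - (dd + (dTji * P + Ti * Dj) - Dj * Ai) +
        ((Di + Ti * P) * Aj - (Dj + Tj * P) * Ai) := by rw [e3, e4, h1, h2]
    _ = (dTij * P + Tj * Di) - (dTji * P + Ti * Dj) + (Ti * (P * Aj) - Tj * (P * Ai)) := by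
        noncomm_ring
    _ = (dTij * P + Tj * Di) - (dTji * P + Ti * Dj) +
        (Ti * (Dj + Tj * P) - Tj * (Di + Ti * P)) := by rw [h1, h2]
    _ = _ := by noncomm_ring

private theorem Curv_quad (u w : Fin 4 → Fin 4 → ℝ) (p q : Fin 4 → ℝ) :
    ∑ m, (∑ b, u b m * p b) * (∑ c, w m c * q c) =
      ∑ b, ∑ c, (∑ m, u b m * w m c) * p b * q c := by
  simp only [Fin.sum_univ_four]
  ring

theorem ld_comm {O : Set E} {X : Fin 4 → E → E} {γ : E → M4} (h : Fr O X γ) {f : E → ℝ}
    (hf : ContDiffOn ℝ ∞ f O) {x : E} (hx : x ∈ O) (i j : Fin 4) :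
    ld (X i) (ld (X j) f) x = ld (X j) (ld (X i) f) x := by
  have key : ∀ i j : Fin 4, ld (X i) (ld (X j) f) x =
      fderiv ℝ f x (fderiv ℝ (X j) x (X i x)) + fderiv ℝ (fderiv ℝ f) x (X i x) (X j x) := by
    intro i j
    have h1 : ContDiffAt ℝ ∞ f x := hf.contDiffAt (h.isOpen.mem_nhds hx)
    have h2 : DifferentiableAt ℝ (fderiv ℝ f) x :=
      (h1.fderiv_right (m := 1) (by
        rw [one_add_one_eq_two]
        exact WithTop.coe_le_coe.mpr (le_top : (2 : ℕ∞) ≤ ⊤))).differentiableAt (by simp)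
    have h3 : DifferentiableAt ℝ (X j) x :=
      ((h.smX j).contDiffAt (h.isOpen.mem_nhds hx)).differentiableAt (by simp)
    have h4 := h2.hasFDerivAt.clm_apply h3.hasFDerivAt
    have h5 : ld (X i) (ld (X j) f) x =
        fderiv ℝ (fun y => fderiv ℝ f y (X j y)) x (X i x) := rfl
    rw [h5, h4.fderiv]
    rfl
  have hsym : IsSymmSndFDerivAt ℝ f x :=
    (hf.contDiffAt (h.isOpen.mem_nhds hx)).isSymmSndFDerivAt (by
      simp only [minSmoothness_of_isRCLikeNormedField]
      exact WithTop.coe_le_coe.mpr (le_top : (2 : ℕ∞) ≤ ⊤))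
  rw [key i j, key j i, h.comm i j x hx, hsym (X i x) (X j x)]

theorem chg_riem {O : Set E} {X X' : Fin 4 → E → E} {γ γ' : E → M4} {P : E → M4} (h : Fr O X γ)
    (hc : Chg O X X' P) (hγ : ∀ x ∈ O, γ' x = (P x)ᵀ * γ x * P x) {x : E} (hx : x ∈ O)
    (k l i j : Fin 4) : ∑ m, P x k m * riemV X' γ' m l i j x =
      ∑ a, ∑ b, ∑ c, riemV X γ k a b c x * P x a l * P x b i * P x c j := by
  have h' := Chg.fr h hc hγ
  have hO := h.isOpen
  have hnx : O ∈ nhds x := hO.mem_nhds hx
  -- differentiability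
  have dG : ∀ k i j, DifferentiableAt ℝ (chrV X γ k i j) x := fun k i j =>
    Curv_da hO (chrV_smooth h k i j) hx
  have dG' : ∀ k i j, DifferentiableAt ℝ (chrV X' γ' k i j) x := fun k i j =>
    Curv_da hO (chrV_smooth h' k i j) hx
  have dP : ∀ a b, DifferentiableAt ℝ (fun y => P y a b) x := fun a b =>
    Curv_da hO (hc.smP a b) hx
  have dD : ∀ i a b, DifferentiableAt ℝ (ld (X' i) (fun y => P y a b)) x := fun i a b =>
    Curv_da hO (ld_smooth hO (h'.smX i) (hc.smP a b)) hx
  -- the matrices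
  set T : Fin 4 → E → M4 := fun i y => Matrix.of fun k b => ∑ a, chrV X γ k a b y * P y a i with hT
  have dT : ∀ i a b, DifferentiableAt ℝ (fun y => T i y a b) x := by
    intro i a b
    have e : (fun y => T i y a b) = fun y => ∑ c, chrV X γ a c b y * P y c i := rfl
    rw [e]
    exact DifferentiableAt.fun_sum fun c _ => (dG a c b).mul (dP c i)
  have rel1 : ∀ y ∈ O, ∀ k i j, ∑ m, P y k m * chrV X' γ' m i j y =
      ld (X' i) (fun z => P z k j) y + ∑ b, T i y k b * P y b j := by
    intro y hy k i j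
    rw [chg_chr h hc hγ hy k i j]
    congr 1
    rw [Finset.sum_comm]
    refine Finset.sum_congr rfl fun b _ => ?_
    simp only [hT, Matrix.of_apply, Finset.sum_mul]
  set A : Fin 4 → M4 := fun i => Matrix.of fun k m => chrV X' γ' k i m x with hA
  set D : Fin 4 → M4 := fun i => Matrix.of fun k m => ld (X' i) (fun z => P z k m) x with hD
  set dA : Fin 4 → Fin 4 → M4 := fun i j =>
    Matrix.of fun k m => ld (X' i) (chrV X' γ' k j m) x with hdA
  set dTm : Fin 4 → Fin 4 → M4 := fun i j =>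
    Matrix.of fun k m => ld (X' i) (fun z => T j z k m) x with hdT
  set dd : Fin 4 → Fin 4 → M4 := fun i j =>
    Matrix.of fun k m => ld (X' i) (ld (X' j) (fun z => P z k m)) x with hdd
  have r1 : ∀ i, P x * A i = D i + T i x * P x := by
    intro i
    ext k m
    simp only [Matrix.mul_apply, Matrix.add_apply, hA, hD, Matrix.of_apply]
    exact rel1 x hx k i m
  have r2 : ∀ i j, D i * A j + P x * dA i j = dd i j + (dTm i j * P x + T j x * D i) := by
    intro i j
    ext k m
    have e1 : ld (X' i) (fun y => ∑ n, P y k n * chrV X' γ' n j m y) x =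
        ld (X' i) (fun y => ld (X' j) (fun z => P z k m) y + ∑ b, T j y k b * P y b m) x :=
      Curv_congr _ (Filter.eventually_of_mem hnx fun y hy => rel1 y hy k j m)
    rw [Curv_sum (f := fun n y => P y k n * chrV X' γ' n j m y) _
        (fun n => (dP k n).fun_mul (dG' n j m)),
      Curv_add _ (dD j k m) (DifferentiableAt.fun_sum fun b _ => (dT j k b).fun_mul (dP b m)),
      Curv_sum (f := fun b y => T j y k b * P y b m) _
        (fun b => (dT j k b).fun_mul (dP b m))] at e1
    have e2 : ∀ n, ld (X' i) (fun y => P y k n * chrV X' γ' n j m y) x =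
        ld (X' i) (fun y => P y k n) x * chrV X' γ' n j m x +
          P x k n * ld (X' i) (chrV X' γ' n j m) x := fun n => Curv_mul _ (dP k n) (dG' n j m)
    have e3 : ∀ b, ld (X' i) (fun y => T j y k b * P y b m) x =
        ld (X' i) (fun y => T j y k b) x * P x b m +
          T j x k b * ld (X' i) (fun y => P y b m) x := fun b => Curv_mul _ (dT j k b) (dP b m)
    simp only [e2, e3, Finset.sum_add_distrib] at e1
    simp only [Matrix.mul_apply, Matrix.add_apply, hA, hD, hdA, hdT, hdd, Matrix.of_apply]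
    exact e1
  have hdds : ∀ i j, dd i j = dd j i := by
    intro i j
    ext k m
    simp only [hdd, Matrix.of_apply]
    exact ld_comm h' (hc.smP k m) hx i j
  have main := Curv_mat (P x) (A i) (A j) (D i) (D j) (T i x) (T j x) (dA i j) (dA j i)
    (dTm i j) (dTm j i) (dd i j) (r1 i) (r1 j) (r2 i j) (by rw [hdds i j]; exact r2 j i)
  have mainkl := congrFun (congrFun main k) l
  have hl : ∑ m, P x k m * riemV X' γ' m l i j x =
      (P x * (dA i j - dA j i + (A i * A j - A j * A i))) k l := by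
    rw [Matrix.mul_apply]
    refine Finset.sum_congr rfl fun m _ => ?_
    congr 1
    simp only [riemV, Matrix.add_apply, Matrix.sub_apply, Matrix.mul_apply, hA, hdA,
      Matrix.of_apply, Finset.sum_sub_distrib]
  rw [hl, mainkl, Matrix.mul_apply]
  refine Finset.sum_congr rfl fun a _ => ?_
  have eT : ∀ i j, dTm i j k a = ∑ b, ∑ c, ld (X b) (chrV X γ k c a) x * P x b i * P x c j +
      ∑ c, chrV X γ k c a x * ld (X' i) (fun y => P y c j) x := by
    intro i j
    have e1 : dTm i j k a = ld (X' i) (fun y => ∑ c, chrV X γ k c a y * P y c j) x := rfl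
    rw [e1, Curv_sum (f := fun c y => chrV X γ k c a y * P y c j) _
      (fun c => (dG k c a).fun_mul (dP c j))]
    have e2 : ∀ c, ld (X' i) (fun y => chrV X γ k c a y * P y c j) x =
        ld (X' i) (chrV X γ k c a) x * P x c j +
          chrV X γ k c a x * ld (X' i) (fun y => P y c j) x := fun c =>
      Curv_mul _ (dG k c a) (dP c j)
    simp only [e2, Finset.sum_add_distrib]
    congr 1
    rw [Finset.sum_comm]
    refine Finset.sum_congr rfl fun c _ => ?_
    rw [hc.ld_eq hx i, Finset.sum_mul]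
    refine Finset.sum_congr rfl fun b _ => ?_
    ring
  have eC : ∑ c, chrV X γ k c a x * ld (X' i) (fun y => P y c j) x =
      ∑ c, chrV X γ k c a x * ld (X' j) (fun y => P y c i) x :=
    Finset.sum_congr rfl fun c _ => by rw [hc.closed x hx c i j]
  have eQ : ∀ i j, (T i x * T j x) k a =
      ∑ b, ∑ c, (∑ m, chrV X γ k b m x * chrV X γ m c a x) * P x b i * P x c j := by
    intro i j
    rw [Matrix.mul_apply]
    exact Curv_quad (fun b m => chrV X γ k b m x) (fun m c => chrV X γ m c a x)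
      (fun b => P x b i) (fun c => P x c j)
  have eS : ∑ b, ∑ c, riemV X γ k a b c x * P x a l * P x b i * P x c j =
      (∑ b, ∑ c, riemV X γ k a b c x * P x b i * P x c j) * P x a l := by
    rw [Finset.sum_mul]
    refine Finset.sum_congr rfl fun b _ => ?_
    rw [Finset.sum_mul]
    refine Finset.sum_congr rfl fun c _ => ?_
    ring
  rw [eS]
  congr 1
  rw [Matrix.add_apply, Matrix.sub_apply, Matrix.sub_apply, eT i j, eT j i, eQ i j, eQ j i, eC,
    Finset.sum_comm (f := fun b c => ld (X b) (chrV X γ k c a) x * P x b j * P x c i),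
    Finset.sum_comm (f := fun b c =>
      (∑ m, chrV X γ k b m x * chrV X γ m c a x) * P x b j * P x c i)]
  rw [add_sub_add_right_eq_sub, ← Finset.sum_sub_distrib, ← Finset.sum_sub_distrib,
    ← Finset.sum_add_distrib]
  refine Finset.sum_congr rfl fun b _ => ?_
  rw [← Finset.sum_sub_distrib, ← Finset.sum_sub_distrib, ← Finset.sum_add_distrib]
  refine Finset.sum_congr rfl fun c _ => ?_
  unfold riemV
  rw [Finset.sum_sub_distrib]
  ring

end Pool.Agent.T2S4
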