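import Pool.Agent.T2S4.BlockDefs

/-!
# The maximum principle

PACKAGE. Prove the theorems (helper lemmas allowed, private or prefixed by `MaxP_`).

* `ld_localMax`: at a local maximum `p` of `f` the derivative vanishes (`IsLocalMax.fderiv_eq_zero`), and
  `ld X (ld X f) p = D²f(p)(X p, X p) + Df(p)(DX(p)(X p)) = D²f(p)(X p, X p) ≤ 0`: the function
  `t ↦ f (p + t X(p))` has a local maximum at `0`, so its second derivative at `0` is `≤ 0` (if it were
  positive, `0` would be a strict local minimum: `isLocalMin_of_deriv_deriv_pos`, then `f` is constant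
  along the line near `0` and the second derivative is `0`, a contradiction).
* `Lnd_localMax`: `a p` positive definite, `a = M`, `∑ M_ij F_ij = (1/M_00) F(v, v) + (det M / M_00) F_11`,
  `v = (M_00, M_01)`, by symmetry of the second derivative; both terms are `≤ 0`.
* `max_principle`: let `A > 0` be a lower bound of `a q 0 0` and `B` an upper bound of `|b 0 q|` on `K`.
  `w q = exp (k q.1)` with `k > B / A`, `k > 0`, has `Lnd a b w q = w q (k² a q 0 0 + k b 0 q) > 0` on `K`. For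
  `ε > 0` the continuous function `f + ε w` has a maximum on the compact set `K` at `p'`. If `p' ∈ U`, it
  is a local maximum, so `Lnd (f + ε w) p' ≤ 0`, but `Lnd f + ε Lnd w > 0`. So `p' ∉ U` and
  `f q ≤ f q + ε w q ≤ m + ε w p'` for `q ∈ K`; let `ε → 0`.
-/

set_option autoImplicit false

namespace Pool.Agent.T2S4

open Matrix Filter Topology
open scoped ContDiff

private theorem MaxP_two : ((1 : WithTop ℕ∞) + 1) ≤ ∞ := by
  have h : ((1 + 1 : ℕ∞) : WithTop ℕ∞) ≤ ((⊤ : ℕ∞) : WithTop ℕ∞) :=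
    WithTop.coe_le_coe.2 le_top
  exact h

private theorem MaxP_two_le : (2 : WithTop ℕ∞) ≤ ∞ := by
  have h : ((2 : ℕ∞) : WithTop ℕ∞) ≤ ((⊤ : ℕ∞) : WithTop ℕ∞) := WithTop.coe_le_coe.2 le_top
  exact h

private theorem MaxP_hess {f : ℝ × ℝ → ℝ} {p : ℝ × ℝ} (hf : ContDiffAt ℝ ∞ f p)
    (hm : IsLocalMax f p) (v : ℝ × ℝ) : fderiv ℝ (fderiv ℝ f) p v v ≤ 0 := by
  by_contra hcon
  push Not at hcon
  obtain ⟨g, hg⟩ : ∃ g : ℝ → ℝ, g = fun t : ℝ => f (p + t • v) := ⟨_, rfl⟩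
  have hline : ∀ t : ℝ, HasDerivAt (fun t : ℝ => p + t • v) v t := by
    intro t
    have := ((hasDerivAt_id t).smul_const v).const_add p
    simpa using this
  have hcl : ContinuousAt (fun t : ℝ => p + t • v) 0 := (hline 0).continuousAt
  have h00 : p + (0 : ℝ) • v = p := by simp
  have htend : Tendsto (fun t : ℝ => p + t • v) (𝓝 0) (𝓝 p) := by
    have := hcl.tendsto
    rwa [h00] at this
  have hdiff : ∀ᶠ x in 𝓝 p, DifferentiableAt ℝ f x := by
    have h1 : ContDiffAt ℝ 1 f p := hf.of_le (by exact_mod_cast le_top)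
    filter_upwards [h1.eventually (by simp)] with x hx
    exact hx.differentiableAt (by simp)
  have hdg : ∀ᶠ t in 𝓝 (0 : ℝ), deriv g t = fderiv ℝ f (p + t • v) v := by
    filter_upwards [htend.eventually hdiff] with t ht
    rw [hg]
    exact (ht.hasFDerivAt.comp_hasDerivAt t (hline t)).deriv
  have hF : HasFDerivAt (fderiv ℝ f) (fderiv ℝ (fderiv ℝ f) p) p := by
    have h1 : ContDiffAt ℝ 1 (fderiv ℝ f) p :=
      (hf.fderiv_right (m := 1) MaxP_two)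
    exact (h1.differentiableAt (by simp)).hasFDerivAt
  have hddg : deriv (deriv g) 0 = fderiv ℝ (fderiv ℝ f) p v v := by
    rw [Filter.EventuallyEq.deriv_eq hdg]
    have h1 : HasFDerivAt (fun x => fderiv ℝ f x v)
        ((fderiv ℝ (fderiv ℝ f) p).flip v) (p + (0 : ℝ) • v) := by
      rw [h00]
      have := hF.clm_apply (hasFDerivAt_const v p)
      simpa using this
    have h2 := (h1.comp_hasDerivAt (0 : ℝ) (hline 0)).deriv
    exact h2
  have hgm : IsLocalMax g 0 := by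
    have h1 : ∀ᶠ x in 𝓝 p, f x ≤ f p := hm
    have h2 := htend.eventually h1
    show ∀ᶠ t in 𝓝 (0 : ℝ), g t ≤ g 0
    filter_upwards [h2] with t ht
    rw [hg]
    show f (p + t • v) ≤ f (p + (0 : ℝ) • v)
    rw [h00]
    exact ht
  have hgc : ContinuousAt g 0 := by
    rw [hg]
    have h1 : ContinuousAt f (p + (0 : ℝ) • v) := by rw [h00]; exact hf.continuousAt
    exact ContinuousAt.comp (f := fun t : ℝ => p + t • v) h1 hcl
  have hgmin : IsLocalMin g 0 :=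
    isLocalMin_of_deriv_deriv_pos (by rw [hddg]; exact hcon) hgm.deriv_eq_zero hgc
  have hconst : g =ᶠ[𝓝 0] fun _ => g 0 := by
    have h1 : ∀ᶠ t in 𝓝 (0 : ℝ), g t ≤ g 0 := hgm
    have h2 : ∀ᶠ t in 𝓝 (0 : ℝ), g 0 ≤ g t := hgmin
    filter_upwards [h1, h2] with t ht1 ht2
    exact le_antisymm ht1 ht2
  have hd1 : deriv g =ᶠ[𝓝 0] fun _ => 0 := by
    have h1 := hconst.deriv
    simpa using h1
  have hd2 : deriv (deriv g) 0 = 0 := by
    rw [hd1.deriv_eq]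
    simp
  rw [hddg] at hd2
  linarith

private theorem MaxP_hasFDerivAt {f : ℝ × ℝ → ℝ} {p : ℝ × ℝ} (hf : ContDiffAt ℝ ∞ f p) :
    HasFDerivAt (fderiv ℝ f) (fderiv ℝ (fderiv ℝ f) p) p := by
  have h1 : ContDiffAt ℝ 1 (fderiv ℝ f) p :=
    (hf.fderiv_right (m := 1) MaxP_two)
  exact (h1.differentiableAt (by simp)).hasFDerivAt

theorem ld_localMax {X : ℝ × ℝ → ℝ × ℝ} {f : ℝ × ℝ → ℝ} {p : ℝ × ℝ} (hX : ContDiffAt ℝ ∞ X p)
    (hf : ContDiffAt ℝ ∞ f p) (hm : IsLocalMax f p) :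
    ld X f p = 0 ∧ ld X (ld X f) p ≤ 0 := by
  have h0 : fderiv ℝ f p = 0 := hm.fderiv_eq_zero
  refine ⟨?_, ?_⟩
  · unfold ld
    rw [h0]
    rfl
  · have hXd : HasFDerivAt X (fderiv ℝ X p) p :=
      (hX.differentiableAt (by simp)).hasFDerivAt
    have h1 := ((MaxP_hasFDerivAt hf).clm_apply hXd).fderiv
    have h2 : ld X (ld X f) p = fderiv ℝ (fderiv ℝ f) p (X p) (X p) := by
      show fderiv ℝ (fun y => fderiv ℝ f y (X y)) p (X p) = _
      rw [h1, h0]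
      simp
    rw [h2]
    exact MaxP_hess hf hm (X p)

private theorem MaxP_dd_dd {f : ℝ × ℝ → ℝ} {p : ℝ × ℝ} (hf : ContDiffAt ℝ ∞ f p)
    (i j : Fin 2) : dd i (dd j f) p = fderiv ℝ (fderiv ℝ f) p (bv i) (bv j) := by
  have h1 := ((MaxP_hasFDerivAt hf).clm_apply (hasFDerivAt_const (bv j) p)).fderiv
  show fderiv ℝ (fun y => fderiv ℝ f y (bv j)) p (bv i) = _
  rw [h1]
  simp

theorem Lnd_localMax {a : ℝ × ℝ → M2} {b : Fin 2 → ℝ × ℝ → ℝ} {f : ℝ × ℝ → ℝ} {p : ℝ × ℝ}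
    (ha : (a p).PosDef) (hf : ContDiffAt ℝ ∞ f p) (hm : IsLocalMax f p) : Lnd a b f p ≤ 0 := by
  have h0 : fderiv ℝ f p = 0 := hm.fderiv_eq_zero
  have hsym : IsSymmSndFDerivAt ℝ f p := hf.isSymmSndFDerivAt (by simpa using MaxP_two_le)
  have hA : 0 < a p 0 0 := ha.diag_pos
  have hdet : 0 < (a p).det := ha.det_pos
  have hB : a p 1 0 = a p 0 1 := by
    have := ha.isHermitian.apply 0 1
    simpa using this
  rw [Matrix.det_fin_two] at hdet
  have h01 : fderiv ℝ (fderiv ℝ f) p (bv 1) (bv 0) = fderiv ℝ (fderiv ℝ f) p (bv 0) (bv 1) :=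
    hsym _ _
  have h11 := MaxP_hess hf hm (bv 1)
  have hv := MaxP_hess hf hm (a p 0 0 • bv 0 + a p 0 1 • bv 1)
  simp only [map_add, map_smul, _root_.add_apply, _root_.smul_apply,
    smul_eq_mul] at hv
  unfold Lnd
  simp only [Fin.sum_univ_two, MaxP_dd_dd hf]
  have hz : ∀ i, dd i f p = 0 := by
    intro i
    unfold dd
    rw [h0]
    rfl
  rw [hz 0, hz 1]
  rw [h01] at hv ⊢
  rw [hB] at hdet ⊢
  have hAS : a p 0 0 * (a p 0 0 * fderiv ℝ (fderiv ℝ f) p (bv 0) (bv 0) +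
      a p 0 1 * fderiv ℝ (fderiv ℝ f) p (bv 0) (bv 1) +
      (a p 0 1 * fderiv ℝ (fderiv ℝ f) p (bv 0) (bv 1) +
      a p 1 1 * fderiv ℝ (fderiv ℝ f) p (bv 1) (bv 1)) +
      (b 0 p * 0 + b 1 p * 0)) ≤ 0 := by
    have h3 := mul_nonneg hdet.le (neg_nonneg.2 h11)
    nlinarith [h3, hv]
  by_contra hcon
  push Not at hcon
  have := mul_pos hA hcon
  linarith

private theorem MaxP_dd_smooth {f : ℝ × ℝ → ℝ} (hf : ContDiff ℝ ∞ f) (i : Fin 2) :
    ContDiff ℝ ∞ (dd i f) := by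
  have h1 : ContDiff ℝ ∞ (fderiv ℝ f) := hf.fderiv_right (by simp)
  exact h1.clm_apply contDiff_const

private theorem MaxP_dd_add {f g : ℝ × ℝ → ℝ} (hf : ContDiff ℝ ∞ f) (hg : ContDiff ℝ ∞ g)
    (ε : ℝ) (i : Fin 2) :
    dd i (fun x => f x + ε * g x) = fun x => dd i f x + ε * dd i g x := by
  funext x
  have h1 : HasFDerivAt f (fderiv ℝ f x) x :=
    (hf.differentiable (by simp) x).hasFDerivAt
  have h2 : HasFDerivAt g (fderiv ℝ g x) x :=
    (hg.differentiable (by simp) x).hasFDerivAt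
  have h3 := (h1.add (h2.const_mul ε)).fderiv
  unfold dd
  have h4 : fderiv ℝ (fun x => f x + ε * g x) x = fderiv ℝ f x + ε • fderiv ℝ g x := h3
  rw [h4]
  rfl

private theorem MaxP_Lnd_add {f g : ℝ × ℝ → ℝ} (hf : ContDiff ℝ ∞ f) (hg : ContDiff ℝ ∞ g)
    (ε : ℝ) (a : ℝ × ℝ → M2) (b : Fin 2 → ℝ × ℝ → ℝ) (p : ℝ × ℝ) :
    Lnd a b (fun x => f x + ε * g x) p = Lnd a b f p + ε * Lnd a b g p := by
  unfold Lnd
  simp only [MaxP_dd_add hf hg, MaxP_dd_add (MaxP_dd_smooth hf _) (MaxP_dd_smooth hg _),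
    Fin.sum_univ_two]
  ring

private theorem MaxP_w_smooth (k : ℝ) : ContDiff ℝ ∞ (fun q : ℝ × ℝ => Real.exp (k * q.1)) :=
  (contDiff_const.mul contDiff_fst).exp

private theorem MaxP_w_dd (k c : ℝ) (i : Fin 2) (p : ℝ × ℝ) :
    dd i (fun q : ℝ × ℝ => c * Real.exp (k * q.1)) p =
      (if i = 0 then k else 0) * (c * Real.exp (k * p.1)) := by
  have h1 : HasFDerivAt (fun q : ℝ × ℝ => k * q.1) (k • ContinuousLinearMap.fst ℝ ℝ ℝ) p :=
    hasFDerivAt_fst.const_mul k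
  have h2 := (h1.exp.const_mul c).fderiv
  unfold dd
  rw [h2]
  fin_cases i
  · simp [bv]
    ring
  · simp [bv]

private theorem MaxP_w_Lnd (k : ℝ) (a : ℝ × ℝ → M2) (b : Fin 2 → ℝ × ℝ → ℝ) (p : ℝ × ℝ) :
    Lnd a b (fun q : ℝ × ℝ => Real.exp (k * q.1)) p =
      Real.exp (k * p.1) * (k * (k * a p 0 0 + b 0 p)) := by
  have h1 : ∀ i : Fin 2, dd i (fun q : ℝ × ℝ => Real.exp (k * q.1)) =
      fun p => (if i = 0 then k else 0) * Real.exp (k * p.1) := by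
    intro i
    funext q
    have := MaxP_w_dd k 1 i q
    simpa using this
  have h2 : ∀ i j : Fin 2, dd i (dd j (fun q : ℝ × ℝ => Real.exp (k * q.1))) p =
      (if i = 0 then k else 0) * ((if j = 0 then k else 0) * Real.exp (k * p.1)) := by
    intro i j
    rw [h1 j]
    exact MaxP_w_dd k _ i p
  unfold Lnd
  simp only [Fin.sum_univ_two, h2]
  rw [h1 0, h1 1]
  simp
  ring

theorem max_principle {a : ℝ × ℝ → M2} {b : Fin 2 → ℝ × ℝ → ℝ} {f : ℝ × ℝ → ℝ}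
    (hac : ∀ i j, Continuous (fun p => a p i j)) (ha : ∀ p, (a p).PosDef)
    (hb : ∀ i, Continuous (b i)) (hf : ContDiff ℝ ∞ f) {K U : Set (ℝ × ℝ)} (hK : IsCompact K)
    (hU : IsOpen U) (hUK : U ⊆ K) {m : ℝ} (hm : ∀ p ∈ K, p ∉ U → f p ≤ m)
    (hL : ∀ p ∈ U, 0 ≤ Lnd a b f p) : ∀ p ∈ K, f p ≤ m := by
  intro p hp
  obtain ⟨pA, hpA, hA⟩ := hK.exists_isMinOn ⟨p, hp⟩ (hac 0 0).continuousOn
  obtain ⟨pB, hpB, hB⟩ := hK.exists_isMaxOn ⟨p, hp⟩ (continuous_abs.comp (hb 0)).continuousOn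
  have hApos : 0 < a pA 0 0 := (ha pA).diag_pos
  obtain ⟨k, hk⟩ : ∃ k : ℝ, k = |b 0 pB| / a pA 0 0 + 1 := ⟨_, rfl⟩
  have hk0 : 0 < k := by rw [hk]; positivity
  have hkA : |b 0 pB| < k * a pA 0 0 := by
    rw [hk, add_mul, div_mul_cancel₀ _ hApos.ne']
    linarith
  have hwpos : ∀ q ∈ K, 0 < Lnd a b (fun q : ℝ × ℝ => Real.exp (k * q.1)) q := by
    intro q hq
    rw [MaxP_w_Lnd]
    have h1 : a pA 0 0 ≤ a q 0 0 := hA hq
    have h2 : |b 0 q| ≤ |b 0 pB| := hB hq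
    have h3 := neg_abs_le (b 0 q)
    have h4 : k * a pA 0 0 ≤ k * a q 0 0 := mul_le_mul_of_nonneg_left h1 hk0.le
    have h5 : 0 < k * a q 0 0 + b 0 q := by linarith
    positivity
  have hwc : Continuous (fun q : ℝ × ℝ => Real.exp (k * q.1)) := (MaxP_w_smooth k).continuous
  obtain ⟨pW, hpW, hW⟩ := hK.exists_isMaxOn ⟨p, hp⟩ hwc.continuousOn
  have hW0 : 0 < Real.exp (k * pW.1) := Real.exp_pos _
  apply le_of_forall_pos_le_add
  intro δ hδ
  obtain ⟨ε, hε⟩ : ∃ ε : ℝ, ε = δ / Real.exp (k * pW.1) := ⟨_, rfl⟩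
  have hε0 : 0 < ε := by rw [hε]; positivity
  have hFs : ContDiff ℝ ∞ (fun x : ℝ × ℝ => f x + ε * Real.exp (k * x.1)) :=
    hf.add (contDiff_const.mul (MaxP_w_smooth k))
  obtain ⟨p', hp', hmax⟩ := hK.exists_isMaxOn ⟨p, hp⟩ hFs.continuous.continuousOn
  have hp'U : p' ∉ U := by
    intro hin
    have hKn : K ∈ 𝓝 p' := Filter.mem_of_superset (hU.mem_nhds hin) hUK
    have h1 : IsLocalMax (fun x : ℝ × ℝ => f x + ε * Real.exp (k * x.1)) p' :=
      hmax.isLocalMax hKn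
    have h2 := Lnd_localMax (b := b) (ha p') hFs.contDiffAt h1
    rw [MaxP_Lnd_add hf (MaxP_w_smooth k)] at h2
    have h3 := hL p' hin
    have h4 := mul_pos hε0 (hwpos p' hp')
    linarith
  have h1 : f p + ε * Real.exp (k * p.1) ≤ f p' + ε * Real.exp (k * p'.1) := hmax hp
  have h2 := hm p' hp' hp'U
  have h3 : Real.exp (k * p'.1) ≤ Real.exp (k * pW.1) := hW hp'
  have h4 : ε * Real.exp (k * p'.1) ≤ ε * Real.exp (k * pW.1) :=
    mul_le_mul_of_nonneg_left h3 hε0.le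
  have h5 : ε * Real.exp (k * pW.1) = δ := by
    rw [hε]
    exact div_mul_cancel₀ _ hW0.ne'
  have h6 : 0 < ε * Real.exp (k * p.1) := by positivity
  linarith

end Pool.Agent.T2S4
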