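import Pool.Agent.T2S4.AdaptDefs
import Pool.Agent.T2S4.Curv
import Pool.Agent.T2S4.MaxP

/-!
# The key identity

PACKAGE. Prove the theorems (helper lemmas allowed, private or prefixed by `Local_`).

Notation of `DiagSys.lean`, `K = KA`, `w = K - c`. All on the open set `O` where `Sys` holds.
* `loc_x`: `w_x + (3/2) w σ_x = (1/2) e^{2ν} (σ_x + ν_x)`. Proof: `K = -(1/4)[e^{2ν}(σ_x² - 1) +
  e^{2ν+2σ} σ_y²]`, so `w_x = -(1/4)[2 ν_x e^{2ν}(σ_x² - 1) + 2 e^{2ν} σ_x σ_xx + 2(ν_x + σ_x) e^{2ν+2σ} σ_y² +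
  2 e^{2ν+2σ} σ_y σ_yx]`. Insert `e^{2ν} σ_xx` from `R0`, `σ_yx = σ_xy` from `B` (`ld_comm`) and `K` from
  its definition: everything cancels.
* `loc_y`: `w_y + (3/2) w σ_y = (1/2) e^{2ν} (ν_y + σ_y/2)`, the same with `R1` for `e^{2ν+2σ} σ_yy`.
* `loc_max`: let `f = e^{3σ} w²`. By `loc_x`, `loc_y` (on `O`): `f_x = e^{3σ+2ν} w (σ_x + ν_x)`,
  `f_y = e^{3σ+2ν} w (ν_y + σ_y/2)`. At a local maximum `p` of `f` with `w(p) ≠ 0`: `σ_x + ν_x = 0`,
  `ν_y + σ_y/2 = 0` at `p`, hence `f_xx = e^{3σ+2ν} w (σ_xx + ν_xx)`, `f_yy = e^{3σ+2ν} w (ν_yy + σ_yy/2)` at `p`,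
  and both are `≤ 0` (`ld_localMax`). But at `p`: by `K`,
  `e^{2ν}(σ_xx + ν_xx) + e^{2ν+2σ} ν_yy = K + e^{2ν+2σ} σ_y²/2`; by `R1`, `e^{2ν+2σ}(σ_yy + σ_y²) = K - 3c`; so
  `e^{2ν}(σ_xx + ν_xx) + e^{2ν+2σ}(ν_yy + σ_yy/2) = (3/2) w` and
  `e^{2ν} f_xx + e^{2ν+2σ} f_yy = (3/2) e^{3σ+2ν} w² > 0`: a contradiction.
-/

set_option autoImplicit false

namespace Pool.Agent.T2S4

open Matrix Filter Topology
open scoped ContDiff

private theorem Local_da {E : Type} [NormedAddCommGroup E] [NormedSpace ℝ E] {O : Set E}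
    (hO : IsOpen O) {f : E → ℝ} (hf : ContDiffOn ℝ ∞ f O) {x : E} (hx : x ∈ O) :
    DifferentiableAt ℝ f x :=
  (hf.contDiffAt (hO.mem_nhds hx)).differentiableAt (by simp)

private theorem Local_congr {E : Type} [NormedAddCommGroup E] [NormedSpace ℝ E] (X : E → E)
    {f g : E → ℝ} {x : E} (h : f =ᶠ[nhds x] g) : ld X f x = ld X g x := by
  unfold ld
  rw [h.fderiv_eq]

private theorem Local_add {E : Type} [NormedAddCommGroup E] [NormedSpace ℝ E] (X : E → E)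
    {f g : E → ℝ} {x : E} (hf : DifferentiableAt ℝ f x) (hg : DifferentiableAt ℝ g x) :
    ld X (fun y => f y + g y) x = ld X f x + ld X g x := by
  have h : HasFDerivAt (fun y => f y + g y) (fderiv ℝ f x + fderiv ℝ g x) x :=
    hf.hasFDerivAt.add hg.hasFDerivAt
  unfold ld
  rw [h.fderiv]
  rfl

private theorem Local_mul {E : Type} [NormedAddCommGroup E] [NormedSpace ℝ E] (X : E → E)
    {f g : E → ℝ} {x : E} (hf : DifferentiableAt ℝ f x) (hg : DifferentiableAt ℝ g x) :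
    ld X (fun y => f y * g y) x = ld X f x * g x + f x * ld X g x := by
  have h : HasFDerivAt (fun y => f y * g y) (f x • fderiv ℝ g x + g x • fderiv ℝ f x) x :=
    hf.hasFDerivAt.mul hg.hasFDerivAt
  unfold ld
  rw [h.fderiv]
  simp only [_root_.add_apply, _root_.smul_apply, smul_eq_mul]
  ring

private theorem Local_sq {E : Type} [NormedAddCommGroup E] [NormedSpace ℝ E] (X : E → E)
    {f : E → ℝ} {x : E} (c : ℝ) (hf : DifferentiableAt ℝ f x) :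
    ld X (fun y => (f y - c) ^ 2) x = 2 * (f x - c) * ld X f x := by
  have h := (hf.hasFDerivAt.sub_const c).pow 2
  unfold ld
  rw [h.fderiv]
  simp [mul_assoc]

private theorem Local_exp {E : Type} [NormedAddCommGroup E] [NormedSpace ℝ E] (X : E → E)
    {f g : E → ℝ} {x : E} (a b : ℝ) (hf : DifferentiableAt ℝ f x) (hg : DifferentiableAt ℝ g x) :
    ld X (fun y => Real.exp (a * f y + b * g y)) x =
      Real.exp (a * f x + b * g x) * (a * ld X f x + b * ld X g x) := by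
  have h := ((hf.hasFDerivAt.const_mul a).add (hg.hasFDerivAt.const_mul b)).exp
  unfold ld
  have h2 := h.fderiv
  simp only [Pi.add_apply] at h2
  rw [h2]
  simp only [_root_.add_apply, _root_.smul_apply, smul_eq_mul]

private theorem Local_KA {E : Type} [NormedAddCommGroup E] [NormedSpace ℝ E] (X : E → E)
    {X0 X1 : E → E} {σ ν : E → ℝ} {x : E} (dσ : DifferentiableAt ℝ σ x)
    (dν : DifferentiableAt ℝ ν x) (d0 : DifferentiableAt ℝ (ld X0 σ) x)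
    (d1 : DifferentiableAt ℝ (ld X1 σ) x) :
    ld X (KA X0 X1 σ ν) x = -(2 * ld X ν x * Real.exp (2 * ν x) * (ld X0 σ x ^ 2 - 1) +
      Real.exp (2 * ν x) * (2 * ld X0 σ x * ld X (ld X0 σ) x) +
      (2 * ld X ν x + 2 * ld X σ x) * Real.exp (2 * ν x + 2 * σ x) * ld X1 σ x ^ 2 +
      Real.exp (2 * ν x + 2 * σ x) * (2 * ld X1 σ x * ld X (ld X1 σ) x)) / 4 := by
  have e1 := (dν.hasFDerivAt.const_mul 2).exp
  have e2 := ((dν.hasFDerivAt.const_mul 2).add (dσ.hasFDerivAt.const_mul 2)).exp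
  have e3 := (d0.hasFDerivAt.pow 2).sub_const 1
  have e4 := d1.hasFDerivAt.pow 2
  have h := ((e1.mul e3).add (e2.mul e4)).const_mul (-1 / 4 : ℝ)
  have hfun : KA X0 X1 σ ν = fun y => -1 / 4 *
      (Real.exp (2 * ν y) * (ld X0 σ y ^ 2 - 1) +
        Real.exp (2 * ν y + 2 * σ y) * ld X1 σ y ^ 2) := by
    funext y
    unfold KA
    ring
  have h2 := h.fderiv
  simp only [Pi.add_apply] at h2
  have hl : ld X (KA X0 X1 σ ν) x = fderiv ℝ (KA X0 X1 σ ν) x (X x) := rfl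
  rw [hl, hfun]
  erw [h2]
  have hd0 : fderiv ℝ (ld X0 σ) x (X x) = ld X (ld X0 σ) x := rfl
  have hd1 : fderiv ℝ (ld X1 σ) x (X x) = ld X (ld X1 σ) x := rfl
  have hdν : fderiv ℝ ν x (X x) = ld X ν x := rfl
  have hdσ : fderiv ℝ σ x (X x) = ld X σ x := rfl
  simp only [_root_.add_apply, _root_.smul_apply, smul_eq_mul, hd0, hd1, hdν, hdσ,
    nsmul_eq_mul, Nat.cast_ofNat]
  ring

private theorem Local_loc_x {E : Type} [NormedAddCommGroup E] [NormedSpace ℝ E] {O : Set E}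
    {X : Fin 4 → E → E} {σ ν φ : E → ℝ} {c : ℝ} (hF : Fr O X (dm σ ν φ))
    (hσ : ContDiffOn ℝ ∞ σ O) (hν : ContDiffOn ℝ ∞ ν O)
    (hS : ∀ x ∈ O, Sys c (X 0) (X 1) σ ν x) : ∀ x ∈ O,
    ld (X 0) (KA (X 0) (X 1) σ ν) x + 3 / 2 * (KA (X 0) (X 1) σ ν x - c) * ld (X 0) σ x =
      1 / 2 * Real.exp (2 * ν x) * (ld (X 0) σ x + ld (X 0) ν x) := by
  intro x hx
  have h0 := Local_da hF.isOpen (ld_smooth hF.isOpen (hF.smX 0) hσ) hx
  have h1 := Local_da hF.isOpen (ld_smooth hF.isOpen (hF.smX 1) hσ) hx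
  rw [Local_KA (X 0) (Local_da hF.isOpen hσ hx) (Local_da hF.isOpen hν hx) h0 h1]
  have hR := (hS x hx).R0
  have hB := (hS x hx).B
  have hK : KA (X 0) (X 1) σ ν x = -(Real.exp (2 * ν x) * (ld (X 0) σ x ^ 2 - 1) +
    Real.exp (2 * ν x + 2 * σ x) * ld (X 1) σ x ^ 2) / 4 := rfl
  linear_combination (ld (X 0) σ x / 2) * hR -
    (Real.exp (2 * ν x + 2 * σ x) * ld (X 1) σ x / 2) * hB + ld (X 0) σ x * hK

private theorem Local_loc_y {E : Type} [NormedAddCommGroup E] [NormedSpace ℝ E] {O : Set E}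
    {X : Fin 4 → E → E} {σ ν φ : E → ℝ} {c : ℝ} (hF : Fr O X (dm σ ν φ))
    (hσ : ContDiffOn ℝ ∞ σ O) (hν : ContDiffOn ℝ ∞ ν O)
    (hS : ∀ x ∈ O, Sys c (X 0) (X 1) σ ν x) : ∀ x ∈ O,
    ld (X 1) (KA (X 0) (X 1) σ ν) x + 3 / 2 * (KA (X 0) (X 1) σ ν x - c) * ld (X 1) σ x =
      1 / 2 * Real.exp (2 * ν x) * (ld (X 1) ν x + ld (X 1) σ x / 2) := by
  intro x hx
  have h0 := Local_da hF.isOpen (ld_smooth hF.isOpen (hF.smX 0) hσ) hx
  have h1 := Local_da hF.isOpen (ld_smooth hF.isOpen (hF.smX 1) hσ) hx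
  rw [Local_KA (X 1) (Local_da hF.isOpen hσ hx) (Local_da hF.isOpen hν hx) h0 h1,
    ld_comm hF hσ hx 1 0]
  have hR := (hS x hx).R1
  have hB := (hS x hx).B
  have hK : KA (X 0) (X 1) σ ν x = -(Real.exp (2 * ν x) * (ld (X 0) σ x ^ 2 - 1) +
    Real.exp (2 * ν x + 2 * σ x) * ld (X 1) σ x ^ 2) / 4 := rfl
  linear_combination (ld (X 1) σ x / 2) * hR -
    (Real.exp (2 * ν x) * ld (X 0) σ x / 2) * hB + ld (X 1) σ x * hK

/-- The derivative of `e^{3σ} w²` in the direction `Y`. -/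
private theorem Local_f {E : Type} [NormedAddCommGroup E] [NormedSpace ℝ E] (Y : E → E)
    {σ K ν : E → ℝ} {c t : ℝ} {x : E} (dσ : DifferentiableAt ℝ σ x)
    (dK : DifferentiableAt ℝ K x)
    (h : ld Y K x + 3 / 2 * (K x - c) * ld Y σ x = 1 / 2 * Real.exp (2 * ν x) * t) :
    ld Y (fun y => Real.exp (3 * σ y) * (K y - c) ^ 2) x =
      Real.exp (3 * σ x + 2 * ν x) * (K x - c) * t := by
  have e1 := Local_exp Y (f := σ) (g := σ) 3 0 dσ dσ
  simp only [zero_mul, add_zero] at e1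
  have d1 : DifferentiableAt ℝ (fun y => Real.exp (3 * σ y)) x :=
    (dσ.const_mul 3).exp
  have d2 : DifferentiableAt ℝ (fun y => (K y - c) ^ 2) x := (dK.sub_const c).pow 2
  rw [Local_mul Y d1 d2, e1, Local_sq Y c dK, Real.exp_add]
  linear_combination (2 * Real.exp (3 * σ x) * (K x - c)) * h

theorem loc_x {E : Type} [NormedAddCommGroup E] [NormedSpace ℝ E] {O : Set E}
    {X : Fin 4 → E → E} {σ ν φ : E → ℝ} {c : ℝ} (hF : Fr O X (dm σ ν φ))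
    (hσ : ContDiffOn ℝ ∞ σ O) (hν : ContDiffOn ℝ ∞ ν O)
    (hS : ∀ x ∈ O, Sys c (X 0) (X 1) σ ν x) : ∀ x ∈ O,
    ld (X 0) (KA (X 0) (X 1) σ ν) x + 3 / 2 * (KA (X 0) (X 1) σ ν x - c) * ld (X 0) σ x =
      1 / 2 * Real.exp (2 * ν x) * (ld (X 0) σ x + ld (X 0) ν x) :=
  Local_loc_x hF hσ hν hS

theorem loc_y {E : Type} [NormedAddCommGroup E] [NormedSpace ℝ E] {O : Set E}
    {X : Fin 4 → E → E} {σ ν φ : E → ℝ} {c : ℝ} (hF : Fr O X (dm σ ν φ))
    (hσ : ContDiffOn ℝ ∞ σ O) (hν : ContDiffOn ℝ ∞ ν O)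
    (hS : ∀ x ∈ O, Sys c (X 0) (X 1) σ ν x) : ∀ x ∈ O,
    ld (X 1) (KA (X 0) (X 1) σ ν) x + 3 / 2 * (KA (X 0) (X 1) σ ν x - c) * ld (X 1) σ x =
      1 / 2 * Real.exp (2 * ν x) * (ld (X 1) ν x + ld (X 1) σ x / 2) :=
  Local_loc_y hF hσ hν hS

theorem loc_max {O : Set (ℝ × ℝ)} {X : Fin 4 → ℝ × ℝ → ℝ × ℝ} {σ ν φ : ℝ × ℝ → ℝ} {c : ℝ}
    (hF : Fr O X (dm σ ν φ)) (hσ : ContDiffOn ℝ ∞ σ O) (hν : ContDiffOn ℝ ∞ ν O)
    (hS : ∀ x ∈ O, Sys c (X 0) (X 1) σ ν x) {p : ℝ × ℝ} (hp : p ∈ O)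
    (hm : IsLocalMax (fun x => Real.exp (3 * σ x) * (KA (X 0) (X 1) σ ν x - c) ^ 2) p) :
    KA (X 0) (X 1) σ ν p = c := by
  by_contra hw
  have hw' : KA (X 0) (X 1) σ ν p - c ≠ 0 := sub_ne_zero.2 hw
  have hO := hF.isOpen
  have hnp : O ∈ nhds p := hO.mem_nhds hp
  have sσ0 := ld_smooth hO (hF.smX 0) hσ
  have sσ1 := ld_smooth hO (hF.smX 1) hσ
  have sν0 := ld_smooth hO (hF.smX 0) hν
  have sν1 := ld_smooth hO (hF.smX 1) hν
  have sK : ContDiffOn ℝ ∞ (KA (X 0) (X 1) σ ν) O := by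
    have h1 : ContDiffOn ℝ ∞ (fun y => Real.exp (2 * ν y)) O :=
      (contDiffOn_const.mul hν).exp
    have h2 : ContDiffOn ℝ ∞ (fun y => Real.exp (2 * ν y + 2 * σ y)) O :=
      ((contDiffOn_const.mul hν).add (contDiffOn_const.mul hσ)).exp
    exact (((h1.mul ((sσ0.pow 2).sub contDiffOn_const)).add
      (h2.mul (sσ1.pow 2))).neg).div_const 4
  have sf : ContDiffOn ℝ ∞ (fun x => Real.exp (3 * σ x) * (KA (X 0) (X 1) σ ν x - c) ^ 2) O :=
    (contDiffOn_const.mul hσ).exp.mul ((sK.sub contDiffOn_const).pow 2)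
  have fx : ∀ x ∈ O, ld (X 0) (fun x => Real.exp (3 * σ x) * (KA (X 0) (X 1) σ ν x - c) ^ 2) x =
      Real.exp (3 * σ x + 2 * ν x) * (KA (X 0) (X 1) σ ν x - c) *
        (ld (X 0) σ x + ld (X 0) ν x) := fun x hx =>
    Local_f (X 0) (ν := ν) (Local_da hO hσ hx) (Local_da hO sK hx)
      (Local_loc_x hF hσ hν hS x hx)
  have fy : ∀ x ∈ O, ld (X 1) (fun x => Real.exp (3 * σ x) * (KA (X 0) (X 1) σ ν x - c) ^ 2) x =
      Real.exp (3 * σ x + 2 * ν x) * (KA (X 0) (X 1) σ ν x - c) *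
        (ld (X 1) ν x + ld (X 1) σ x / 2) := fun x hx =>
    Local_f (X 1) (ν := ν) (Local_da hO hσ hx) (Local_da hO sK hx)
      (Local_loc_y hF hσ hν hS x hx)
  obtain ⟨m0, m00⟩ := ld_localMax ((hF.smX 0).contDiffAt hnp) (sf.contDiffAt hnp) hm
  obtain ⟨m1, m11⟩ := ld_localMax ((hF.smX 1).contDiffAt hnp) (sf.contDiffAt hnp) hm
  have hE : 0 < Real.exp (3 * σ p + 2 * ν p) := Real.exp_pos _
  have z0 : ld (X 0) σ p + ld (X 0) ν p = 0 := by
    rw [fx p hp] at m0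
    exact (mul_eq_zero.1 m0).resolve_left (mul_ne_zero hE.ne' hw')
  have z1 : ld (X 1) ν p + ld (X 1) σ p / 2 = 0 := by
    rw [fy p hp] at m1
    exact (mul_eq_zero.1 m1).resolve_left (mul_ne_zero hE.ne' hw')
  have dW : DifferentiableAt ℝ
      (fun x => Real.exp (3 * σ x + 2 * ν x) * (KA (X 0) (X 1) σ ν x - c)) p :=
    (((Local_da hO hσ hp).const_mul 3).add ((Local_da hO hν hp).const_mul 2)).exp.mul
      ((Local_da hO sK hp).sub_const c)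
  have dU : DifferentiableAt ℝ (fun x => ld (X 0) σ x + ld (X 0) ν x) p :=
    (Local_da hO sσ0 hp).add (Local_da hO sν0 hp)
  have dS : DifferentiableAt ℝ (fun x => ld (X 1) σ x / 2) p := by
    simp only [div_eq_mul_inv]
    exact (Local_da hO sσ1 hp).mul_const _
  have dV : DifferentiableAt ℝ (fun x => ld (X 1) ν x + ld (X 1) σ x / 2) p :=
    (Local_da hO sν1 hp).add dS
  have fxx : ld (X 0) (ld (X 0)
      (fun x => Real.exp (3 * σ x) * (KA (X 0) (X 1) σ ν x - c) ^ 2)) p =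
      Real.exp (3 * σ p + 2 * ν p) * (KA (X 0) (X 1) σ ν p - c) *
        (ld (X 0) (ld (X 0) σ) p + ld (X 0) (ld (X 0) ν) p) := by
    rw [Local_congr (X 0) (Filter.eventually_of_mem hnp fx), Local_mul (X 0) dW dU, z0,
      Local_add (X 0) (Local_da hO sσ0 hp) (Local_da hO sν0 hp)]
    ring
  have fyy : ld (X 1) (ld (X 1)
      (fun x => Real.exp (3 * σ x) * (KA (X 0) (X 1) σ ν x - c) ^ 2)) p =
      Real.exp (3 * σ p + 2 * ν p) * (KA (X 0) (X 1) σ ν p - c) *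
        (ld (X 1) (ld (X 1) ν) p + ld (X 1) (ld (X 1) σ) p / 2) := by
    have e1 : ld (X 1) (fun x => ld (X 1) σ x / 2) p = ld (X 1) (ld (X 1) σ) p / 2 := by
      have h := ((Local_da hO sσ1 hp).hasFDerivAt.mul_const (1 / 2 : ℝ)).fderiv
      have hg : (fun x => ld (X 1) σ x / 2) = fun x => ld (X 1) σ x * (1 / 2) := by
        funext y
        ring
      have hl : ld (X 1) (fun x => ld (X 1) σ x * (1 / 2)) p =
        fderiv ℝ (fun x => ld (X 1) σ x * (1 / 2)) p (X 1 p) := rfl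
      have hr : ld (X 1) (ld (X 1) σ) p = fderiv ℝ (ld (X 1) σ) p (X 1 p) := rfl
      rw [hg, hl, hr, h]
      simp only [_root_.smul_apply, smul_eq_mul]
      ring
    rw [Local_congr (X 1) (Filter.eventually_of_mem hnp fy), Local_mul (X 1) dW dV, z1,
      Local_add (X 1) (Local_da hO sν1 hp) dS, e1]
    ring
  rw [fxx] at m00
  rw [fyy] at m11
  have hR1 := (hS p hp).R1
  have hK := (hS p hp).K
  have ha : 0 < Real.exp (2 * ν p) := Real.exp_pos _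
  have hb : 0 < Real.exp (2 * ν p + 2 * σ p) := Real.exp_pos _
  have hny : ld (X 1) ν p = -(ld (X 1) σ p / 2) := by linarith
  have hnx : ld (X 0) ν p = -ld (X 0) σ p := by linarith
  rw [hny, hnx] at hR1 hK
  have key : Real.exp (2 * ν p) * (ld (X 0) (ld (X 0) σ) p + ld (X 0) (ld (X 0) ν) p) +
      Real.exp (2 * ν p + 2 * σ p) *
        (ld (X 1) (ld (X 1) ν) p + ld (X 1) (ld (X 1) σ) p / 2) =
      3 / 2 * (KA (X 0) (X 1) σ ν p - c) := by
    linear_combination -hK - (1 / 2) * hR1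
  have h3 := mul_nonpos_of_nonneg_of_nonpos ha.le m00
  have h4 := mul_nonpos_of_nonneg_of_nonpos hb.le m11
  have h5 : Real.exp (3 * σ p + 2 * ν p) * (KA (X 0) (X 1) σ ν p - c) *
      (3 / 2 * (KA (X 0) (X 1) σ ν p - c)) ≤ 0 := by
    rw [← key]
    nlinarith [h3, h4]
  have h6 : 0 < Real.exp (3 * σ p + 2 * ν p) * (KA (X 0) (X 1) σ ν p - c) *
      (3 / 2 * (KA (X 0) (X 1) σ ν p - c)) := by
    have h7 : 0 < (KA (X 0) (X 1) σ ν p - c) ^ 2 := by positivity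
    have h8 := mul_pos hE h7
    nlinarith [h8]
  exact absurd h5 (not_le.2 h6)

end Pool.Agent.T2S4
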