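import Pool.Agent.T2S4.CoreA
import Pool.Agent.T2S4.Local
import Pool.Agent.T2S4.DiagCC

/-!
# The block metric has constant curvature

PACKAGE. Prove the theorem (helper lemmas allowed, private or prefixed by `CoreB_`).

`lam_pos` gives `Λ > 0`. Take `σ, ν, φ, X, P` from `core_frame`, `c = Λ / 3`. The function
`f = e^{3σ} (KA - c)²` is continuous, `≥ 0` and tends to `0` at infinity (`hK c`). If `f p₀ > 0` for some `p₀`
then `f` attains its maximum at some `p` (it is `< f p₀` outside of a compact set), which is a local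
maximum with `f p > 0`; but `loc_max` says `KA p = c`, `f p = 0`, a contradiction. So `KA = c` everywhere,
its derivatives vanish, and `loc_x`, `loc_y` give `u1 : σ_x + ν_x = 0`, `u2 : ν_y + σ_y / 2 = 0`. `diag_CC` and
`chg_CC` give the claim.
-/

set_option autoImplicit false

namespace Pool.Agent.T2S4

open Matrix Filter Topology
open scoped ContDiff

theorem core_block {Λ : ℝ} {h G : ℝ × ℝ → M2} (hg : GoodB Λ h G)
    (hB : Tendsto (fun q => G q 0 1 / √(G q).det) (cocompact (ℝ × ℝ)) (𝓝 0))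
    (hs : Tendsto (fun q => Real.log (G q).det / 2) (cocompact (ℝ × ℝ)) atBot)
    (h1 : ∃ C : ℝ, ∀ p : ℝ × ℝ, |Real.log (G p 1 1 / G p 0 0) / 2 - (p.2 - p.1)| ≤ C)
    (h2 : ∀ Y : ℝ, ∃ X : ℝ, ∀ p : ℝ × ℝ, |p.2 - p.1| ≤ Y → X ≤ |p.1 + p.2| →
      0 < dd 1 (fun q => Real.log (G q 1 1 / G q 0 0) / 2) p -
        dd 0 (fun q => Real.log (G q 1 1 / G q 0 0) / 2) p)
    (hK : ∀ c : ℝ, Tendsto (fun p => Real.exp (3 * (Real.log (G p).det / 2)) *
      (-gip h (fun q => Real.log (G q 0 0) / 2) (fun q => Real.log (G q 1 1) / 2) p - c) ^ 2)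
      (cocompact (ℝ × ℝ)) (𝓝 0)) :
    0 < Λ ∧ ∀ p, CC (Λ / 3) bas (fun q => blk (h q) (G q)) p := by
  refine ⟨lam_pos hg hs, ?_⟩
  obtain ⟨σ, ν, φ, X, P, hσ, hν, hφ, hσe, hchg, hP, hFb, hF, h2', h3', hx, hy, hS, hKA⟩ :=
    core_frame hg hB h1 h2
  have hσ' : ContDiffOn ℝ ∞ σ Set.univ := hσ.contDiffOn
  have hν' : ContDiffOn ℝ ∞ ν Set.univ := hν.contDiffOn
  have hK0 : ∀ p, KA (X 0) (X 1) σ ν p = Λ / 3 := by
    by_contra hcon
    push Not at hcon
    obtain ⟨p₀, hp₀⟩ := hcon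
    have hKc : Continuous (KA (X 0) (X 1) σ ν) := by
      have e0 : Continuous (ld (X 0) σ) :=
        (contDiffOn_univ.1 (ld_smooth isOpen_univ (hF.smX 0) hσ')).continuous
      have e1 : Continuous (ld (X 1) σ) :=
        (contDiffOn_univ.1 (ld_smooth isOpen_univ (hF.smX 1) hσ')).continuous
      have e2 : Continuous σ := hσ.continuous
      have e3 : Continuous ν := hν.continuous
      unfold KA
      fun_prop
    have hfc : Continuous fun p => Real.exp (3 * σ p) * (KA (X 0) (X 1) σ ν p - Λ / 3) ^ 2 := by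
      have e2 : Continuous σ := hσ.continuous
      fun_prop
    have hft : Tendsto (fun p => Real.exp (3 * σ p) * (KA (X 0) (X 1) σ ν p - Λ / 3) ^ 2)
        (cocompact (ℝ × ℝ)) (𝓝 0) := by
      refine (hK (Λ / 3)).congr fun p => ?_
      rw [hσe p, hKA p]
    have hpos : 0 < Real.exp (3 * σ p₀) * (KA (X 0) (X 1) σ ν p₀ - Λ / 3) ^ 2 :=
      mul_pos (Real.exp_pos _) (sq_pos_of_ne_zero (sub_ne_zero.2 hp₀))
    obtain ⟨p, hp⟩ := hfc.exists_forall_ge' p₀
      ((hft.eventually (gt_mem_nhds hpos)).mono fun x hx => hx.le)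
    have h0 := loc_max hF hσ' hν' (fun x _ => hS x) (Set.mem_univ p)
      (Filter.Eventually.of_forall hp)
    have h3 := hp p₀
    simp only [h0, sub_self] at h3
    have h4 := lt_of_lt_of_le hpos h3
    norm_num at h4
  have hKd : ∀ (i : Fin 4) (p : ℝ × ℝ), ld (X i) (KA (X 0) (X 1) σ ν) p = 0 := by
    intro i p
    have e : KA (X 0) (X 1) σ ν = fun _ => Λ / 3 := funext hK0
    rw [e]
    simp [ld]
  have u1 : ∀ x ∈ (Set.univ : Set (ℝ × ℝ)), ld (X 0) σ x + ld (X 0) ν x = 0 := by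
    intro x hxu
    have e := loc_x hF hσ' hν' (fun x _ => hS x) x hxu
    rw [hKd, hK0, sub_self, mul_zero, zero_mul, add_zero] at e
    have e2 := Real.exp_pos (2 * ν x)
    rcases mul_eq_zero.1 e.symm with h | h
    · exact absurd h (by positivity)
    · exact h
  have u2 : ∀ x ∈ (Set.univ : Set (ℝ × ℝ)), ld (X 1) ν x + ld (X 1) σ x / 2 = 0 := by
    intro x hxu
    have e := loc_y hF hσ' hν' (fun x _ => hS x) x hxu
    rw [hKd, hK0, sub_self, mul_zero, zero_mul, add_zero] at e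
    have e2 := Real.exp_pos (2 * ν x)
    rcases mul_eq_zero.1 e.symm with h | h
    · exact absurd h (by positivity)
    · exact h
  intro p
  refine (chg_CC hFb hchg (fun x _ => hP x) (Set.mem_univ p) (Λ / 3)).1 ?_
  exact diag_CC hF h2' h3' hσ' hν' hφ.contDiffOn (fun x _ => hx x) (fun x _ => hy x)
    (fun x _ => hS x) (fun x _ => hK0 x) u1 u2 p (Set.mem_univ p)

end Pool.Agent.T2S4
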