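import Mathlib

/-!
# Einstein metrics on the 4-sphere with torus symmetry: definitions of the statement

The 4-sphere is the union of two charts `ℝ⁴` (the stereographic projections from the two poles),
glued by the inversion `x ↦ x / |x|²`. A Riemannian metric on the 4-sphere is a pair of matrix
valued functions on the two charts.
-/

set_option autoImplicit false

namespace Pool.Agent.T2S4

open Matrix
open scoped ContDiff

/-- The points of a chart. -/
abbrev P4 : Type := Fin 4 → ℝ

/-- `4 × 4` matrices. -/
abbrev M4 : Type := Matrix (Fin 4) (Fin 4) ℝ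

/-- The partial derivative in the direction of the coordinate `i`. -/
noncomputable def pd (i : Fin 4) (f : P4 → ℝ) (x : P4) : ℝ := fderiv ℝ f x (Pi.single i 1)

/-- The Christoffel symbols `Γ^k_{ij}` of the metric `g`. -/
noncomputable def chr (g : P4 → M4) (k i j : Fin 4) (x : P4) : ℝ :=
  1 / 2 * ∑ l, (g x)⁻¹ k l *
    (pd i (fun y => g y l j) x + pd j (fun y => g y l i) x - pd l (fun y => g y i j) x)

/-- The components `R^l_{kij}` of the curvature tensor:
`R(∂_i, ∂_j) ∂_k = ∇_i ∇_j ∂_k - ∇_j ∇_i ∂_k = ∑ l, R^l_{kij} ∂_l`. -/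
noncomputable def riem (g : P4 → M4) (l k i j : Fin 4) (x : P4) : ℝ :=
  pd i (chr g l j k) x - pd j (chr g l i k) x +
    ∑ m, (chr g l i m x * chr g m j k x - chr g l j m x * chr g m i k x)

/-- The Ricci tensor. -/
noncomputable def ric (g : P4 → M4) (k j : Fin 4) (x : P4) : ℝ := ∑ i, riem g i k i j x

/-- The Einstein equation `Ric(g) = Λ g`. -/
def IsEinstein (Λ : ℝ) (g : P4 → M4) : Prop := ∀ x k j, ric g k j x = Λ * g x k j

/-- The metric `g` has constant sectional curvature `c`: `R(X, Y) Z = c (g(Y, Z) X - g(X, Z) Y)`. -/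
def HasConstCurv (c : ℝ) (g : P4 → M4) : Prop := ∀ x l k i j,
  riem g l k i j x = c * ((1 : M4) l i * g x k j - (1 : M4) l j * g x k i)

/-- `|x|²`. -/
def nsq (x : P4) : ℝ := ∑ i, x i ^ 2

/-- The inversion, the transition map between the two charts of the sphere. -/
noncomputable def inv4 (x : P4) : P4 := fun i => x i / nsq x

/-- The Jacobian matrix of the inversion. -/
noncomputable def jac (x : P4) : M4 := fun i j => (1 : M4) i j / nsq x - 2 * x i * x j / nsq x ^ 2

/-- A smooth Riemannian metric on a chart. -/
structure IsMetric (g : P4 → M4) : Prop where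
  smooth : ∀ i j, ContDiff ℝ ∞ (fun x => g x i j)
  posDef : ∀ x, (g x).PosDef

/-- A smooth Riemannian metric on the 4-sphere: the metrics `g` and `g'` on the two charts
correspond to each other under the transition map. -/
structure SphereMetric (g g' : P4 → M4) : Prop where
  left : IsMetric g
  right : IsMetric g'
  glue : ∀ x, x ≠ 0 → g x = (jac x)ᵀ * g' (inv4 x) * jac x

/-- The action of the torus: rotations in the two planes of `ℝ⁴ = ℝ² × ℝ²`. -/
noncomputable def rot (α β : ℝ) : M4 :=
  !![Real.cos α, -Real.sin α, 0, 0; Real.sin α, Real.cos α, 0, 0;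
    0, 0, Real.cos β, -Real.sin β; 0, 0, Real.sin β, Real.cos β]

/-- The metric `g` is invariant under the torus. -/
def TorusInvariant (g : P4 → M4) : Prop :=
  ∀ α β x, (rot α β)ᵀ * g (rot α β *ᵥ x) * rot α β = g x

end Pool.Agent.T2S4
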