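import Pool.Agent.T2S4.Polar

/-!
# Constant curvature on a dense set

PACKAGE. Prove the theorems (helper lemmas allowed, private or prefixed by `Dense_`).

* `dense_Om`: `Om` is dense in `ℝ⁴` (`x + ε (1, 0, 1, 0)` for all small `ε ≠ 0`).
* `riem_cont`: the components of the curvature of a smooth metric are continuous (`chrV_smooth`,
  `ld_smooth` on `Set.univ`).
* `const_of_Om`: two continuous functions which agree on a dense set agree (`Continuous.ext_on`).
-/

set_option autoImplicit false

namespace Pool.Agent.T2S4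

open Matrix
open scoped ContDiff

theorem dense_Om : Dense Om := by
  intro x
  rw [mem_closure_iff_seq_limit]
  let f : ℕ → P4 := fun n => ![x 0 + ((n : ℝ) + 1)⁻¹, x 1, x 2 + ((n : ℝ) + 1)⁻¹, x 3]
  have hlim : Filter.Tendsto (fun n : ℕ => ((n : ℝ) + 1)⁻¹) Filter.atTop (nhds 0) :=
    (Filter.tendsto_atTop_add_const_right _ _ tendsto_natCast_atTop_atTop).inv_tendsto_atTop
  have hf : Filter.Tendsto f Filter.atTop (nhds x) := by
    rw [tendsto_pi_nhds]
    intro a
    have h0 : Filter.Tendsto (fun n : ℕ => x 0 + ((n : ℝ) + 1)⁻¹) Filter.atTop (nhds (x 0)) := by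
      simpa using hlim.const_add (x 0)
    have h2 : Filter.Tendsto (fun n : ℕ => x 2 + ((n : ℝ) + 1)⁻¹) Filter.atTop (nhds (x 2)) := by
      simpa using hlim.const_add (x 2)
    fin_cases a
    · exact h0
    · exact tendsto_const_nhds
    · exact h2
    · exact tendsto_const_nhds
  -- for large `n` the two coordinates are different from zero
  have key : ∀ t : ℝ, ∀ᶠ n : ℕ in Filter.atTop, t + ((n : ℝ) + 1)⁻¹ ≠ 0 := by
    intro t
    rcases le_or_gt 0 t with ht | ht
    · refine Filter.Eventually.of_forall fun n => ?_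
      have : 0 < ((n : ℝ) + 1)⁻¹ := by positivity
      linarith
    · have h1 : Filter.Tendsto (fun n : ℕ => t + ((n : ℝ) + 1)⁻¹) Filter.atTop (nhds t) := by
        simpa using hlim.const_add t
      filter_upwards [h1.eventually_lt_const ht] with n hn
      exact hn.ne
  obtain ⟨N, hN⟩ := Filter.eventually_atTop.1 ((key (x 0)).and (key (x 2)))
  refine ⟨fun n => f (n + N), fun n => ?_, hf.comp (Filter.tendsto_add_atTop_nat N)⟩
  obtain ⟨h1, h2⟩ := hN (n + N) (Nat.le_add_left N n)
  refine ⟨?_, ?_⟩
  · show 0 < (x 0 + (((n + N : ℕ) : ℝ) + 1)⁻¹) ^ 2 + x 1 ^ 2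
    have := sq_nonneg (x 1)
    have := pow_pos (abs_pos.2 h1) 2
    rw [sq_abs] at this
    linarith
  · show 0 < (x 2 + (((n + N : ℕ) : ℝ) + 1)⁻¹) ^ 2 + x 3 ^ 2
    have := sq_nonneg (x 3)
    have := pow_pos (abs_pos.2 h2) 2
    rw [sq_abs] at this
    linarith

theorem riem_cont {g : P4 → M4} (hg : IsMetric g) (l k i j : Fin 4) :
    Continuous (riem g l k i j) := by
  have hfr := fr_chart hg
  have hc : ∀ a b c : Fin 4, ContDiffOn ℝ ∞ (chrV e4 g a b c) Set.univ := fun a b c =>
    chrV_smooth hfr a b c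
  have hd : ∀ a b c d : Fin 4, Continuous (ld (e4 d) (chrV e4 g a b c)) := fun a b c d =>
    continuousOn_univ.1 (ld_smooth isOpen_univ (hfr.smX d) (hc a b c)).continuousOn
  have hcc : ∀ a b c : Fin 4, Continuous (chrV e4 g a b c) := fun a b c =>
    continuousOn_univ.1 (hc a b c).continuousOn
  rw [riem_eq]
  unfold riemV
  exact ((hd l j k i).sub (hd l i k j)).add (continuous_finsetSum _ fun m _ =>
    ((hcc l i m).mul (hcc m j k)).sub ((hcc l j m).mul (hcc m i k)))

theorem const_of_Om {g : P4 → M4} (hg : IsMetric g) {c : ℝ}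
    (h : ∀ x ∈ Om, ∀ l k i j : Fin 4, riem g l k i j x =
      c * ((1 : M4) l i * g x k j - (1 : M4) l j * g x k i)) : HasConstCurv c g := by
  intro x l k i j
  have hg' : ∀ a b, Continuous fun x => g x a b := fun a b => (hg.smooth a b).continuous
  have h1 : Continuous fun x => c * ((1 : M4) l i * g x k j - (1 : M4) l j * g x k i) :=
    continuous_const.mul ((continuous_const.mul (hg' k j)).sub (continuous_const.mul (hg' k i)))
  have h2 := Continuous.ext_on dense_Om (riem_cont hg l k i j) h1 fun x hx => h x hx l k i j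
  exact congrFun h2 x

end Pool.Agent.T2S4
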