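import Pool.Agent.T2S4.SigmaEq
import Pool.Agent.T2S4.MaxP

/-!
# The metric is diagonal; the Einstein constant is positive

PACKAGE. Prove the theorems (helper lemmas allowed, private or prefixed by `Diag_`).

* `B_zero`: `B = G_01 / √det G` is smooth and `L B = e B`, `e ≥ 0` (`Lop_B`, `Lop_eq`). Suppose `B p > 0`;
  let `m = B p / 2`, `K = {q | m ≤ B q}` (compact: closed, and contained in a compact set because `B → 0`
  at infinity), `U = {q | m < B q}` open. On `K \ U`, `B = m`; on `U`, `L B = e B ≥ 0`. `max_principle`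
  gives `B p ≤ m`, a contradiction. The same for `-B` (which satisfies the same equation). So `B = 0`
  and `G_01 = 0`.
* `lam_pos`: suppose `Λ ≤ 0`. `σ = log (det G) / 2` is smooth, `L σ = - 2 Λ ≥ 0`, `σ → -∞` at infinity. With
  `m = σ 0 - 1`, `K = {σ ≥ m}`, `U = {σ > m}`: `max_principle` gives `σ 0 ≤ m`, a contradiction.
* `Lop_phi`: if `G_01 = 0`: for the diagonal entries `Lop_G` says
  `L G_ii = <G_ii, G_ii> / G_ii - 2 Λ G_ii` (`G⁻¹` is diagonal; `G_01 = G_10 = 0` so their gradients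
  vanish), hence `L (log G_ii) = - 2 Λ` by `Lop_log`, and `L (log (G_11 / G_00) / 2) = 0`.
-/

set_option autoImplicit false

namespace Pool.Agent.T2S4

open Matrix Filter Topology
open scoped ContDiff

private theorem Diag_det_pos {Λ : ℝ} {h G : ℝ × ℝ → M2} (hg : GoodB Λ h G) (p : ℝ × ℝ) :
    0 < (G p).det := (hg.posG p).det_pos

private theorem Diag_det_smooth {Λ : ℝ} {h G : ℝ × ℝ → M2} (hg : GoodB Λ h G) :
    ContDiff ℝ ∞ (fun q => (G q).det) := by
  simp only [Matrix.det_fin_two]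
  exact ((hg.smG 0 0).mul (hg.smG 1 1)).sub ((hg.smG 0 1).mul (hg.smG 1 0))

/-- the maximum principle for a function which is small at infinity -/
private theorem Diag_max {Λ : ℝ} {h G : ℝ × ℝ → M2} (hg : GoodB Λ h G) {f : ℝ × ℝ → ℝ}
    (hf : ContDiff ℝ ∞ f) {m : ℝ} (hev : ∀ᶠ q in cocompact (ℝ × ℝ), f q < m)
    (hL : ∀ q, m < f q → 0 ≤ Lop h G f q) (p : ℝ × ℝ) : f p ≤ m := by
  obtain ⟨t, ht, htK⟩ := Filter.mem_cocompact.1 hev
  have hcl : IsClosed {q : ℝ × ℝ | m ≤ f q} := isClosed_le continuous_const hf.continuous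
  have hK : IsCompact {q : ℝ × ℝ | m ≤ f q} := by
    refine ht.of_isClosed_subset hcl ?_
    intro q hq
    by_contra hqt
    have h1 : f q < m := htK hqt
    have h2 : m ≤ f q := hq
    linarith
  have hU : IsOpen {q : ℝ × ℝ | m < f q} := isOpen_lt continuous_const hf.continuous
  by_cases hp : m ≤ f p
  · exact max_principle (a := fun q => (h q)⁻¹) (b := bco h G)
      (fun i j => (hinv_smooth hg i j).continuous) (fun q => hinv_pos hg q)
      (fun i => (bco_smooth hg i).continuous) hf hK hU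
      (fun q (hq : m < f q) => (le_of_lt hq : m ≤ f q))
      (fun q _ hq => not_lt.1 hq)
      (fun q hq => by
        rw [← Lop_eq hg hf q]
        exact hL q hq) p hp
  · exact (not_le.1 hp).le

private theorem Diag_le_zero {Λ : ℝ} {h G : ℝ × ℝ → M2} (hg : GoodB Λ h G) {f : ℝ × ℝ → ℝ}
    (hf : ContDiff ℝ ∞ f) (hf0 : Tendsto f (cocompact (ℝ × ℝ)) (𝓝 0)) {e : ℝ × ℝ → ℝ}
    (he : ∀ p, 0 ≤ e p) (hL : ∀ p, Lop h G f p = e p * f p) (p : ℝ × ℝ) : f p ≤ 0 := by
  by_contra hcon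
  have hp : 0 < f p := not_le.1 hcon
  have hev : ∀ᶠ q in cocompact (ℝ × ℝ), f q < f p / 2 :=
    hf0.eventually (gt_mem_nhds (by linarith))
  have h1 := Diag_max hg hf hev (fun q hq => by
    rw [hL q]
    exact mul_nonneg (he q) (by linarith)) p
  linarith

theorem B_zero {Λ : ℝ} {h G : ℝ × ℝ → M2} (hg : GoodB Λ h G)
    (hB : Tendsto (fun q => G q 0 1 / √(G q).det) (cocompact (ℝ × ℝ)) (𝓝 0)) (p : ℝ × ℝ) :
    G p 0 1 = 0 := by
  obtain ⟨e, he, hL⟩ := Lop_B hg
  have hsq : ContDiff ℝ ∞ (fun q => √(G q).det) :=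
    (Diag_det_smooth hg).sqrt (fun q => (Diag_det_pos hg q).ne')
  have hsp : ∀ q, 0 < √(G q).det := fun q => Real.sqrt_pos.2 (Diag_det_pos hg q)
  have hf : ContDiff ℝ ∞ (fun q => G q 0 1 / √(G q).det) :=
    (hg.smG 0 1).div hsq (fun q => (hsp q).ne')
  have h1 := Diag_le_zero hg hf hB he hL p
  have hf' : ContDiff ℝ ∞ (fun q => -1 * (G q 0 1 / √(G q).det)) := contDiff_const.mul hf
  have hB' : Tendsto (fun q => -1 * (G q 0 1 / √(G q).det)) (cocompact (ℝ × ℝ)) (𝓝 0) := by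
    have := hB.const_mul (-1 : ℝ)
    simpa using this
  have h2 := Diag_le_zero hg hf' hB' he (fun q => by
    rw [Lop_smul hg hf (-1) q, hL q]
    ring) p
  have h3 : G p 0 1 / √(G p).det = 0 := by
    have h2' : -1 * (G p 0 1 / √(G p).det) ≤ 0 := h2
    have h1' : G p 0 1 / √(G p).det ≤ 0 := h1
    linarith
  rcases div_eq_zero_iff.1 h3 with h4 | h4
  · exact h4
  · exact absurd h4 (hsp p).ne'

theorem lam_pos {Λ : ℝ} {h G : ℝ × ℝ → M2} (hg : GoodB Λ h G)
    (hs : Tendsto (fun q => Real.log (G q).det / 2) (cocompact (ℝ × ℝ)) atBot) : 0 < Λ := by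
  by_contra hcon
  have hΛ : Λ ≤ 0 := not_lt.1 hcon
  have hf : ContDiff ℝ ∞ (fun q => Real.log (G q).det / 2) :=
    ((Diag_det_smooth hg).log (fun q => (Diag_det_pos hg q).ne')).div_const 2
  have hev : ∀ᶠ q in cocompact (ℝ × ℝ),
      Real.log (G q).det / 2 < Real.log (G 0).det / 2 - 1 :=
    hs.eventually (eventually_lt_atBot _)
  have h1 := Diag_max hg hf hev (fun q _ => by
    rw [Lop_sigma hg q]
    linarith) 0
  linarith

private theorem Diag_gip_zero_left (h : ℝ × ℝ → M2) (k : ℝ × ℝ → ℝ) (p : ℝ × ℝ) :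
    gip h (fun _ => 0) k p = 0 := by
  unfold gip dd
  simp

private theorem Diag_symm {Λ : ℝ} {h G : ℝ × ℝ → M2} (hg : GoodB Λ h G) (p : ℝ × ℝ) :
    G p 1 0 = G p 0 1 := by
  have := (hg.posG p).isHermitian.apply 0 1
  simpa using this

private theorem Diag_log {Λ : ℝ} {h G : ℝ × ℝ → M2} (hg : GoodB Λ h G)
    (h01 : ∀ p, G p 0 1 = 0) (p : ℝ × ℝ) (i : Fin 2) :
    Lop h G (fun q => Real.log (G q i i)) p = -2 * Λ := by
  have h10 : ∀ q, G q 1 0 = 0 := fun q => by rw [Diag_symm hg q, h01 q]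
  have hpos : ∀ q, ∀ i, 0 < G q i i := fun q i => (hg.posG q).diag_pos
  rw [Lop_log hg (hg.smG i i) (fun q => hpos q i) p, Lop_G hg p i i]
  have hp := hpos p
  have hdet : (G p).det = G p 0 0 * G p 1 1 := by
    rw [Matrix.det_fin_two, h01, h10]
    ring
  have e01 : (fun q => G q 0 1) = fun _ : ℝ × ℝ => (0 : ℝ) := funext h01
  have e10 : (fun q => G q 1 0) = fun _ : ℝ × ℝ => (0 : ℝ) := funext h10
  have i00 : (G p)⁻¹ 0 0 = 1 / G p 0 0 := by
    rw [Matrix.inv_def, Matrix.adjugate_fin_two, hdet, Ring.inverse_eq_inv']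
    have h0 := (hp 0).ne'
    have h1 := (hp 1).ne'
    simp
    field_simp
  have i11 : (G p)⁻¹ 1 1 = 1 / G p 1 1 := by
    rw [Matrix.inv_def, Matrix.adjugate_fin_two, hdet, Ring.inverse_eq_inv']
    have h0 := (hp 0).ne'
    have h1 := (hp 1).ne'
    simp
    field_simp
  have i01 : (G p)⁻¹ 0 1 = 0 := by
    rw [Matrix.inv_def, Matrix.adjugate_fin_two, hdet, Ring.inverse_eq_inv']
    simp [h01]
  have i10 : (G p)⁻¹ 1 0 = 0 := by
    rw [Matrix.inv_def, Matrix.adjugate_fin_two, hdet, Ring.inverse_eq_inv']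
    simp [h10]
  have h0 := (hp 0).ne'
  have h1 := (hp 1).ne'
  fin_cases i
  · simp only [Fin.sum_univ_two, Fin.zero_eta, Fin.isValue, i00, i01, i10, i11, e01, e10,
      Diag_gip_zero_left]
    field_simp
    ring
  · simp only [Fin.sum_univ_two, Fin.mk_one, Fin.isValue, i00, i01, i10, i11, e01, e10,
      Diag_gip_zero_left]
    field_simp
    ring

theorem Lop_phi {Λ : ℝ} {h G : ℝ × ℝ → M2} (hg : GoodB Λ h G) (h01 : ∀ p, G p 0 1 = 0)
    (p : ℝ × ℝ) : Lop h G (fun q => Real.log (G q 1 1 / G q 0 0) / 2) p = 0 := by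
  have hpos : ∀ q, ∀ i, 0 < G q i i := fun q i => (hg.posG q).diag_pos
  have hl : ∀ i, ContDiff ℝ ∞ (fun q => Real.log (G q i i)) := fun i =>
    (hg.smG i i).log (fun q => (hpos q i).ne')
  have e : (fun q => Real.log (G q 1 1 / G q 0 0) / 2) =
      fun q => 1 / 2 * Real.log (G q 1 1) + -(1 / 2) * Real.log (G q 0 0) := by
    funext q
    rw [Real.log_div (hpos q 1).ne' (hpos q 0).ne']
    ring
  rw [e, Lop_add hg (contDiff_const.mul (hl 1)) (contDiff_const.mul (hl 0)) p,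
    Lop_smul hg (hl 1), Lop_smul hg (hl 0), Diag_log hg h01 p 1, Diag_log hg h01 p 0]
  ring

end Pool.Agent.T2S4
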