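import Pool.Agent.T2S4.AdaptDefs
import Pool.Agent.T2S4.Curv

/-!
# Christoffel symbols of a diagonal metric

PACKAGE. Prove the theorems (helper lemmas allowed, private or prefixed by `DiagChr_`).

For the diagonal matrix `γ = diag(e^{2 α_i})`: `X_l γ_ij = δ_ij 2 e^{2α_i} X_l α_i`, so
`Γ^k_ij = δ_ki X_j α_k + δ_kj X_i α_k - δ_ij e^{2 α_i - 2 α_k} X_k α_i`. (`Matrix.inv_diagonal`; the
off-diagonal entries of `dm` are `0`, their derivatives vanish.)

The second derivatives of the exponents: `ld (X i) (al ... k)` are linear combinations of those of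
`σ, ν, φ` (`al_ld`); with `X_0 φ = 1`, `X_1 φ = 0` on `O`.
-/

set_option autoImplicit false

namespace Pool.Agent.T2S4

open Matrix Filter Topology
open scoped ContDiff

variable {E : Type} [NormedAddCommGroup E] [NormedSpace ℝ E]

private theorem da {O : Set E} (hO : IsOpen O) {f : E → ℝ} (hf : ContDiffOn ℝ ∞ f O) {x : E}
    (hx : x ∈ O) : DifferentiableAt ℝ f x :=
  (hf.contDiffAt (hO.mem_nhds hx)).differentiableAt (by simp)

private theorem da_al {σ ν φ : E → ℝ} {x : E} (hσ : DifferentiableAt ℝ σ x)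
    (hν : DifferentiableAt ℝ ν x) (hφ : DifferentiableAt ℝ φ x) (a : Fin 4) :
    DifferentiableAt ℝ (al σ ν φ a) x := by
  fin_cases a
  · exact hν.fun_neg
  · exact hσ.fun_neg.fun_sub hν
  · have h4 : al σ ν φ 2 = fun x => (2 : ℝ)⁻¹ * (σ x - φ x) := by
      funext y
      change (σ y - φ y) / 2 = _
      ring
    change DifferentiableAt ℝ (al σ ν φ 2) x
    rw [h4]
    exact (hσ.fun_sub hφ).const_mul _
  · have h4 : al σ ν φ 3 = fun x => (2 : ℝ)⁻¹ * (σ x + φ x) := by
      funext y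
      change (σ y + φ y) / 2 = _
      ring
    change DifferentiableAt ℝ (al σ ν φ 3) x
    rw [h4]
    exact (hσ.fun_add hφ).const_mul _

omit [NormedAddCommGroup E] [NormedSpace ℝ E] in
private theorem dm_inv (σ ν φ : E → ℝ) (x : E) :
    (dm σ ν φ x)⁻¹ = Matrix.diagonal fun i => Real.exp (-(2 * al σ ν φ i x)) := by
  refine Matrix.inv_eq_right_inv ?_
  unfold dm
  rw [Matrix.diagonal_mul_diagonal]
  simp only [← Real.exp_add, add_neg_cancel, Real.exp_zero]
  exact Matrix.diagonal_one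

private theorem ld_dm {σ ν φ : E → ℝ} {x : E} (hσ : DifferentiableAt ℝ σ x)
    (hν : DifferentiableAt ℝ ν x) (hφ : DifferentiableAt ℝ φ x) (Y : E → E) (a b : Fin 4) :
    ld Y (fun y => dm σ ν φ y a b) x =
      if a = b then 2 * Real.exp (2 * al σ ν φ a x) * ld Y (al σ ν φ a) x else 0 := by
  by_cases h : a = b
  · subst h
    rw [if_pos rfl]
    have h1 : (fun y => dm σ ν φ y a a) = fun y => Real.exp (2 * al σ ν φ a y) := by
      funext y
      exact Matrix.diagonal_apply_eq _ _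
    have h2 := da_al hσ hν hφ a
    unfold ld
    rw [h1, fderiv_exp (h2.const_mul 2), fderiv_const_mul h2]
    simp only [_root_.smul_apply, smul_eq_mul]
    ring
  · rw [if_neg h]
    have h1 : (fun y => dm σ ν φ y a b) = fun _ => 0 := by
      funext y
      exact Matrix.diagonal_apply_ne _ h
    unfold ld
    rw [h1]
    simp

theorem chrV_dm {O : Set E} (hO : IsOpen O) {X : Fin 4 → E → E} {σ ν φ : E → ℝ}
    (hσ : ContDiffOn ℝ ∞ σ O) (hν : ContDiffOn ℝ ∞ ν O) (hφ : ContDiffOn ℝ ∞ φ O) {x : E}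
    (hx : x ∈ O) (k i j : Fin 4) : chrV X (dm σ ν φ) k i j x =
      (if k = i then ld (X j) (al σ ν φ k) x else 0) +
      (if k = j then ld (X i) (al σ ν φ k) x else 0) -
      (if i = j then Real.exp (2 * al σ ν φ i x - 2 * al σ ν φ k x) * ld (X k) (al σ ν φ i) x
        else 0) := by
  have h1 := da hO hσ hx
  have h2 := da hO hν hx
  have h3 := da hO hφ hx
  unfold chrV
  rw [dm_inv]
  simp only [ld_dm h1 h2 h3]
  rw [Finset.sum_eq_single k]
  · rw [Matrix.diagonal_apply_eq]
    have h4 : Real.exp (-(2 * al σ ν φ k x)) * Real.exp (2 * al σ ν φ k x) = 1 := by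
      rw [← Real.exp_add, neg_add_cancel, Real.exp_zero]
    have h5 : Real.exp (2 * al σ ν φ i x - 2 * al σ ν φ k x) =
        Real.exp (-(2 * al σ ν φ k x)) * Real.exp (2 * al σ ν φ i x) := by
      rw [← Real.exp_add]
      congr 1
      ring
    rw [h5]
    split_ifs
    all_goals first
      | ring1
      | linear_combination (ld (X i) (al σ ν φ k) x) * h4
      | linear_combination (ld (X j) (al σ ν φ k) x) * h4
      | linear_combination (ld (X i) (al σ ν φ k) x + ld (X j) (al σ ν φ k) x) * h4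
  · intro l _ hl
    rw [Matrix.diagonal_apply_ne _ hl.symm, zero_mul]
  · intro h
    exact absurd (Finset.mem_univ k) h

theorem al_ld {O : Set E} (hO : IsOpen O) {X : E → E} {σ ν φ : E → ℝ}
    (hσ : ContDiffOn ℝ ∞ σ O) (hν : ContDiffOn ℝ ∞ ν O) (hφ : ContDiffOn ℝ ∞ φ O) {x : E}
    (hx : x ∈ O) : ld X (al σ ν φ 0) x = -ld X ν x ∧ ld X (al σ ν φ 1) x = -ld X σ x - ld X ν x ∧
      ld X (al σ ν φ 2) x = (ld X σ x - ld X φ x) / 2 ∧
      ld X (al σ ν φ 3) x = (ld X σ x + ld X φ x) / 2 := by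
  have h1 := da hO hσ hx
  have h2 := da hO hν hx
  have h3 := da hO hφ hx
  refine ⟨?_, ?_, ?_, ?_⟩
  · change fderiv ℝ (fun x => -ν x) x (X x) = _
    rw [fderiv_fun_neg]
    rfl
  · change fderiv ℝ (fun x => -σ x - ν x) x (X x) = _
    rw [fderiv_fun_sub h1.fun_neg h2, fderiv_fun_neg]
    rfl
  · change fderiv ℝ (fun x => (σ x - φ x) / 2) x (X x) = _
    have h4 : (fun x => (σ x - φ x) / 2) = fun x => (2 : ℝ)⁻¹ * (σ x - φ x) := by
      funext y
      ring
    rw [h4, fderiv_const_mul (h1.fun_sub h3), fderiv_fun_sub h1 h3]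
    unfold ld
    simp only [_root_.smul_apply, _root_.sub_apply, smul_eq_mul]
    ring
  · change fderiv ℝ (fun x => (σ x + φ x) / 2) x (X x) = _
    have h4 : (fun x => (σ x + φ x) / 2) = fun x => (2 : ℝ)⁻¹ * (σ x + φ x) := by
      funext y
      ring
    rw [h4, fderiv_const_mul (h1.fun_add h3), fderiv_fun_add h1 h3]
    unfold ld
    simp only [_root_.smul_apply, _root_.add_apply, smul_eq_mul]
    ring

end Pool.Agent.T2S4
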