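import Pool.Agent.T2S4.Polar

/-!
# The entries of the metric in the polar frame

PACKAGE. Prove the theorems (helper lemmas allowed, private or prefixed by `Entries_`).

At the slice point `(a, 0, b, 0)`, `a = e^s`, `b = e^t`, the frame vectors are `a e_0, b e_2, a e_1, b e_3`.
Hence `gt_apply`. Smoothness: composition of smooth functions. Positive definite: `Fm (sl p)` is
invertible (`det_Fm`), `Matrix.PosDef.conjTranspose_mul_mul_same` or similar.
`gt_inv`: the inverse matrix: `gt g p = D T D` with `D = diagonal (wt p)` and `T` the permuted matrix.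
`gt_det`: `det (gt g p) = (wt p 0 * wt p 1)^4 det (g (sl p))` (`= (det Fm)² det g`).
-/

set_option autoImplicit false

namespace Pool.Agent.T2S4

open Matrix
open scoped ContDiff

/-- The weights of the frame vectors. -/
noncomputable def wt (p : ℝ × ℝ) : Fin 4 → ℝ :=
  ![Real.exp p.1, Real.exp p.2, Real.exp p.1, Real.exp p.2]

/-- The directions of the frame vectors at the slice. -/
def tau : Fin 4 → Fin 4 := ![0, 2, 1, 3]

private lemma Fm_sl (p : ℝ × ℝ) (i j : Fin 4) :
    Fm (sl p) i j = if i = tau j then wt p j else 0 := by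
  fin_cases i <;> fin_cases j <;> simp [Fm, fr4, sl, tau, wt]

private lemma wt_pos (p : ℝ × ℝ) (i : Fin 4) : 0 < wt p i := by
  fin_cases i <;> simp [wt, Real.exp_pos]

private lemma tau_bij : Function.Bijective tau := by decide

theorem gt_apply (g : P4 → M4) (p : ℝ × ℝ) (i j : Fin 4) :
    gt g p i j = wt p i * wt p j * g (sl p) (tau i) (tau j) := by
  unfold gt
  rw [Matrix.mul_apply]
  simp only [Matrix.mul_apply, Matrix.transpose_apply, Fm_sl]
  simp
  ring

theorem gt_smooth {g : P4 → M4} (hg : IsMetric g) (i j : Fin 4) :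
    ContDiff ℝ ∞ (fun p => gt g p i j) := by
  simp only [gt_apply]
  have hw : ∀ i, ContDiff ℝ ∞ (fun p : ℝ × ℝ => wt p i) := by
    have h1 : ContDiff ℝ ∞ (fun p : ℝ × ℝ => Real.exp p.1) := contDiff_fst.exp
    have h2 : ContDiff ℝ ∞ (fun p : ℝ × ℝ => Real.exp p.2) := contDiff_snd.exp
    intro i
    fin_cases i
    · exact h1
    · exact h2
    · exact h1
    · exact h2
  have hs : ContDiff ℝ ∞ sl := by
    rw [contDiff_pi]
    intro k
    fin_cases k
    · exact hw 0
    · exact contDiff_const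
    · exact hw 1
    · exact contDiff_const
  exact ((hw i).mul (hw j)).mul ((hg.smooth (tau i) (tau j)).comp hs)

private lemma det_Fm_sl (p : ℝ × ℝ) :
    (Fm (sl p)).det = -(Real.exp p.1 * Real.exp p.2) ^ 2 := by
  rw [det_Fm]
  simp [sl]
  ring

theorem gt_posDef {g : P4 → M4} (hg : IsMetric g) (p : ℝ × ℝ) : (gt g p).PosDef := by
  have hdet : (Fm (sl p)).det ≠ 0 := by
    rw [det_Fm_sl]
    have := Real.exp_pos p.1
    have := Real.exp_pos p.2
    have : 0 < (Real.exp p.1 * Real.exp p.2) ^ 2 := by positivity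
    linarith
  have hinj : Function.Injective (Fm (sl p)).mulVec :=
    Matrix.mulVec_injective_iff_isUnit.2 ((Matrix.isUnit_iff_isUnit_det _).2 hdet.isUnit)
  have := (hg.posDef (sl p)).conjTranspose_mul_mul_same hinj
  rwa [Matrix.conjTranspose_eq_transpose_of_trivial] at this

theorem gt_inv {g : P4 → M4} (hg : IsMetric g) (p : ℝ × ℝ) (i j : Fin 4) :
    (gt g p)⁻¹ i j = (wt p i)⁻¹ * (wt p j)⁻¹ * (g (sl p))⁻¹ (tau i) (tau j) := by
  have hu : IsUnit (g (sl p)).det := (hg.posDef (sl p)).det_pos.ne'.isUnit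
  set N : M4 := fun i j => (wt p i)⁻¹ * (wt p j)⁻¹ * (g (sl p))⁻¹ (tau i) (tau j) with hN
  have h1 : gt g p * N = 1 := by
    ext a b
    rw [Matrix.mul_apply]
    have e1 : ∀ k, gt g p a k * N k b =
        wt p a * (wt p b)⁻¹ * (g (sl p) (tau a) (tau k) * (g (sl p))⁻¹ (tau k) (tau b)) := by
      intro k
      have := (wt_pos p k).ne'
      rw [gt_apply]
      simp only [hN]
      field_simp
    rw [Finset.sum_congr rfl fun k _ => e1 k, ← Finset.mul_sum,
      tau_bij.sum_comp (fun k => g (sl p) (tau a) k * (g (sl p))⁻¹ k (tau b)),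
      ← Matrix.mul_apply, Matrix.mul_nonsing_inv _ hu, Matrix.one_apply, Matrix.one_apply]
    have hab := (wt_pos p b).ne'
    by_cases hab' : a = b
    · subst hab'
      simp [hab]
    · have : tau a ≠ tau b := fun h => hab' (tau_bij.1 h)
      simp [hab', this]
  rw [Matrix.inv_eq_right_inv h1]

theorem gt_det (g : P4 → M4) (p : ℝ × ℝ) :
    (gt g p).det = (Real.exp p.1 * Real.exp p.2) ^ 4 * (g (sl p)).det := by
  unfold gt
  rw [Matrix.det_mul, Matrix.det_mul, Matrix.det_transpose, det_Fm_sl]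
  ring

end Pool.Agent.T2S4
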