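import Pool.Agent.T2S4.Rot
import Pool.Agent.T2S4.Entries

/-!
# Transfer to the orbit space

PACKAGE. Prove the theorems (helper lemmas allowed, private or prefixed by `Ein_`).

* `chrV_pol`, `riemV_pol`: for smooth positive definite `γ` on `ℝ × ℝ`, the Christoffel symbols and
  the curvature of `fun x => γ (pol x)` in the frame `fr4` at `x ∈ Om` are those of `γ` in the frame
  `bas` at `pol x`: by `ld_pol` (twice; for the second derivatives note that
  `chrV fr4 (fun x => γ (pol x)) k i j` and `fun x => chrV bas γ k i j (pol x)` agree on the open set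
  `Om`, so their derivatives agree at `x ∈ Om`).
* `good_gt`: `chg_ein` for `chg_polar` with `γ' = fun x => gt g (pol x)` (`gt_pol`) at `x = sl p`,
  `pol_sl`.
* `const_Om`: the same with `chg_CC` at any `x ∈ Om`.
-/

set_option autoImplicit false

namespace Pool.Agent.T2S4

open Matrix
open scoped ContDiff

theorem chrV_pol {γ : ℝ × ℝ → M4} (hs : ∀ i j, ContDiff ℝ ∞ (fun p => γ p i j)) {x : P4}
    (hx : x ∈ Om) (k i j : Fin 4) :
    chrV fr4 (fun y => γ (pol y)) k i j x = chrV bas γ k i j (pol x) := by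
  have h1 : ∀ a b c : Fin 4, ld (fr4 a) (fun y => γ (pol y) b c) x =
      ld (bas a) (fun p => γ p b c) (pol x) := fun a b c =>
    ld_pol hx (f := fun p => γ p b c) ((hs b c).differentiable (by simp) _) a
  unfold chrV
  simp only [h1]

private theorem Ein_fr {γ : ℝ × ℝ → M4} (hs : ∀ i j, ContDiff ℝ ∞ (fun p => γ p i j))
    (hp : ∀ p, (γ p).PosDef) : Fr Set.univ bas γ := by
  have hb : ∀ i, ∃ c, bas i = fun _ => c := by
    intro i
    fin_cases i
    · exact ⟨_, rfl⟩
    · exact ⟨_, rfl⟩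
    · exact ⟨_, rfl⟩
    · exact ⟨_, rfl⟩
  refine ⟨isOpen_univ, fun i => ?_, fun i j => (hs i j).contDiffOn, fun x _ => ?_,
    fun x _ => (hp x).det_pos.ne', fun i j x _ => ?_⟩
  · obtain ⟨c, hc⟩ := hb i
    rw [hc]
    exact contDiffOn_const
  · have h1 := (hp x).isHermitian
    rw [Matrix.IsHermitian, Matrix.conjTranspose_eq_transpose_of_trivial] at h1
    exact h1
  · obtain ⟨c, hc⟩ := hb i
    obtain ⟨d, hd⟩ := hb j
    rw [hc, hd]
    simp

theorem riemV_pol {γ : ℝ × ℝ → M4} (hs : ∀ i j, ContDiff ℝ ∞ (fun p => γ p i j))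
    (hp : ∀ p, (γ p).PosDef) {x : P4} (hx : x ∈ Om) (l k i j : Fin 4) :
    riemV fr4 (fun y => γ (pol y)) l k i j x = riemV bas γ l k i j (pol x) := by
  have h1 : ∀ a b c d : Fin 4, ld (fr4 d) (chrV fr4 (fun y => γ (pol y)) a b c) x =
      ld (bas d) (chrV bas γ a b c) (pol x) := by
    intro a b c d
    have h2 : chrV fr4 (fun y => γ (pol y)) a b c =ᶠ[nhds x]
        fun y => chrV bas γ a b c (pol y) := by
      filter_upwards [isOpen_Om.mem_nhds hx] with y hy
      exact chrV_pol hs hy a b c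
    have h3 : DifferentiableAt ℝ (chrV bas γ a b c) (pol x) :=
      ((chrV_smooth (Ein_fr hs hp) a b c).contDiffAt
        (isOpen_univ.mem_nhds (Set.mem_univ _))).differentiableAt (by simp)
    have h4 := ld_pol hx h3 d
    rw [← h4]
    unfold ld
    rw [h2.fderiv_eq]
  unfold riemV
  simp only [h1, chrV_pol hs hx]

private theorem Ein_gt {g : P4 → M4} (hT : TorusInvariant g) :
    ∀ x ∈ Om, (fun y => gt g (pol y)) x = (Fm x)ᵀ * g x * Fm x :=
  fun _ hx => (gt_pol hT hx).symm

/-- The Einstein equation on the orbit space. -/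
theorem good_gt {g : P4 → M4} (hg : IsMetric g) (hT : TorusInvariant g) {Λ : ℝ}
    (hE : IsEinstein Λ g) : Good Λ (gt g) := by
  refine ⟨gt_smooth hg, gt_posDef hg, fun p k j => ?_⟩
  have h1 : EinV Λ fr4 (fun y => gt g (pol y)) (sl p) :=
    (chg_ein (fr_Om hg) chg_polar (Ein_gt hT) (sl_mem p) Λ).2 fun k j => hE (sl p) k j
  have h2 := h1 k j
  unfold ricV at h2 ⊢
  simp only [riemV_pol (gt_smooth hg) (gt_posDef hg) (sl_mem p), pol_sl] at h2
  exact h2

theorem const_Om {g : P4 → M4} (hg : IsMetric g) (hT : TorusInvariant g) {c : ℝ}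
    (hC : ∀ p, CC c bas (gt g) p) {x : P4} (hx : x ∈ Om) (l k i j : Fin 4) :
    riem g l k i j x = c * ((1 : M4) l i * g x k j - (1 : M4) l j * g x k i) := by
  have h1 : CC c fr4 (fun y => gt g (pol y)) x := by
    intro l k i j
    rw [riemV_pol (gt_smooth hg) (gt_posDef hg) hx]
    exact hC (pol x) l k i j
  exact (chg_CC (fr_Om hg) chg_polar (Ein_gt hT) hx c).1 h1 l k i j

end Pool.Agent.T2S4
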