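import Pool.Agent.T2S4.LC

/-!
# The Komar identity for a Killing direction

PACKAGE. Prove the theorems (helper lemmas allowed, private or prefixed by `Komar_`).

Let `X i = 0` for one index `i` (all functions are independent of the corresponding coordinate), and
`F^{μν} = ∑ l, (γ⁻¹)_{μ l} Γ^ν_{l i}`, `w = √det γ`.

* `komar_anti`: `F^{μν} = - F^{νμ}`: `2 Γ^ν_{li} = ∑ k, (γ⁻¹)_{νk} (X_l γ_{ki} - X_k γ_{li})` (the term with
  `X_i` is `0`), so `2 F^{μν} = ∑ l k, (γ⁻¹)_{μl} (γ⁻¹)_{νk} (X_l γ_{ki} - X_k γ_{li})`.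
* `komar`: `∑ ν, X_ν (w F^{μν}) = w ∑ κ, (γ⁻¹)_{μκ} ric_{κi}`. Proof: `X_ν w = w ∑ m, Γ^m_{mν}`
  (Jacobi's formula for the derivative of the determinant and `chrV_trace`),
  `X_ν (γ⁻¹)_{μκ} = - ∑ m, ((γ⁻¹)_{μm} Γ^κ_{νm} + (γ⁻¹)_{κm} Γ^μ_{νm})` (from `chrV_metric`), so the
  left side divided by `w` is
  `∑ ν κ, (γ⁻¹)_{μκ} (X_ν Γ^ν_{κi} + ∑ m, Γ^m_{mν} Γ^ν_{κi})
   - ∑ ν κ m, (γ⁻¹)_{μm} Γ^κ_{νm} Γ^ν_{κi} - ∑ ν κ m, (γ⁻¹)_{κm} Γ^μ_{νm} Γ^ν_{κi}`.
  The last sum is `∑ ν m, Γ^μ_{νm} F^{mν}`, which is `0` (symmetric times antisymmetric). And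
  `ric_{κi} = ∑ ν, R^ν_{κνi} = ∑ ν, (X_ν Γ^ν_{iκ} - X_i Γ^ν_{νκ}) + ∑ ν m, (Γ^ν_{νm} Γ^m_{iκ} -
  Γ^ν_{im} Γ^m_{νκ})`, where the term with `X_i` is `0`. With the symmetry of `Γ` both sides agree
  (rename `κ, m` in the third sum).
-/

set_option autoImplicit false

namespace Pool.Agent.T2S4

open Matrix
open scoped ContDiff

variable {E : Type} [NormedAddCommGroup E] [NormedSpace ℝ E]

private theorem Komar_alg (i μ : Fin 4) (Gi : Fin 4 → Fin 4 → ℝ) (Γ : Fin 4 → Fin 4 → Fin 4 → ℝ)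
    (dΓ : Fin 4 → Fin 4 → ℝ) (hG : ∀ a b, Gi a b = Gi b a) (hΓ : ∀ k a b, Γ k a b = Γ k b a)
    (hF : ∀ a b, ∑ l, Gi a l * Γ b l i = -∑ l, Gi b l * Γ a l i) :
    ∑ ν, (∑ l, ((-∑ m, (Gi μ m * Γ l ν m + Gi l m * Γ μ ν m)) * Γ ν l i + Gi μ l * dΓ ν l) +
      (∑ l, Gi μ l * Γ ν l i) * ∑ m, Γ m m ν) =
    ∑ κ, Gi μ κ * ∑ a, (dΓ a κ + ∑ m, (Γ a a m * Γ m i κ - Γ a i m * Γ m a κ)) := by
  have hz : ∑ ν, ∑ l, ∑ m, Gi l m * Γ μ ν m * Γ ν l i = 0 := by
    have h1 : ∑ ν, ∑ l, ∑ m, Gi l m * Γ μ ν m * Γ ν l i =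
        ∑ ν, ∑ m, Γ μ ν m * ∑ l, Gi m l * Γ ν l i := by
      refine Finset.sum_congr rfl fun ν _ => ?_
      rw [Finset.sum_comm]
      refine Finset.sum_congr rfl fun m _ => ?_
      rw [Finset.mul_sum]
      refine Finset.sum_congr rfl fun l _ => ?_
      rw [hG l m]
      ring
    have h2 : ∑ ν, ∑ m, Γ μ ν m * ∑ l, Gi m l * Γ ν l i =
        -∑ ν, ∑ m, Γ μ ν m * ∑ l, Gi m l * Γ ν l i := by
      conv_lhs => rw [Finset.sum_comm]
      rw [← Finset.sum_neg_distrib]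
      refine Finset.sum_congr rfl fun ν _ => ?_
      rw [← Finset.sum_neg_distrib]
      refine Finset.sum_congr rfl fun m _ => ?_
      rw [hF ν m, hΓ μ m ν]
      ring
    rw [h1]
    linarith
  have e1 : ∀ ν l, (-∑ m, (Gi μ m * Γ l ν m + Gi l m * Γ μ ν m)) * Γ ν l i + Gi μ l * dΓ ν l =
      -(∑ m, Gi μ m * Γ l ν m * Γ ν l i) - (∑ m, Gi l m * Γ μ ν m * Γ ν l i) +
        Gi μ l * dΓ ν l := by
    intro ν l
    rw [Finset.sum_add_distrib, neg_add, add_mul, neg_mul, neg_mul, Finset.sum_mul,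
      Finset.sum_mul]
    ring
  have e2 : ∀ ν, (∑ l, Gi μ l * Γ ν l i) * ∑ m, Γ m m ν =
      ∑ l, ∑ m, Gi μ l * Γ ν l i * Γ m m ν := by
    intro ν
    rw [Finset.sum_mul_sum]
  have e3 : ∀ κ, Gi μ κ * ∑ a, (dΓ a κ + ∑ m, (Γ a a m * Γ m i κ - Γ a i m * Γ m a κ)) =
      (∑ a, Gi μ κ * dΓ a κ) + ((∑ a, ∑ m, Gi μ κ * (Γ a a m * Γ m i κ)) -
        ∑ a, ∑ m, Gi μ κ * (Γ a i m * Γ m a κ)) := by
    intro κ
    rw [Finset.mul_sum, ← Finset.sum_sub_distrib, ← Finset.sum_add_distrib]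
    refine Finset.sum_congr rfl fun a _ => ?_
    rw [mul_add, Finset.mul_sum, ← Finset.sum_sub_distrib]
    congr 1
    refine Finset.sum_congr rfl fun m _ => ?_
    ring
  simp only [e1, e2, e3]
  simp only [Finset.sum_add_distrib, Finset.sum_sub_distrib, Finset.sum_neg_distrib]
  rw [hz]
  have a1 : ∑ ν, ∑ l, Gi μ l * dΓ ν l = ∑ κ, ∑ a, Gi μ κ * dΓ a κ := Finset.sum_comm
  have a2 : ∑ ν, ∑ l, ∑ m, Gi μ l * Γ ν l i * Γ m m ν =
      ∑ κ, ∑ a, ∑ m, Gi μ κ * (Γ a a m * Γ m i κ) := by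
    rw [Finset.sum_comm]
    refine Finset.sum_congr rfl fun l _ => ?_
    rw [Finset.sum_comm]
    refine Finset.sum_congr rfl fun a _ => ?_
    refine Finset.sum_congr rfl fun m _ => ?_
    rw [hΓ m i l]
    ring
  have a3 : ∑ ν, ∑ l, ∑ m, Gi μ m * Γ l ν m * Γ ν l i =
      ∑ κ, ∑ a, ∑ m, Gi μ κ * (Γ a i m * Γ m a κ) := by
    have h1 : ∑ ν, ∑ l, ∑ m, Gi μ m * Γ l ν m * Γ ν l i =
        ∑ ν, ∑ m, ∑ l, Gi μ m * Γ l ν m * Γ ν l i :=
      Finset.sum_congr rfl fun ν _ => Finset.sum_comm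
    rw [h1, Finset.sum_comm]
    refine Finset.sum_congr rfl fun m _ => ?_
    refine Finset.sum_congr rfl fun ν _ => ?_
    refine Finset.sum_congr rfl fun l _ => ?_
    rw [hΓ ν i l]
    ring
  rw [a1, a2, a3]
  ring

private theorem Komar_det (M : E → M4) (x : E) (hd : ∀ i j, DifferentiableAt ℝ (fun y => M y i j) x)
    (v : E) : fderiv ℝ (fun y => (M y).det) x v =
      ∑ i, ∑ k, (M x).adjugate i k * fderiv ℝ (fun y => M y k i) x v := by
  have h1 : HasFDerivAt (fun y => (M y).det)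
      (∑ σ : Equiv.Perm (Fin 4), ((Equiv.Perm.sign σ : ℤ) : ℝ) •
        ∑ i, (∏ j ∈ Finset.univ.erase i, M x (σ j) j) • fderiv ℝ (fun y => M y (σ i) i) x) x := by
    have h2 : (fun y => (M y).det) = fun y => ∑ σ : Equiv.Perm (Fin 4),
        ((Equiv.Perm.sign σ : ℤ) : ℝ) • ∏ i, M y (σ i) i := by
      funext y
      rw [Matrix.det_apply']
      rfl
    rw [h2]
    refine HasFDerivAt.fun_sum fun σ _ => ?_
    exact (HasFDerivAt.finsetProd fun i _ => (hd (σ i) i).hasFDerivAt).const_smul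
      ((Equiv.Perm.sign σ : ℤ) : ℝ)
  rw [h1.fderiv]
  have h3 : ∀ i, ∑ k, (M x).adjugate i k * fderiv ℝ (fun y => M y k i) x v =
      ((M x).updateCol i (fun k => fderiv ℝ (fun y => M y k i) x v)).det := by
    intro i
    rw [← Matrix.cramer_apply, Matrix.cramer_eq_adjugate_mulVec]
    rfl
  simp only [h3, Matrix.det_apply']
  rw [Finset.sum_comm]
  simp only [_root_.sum_apply, _root_.smul_apply, smul_eq_mul]
  refine Finset.sum_congr rfl fun σ _ => ?_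
  rw [Finset.mul_sum]
  refine Finset.sum_congr rfl fun i _ => ?_
  congr 1
  rw [← Finset.prod_erase_mul _ _ (Finset.mem_univ i)]
  congr 1
  · refine Finset.prod_congr rfl fun j hj => ?_
    rw [Matrix.updateCol_ne (Finset.ne_of_mem_erase hj)]
  · rw [Matrix.updateCol_self]


/-- The antisymmetric tensor `∇^μ ξ^ν` of the Killing field with index `i`. -/
noncomputable def FK (X : Fin 4 → E → E) (γ : E → M4) (i μ ν : Fin 4) (x : E) : ℝ :=
  ∑ l, (γ x)⁻¹ μ l * chrV X γ ν l i x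

private theorem Komar_ginv_symm {O : Set E} {X : Fin 4 → E → E} {γ : E → M4} (h : Fr O X γ)
    {x : E} (hx : x ∈ O) (a b : Fin 4) : (γ x)⁻¹ a b = (γ x)⁻¹ b a := by
  have h1 : ((γ x)⁻¹)ᵀ = (γ x)⁻¹ := by rw [Matrix.transpose_nonsing_inv, h.sym x hx]
  exact congrFun (congrFun h1.symm a) b

private theorem Komar_ld_zero {X : E → E} (hX : ∀ x, X x = 0) (f : E → ℝ) (x : E) :
    ld X f x = 0 := by
  unfold ld
  rw [hX, map_zero]

theorem komar_anti {O : Set E} {X : Fin 4 → E → E} {γ : E → M4} (h : Fr O X γ) {i : Fin 4}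
    (hi : ∀ x, X i x = 0) {x : E} (hx : x ∈ O) (μ ν : Fin 4) :
    FK X γ i μ ν x = - FK X γ i ν μ x := by
  have h1 : ∀ a b, FK X γ i a b x = 1 / 2 * ∑ l, ∑ k, (γ x)⁻¹ a l * (γ x)⁻¹ b k *
      (ld (X l) (fun y => γ y k i) x - ld (X k) (fun y => γ y l i) x) := by
    intro a b
    unfold FK chrV
    rw [Finset.mul_sum]
    refine Finset.sum_congr rfl fun l _ => ?_
    rw [Finset.mul_sum, Finset.mul_sum, Finset.mul_sum]
    refine Finset.sum_congr rfl fun k _ => ?_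
    rw [Komar_ld_zero hi]
    ring
  rw [h1, h1, ← mul_neg, ← Finset.sum_neg_distrib]
  congr 1
  conv_lhs => rw [Finset.sum_comm]
  refine Finset.sum_congr rfl fun l _ => ?_
  rw [← Finset.sum_neg_distrib]
  refine Finset.sum_congr rfl fun k _ => ?_
  ring

private theorem Komar_diff {O : Set E} (hO : IsOpen O) {f : E → ℝ} (hf : ContDiffOn ℝ ∞ f O)
    {x : E} (hx : x ∈ O) : DifferentiableAt ℝ f x :=
  (hf.contDiffAt (hO.mem_nhds hx)).differentiableAt (by simp)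

private theorem Komar_dinv {O : Set E} {X : Fin 4 → E → E} {γ : E → M4} (h : Fr O X γ)
    {x : E} (hx : x ∈ O) (l a b : Fin 4) : ld (X l) (fun y => (γ y)⁻¹ a b) x =
      -∑ m, ((γ x)⁻¹ a m * chrV X γ b l m x + (γ x)⁻¹ b m * chrV X γ a l m x) := by
  set G : M4 := (γ x)⁻¹ with hG
  set D : M4 := Matrix.of fun i j => ld (X l) (fun y => γ y i j) x with hD
  set C : M4 := Matrix.of fun m j => chrV X γ m l j x with hC
  set D' : M4 := Matrix.of fun i j => ld (X l) (fun y => (γ y)⁻¹ i j) x with hD'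
  have hu : IsUnit (γ x).det := isUnit_iff_ne_zero.2 (h.det x hx)
  have h1 : D = Cᵀ * γ x + γ x * C := by
    ext i j
    rw [hD, Matrix.of_apply, chrV_metric h hx, Finset.sum_add_distrib]
    rfl
  have hdg : ∀ i j, DifferentiableAt ℝ (fun y => γ y i j) x := fun i j =>
    Komar_diff h.isOpen (h.smg i j) hx
  have hdi : ∀ i j, DifferentiableAt ℝ (fun y => (γ y)⁻¹ i j) x := fun i j =>
    Komar_diff h.isOpen (inv_smooth h.smg h.det i j) hx
  have h2 : D' * γ x + G * D = 0 := by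
    ext i j
    have e1 : (fun y => ∑ m, (γ y)⁻¹ i m * γ y m j) =ᶠ[nhds x] fun _ => (1 : M4) i j := by
      filter_upwards [h.isOpen.mem_nhds hx] with y hy
      have e2 : (γ y)⁻¹ * γ y = 1 :=
        Matrix.nonsing_inv_mul _ (isUnit_iff_ne_zero.2 (h.det y hy))
      exact congrFun (congrFun e2 i) j
    have e3 := e1.fderiv_eq (𝕜 := ℝ)
    rw [fderiv_fun_const, Pi.zero_apply] at e3
    have e4 : fderiv ℝ (fun y => ∑ m, (γ y)⁻¹ i m * γ y m j) x =
        ∑ m, ((γ x)⁻¹ i m • fderiv ℝ (fun y => γ y m j) x +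
          γ x m j • fderiv ℝ (fun y => (γ y)⁻¹ i m) x) := by
      rw [fderiv_fun_sum fun m _ => (hdi i m).fun_mul (hdg m j)]
      refine Finset.sum_congr rfl fun m _ => ?_
      rw [fderiv_fun_mul (hdi i m) (hdg m j)]
    rw [e4] at e3
    have e5 := congrArg (fun L : E →L[ℝ] ℝ => L (X l x)) e3
    simp only [_root_.sum_apply, _root_.add_apply, _root_.smul_apply,
      smul_eq_mul, _root_.zero_apply] at e5
    rw [Matrix.zero_apply, Matrix.add_apply, Matrix.mul_apply, Matrix.mul_apply,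
      ← Finset.sum_add_distrib, ← e5]
    refine Finset.sum_congr rfl fun m _ => ?_
    rw [hD, hD', Matrix.of_apply, Matrix.of_apply]
    unfold ld
    ring
  have h3 : D' = -(G * Cᵀ + C * G) := by
    have e1 : D' * γ x * G = -(G * D) * G := by
      rw [eq_neg_of_add_eq_zero_left h2]
    rw [Matrix.mul_assoc, Matrix.mul_nonsing_inv _ hu, Matrix.mul_one, h1] at e1
    rw [e1, neg_mul, Matrix.mul_add, Matrix.add_mul]
    congr 2
    · rw [← Matrix.mul_assoc, Matrix.mul_assoc, Matrix.mul_nonsing_inv _ hu, Matrix.mul_one]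
    · rw [← Matrix.mul_assoc, Matrix.nonsing_inv_mul _ hu, Matrix.one_mul]
  have h4 := congrFun (congrFun h3 a) b
  rw [hD', Matrix.of_apply, Matrix.neg_apply, Matrix.add_apply, Matrix.mul_apply,
    Matrix.mul_apply, ← Finset.sum_add_distrib] at h4
  rw [h4]
  congr 1
  refine Finset.sum_congr rfl fun m _ => ?_
  rw [Matrix.transpose_apply, hC, Matrix.of_apply, Matrix.of_apply, hG,
    Komar_ginv_symm h hx m b]
  ring

private theorem Komar_dsqrt {O : Set E} {X : Fin 4 → E → E} {γ : E → M4} (h : Fr O X γ)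
    (hpos : ∀ x ∈ O, 0 < (γ x).det) {x : E} (hx : x ∈ O) (ν : Fin 4) :
    DifferentiableAt ℝ (fun y => √(γ y).det) x ∧
    ld (X ν) (fun y => √(γ y).det) x = √(γ x).det * ∑ m, chrV X γ m m ν x := by
  have hdg : ∀ i j, DifferentiableAt ℝ (fun y => γ y i j) x := fun i j =>
    Komar_diff h.isOpen (h.smg i j) hx
  have hp := hpos x hx
  have hdd : DifferentiableAt ℝ (fun y => (γ y).det) x := by
    have h2 : (fun y => (γ y).det) = fun y => ∑ σ : Equiv.Perm (Fin 4),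
        ((Equiv.Perm.sign σ : ℤ) : ℝ) • ∏ i, γ y (σ i) i := by
      funext y
      rw [Matrix.det_apply']
      rfl
    rw [h2]
    refine DifferentiableAt.fun_sum fun σ _ => ?_
    exact (HasFDerivAt.finsetProd fun i _ => (hdg (σ i) i).hasFDerivAt).differentiableAt.const_smul
      ((Equiv.Perm.sign σ : ℤ) : ℝ)
  have h1 := hdd.hasFDerivAt.sqrt hp.ne'
  refine ⟨h1.differentiableAt, ?_⟩
  unfold ld
  rw [h1.fderiv]
  simp only [_root_.smul_apply, smul_eq_mul]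
  rw [Komar_det γ x hdg, chrV_trace h hx]
  have h2 : ∀ i k, (γ x).adjugate i k = (γ x).det * (γ x)⁻¹ i k := by
    intro i k
    have h3 := Matrix.inv_def (γ x)
    have h4 := congrFun (congrFun h3 i) k
    rw [Matrix.smul_apply, smul_eq_mul, Ring.inverse_eq_inv'] at h4
    rw [h4, ← mul_assoc, mul_inv_cancel₀ hp.ne', one_mul]
  have h3 : ∑ i, ∑ k, (γ x).adjugate i k * fderiv ℝ (fun y => γ y k i) x (X ν x) =
      (γ x).det * ∑ k, ∑ l, (γ x)⁻¹ k l * ld (X ν) (fun y => γ y k l) x := by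
    rw [Finset.sum_comm, Finset.mul_sum]
    refine Finset.sum_congr rfl fun k _ => ?_
    rw [Finset.mul_sum]
    refine Finset.sum_congr rfl fun l _ => ?_
    rw [h2, Komar_ginv_symm h hx l k]
    unfold ld
    ring
  rw [h3]
  have h4 : √(γ x).det ≠ 0 := (Real.sqrt_pos.2 hp).ne'
  have h5 : (γ x).det = √(γ x).det * √(γ x).det := (Real.mul_self_sqrt hp.le).symm
  unfold ld
  field_simp
  rw [Real.sq_sqrt hp.le]

theorem komar {O : Set E} {X : Fin 4 → E → E} {γ : E → M4} (h : Fr O X γ)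
    (hpos : ∀ x ∈ O, 0 < (γ x).det) {i : Fin 4} (hi : ∀ x, X i x = 0) {x : E} (hx : x ∈ O)
    (μ : Fin 4) : ∑ ν, ld (X ν) (fun y => √(γ y).det * FK X γ i μ ν y) x =
      √(γ x).det * ∑ κ, (γ x)⁻¹ μ κ * ricV X γ κ i x := by
  have hdi : ∀ a b, DifferentiableAt ℝ (fun y => (γ y)⁻¹ a b) x := fun a b =>
    Komar_diff h.isOpen (inv_smooth h.smg h.det a b) hx
  have hdc : ∀ k a b, DifferentiableAt ℝ (fun y => chrV X γ k a b y) x := fun k a b =>
    Komar_diff h.isOpen (chrV_smooth h k a b) hx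
  have hFd : ∀ ν, DifferentiableAt ℝ (fun y => FK X γ i μ ν y) x := by
    intro ν
    unfold FK
    exact DifferentiableAt.fun_sum fun l _ => (hdi μ l).fun_mul (hdc ν l i)
  have hF : ∀ ν, ld (X ν) (fun y => FK X γ i μ ν y) x =
      ∑ l, (ld (X ν) (fun y => (γ y)⁻¹ μ l) x * chrV X γ ν l i x +
        (γ x)⁻¹ μ l * ld (X ν) (chrV X γ ν l i) x) := by
    intro ν
    unfold ld FK
    rw [fderiv_fun_sum fun l _ => (hdi μ l).fun_mul (hdc ν l i)]
    simp only [_root_.sum_apply]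
    refine Finset.sum_congr rfl fun l _ => ?_
    rw [fderiv_fun_mul (hdi μ l) (hdc ν l i)]
    simp only [_root_.add_apply, _root_.smul_apply, smul_eq_mul]
    ring
  have h1 : ∀ ν, ld (X ν) (fun y => √(γ y).det * FK X γ i μ ν y) x =
      √(γ x).det * (∑ l, ((-∑ m, ((γ x)⁻¹ μ m * chrV X γ l ν m x +
        (γ x)⁻¹ l m * chrV X γ μ ν m x)) * chrV X γ ν l i x +
        (γ x)⁻¹ μ l * ld (X ν) (chrV X γ ν l i) x) +
        (∑ l, (γ x)⁻¹ μ l * chrV X γ ν l i x) * ∑ m, chrV X γ m m ν x) := by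
    intro ν
    obtain ⟨hs1, hs2⟩ := Komar_dsqrt h hpos hx ν
    have e1 : ld (X ν) (fun y => √(γ y).det * FK X γ i μ ν y) x =
        √(γ x).det * ld (X ν) (fun y => FK X γ i μ ν y) x +
          FK X γ i μ ν x * ld (X ν) (fun y => √(γ y).det) x := by
      unfold ld
      rw [fderiv_fun_mul hs1 (hFd ν)]
      simp only [_root_.add_apply, _root_.smul_apply, smul_eq_mul]
    rw [e1, hs2, hF]
    simp only [Komar_dinv h hx]
    unfold FK
    ring
  rw [Finset.sum_congr rfl fun ν _ => h1 ν, ← Finset.mul_sum]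
  congr 1
  rw [Komar_alg i μ (fun a b => (γ x)⁻¹ a b) (fun k a b => chrV X γ k a b x)
    (fun ν l => ld (X ν) (chrV X γ ν l i) x) (Komar_ginv_symm h hx) (chrV_symm h hx)
    (komar_anti h hi hx)]
  refine Finset.sum_congr rfl fun κ _ => ?_
  congr 1
  unfold ricV riemV
  refine Finset.sum_congr rfl fun a _ => ?_
  rw [Komar_ld_zero hi, sub_zero]
  congr 1
  unfold ld
  have e1 : chrV X γ a κ i =ᶠ[nhds x] chrV X γ a i κ := by
    filter_upwards [h.isOpen.mem_nhds hx] with y hy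
    exact chrV_symm h hy a κ i
  rw [e1.fderiv_eq]

end Pool.Agent.T2S4
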