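import Pool.Agent.T2S4.Entries
import Pool.Agent.T2S4.Komar

/-!
# Functions on the orbit space and their behaviour at infinity

Definitions only (nothing to prove here). The orbit space is `ℝ × ℝ` with coordinates
`s = log |z_1|, t = log |z_2|`; infinity of `ℝ × ℝ` corresponds to the two edges and the two corners
(the fixed points of the torus) of the orbit space of the sphere.
-/

set_option autoImplicit false

namespace Pool.Agent.T2S4

open Matrix Filter Topology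
open scoped ContDiff

/-- The indices of the base. -/
def emb : Fin 2 → Fin 4 := ![0, 1]

/-- The indices of the fibre. -/
def fib : Fin 2 → Fin 4 := ![2, 3]

/-- The determinant of the Gram matrix of the Killing fields. -/
def rho2 (γ : ℝ × ℝ → M4) (p : ℝ × ℝ) : ℝ := γ p 2 2 * γ p 3 3 - γ p 2 3 ^ 2

/-- The function `G_12 / ρ`. -/
noncomputable def Bf (γ : ℝ × ℝ → M4) (p : ℝ × ℝ) : ℝ := γ p 2 3 / √(rho2 γ p)

/-- The function `σ = log ρ`. -/
noncomputable def sg (γ : ℝ × ℝ → M4) (p : ℝ × ℝ) : ℝ := Real.log (rho2 γ p) / 2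

/-- The function `φ = log (|ξ_2| / |ξ_1|)`. -/
noncomputable def ph (γ : ℝ × ℝ → M4) (p : ℝ × ℝ) : ℝ := Real.log (γ p 3 3 / γ p 2 2) / 2

/-- The function `- ⟨∇ log |ξ_1|, ∇ log |ξ_2|⟩`. -/
noncomputable def KK (γ : ℝ × ℝ → M4) (p : ℝ × ℝ) : ℝ :=
  -∑ a, ∑ b, (γ p)⁻¹ (emb a) (emb b) * dd a (fun q => Real.log (γ q 2 2) / 2) p *
    dd b (fun q => Real.log (γ q 3 3) / 2) p

/-- The twist of the Killing field with index `i`. -/
noncomputable def twist (γ : ℝ × ℝ → M4) (i : Fin 4) (p : ℝ × ℝ) : ℝ :=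
  √(γ p).det * FK bas γ i 0 1 p

/-- `F` tends to `0` at the edges and the corner which are visible in one chart. -/
def Small (F : ℝ × ℝ → ℝ) : Prop :=
  ∀ ε : ℝ, 0 < ε → ∃ R : ℝ, ∀ p : ℝ × ℝ, Real.exp (2 * p.1) + Real.exp (2 * p.2) ≤ 1 →
    (p.1 < -R ∨ p.2 < -R) → |F p| < ε

/-- The behaviour of `γ` at infinity. -/
structure Ends (γ : ℝ × ℝ → M4) : Prop where
  B : Tendsto (Bf γ) (cocompact (ℝ × ℝ)) (𝓝 0)
  sg : Tendsto (sg γ) (cocompact (ℝ × ℝ)) atBot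
  ph1 : ∃ C : ℝ, ∀ p : ℝ × ℝ, |ph γ p - (p.2 - p.1)| ≤ C
  ph2 : ∀ Y : ℝ, ∃ X : ℝ, ∀ p : ℝ × ℝ, |p.2 - p.1| ≤ Y → X ≤ |p.1 + p.2| →
    0 < dd 1 (ph γ) p - dd 0 (ph γ) p
  K : ∀ c : ℝ, Tendsto (fun p => Real.exp (3 * T2S4.sg γ p) * (KK γ p - c) ^ 2)
    (cocompact (ℝ × ℝ)) (𝓝 0)

/-- The transition map of the two charts on the orbit space. -/
noncomputable def inv2 (p : ℝ × ℝ) : ℝ × ℝ :=
  (p.1 - Real.log (Real.exp (2 * p.1) + Real.exp (2 * p.2)),
    p.2 - Real.log (Real.exp (2 * p.1) + Real.exp (2 * p.2)))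

/-- The Jacobian matrix of the transition map (with the identity on the fibre). -/
noncomputable def Qm (p : ℝ × ℝ) : M4 :=
  !![(Real.exp (2 * p.2) - Real.exp (2 * p.1)) / (Real.exp (2 * p.1) + Real.exp (2 * p.2)),
      -2 * Real.exp (2 * p.2) / (Real.exp (2 * p.1) + Real.exp (2 * p.2)), 0, 0;
    -2 * Real.exp (2 * p.1) / (Real.exp (2 * p.1) + Real.exp (2 * p.2)),
      (Real.exp (2 * p.1) - Real.exp (2 * p.2)) / (Real.exp (2 * p.1) + Real.exp (2 * p.2)), 0, 0;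
    0, 0, 1, 0; 0, 0, 0, 1]

end Pool.Agent.T2S4
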