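import Pool.Agent.T2S4.Polar

/-!
# Invariance of the metric in the second chart

PACKAGE. Prove the theorem (helper lemmas allowed, private or prefixed by `InvG_`).

`R = rot α β` is orthogonal: `Rᵀ R = R Rᵀ = 1`, so `nsq (R *ᵥ x) = nsq x`,
`inv4 (R *ᵥ x) = R *ᵥ inv4 x`,
`jac (R *ᵥ x) = R * jac x * Rᵀ` (`jac x = |x|⁻² 1 - 2 |x|⁻⁴ x xᵀ`). For `y ≠ 0` let `x = inv4 y`
(`inv4 x = y`): `g x = jac(x)ᵀ g'(y) jac(x)`, `jac(x)` is invertible
(`jac x * jac (inv4 x) = 1`), and
`g (R x) = jac(R x)ᵀ g'(R y) jac(R x)`. Insert into `Rᵀ g(R x) R = g x`: `Rᵀ g'(R y) R = g' y` for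
`y ≠ 0`. Both sides are continuous in `y`, so it holds at `y = 0`.
-/

set_option autoImplicit false

namespace Pool.Agent.T2S4

open Matrix Filter Topology
open scoped ContDiff

private theorem InvG_orth (α β : ℝ) : (rot α β)ᵀ * rot α β = 1 := by
  have h1 := Real.sin_sq_add_cos_sq α
  have h2 := Real.sin_sq_add_cos_sq β
  ext i j
  fin_cases i <;> fin_cases j <;>
    simp [rot, Matrix.mul_apply, Fin.sum_univ_four]
  · linear_combination h1
  · ring
  · ring
  · linear_combination h1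
  · linear_combination h2
  · ring
  · ring
  · linear_combination h2

private theorem InvG_nsq (x : P4) : nsq x = x ⬝ᵥ x := by
  simp [nsq, dotProduct, sq]

private theorem InvG_nsq_pos {x : P4} (hx : x ≠ 0) : 0 < nsq x := by
  have h1 : 0 ≤ nsq x := Finset.sum_nonneg fun i _ => sq_nonneg _
  refine lt_of_le_of_ne h1 fun h2 => hx ?_
  funext i
  have h3 := (Finset.sum_eq_zero_iff_of_nonneg fun i _ => sq_nonneg (x i)).1 h2.symm i
    (Finset.mem_univ i)
  exact pow_eq_zero_iff two_ne_zero |>.1 h3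

private theorem InvG_nsq_mul {R : M4} (hR : Rᵀ * R = 1) (x : P4) : nsq (R *ᵥ x) = nsq x := by
  rw [InvG_nsq, InvG_nsq, Matrix.dotProduct_mulVec]
  have h1 : (R *ᵥ x) ᵥ* R = x := by
    rw [← Matrix.vecMul_transpose, Matrix.vecMul_vecMul, hR, Matrix.vecMul_one]
  rw [h1]

private theorem InvG_jac (x : P4) :
    jac x = (1 / nsq x) • (1 : M4) - (2 / nsq x ^ 2) • vecMulVec x x := by
  ext i j
  simp only [jac, Matrix.sub_apply, Matrix.smul_apply, Matrix.vecMulVec_apply, smul_eq_mul]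
  ring

private theorem InvG_jac_mul {R : M4} (hR : Rᵀ * R = 1) (x : P4) :
    jac (R *ᵥ x) = R * jac x * Rᵀ := by
  have hR' : R * Rᵀ = 1 := mul_eq_one_comm.1 hR
  have h1 : vecMulVec (R *ᵥ x) (R *ᵥ x) = R * vecMulVec x x * Rᵀ := by
    rw [Matrix.mul_vecMulVec, Matrix.vecMulVec_mul, Matrix.vecMul_transpose]
  rw [InvG_jac, InvG_jac, InvG_nsq_mul hR, h1, Matrix.mul_sub, Matrix.sub_mul, Matrix.mul_smul,
    Matrix.mul_smul, Matrix.smul_mul, Matrix.smul_mul, Matrix.mul_one, hR']

private theorem InvG_jac_sq {x : P4} (hx : x ≠ 0) :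
    jac x * jac x = (1 / nsq x ^ 2) • (1 : M4) := by
  have h0 : nsq x ≠ 0 := (InvG_nsq_pos hx).ne'
  have h1 : vecMulVec x x * vecMulVec x x = nsq x • vecMulVec x x := by
    rw [Matrix.vecMulVec_mul_vecMulVec, InvG_nsq]
    ext i j
    simp only [Matrix.smul_apply, Matrix.vecMulVec_apply, smul_eq_mul, Pi.smul_apply]
    try ring
  rw [InvG_jac, Matrix.mul_sub, Matrix.sub_mul, Matrix.sub_mul]
  simp only [Matrix.mul_smul, Matrix.smul_mul, Matrix.one_mul, Matrix.mul_one, h1, smul_smul]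
  ext i j
  simp only [Matrix.sub_apply, Matrix.smul_apply, smul_eq_mul]
  field_simp
  ring

private theorem InvG_inv_ne {y : P4} (hy : y ≠ 0) : inv4 y ≠ 0 := by
  intro h
  apply hy
  funext i
  have h1 := congrFun h i
  have h2 : y i / nsq y = 0 := h1
  rcases div_eq_zero_iff.1 h2 with h3 | h3
  · exact h3
  · exact absurd h3 (InvG_nsq_pos hy).ne'

private theorem InvG_inv_inv {y : P4} (hy : y ≠ 0) : inv4 (inv4 y) = y := by
  have h0 : nsq y ≠ 0 := (InvG_nsq_pos hy).ne'
  have h1 : nsq (inv4 y) = 1 / nsq y := by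
    have h2 : nsq (inv4 y) = (∑ i, y i ^ 2) / nsq y ^ 2 := by
      rw [Finset.sum_div]
      refine Finset.sum_congr rfl fun i _ => ?_
      show (y i / nsq y) ^ 2 = _
      rw [div_pow]
    rw [h2]
    show nsq y / nsq y ^ 2 = 1 / nsq y
    field_simp
  funext i
  show y i / nsq y / nsq (inv4 y) = y i
  rw [h1]
  field_simp

private theorem InvG_inv_mul {R : M4} (hR : Rᵀ * R = 1) (x : P4) :
    inv4 (R *ᵥ x) = R *ᵥ inv4 x := by
  have h1 : ∀ x : P4, inv4 x = (1 / nsq x) • x := by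
    intro x
    funext i
    show x i / nsq x = (1 / nsq x) * x i
    ring
  rw [h1, h1, InvG_nsq_mul hR, Matrix.mulVec_smul]

theorem inv_right {g g' : P4 → M4} (h : SphereMetric g g') (hT : TorusInvariant g) :
    TorusInvariant g' := by
  intro α β
  set R := rot α β with hRdef
  have hR : Rᵀ * R = 1 := InvG_orth α β
  have hgc : Continuous g' := continuous_matrix fun i j => (h.right.smooth i j).continuous
  have hc : Continuous fun y : P4 => Rᵀ * g' (R *ᵥ y) * R :=
    (continuous_const.matrix_mul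
      (hgc.comp (continuous_const.matrix_mulVec continuous_id))).matrix_mul continuous_const
  have key : Set.EqOn (fun y : P4 => Rᵀ * g' (R *ᵥ y) * R) g' {0}ᶜ := by
    intro y hy
    have hy0 : y ≠ 0 := hy
    have hx0 := InvG_inv_ne hy0
    set x := inv4 y with hx
    have hxy : inv4 x = y := InvG_inv_inv hy0
    have hRx0 : R *ᵥ x ≠ 0 := by
      intro h0
      have h1 := InvG_nsq_mul hR x
      rw [h0] at h1
      have h2 : nsq (0 : P4) = 0 := by simp [nsq]
      rw [h2] at h1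
      exact absurd h1.symm (InvG_nsq_pos hx0).ne'
    have h1 := h.glue x hx0
    have h2 := h.glue (R *ᵥ x) hRx0
    rw [hxy] at h1
    rw [InvG_inv_mul hR, hxy, InvG_jac_mul hR] at h2
    have h3 := hT α β x
    rw [← hRdef, h1, h2] at h3
    have h4 : (jac x)ᵀ * (Rᵀ * g' (R *ᵥ y) * R) * jac x = (jac x)ᵀ * g' y * jac x := by
      rw [← h3]
      simp only [Matrix.transpose_mul, Matrix.transpose_transpose]
      calc (jac x)ᵀ * (Rᵀ * g' (R *ᵥ y) * R) * jac x =
          1 * ((jac x)ᵀ * (Rᵀ * g' (R *ᵥ y) * R) * jac x) * 1 := by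
            rw [Matrix.one_mul, Matrix.mul_one]
        _ = (Rᵀ * R) * ((jac x)ᵀ * (Rᵀ * g' (R *ᵥ y) * R) * jac x) * (Rᵀ * R) := by rw [hR]
        _ = _ := by simp only [Matrix.mul_assoc]
    -- cancel the Jacobian matrices
    have h5 := InvG_jac_sq hx0
    have hn : (1 / nsq x ^ 2 : ℝ) ≠ 0 := by
      have := InvG_nsq_pos hx0
      positivity
    have h6 : (jac x)ᵀ * (jac x)ᵀ = (1 / nsq x ^ 2) • (1 : M4) := by
      rw [← Matrix.transpose_mul, h5, Matrix.transpose_smul, Matrix.transpose_one]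
    have h7 := congrArg (fun M : M4 => (jac x)ᵀ * M * jac x) h4
    have h8 : ∀ M : M4, (jac x)ᵀ * ((jac x)ᵀ * M * jac x) * jac x =
        (1 / nsq x ^ 2) • (1 / nsq x ^ 2) • M := by
      intro M
      calc (jac x)ᵀ * ((jac x)ᵀ * M * jac x) * jac x =
          ((jac x)ᵀ * (jac x)ᵀ) * M * (jac x * jac x) := by simp only [Matrix.mul_assoc]
        _ = _ := by
          rw [h5, h6, Matrix.smul_mul, Matrix.one_mul, Matrix.mul_smul, Matrix.mul_one]
    simp only [h8] at h7
    exact smul_right_injective _ hn (smul_right_injective _ hn h7)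
  have h9 := Continuous.ext_on (dense_compl_singleton (0 : P4)) hc hgc key
  exact fun y => congrFun h9 y

end Pool.Agent.T2S4
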