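import Pool.Agent.T2S4.Polar

/-!
# Invariance under the torus, in the polar frame

PACKAGE. Prove the theorems (helper lemmas allowed, private or prefixed by `Rot_`).

* `exists_rot`: every `x ∈ Om` is `rot α β *ᵥ sl (pol x)`: `exp (log (x0² + x1²) / 2) = √(x0² + x1²)`,
  and a pair `(a, b) ≠ 0` is `√(a² + b²) (cos α, sin α)` for some `α` (for example by `Complex.arg`).
* `Fm_rot`: `Fm (rot α β *ᵥ x) = rot α β * Fm x` (computation).
* `gt_pol`: insert both into `TorusInvariant`.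
* `det_rot`/`rot_add` only if you need them.
* `ld_pol`: chain rule; `D(pol)(x)(fr4 i x) = bas i (pol x)`: the derivative of
  `log (x0² + x1²) / 2` in the direction `(x0, x1, 0, 0)` is `1`, and `0` in the directions of the other
  fields.
-/

set_option autoImplicit false

namespace Pool.Agent.T2S4

open Matrix
open scoped ContDiff

/-- Polar coordinates in the plane. -/
private theorem Rot_pair {a b : ℝ} (h : 0 < a ^ 2 + b ^ 2) : ∃ α : ℝ,
    a = Real.cos α * Real.exp (Real.log (a ^ 2 + b ^ 2) / 2) ∧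
    b = Real.sin α * Real.exp (Real.log (a ^ 2 + b ^ 2) / 2) := by
  have h1 : ‖(⟨a, b⟩ : ℂ)‖ ^ 2 = a ^ 2 + b ^ 2 := by
    rw [Complex.sq_norm, Complex.normSq_apply]
    ring
  have h2 : 0 < ‖(⟨a, b⟩ : ℂ)‖ := by
    rcases (norm_nonneg (⟨a, b⟩ : ℂ)).lt_or_eq with h3 | h3
    · exact h3
    · rw [← h3] at h1
      nlinarith
  have h3 : Real.exp (Real.log (a ^ 2 + b ^ 2) / 2) = ‖(⟨a, b⟩ : ℂ)‖ := by
    rw [← h1, Real.log_pow]
    push_cast
    rw [mul_div_cancel_left₀ _ (two_ne_zero), Real.exp_log h2]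
  refine ⟨Complex.arg ⟨a, b⟩, ?_, ?_⟩
  · rw [h3, mul_comm]
    exact (Complex.norm_mul_cos_arg (⟨a, b⟩ : ℂ)).symm
  · rw [h3, mul_comm]
    exact (Complex.norm_mul_sin_arg (⟨a, b⟩ : ℂ)).symm

theorem exists_rot {x : P4} (hx : x ∈ Om) : ∃ α β : ℝ, x = rot α β *ᵥ sl (pol x) := by
  obtain ⟨α, h1, h2⟩ := Rot_pair hx.1
  obtain ⟨β, h3, h4⟩ := Rot_pair hx.2
  refine ⟨α, β, ?_⟩
  ext i
  fin_cases i
  · simpa [rot, sl, pol, Matrix.mulVec, dotProduct, Fin.sum_univ_four] using h1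
  · simpa [rot, sl, pol, Matrix.mulVec, dotProduct, Fin.sum_univ_four] using h2
  · simpa [rot, sl, pol, Matrix.mulVec, dotProduct, Fin.sum_univ_four] using h3
  · simpa [rot, sl, pol, Matrix.mulVec, dotProduct, Fin.sum_univ_four] using h4

theorem Fm_rot (α β : ℝ) (x : P4) : Fm (rot α β *ᵥ x) = rot α β * Fm x := by
  ext i j
  fin_cases i <;> fin_cases j <;>
    simp [Fm, fr4, rot, Matrix.mul_apply, dotProduct, Fin.sum_univ_four] <;> ring

theorem gt_pol {g : P4 → M4} (hg : TorusInvariant g) {x : P4} (hx : x ∈ Om) :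
    (Fm x)ᵀ * g x * Fm x = gt g (pol x) := by
  obtain ⟨α, β, h⟩ := exists_rot hx
  have h1 := hg α β (sl (pol x))
  unfold gt
  rw [← h1, ← h]
  have h2 : Fm x = rot α β * Fm (sl (pol x)) := by
    rw [← Fm_rot, ← h]
  rw [h2, Matrix.transpose_mul]
  simp only [Matrix.mul_assoc]

theorem pol_smooth : ContDiffOn ℝ ∞ pol Om := by
  have h (a : Fin 4) : ContDiffOn ℝ ∞ (fun x : P4 => x a) Om :=
    (contDiff_apply ℝ ℝ a).contDiffOn
  refine ContDiffOn.prodMk ?_ ?_
  · exact ((((h 0).pow 2).add ((h 1).pow 2)).log fun x hx => hx.1.ne').div_const 2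
  · exact ((((h 2).pow 2).add ((h 3).pow 2)).log fun x hx => hx.2.ne').div_const 2

private theorem Rot_log (a b : Fin 4) {x : P4} (hx : 0 < x a ^ 2 + x b ^ 2) :
    HasFDerivAt (fun y : P4 => Real.log (y a ^ 2 + y b ^ 2) / 2)
      ((1 / (x a ^ 2 + x b ^ 2)) • (x a • ContinuousLinearMap.proj (R := ℝ) (φ := fun _ => ℝ) a +
        x b • ContinuousLinearMap.proj (R := ℝ) (φ := fun _ => ℝ) b)) x := by
  have h1 : HasFDerivAt (fun y : P4 => y a) (ContinuousLinearMap.proj (R := ℝ)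
    (φ := fun _ => ℝ) a) x := hasFDerivAt_apply a x
  have h2 : HasFDerivAt (fun y : P4 => y b) (ContinuousLinearMap.proj (R := ℝ)
    (φ := fun _ => ℝ) b) x := hasFDerivAt_apply b x
  have h3 := (((h1.pow 2).add (h2.pow 2)).log hx.ne').const_mul (1 / 2 : ℝ)
  refine (h3.congr_of_eventuallyEq (Filter.Eventually.of_forall fun y => ?_)).congr_fderiv ?_
  · change Real.log (y a ^ 2 + y b ^ 2) / 2 = 1 / 2 * Real.log (y a ^ 2 + y b ^ 2)
    ring
  · ext v
    simp
    field_simp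

theorem ld_pol {f : ℝ × ℝ → ℝ} {x : P4} (hx : x ∈ Om) (hf : DifferentiableAt ℝ f (pol x))
    (i : Fin 4) : ld (fr4 i) (fun y => f (pol y)) x = ld (bas i) f (pol x) := by
  have h1 := Rot_log 0 1 hx.1
  have h2 := Rot_log 2 3 hx.2
  have h3 := h1.prodMk h2
  have h4 := hf.hasFDerivAt.comp x h3
  have h5 : fderiv ℝ (fun y => f (pol y)) x = _ := h4.fderiv
  unfold ld
  rw [h5, ContinuousLinearMap.comp_apply]
  congr 1
  have e1 : x 0 ^ 2 + x 1 ^ 2 ≠ 0 := hx.1.ne'
  have e2 : x 2 ^ 2 + x 3 ^ 2 ≠ 0 := hx.2.ne'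
  fin_cases i
  · refine Prod.ext ?_ ?_
    · simp [fr4, bas]
      field_simp
    · simp [fr4, bas]
  · refine Prod.ext ?_ ?_
    · simp [fr4, bas]
    · simp [fr4, bas]
      field_simp
  · refine Prod.ext ?_ ?_
    · simp [fr4, bas]
      ring
    · simp [fr4, bas]
  · refine Prod.ext ?_ ?_
    · simp [fr4, bas]
    · simp [fr4, bas]
      ring

end Pool.Agent.T2S4
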