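import Pool.Agent.T2S4.Ends
import Pool.Agent.T2S4.Rot

/-!
# Limits in one chart: `B` and `ρ`

PACKAGE. Prove the theorems (helper lemmas allowed, private or prefixed by `SmallB_`).

Let `a = e^s, b = e^t`. By `gt_apply`: `γ_22 = a² g_11, γ_33 = b² g_33, γ_23 = a b g_13` at
`x = (a, 0, b, 0) = sl p`, so with `k = g_11 g_33 - g_13²` (positive: a principal minor of a positive
definite matrix): `rho2 = a² b² k`, `Bf = g_13 / √k`.
* `g13_zero`: `g_13 (a, 0, b, 0) = 0` if `a = 0` or `b = 0`: if `a = 0` the point is fixed by `rot α 0`, so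
  `g x = (rot π 0)ᵀ g x (rot π 0)`, whose entry `(1, 3)` is `- g_13`. If `b = 0` use `rot 0 π`.
* `small_B`: the function `(a, b) ↦ g_13 / √k` at `(a, 0, b, 0)` is continuous on the compact square
  `[0, 1]²` and `0` where `a b = 0`; so for `ε > 0` there is `δ > 0` such that `|g_13 / √k| < ε` if
  `a < δ` or `b < δ` (uniform continuity, or: the compact set where it is `≥ ε` has positive distance
  from the axes). `exp(2 p.1) + exp(2 p.2) ≤ 1` implies `a, b ≤ 1`.
* `small_sg`: `exp (sg) = √(rho2) = a b √k ≤ C a b`.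
-/

set_option autoImplicit false

namespace Pool.Agent.T2S4

open Matrix Filter Topology
open scoped ContDiff

private theorem SmallB_minor {M : M4} (h : M.PosDef) {i j : Fin 4} (hij : i ≠ j) :
    0 < M i i * M j j - M i j ^ 2 := by
  have hinj : Function.Injective ![i, j] := by
    intro a b hab
    fin_cases a <;> fin_cases b
    · rfl
    · exact absurd hab hij
    · exact absurd hab.symm hij
    · rfl
  have h1 := (h.submatrix hinj).det_pos
  rw [Matrix.det_fin_two] at h1
  have h2 : M j i = M i j := by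
    have h3 := h.isHermitian
    rw [Matrix.IsHermitian, Matrix.conjTranspose_eq_transpose_of_trivial] at h3
    exact (congrFun (congrFun h3 j) i).symm
  have h4 : M.submatrix ![i, j] ![i, j] 0 0 * M.submatrix ![i, j] ![i, j] 1 1 -
      M.submatrix ![i, j] ![i, j] 0 1 * M.submatrix ![i, j] ![i, j] 1 0 =
      M i i * M j j - M i j * M j i := rfl
  rw [h4, h2] at h1
  nlinarith

theorem rho2_pos {γ : ℝ × ℝ → M4} {p : ℝ × ℝ} (h : (γ p).PosDef) : 0 < rho2 γ p :=
  SmallB_minor h (by decide)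

theorem g13_zero {g : P4 → M4} (hT : TorusInvariant g) (a b : ℝ) (hab : a * b = 0) :
    g ![a, 0, b, 0] 1 3 = 0 := by
  rcases mul_eq_zero.1 hab with h | h
  · subst h
    have h1 : rot Real.pi 0 *ᵥ ![0, 0, b, 0] = ![0, 0, b, 0] := by
      ext i
      fin_cases i <;> simp [rot, Matrix.mulVec, dotProduct, Fin.sum_univ_four]
    have h2 := congrFun (congrFun (hT Real.pi 0 ![0, 0, b, 0]) 1) 3
    rw [h1] at h2
    simp [rot, Matrix.mul_apply, Fin.sum_univ_four] at h2
    linarith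
  · subst h
    have h1 : rot 0 Real.pi *ᵥ ![a, 0, 0, 0] = ![a, 0, 0, 0] := by
      ext i
      fin_cases i <;> simp [rot, Matrix.mulVec, dotProduct, Fin.sum_univ_four]
    have h2 := congrFun (congrFun (hT 0 Real.pi ![a, 0, 0, 0]) 1) 3
    rw [h1] at h2
    simp [rot, Matrix.mul_apply, Fin.sum_univ_four] at h2
    linarith

/-- the point of the slice -/
private def SmallB_pt (u : ℝ × ℝ) : P4 := ![u.1, 0, u.2, 0]

private theorem SmallB_pt_cont : Continuous SmallB_pt := by
  refine continuous_pi fun i => ?_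
  fin_cases i
  · exact continuous_fst
  · exact continuous_const
  · exact continuous_snd
  · exact continuous_const

/-- the minor -/
private def SmallB_k (g : P4 → M4) (u : ℝ × ℝ) : ℝ :=
  g (SmallB_pt u) 1 1 * g (SmallB_pt u) 3 3 - g (SmallB_pt u) 1 3 ^ 2

private theorem SmallB_k_cont {g : P4 → M4} (hg : IsMetric g) : Continuous (SmallB_k g) := by
  have h (i j : Fin 4) : Continuous fun u => g (SmallB_pt u) i j :=
    (hg.smooth i j).continuous.comp SmallB_pt_cont
  exact ((h 1 1).mul (h 3 3)).sub ((h 1 3).pow 2)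

private theorem SmallB_k_pos {g : P4 → M4} (hg : IsMetric g) (u : ℝ × ℝ) : 0 < SmallB_k g u :=
  SmallB_minor (hg.posDef _) (by decide)

private theorem SmallB_sl (p : ℝ × ℝ) : sl p = SmallB_pt (Real.exp p.1, Real.exp p.2) := rfl

private theorem SmallB_rho2 (g : P4 → M4) (p : ℝ × ℝ) : rho2 (gt g) p =
    (Real.exp p.1 * Real.exp p.2) ^ 2 * SmallB_k g (Real.exp p.1, Real.exp p.2) := by
  have w2 : wt p 2 = Real.exp p.1 := rfl
  have w3 : wt p 3 = Real.exp p.2 := rfl
  have t2 : tau 2 = 1 := rfl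
  have t3 : tau 3 = 3 := rfl
  unfold rho2 SmallB_k
  rw [gt_apply, gt_apply, gt_apply, SmallB_sl, w2, w3, t2, t3]
  ring

private theorem SmallB_sqrt (g : P4 → M4) (p : ℝ × ℝ) : √(rho2 (gt g) p) =
    Real.exp p.1 * Real.exp p.2 * √(SmallB_k g (Real.exp p.1, Real.exp p.2)) := by
  rw [SmallB_rho2, Real.sqrt_mul (by positivity), Real.sqrt_sq (by positivity)]

private theorem SmallB_Bf (g : P4 → M4) (p : ℝ × ℝ) : Bf (gt g) p =
    g (SmallB_pt (Real.exp p.1, Real.exp p.2)) 1 3 /
      √(SmallB_k g (Real.exp p.1, Real.exp p.2)) := by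
  have w2 : wt p 2 = Real.exp p.1 := rfl
  have w3 : wt p 3 = Real.exp p.2 := rfl
  have t2 : tau 2 = 1 := rfl
  have t3 : tau 3 = 3 := rfl
  have e1 := Real.exp_ne_zero p.1
  have e2 := Real.exp_ne_zero p.2
  unfold Bf
  rw [SmallB_sqrt, gt_apply, SmallB_sl, w2, w3, t2, t3]
  rw [mul_div_mul_left _ _ (mul_ne_zero e1 e2)]

/-- the unit square -/
private def SmallB_sq : Set (ℝ × ℝ) := Set.Icc 0 1 ×ˢ Set.Icc 0 1

private theorem SmallB_sq_compact : IsCompact SmallB_sq := isCompact_Icc.prod isCompact_Icc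

private theorem SmallB_exp_le {s t : ℝ} (h : Real.exp (2 * s) + Real.exp (2 * t) ≤ 1) :
    Real.exp s ≤ 1 ∧ Real.exp t ≤ 1 := by
  have h1 := Real.exp_pos (2 * s)
  have h2 := Real.exp_pos (2 * t)
  have key : ∀ r : ℝ, Real.exp (2 * r) ≤ 1 → Real.exp r ≤ 1 := by
    intro r hr
    rw [Real.exp_le_one_iff] at hr ⊢
    linarith
  exact ⟨key s (by linarith), key t (by linarith)⟩

theorem small_B {g : P4 → M4} (hg : IsMetric g) (hT : TorusInvariant g) : Small (Bf (gt g)) := by
  intro ε hε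
  have hcont : Continuous fun u => g (SmallB_pt u) 1 3 / √(SmallB_k g u) := by
    refine ((hg.smooth 1 3).continuous.comp SmallB_pt_cont).div
      (Real.continuous_sqrt.comp (SmallB_k_cont hg)) fun u => ?_
    exact (Real.sqrt_pos.2 (SmallB_k_pos hg u)).ne'
  have huc := SmallB_sq_compact.uniformContinuousOn_of_continuous hcont.continuousOn
  rw [Metric.uniformContinuousOn_iff] at huc
  obtain ⟨δ, hδ, h⟩ := huc ε hε
  refine ⟨-Real.log δ, fun p hp hR => ?_⟩
  obtain ⟨h1, h2⟩ := SmallB_exp_le hp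
  have e1 := Real.exp_pos p.1
  have e2 := Real.exp_pos p.2
  rw [SmallB_Bf]
  have hm : (Real.exp p.1, Real.exp p.2) ∈ SmallB_sq :=
    Set.mem_prod.2 ⟨⟨e1.le, h1⟩, ⟨e2.le, h2⟩⟩
  rcases hR with hR | hR
  · have hlt : Real.exp p.1 < δ := by
      rw [← Real.exp_log hδ]
      exact Real.exp_lt_exp.2 (by linarith)
    have hm0 : ((0 : ℝ), Real.exp p.2) ∈ SmallB_sq :=
      Set.mem_prod.2 ⟨⟨le_rfl, zero_le_one⟩, ⟨e2.le, h2⟩⟩
    have h3 := h _ hm _ hm0 (by
      rw [Prod.dist_eq, Real.dist_eq, Real.dist_eq]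
      simp only [sub_zero, sub_self, abs_zero]
      rw [abs_of_pos e1, max_eq_left e1.le]
      exact hlt)
    have h4 : g (SmallB_pt ((0 : ℝ), Real.exp p.2)) 1 3 = 0 := g13_zero hT _ _ (zero_mul _)
    rw [h4, zero_div, Real.dist_eq, sub_zero] at h3
    exact h3
  · have hlt : Real.exp p.2 < δ := by
      rw [← Real.exp_log hδ]
      exact Real.exp_lt_exp.2 (by linarith)
    have hm0 : (Real.exp p.1, (0 : ℝ)) ∈ SmallB_sq :=
      Set.mem_prod.2 ⟨⟨e1.le, h1⟩, ⟨le_rfl, zero_le_one⟩⟩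
    have h3 := h _ hm _ hm0 (by
      rw [Prod.dist_eq, Real.dist_eq, Real.dist_eq]
      simp only [sub_zero, sub_self, abs_zero]
      rw [abs_of_pos e2, max_eq_right e2.le]
      exact hlt)
    have h4 : g (SmallB_pt (Real.exp p.1, (0 : ℝ))) 1 3 = 0 := g13_zero hT _ _ (mul_zero _)
    rw [h4, zero_div, Real.dist_eq, sub_zero] at h3
    exact h3

theorem small_sg {g : P4 → M4} (hg : IsMetric g) :
    Small (fun p => Real.exp (sg (gt g) p)) := by
  intro ε hε
  have hcont : Continuous fun u => √(SmallB_k g u) :=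
    Real.continuous_sqrt.comp (SmallB_k_cont hg)
  obtain ⟨C, hC⟩ := SmallB_sq_compact.exists_bound_of_continuousOn hcont.continuousOn
  have hD : 0 < |C| + 1 := by positivity
  refine ⟨-Real.log (ε / (|C| + 1)), fun p hp hR => ?_⟩
  obtain ⟨h1, h2⟩ := SmallB_exp_le hp
  have e1 := Real.exp_pos p.1
  have e2 := Real.exp_pos p.2
  have hm : (Real.exp p.1, Real.exp p.2) ∈ SmallB_sq :=
    Set.mem_prod.2 ⟨⟨e1.le, h1⟩, ⟨e2.le, h2⟩⟩
  have hpos : 0 < rho2 (gt g) p := by
    rw [SmallB_rho2]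
    exact mul_pos (by positivity) (SmallB_k_pos hg _)
  have h3 : Real.exp (sg (gt g) p) = √(rho2 (gt g) p) := by
    unfold sg
    rw [Real.sqrt_eq_rpow, Real.rpow_def_of_pos hpos]
    congr 1
    ring
  have h4 : √(SmallB_k g (Real.exp p.1, Real.exp p.2)) < |C| + 1 := by
    have h5 := hC _ hm
    rw [Real.norm_eq_abs] at h5
    have h6 := le_abs_self √(SmallB_k g (Real.exp p.1, Real.exp p.2))
    have h7 := le_abs_self C
    linarith
  have h5 : 0 < √(SmallB_k g (Real.exp p.1, Real.exp p.2)) :=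
    Real.sqrt_pos.2 (SmallB_k_pos hg _)
  show |Real.exp (sg (gt g) p)| < ε
  rw [abs_of_pos (Real.exp_pos _), h3, SmallB_sqrt]
  have hq : 0 < ε / (|C| + 1) := div_pos hε hD
  have h6 : Real.exp p.1 * Real.exp p.2 < ε / (|C| + 1) := by
    rcases hR with hR | hR
    · have hlt : Real.exp p.1 < ε / (|C| + 1) := by
        rw [← Real.exp_log hq]
        exact Real.exp_lt_exp.2 (by linarith)
      calc Real.exp p.1 * Real.exp p.2 ≤ Real.exp p.1 * 1 :=
            mul_le_mul_of_nonneg_left h2 e1.le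
        _ < ε / (|C| + 1) := by rw [mul_one]; exact hlt
    · have hlt : Real.exp p.2 < ε / (|C| + 1) := by
        rw [← Real.exp_log hq]
        exact Real.exp_lt_exp.2 (by linarith)
      calc Real.exp p.1 * Real.exp p.2 ≤ 1 * Real.exp p.2 :=
            mul_le_mul_of_nonneg_right h1 e2.le
        _ < ε / (|C| + 1) := by rw [one_mul]; exact hlt
  calc Real.exp p.1 * Real.exp p.2 * √(SmallB_k g (Real.exp p.1, Real.exp p.2))
      < ε / (|C| + 1) * (|C| + 1) := mul_lt_mul h6 h4.le h5 hq.le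
    _ = ε := div_mul_cancel₀ _ hD.ne'

end Pool.Agent.T2S4
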