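import Pool.Agent.T2S4.Ends
import Pool.Agent.T2S4.Entries

/-!
# Limits in one chart: `KK`

PACKAGE. Prove the theorem (helper lemmas allowed, private or prefixed by `SmallK_`).

Let `a = e^s, b = e^t ≤ 1`. By `gt_apply`: `log γ_22 / 2 = s + (1/2) log g_11`, `log γ_33 / 2 =
t + (1/2) log g_33`, all at `x = sl p = (a, 0, b, 0)`. So (chain rule, `∂/∂s = a ∂/∂a`), with
`u = (1/2) log g_11` and `v = (1/2) log g_33` as smooth functions on `ℝ⁴`:
`dd 0 (log γ_22 / 2) = 1 + a ∂_0 u`, `dd 1 (log γ_22 / 2) = b ∂_2 u`, `dd 0 (log γ_33 / 2) = a ∂_0 v`,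
`dd 1 (log γ_33 / 2) = 1 + b ∂_2 v`. On the compact set `{(a, 0, b, 0) : 0 ≤ a, b ≤ 1}` the partial
derivatives and the entries of `g⁻¹` are bounded by a constant `C ≥ 1`. By `gt_inv`:
`(γ⁻¹)_00 = a⁻² (g⁻¹)_00`, `(γ⁻¹)_01 = (a b)⁻¹ (g⁻¹)_02`, `(γ⁻¹)_11 = b⁻² (g⁻¹)_22`. So
`|KK| ≤ C (a⁻² · 2C · a C + 2 (a b)⁻¹ (2C)² + b⁻² · b C · 2C) ≤ C' (a b)⁻¹` (all of `a⁻¹, b⁻¹, 1` are
`≤ (a b)⁻¹`). And `exp (3 sg) = rho2^(3/2) ≤ (C'' a b)³`. So the function is
`≤ C''' (a b)³ (a b)⁻² = C''' a b`, which is small if `a` or `b` is small (and both are `≤ 1`).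
-/

set_option autoImplicit false

namespace Pool.Agent.T2S4

open Matrix Filter Topology
open scoped ContDiff

/-- The point of the slice with the coordinates `q`. -/
private def SmallK_c (q : ℝ × ℝ) : P4 := ![q.1, 0, q.2, 0]

private theorem SmallK_cont : Continuous SmallK_c := by
  refine continuous_pi fun i => ?_
  fin_cases i
  · exact continuous_fst
  · exact continuous_const
  · exact continuous_snd
  · exact continuous_const

private theorem SmallK_sl (p : ℝ × ℝ) : sl p = SmallK_c (Real.exp p.1, Real.exp p.2) := rfl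

/-- The derivative of the slice. -/
private theorem SmallK_hd (p : ℝ × ℝ) : ∃ L : ℝ × ℝ →L[ℝ] P4, HasFDerivAt sl L p ∧
    L (bv 0) = Real.exp p.1 • (Pi.single 0 1 : P4) ∧
    L (bv 1) = Real.exp p.2 • (Pi.single 2 1 : P4) := by
  have h1 : HasFDerivAt (fun q : ℝ × ℝ => Real.exp q.1)
      (Real.exp p.1 • ContinuousLinearMap.fst ℝ ℝ ℝ) p := hasFDerivAt_fst.exp
  have h2 : HasFDerivAt (fun q : ℝ × ℝ => Real.exp q.2)
      (Real.exp p.2 • ContinuousLinearMap.snd ℝ ℝ ℝ) p := hasFDerivAt_snd.exp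
  have h0 : HasFDerivAt (fun _ : ℝ × ℝ => (0 : ℝ)) (0 : ℝ × ℝ →L[ℝ] ℝ) p :=
    hasFDerivAt_const _ _
  refine ⟨ContinuousLinearMap.pi ![Real.exp p.1 • ContinuousLinearMap.fst ℝ ℝ ℝ, 0,
    Real.exp p.2 • ContinuousLinearMap.snd ℝ ℝ ℝ, 0], ?_, ?_, ?_⟩
  · rw [hasFDerivAt_pi]
    intro i
    fin_cases i
    · exact h1
    · exact h0
    · exact h2
    · exact h0
  · funext i
    fin_cases i <;> simp [bv, ContinuousLinearMap.pi_apply]
  · funext i
    fin_cases i <;> simp [bv, ContinuousLinearMap.pi_apply]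

private theorem SmallK_dd {f : P4 → ℝ} (hf : ContDiff ℝ ∞ f) (a b : ℝ) (p : ℝ × ℝ) :
    dd 0 (fun q => (a * q.1 + b * q.2) + f (sl q)) p = a + Real.exp p.1 * pd 0 f (sl p) ∧
    dd 1 (fun q => (a * q.1 + b * q.2) + f (sl q)) p = b + Real.exp p.2 * pd 2 f (sl p) := by
  obtain ⟨L, hL, h0, h1⟩ := SmallK_hd p
  have h2 : HasFDerivAt f (fderiv ℝ f (sl p)) (sl p) :=
    (hf.differentiable (by simp) (sl p)).hasFDerivAt
  have h3 : HasFDerivAt (fun q : ℝ × ℝ => (a * q.1 + b * q.2) + f (sl q))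
      ((a • ContinuousLinearMap.fst ℝ ℝ ℝ + b • ContinuousLinearMap.snd ℝ ℝ ℝ) +
        (fderiv ℝ f (sl p)).comp L) p :=
    ((hasFDerivAt_fst.const_mul a).add (hasFDerivAt_snd.const_mul b)).add (h2.comp p hL)
  unfold dd pd
  rw [h3.fderiv]
  constructor
  · rw [_root_.add_apply, ContinuousLinearMap.comp_apply, h0, map_smul]
    simp [bv]
  · rw [_root_.add_apply, ContinuousLinearMap.comp_apply, h1, map_smul]
    simp [bv]

private theorem SmallK_diag {g : P4 → M4} (hg : IsMetric g) (x : P4) (i : Fin 4) :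
    0 < g x i i := (hg.posDef x).diag_pos

private theorem SmallK_log {g : P4 → M4} (hg : IsMetric g) (i : Fin 4) :
    ContDiff ℝ ∞ (fun x => Real.log (g x i i) / 2) :=
  ((hg.smooth i i).log fun x => (SmallK_diag hg x i).ne').div_const 2

private theorem SmallK_log2 {g : P4 → M4} (hg : IsMetric g) :
    (fun q => Real.log (gt g q 2 2) / 2) =
      fun q => (1 * q.1 + 0 * q.2) + (fun x => Real.log (g x 1 1) / 2) (sl q) := by
  funext q
  rw [gt_apply]
  show Real.log (Real.exp q.1 * Real.exp q.1 * g (sl q) 1 1) / 2 = _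
  rw [Real.log_mul (by positivity) (SmallK_diag hg _ _).ne', ← Real.exp_add, Real.log_exp]
  ring

private theorem SmallK_log3 {g : P4 → M4} (hg : IsMetric g) :
    (fun q => Real.log (gt g q 3 3) / 2) =
      fun q => (0 * q.1 + 1 * q.2) + (fun x => Real.log (g x 3 3) / 2) (sl q) := by
  funext q
  rw [gt_apply]
  show Real.log (Real.exp q.2 * Real.exp q.2 * g (sl q) 3 3) / 2 = _
  rw [Real.log_mul (by positivity) (SmallK_diag hg _ _).ne', ← Real.exp_add, Real.log_exp]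
  ring

private theorem SmallK_inv {g : P4 → M4} (hg : IsMetric g) (i j : Fin 4) :
    Continuous fun x => (g x)⁻¹ i j := by
  have hc : Continuous g := continuous_matrix fun i j => (hg.smooth i j).continuous
  have h1 : (fun x => (g x)⁻¹ i j) = fun x => (g x).det⁻¹ * (g x).adjugate i j := by
    funext x
    rw [Matrix.inv_def, Ring.inverse_eq_inv']
    rfl
  rw [h1]
  exact (hc.matrix_det.inv₀ fun x => (hg.posDef x).det_pos.ne').mul
    (hc.matrix_adjugate.matrix_elem i j)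

private theorem SmallK_pd {f : P4 → ℝ} (hf : ContDiff ℝ ∞ f) (i : Fin 4) :
    Continuous (pd i f) :=
  (hf.continuous_fderiv (by simp)).clm_apply continuous_const

/-- The function `KK` times `- a b`. -/
private noncomputable def SmallK_H (g : P4 → M4) (q : ℝ × ℝ) : ℝ :=
  q.2 * (g (SmallK_c q))⁻¹ 0 0 * (1 + q.1 * pd 0 (fun x => Real.log (g x 1 1) / 2) (SmallK_c q)) *
    pd 0 (fun x => Real.log (g x 3 3) / 2) (SmallK_c q) +
  (g (SmallK_c q))⁻¹ 0 2 * (1 + q.1 * pd 0 (fun x => Real.log (g x 1 1) / 2) (SmallK_c q)) *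
    (1 + q.2 * pd 2 (fun x => Real.log (g x 3 3) / 2) (SmallK_c q)) +
  q.1 * q.2 * (g (SmallK_c q))⁻¹ 2 0 * pd 2 (fun x => Real.log (g x 1 1) / 2) (SmallK_c q) *
    pd 0 (fun x => Real.log (g x 3 3) / 2) (SmallK_c q) +
  q.1 * (g (SmallK_c q))⁻¹ 2 2 * pd 2 (fun x => Real.log (g x 1 1) / 2) (SmallK_c q) *
    (1 + q.2 * pd 2 (fun x => Real.log (g x 3 3) / 2) (SmallK_c q))

private theorem SmallK_Hcont {g : P4 → M4} (hg : IsMetric g) : Continuous (SmallK_H g) := by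
  have h1 := fun i j => (SmallK_inv hg i j).comp SmallK_cont
  have h2 := fun i => (SmallK_pd (SmallK_log hg 1) i).comp SmallK_cont
  have h3 := fun i => (SmallK_pd (SmallK_log hg 3) i).comp SmallK_cont
  have h00 := h1 0 0
  have h02 := h1 0 2
  have h20 := h1 2 0
  have h22 := h1 2 2
  have hu0 := h2 0
  have hu2 := h2 2
  have hv0 := h3 0
  have hv2 := h3 2
  simp only [Function.comp_def] at h00 h02 h20 h22 hu0 hu2 hv0 hv2
  have e1 := (continuous_const (y := (1 : ℝ))).add (continuous_fst.mul hu0)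
  have e2 := (continuous_const (y := (1 : ℝ))).add (continuous_snd.mul hv2)
  have e3 := (continuous_fst (X := ℝ) (Y := ℝ)).mul (continuous_snd (X := ℝ) (Y := ℝ))
  exact (((((continuous_snd.mul h00).mul e1).mul hv0).add ((h02.mul e1).mul e2)).add
    (((e3.mul h20).mul hu2).mul hv0)).add (((continuous_fst.mul h22).mul hu2).mul e2)

private theorem SmallK_KK {g : P4 → M4} (hg : IsMetric g) (p : ℝ × ℝ) :
    Real.exp p.1 * Real.exp p.2 * KK (gt g) p =
      -SmallK_H g (Real.exp p.1, Real.exp p.2) := by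
  have h1 := SmallK_dd (SmallK_log hg 1) 1 0 p
  have h2 := SmallK_dd (SmallK_log hg 3) 0 1 p
  rw [← SmallK_log2 hg] at h1
  rw [← SmallK_log3 hg] at h2
  have hA : Real.exp p.1 ≠ 0 := (Real.exp_pos _).ne'
  have hB : Real.exp p.2 ≠ 0 := (Real.exp_pos _).ne'
  have h00 : (gt g p)⁻¹ 0 0 = (Real.exp p.1)⁻¹ * (Real.exp p.1)⁻¹ * (g (sl p))⁻¹ 0 0 :=
    gt_inv hg p 0 0
  have h01 : (gt g p)⁻¹ 0 1 = (Real.exp p.1)⁻¹ * (Real.exp p.2)⁻¹ * (g (sl p))⁻¹ 0 2 :=
    gt_inv hg p 0 1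
  have h10 : (gt g p)⁻¹ 1 0 = (Real.exp p.2)⁻¹ * (Real.exp p.1)⁻¹ * (g (sl p))⁻¹ 2 0 :=
    gt_inv hg p 1 0
  have h11 : (gt g p)⁻¹ 1 1 = (Real.exp p.2)⁻¹ * (Real.exp p.2)⁻¹ * (g (sl p))⁻¹ 2 2 :=
    gt_inv hg p 1 1
  have h3 : KK (gt g) p = -((gt g p)⁻¹ 0 0 * dd 0 (fun q => Real.log (gt g q 2 2) / 2) p *
        dd 0 (fun q => Real.log (gt g q 3 3) / 2) p +
      (gt g p)⁻¹ 0 1 * dd 0 (fun q => Real.log (gt g q 2 2) / 2) p *
        dd 1 (fun q => Real.log (gt g q 3 3) / 2) p +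
      ((gt g p)⁻¹ 1 0 * dd 1 (fun q => Real.log (gt g q 2 2) / 2) p *
        dd 0 (fun q => Real.log (gt g q 3 3) / 2) p +
      (gt g p)⁻¹ 1 1 * dd 1 (fun q => Real.log (gt g q 2 2) / 2) p *
        dd 1 (fun q => Real.log (gt g q 3 3) / 2) p)) := by
    unfold KK
    rw [Fin.sum_univ_two, Fin.sum_univ_two, Fin.sum_univ_two]
    rfl
  rw [h3, h1.1, h1.2, h2.1, h2.2, h00, h01, h10, h11, SmallK_H, ← SmallK_sl]
  field_simp
  ring

/-- Functions which are `O (a b)` are small. -/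
private theorem SmallK_small {F : ℝ × ℝ → ℝ} {C : ℝ} (hC : 0 ≤ C)
    (h : ∀ p : ℝ × ℝ, p.1 ≤ 0 → p.2 ≤ 0 → |F p| ≤ C * (Real.exp p.1 * Real.exp p.2)) :
    Small F := by
  intro ε hε
  refine ⟨Real.log ((C + 1) / ε), fun p hp hR => ?_⟩
  have hlog : Real.exp (-Real.log ((C + 1) / ε)) = ε / (C + 1) := by
    rw [← Real.log_inv, Real.exp_log (by positivity), inv_div]
  have e1 := Real.exp_pos (2 * p.1)
  have e2 := Real.exp_pos (2 * p.2)
  have h1 : p.1 ≤ 0 := by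
    have : Real.exp (2 * p.1) ≤ 1 := by linarith
    rw [Real.exp_le_one_iff] at this
    linarith
  have h2 : p.2 ≤ 0 := by
    have : Real.exp (2 * p.2) ≤ 1 := by linarith
    rw [Real.exp_le_one_iff] at this
    linarith
  have a1 := Real.exp_pos p.1
  have a2 := Real.exp_pos p.2
  have b1 : Real.exp p.1 ≤ 1 := Real.exp_le_one_iff.2 h1
  have b2 : Real.exp p.2 ≤ 1 := Real.exp_le_one_iff.2 h2
  have h3 : Real.exp p.1 * Real.exp p.2 < ε / (C + 1) := by
    rcases hR with hR | hR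
    · have h4 : Real.exp p.1 < ε / (C + 1) := by
        rw [← hlog]
        exact Real.exp_lt_exp.2 hR
      nlinarith
    · have h4 : Real.exp p.2 < ε / (C + 1) := by
        rw [← hlog]
        exact Real.exp_lt_exp.2 hR
      nlinarith
  calc |F p| ≤ C * (Real.exp p.1 * Real.exp p.2) := h p h1 h2
    _ ≤ (C + 1) * (Real.exp p.1 * Real.exp p.2) := by nlinarith [mul_pos a1 a2]
    _ < (C + 1) * (ε / (C + 1)) := mul_lt_mul_of_pos_left h3 (by linarith)
    _ = ε := by field_simp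

private theorem SmallK_sg {g : P4 → M4} (hg : IsMetric g) : ∃ C : ℝ, 0 ≤ C ∧ ∀ p : ℝ × ℝ,
    p.1 ≤ 0 → p.2 ≤ 0 → Real.exp (sg (gt g) p) ≤ C * (Real.exp p.1 * Real.exp p.2) := by
  have hk : Continuous fun q : ℝ × ℝ => √|g (SmallK_c q) 1 1 * g (SmallK_c q) 3 3 -
      g (SmallK_c q) 1 3 ^ 2| := by
    have h1 := fun i j => (hg.smooth i j).continuous.comp SmallK_cont
    have h11 := h1 1 1
    have h33 := h1 3 3
    have h13 := h1 1 3
    simp only [Function.comp_def] at h11 h33 h13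
    exact Real.continuous_sqrt.comp ((h11.mul h33).sub (h13.pow 2)).abs
  obtain ⟨C, hC⟩ := (isCompact_Icc.prod isCompact_Icc).exists_bound_of_continuousOn
    (s := (Set.Icc (0 : ℝ) 1) ×ˢ (Set.Icc (0 : ℝ) 1)) hk.continuousOn
  refine ⟨|C|, abs_nonneg _, fun p h1 h2 => ?_⟩
  have a1 := Real.exp_pos p.1
  have a2 := Real.exp_pos p.2
  have b1 : Real.exp p.1 ≤ 1 := Real.exp_le_one_iff.2 h1
  have b2 : Real.exp p.2 ≤ 1 := Real.exp_le_one_iff.2 h2
  have h3 := hC (Real.exp p.1, Real.exp p.2) ⟨⟨a1.le, b1⟩, ⟨a2.le, b2⟩⟩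
  rw [← SmallK_sl, Real.norm_eq_abs, abs_of_nonneg (Real.sqrt_nonneg _)] at h3
  have h4 : rho2 (gt g) p = (Real.exp p.1 * Real.exp p.2) ^ 2 *
      (g (sl p) 1 1 * g (sl p) 3 3 - g (sl p) 1 3 ^ 2) := by
    unfold rho2
    rw [gt_apply, gt_apply, gt_apply]
    show Real.exp p.1 * Real.exp p.1 * g (sl p) 1 1 *
      (Real.exp p.2 * Real.exp p.2 * g (sl p) 3 3) -
      (Real.exp p.1 * Real.exp p.2 * g (sl p) 1 3) ^ 2 = _
    ring
  have hpos : 0 < rho2 (gt g) p := by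
    have h5 := gt_posDef hg p
    have h6 : rho2 (gt g) p = ((gt g p).submatrix ![2, 3] ![2, 3]).det := by
      rw [Matrix.det_fin_two]
      have h7 : gt g p 3 2 = gt g p 2 3 := by
        have h := h5.isHermitian
        rw [Matrix.IsHermitian, Matrix.conjTranspose_eq_transpose_of_trivial] at h
        exact congrFun (congrFun h 2) 3
      unfold rho2
      simp only [Matrix.submatrix_apply, Matrix.cons_val_zero, Matrix.cons_val_one]
      rw [h7]
      ring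
    rw [h6]
    refine (h5.submatrix ?_).det_pos
    intro i j hij
    fin_cases i <;> fin_cases j <;> simp_all
  have h5 : Real.exp (sg (gt g) p) = √(rho2 (gt g) p) := by
    unfold sg
    rw [Real.sqrt_eq_rpow, Real.rpow_def_of_pos hpos]
    congr 1
    ring
  rw [h5]
  calc √(rho2 (gt g) p) = √((Real.exp p.1 * Real.exp p.2) ^ 2 *
        (g (sl p) 1 1 * g (sl p) 3 3 - g (sl p) 1 3 ^ 2)) := by rw [h4]
    _ = (Real.exp p.1 * Real.exp p.2) * √(g (sl p) 1 1 * g (sl p) 3 3 - g (sl p) 1 3 ^ 2) := by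
        rw [Real.sqrt_mul (by positivity), Real.sqrt_sq (by positivity)]
    _ ≤ (Real.exp p.1 * Real.exp p.2) * √|g (sl p) 1 1 * g (sl p) 3 3 - g (sl p) 1 3 ^ 2| :=
        mul_le_mul_of_nonneg_left (Real.sqrt_le_sqrt (le_abs_self _)) (by positivity)
    _ ≤ (Real.exp p.1 * Real.exp p.2) * |C| :=
        mul_le_mul_of_nonneg_left (h3.trans (le_abs_self _)) (by positivity)
    _ = _ := mul_comm _ _

theorem small_K {g : P4 → M4} (hg : IsMetric g) (c : ℝ) :
    Small (fun p => Real.exp (3 * sg (gt g) p) * (KK (gt g) p - c) ^ 2) := by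
  obtain ⟨C1, hC1, h1⟩ := SmallK_sg hg
  obtain ⟨C2, hC2⟩ := (isCompact_Icc.prod isCompact_Icc).exists_bound_of_continuousOn
    (s := (Set.Icc (0 : ℝ) 1) ×ˢ (Set.Icc (0 : ℝ) 1)) (SmallK_Hcont hg).continuousOn
  refine SmallK_small (C := C1 ^ 3 * (|C2| + |c|) ^ 2) (by positivity) fun p hp1 hp2 => ?_
  have a1 := Real.exp_pos p.1
  have a2 := Real.exp_pos p.2
  have b1 : Real.exp p.1 ≤ 1 := Real.exp_le_one_iff.2 hp1
  have b2 : Real.exp p.2 ≤ 1 := Real.exp_le_one_iff.2 hp2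
  have h3 := hC2 (Real.exp p.1, Real.exp p.2) ⟨⟨a1.le, b1⟩, ⟨a2.le, b2⟩⟩
  rw [Real.norm_eq_abs] at h3
  have h4 := SmallK_KK hg p
  have h5 := h1 p hp1 hp2
  set A := Real.exp p.1
  set B := Real.exp p.2
  have hAB : 0 < A * B := mul_pos a1 a2
  have hAB1 : A * B ≤ 1 := by nlinarith
  have h6 : |A * B * (KK (gt g) p - c)| ≤ |C2| + |c| := by
    have h7 : A * B * (KK (gt g) p - c) = -SmallK_H g (A, B) + -(A * B * c) := by
      rw [mul_sub, h4]
      ring
    rw [h7]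
    have h8 : |A * B * c| ≤ |c| := by
      rw [abs_mul, abs_of_pos hAB]
      nlinarith [abs_nonneg c]
    calc |-SmallK_H g (A, B) + -(A * B * c)| ≤ |-SmallK_H g (A, B)| + |-(A * B * c)| :=
          abs_add_le _ _
      _ ≤ |C2| + |c| := by
          rw [abs_neg, abs_neg]
          exact add_le_add (h3.trans (le_abs_self _)) h8
  have h7 : (A * B * (KK (gt g) p - c)) ^ 2 ≤ (|C2| + |c|) ^ 2 := by
    rw [← sq_abs (A * B * (KK (gt g) p - c))]
    exact pow_le_pow_left₀ (abs_nonneg _) h6 2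
  have h8 : Real.exp (3 * sg (gt g) p) ≤ (C1 * (A * B)) ^ 3 := by
    have h9 : Real.exp (3 * sg (gt g) p) = Real.exp (sg (gt g) p) ^ 3 := by
      rw [← Real.exp_nat_mul]
      norm_num
    rw [h9]
    exact pow_le_pow_left₀ (Real.exp_pos _).le h5 3
  rw [abs_of_nonneg (by positivity)]
  calc Real.exp (3 * sg (gt g) p) * (KK (gt g) p - c) ^ 2
      ≤ (C1 * (A * B)) ^ 3 * (KK (gt g) p - c) ^ 2 :=
        mul_le_mul_of_nonneg_right h8 (sq_nonneg _)
    _ = C1 ^ 3 * (A * B) * (A * B * (KK (gt g) p - c)) ^ 2 := by ring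
    _ ≤ C1 ^ 3 * (A * B) * (|C2| + |c|) ^ 2 := mul_le_mul_of_nonneg_left h7 (by positivity)
    _ = _ := by ring

end Pool.Agent.T2S4
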