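import Pool.Agent.T2S4.Glue

/-!
# The function `φ` in the two charts

PACKAGE. Prove the theorems (helper lemmas allowed, private or prefixed by `SmallPh_`).

* `ph_chart`: `ph (gt g) p = t - s + kap g p`, `kap g p = (1/2) log (g_33 / g_11)` at `sl p`
  (`gt_apply`).
* `kap_bound`: `kap g` is bounded on `{exp(2s) + exp(2t) ≤ 1}` (the point `sl p` stays in a compact set).
* `kap_dd`: for `s, t < -R` (`R` large) the partial derivatives of `kap g` are `< 1/8` in absolute
  value: `dd 0 (kap g) p = a ∂_0 k`, `dd 1 (kap g) p = b ∂_2 k` with `k = (1/2) log (g_33 / g_11)` smooth on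
  `ℝ⁴`, `a = e^s, b = e^t` small.
* `ends_ph1`: in the region `exp(2s) + exp(2t) ≤ 1` by `kap_bound` for `g`; otherwise
  `ph (gt g) p = ph (gt g') q`, `q = inv2 p`, `q.2 - q.1 = p.2 - p.1`, `exp(2 q.1) + exp(2 q.2) ≤ 1`.
* `ends_ph2`: let `|t - s| ≤ Y` and `|s + t| ≥ X`, `X = Y + 2 R + 2`. If `s + t ≤ -X` then `s, t < -R`,
  and `dd 1 (ph) - dd 0 (ph) = 2 + dd 1 (kap g) - dd 0 (kap g) > 0`. If `s + t ≥ X`: `q = inv2 p` has
  `q.1 = s - log(e^{2s} + e^{2t}) ≤ s - 2 max(s, t) < -R`, the same for `q.2`; near `p`,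
  `ph (gt g) = t - s + kap g' ∘ inv2`; by `dd_inv2` its partial derivatives differ from those of `t - s`
  by at most `2 (1/8 + 1/8)`, because the entries of `Qm` are at most `2` in absolute value.
-/

set_option autoImplicit false

namespace Pool.Agent.T2S4

open Matrix Filter Topology
open scoped ContDiff

/-- The bounded part of `φ`. -/
noncomputable def kap (g : P4 → M4) (p : ℝ × ℝ) : ℝ := Real.log (g (sl p) 3 3 / g (sl p) 1 1) / 2

/-- the function on the chart -/
private noncomputable def SmallPh_K (g : P4 → M4) (x : P4) : ℝ := Real.log (g x 3 3 / g x 1 1) / 2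

private theorem SmallPh_pos {g : P4 → M4} (hg : IsMetric g) (x : P4) (i : Fin 4) :
    0 < g x i i := (hg.posDef x).diag_pos

private theorem SmallPh_K_smooth {g : P4 → M4} (hg : IsMetric g) : ContDiff ℝ ∞ (SmallPh_K g) := by
  unfold SmallPh_K
  refine ContDiff.div_const (ContDiff.log ?_ ?_) 2
  · exact (hg.smooth 3 3).div (hg.smooth 1 1) fun x => (SmallPh_pos hg x 1).ne'
  · intro x
    exact (div_pos (SmallPh_pos hg x 3) (SmallPh_pos hg x 1)).ne'

private theorem SmallPh_sl (p : ℝ × ℝ) : HasFDerivAt sl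
    (ContinuousLinearMap.pi ![Real.exp p.1 • ContinuousLinearMap.fst ℝ ℝ ℝ, 0,
      Real.exp p.2 • ContinuousLinearMap.snd ℝ ℝ ℝ, 0]) p := by
  rw [hasFDerivAt_pi']
  intro i
  fin_cases i
  · exact (Real.hasDerivAt_exp p.1).comp_hasFDerivAt p hasFDerivAt_fst
  · exact hasFDerivAt_const _ _
  · exact (Real.hasDerivAt_exp p.2).comp_hasFDerivAt p hasFDerivAt_snd
  · exact hasFDerivAt_const _ _

private theorem SmallPh_kap {g : P4 → M4} (hg : IsMetric g) (p : ℝ × ℝ) :
    HasFDerivAt (kap g) ((fderiv ℝ (SmallPh_K g) (sl p)).comp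
      (ContinuousLinearMap.pi ![Real.exp p.1 • ContinuousLinearMap.fst ℝ ℝ ℝ, 0,
      Real.exp p.2 • ContinuousLinearMap.snd ℝ ℝ ℝ, 0])) p := by
  have h1 : HasFDerivAt (SmallPh_K g) (fderiv ℝ (SmallPh_K g) (sl p)) (sl p) :=
    ((SmallPh_K_smooth hg).differentiable (by simp) (sl p)).hasFDerivAt
  exact h1.comp p (SmallPh_sl p)

private theorem SmallPh_ball {p : ℝ × ℝ} (h : Real.exp (2 * p.1) + Real.exp (2 * p.2) ≤ 1) :
    sl p ∈ Metric.closedBall (0 : P4) 1 := by
  have h1 := Real.exp_pos (2 * p.1)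
  have h2 := Real.exp_pos (2 * p.2)
  have h3 : Real.exp p.1 ≤ 1 := by
    have h4 : 2 * p.1 ≤ 0 := Real.exp_le_one_iff.1 (by linarith)
    exact Real.exp_le_one_iff.2 (by linarith)
  have h4 : Real.exp p.2 ≤ 1 := by
    have h4 : 2 * p.2 ≤ 0 := Real.exp_le_one_iff.1 (by linarith)
    exact Real.exp_le_one_iff.2 (by linarith)
  rw [mem_closedBall_zero_iff, pi_norm_le_iff_of_nonneg zero_le_one]
  intro i
  fin_cases i
  · show |Real.exp p.1| ≤ 1
    rw [abs_of_pos (Real.exp_pos _)]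
    exact h3
  · show ‖(0 : ℝ)‖ ≤ 1
    simp
  · show |Real.exp p.2| ≤ 1
    rw [abs_of_pos (Real.exp_pos _)]
    exact h4
  · show ‖(0 : ℝ)‖ ≤ 1
    simp

private theorem SmallPh_exp_half {R s : ℝ} (hR : 1 ≤ R) (hs : s < -R) :
    Real.exp (2 * s) ≤ 1 / 2 := by
  have h1 : Real.exp (2 * s) ≤ Real.exp (-1) := Real.exp_le_exp.2 (by linarith)
  have h2 := Real.exp_neg_one_lt_half
  linarith

theorem ph_chart {g : P4 → M4} (hg : IsMetric g) (p : ℝ × ℝ) :
    ph (gt g) p = p.2 - p.1 + kap g p := by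
  have h3 := SmallPh_pos hg (sl p) 3
  have h1 := SmallPh_pos hg (sl p) 1
  have e1 := Real.exp_pos p.1
  have e2 := Real.exp_pos p.2
  unfold ph kap
  rw [gt_apply, gt_apply]
  have e3 : wt p 3 * wt p 3 * g (sl p) (tau 3) (tau 3) =
      Real.exp p.2 * Real.exp p.2 * g (sl p) 3 3 := rfl
  have e4 : wt p 2 * wt p 2 * g (sl p) (tau 2) (tau 2) =
      Real.exp p.1 * Real.exp p.1 * g (sl p) 1 1 := rfl
  rw [e3, e4, Real.log_div (by positivity) (by positivity), Real.log_div h3.ne' h1.ne',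
    Real.log_mul (by positivity) h3.ne', Real.log_mul (by positivity) h1.ne',
    Real.log_mul e2.ne' e2.ne', Real.log_mul e1.ne' e1.ne', Real.log_exp, Real.log_exp]
  ring

theorem kap_bound {g : P4 → M4} (hg : IsMetric g) : ∃ C : ℝ, ∀ p : ℝ × ℝ,
    Real.exp (2 * p.1) + Real.exp (2 * p.2) ≤ 1 → |kap g p| ≤ C := by
  obtain ⟨C, hC⟩ := (isCompact_closedBall (0 : P4) 1).exists_bound_of_continuousOn
    (SmallPh_K_smooth hg).continuous.continuousOn
  exact ⟨C, fun p hp => hC _ (SmallPh_ball hp)⟩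

theorem kap_dd {g : P4 → M4} (hg : IsMetric g) : ∃ R : ℝ, ∀ p : ℝ × ℝ, p.1 < -R → p.2 < -R →
    |dd 0 (kap g) p| < 1 / 8 ∧ |dd 1 (kap g) p| < 1 / 8 := by
  have hcont : Continuous fun x => fderiv ℝ (SmallPh_K g) x :=
    (SmallPh_K_smooth hg).continuous_fderiv (by simp)
  obtain ⟨C, hC⟩ := (isCompact_closedBall (0 : P4) 1).exists_bound_of_continuousOn
    hcont.continuousOn
  set M : ℝ := |C| + 1 with hM
  have hM0 : 0 < M := by positivity
  have hl : Tendsto (fun R : ℝ => Real.exp (-R) * M) atTop (𝓝 0) := by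
    have h1 := (Real.tendsto_exp_neg_atTop_nhds_zero).mul_const M
    rwa [zero_mul] at h1
  obtain ⟨R, hR1, hR⟩ := ((eventually_ge_atTop (1 : ℝ)).and
    (hl.eventually_lt_const (show (0 : ℝ) < 1 / 8 by norm_num))).exists
  refine ⟨R, fun p h1 h2 => ?_⟩
  have hb : Real.exp (2 * p.1) + Real.exp (2 * p.2) ≤ 1 := by
    have e1 := SmallPh_exp_half hR1 h1
    have e2 := SmallPh_exp_half hR1 h2
    linarith
  have hn := hC _ (SmallPh_ball hb)
  have hn' : ‖fderiv ℝ (SmallPh_K g) (sl p)‖ ≤ M := by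
    have := le_abs_self C
    linarith
  have hexp1 : Real.exp p.1 * M < 1 / 8 := by
    have e1 : Real.exp p.1 ≤ Real.exp (-R) := Real.exp_le_exp.2 h1.le
    have e2 := mul_le_mul_of_nonneg_right e1 hM0.le
    linarith
  have hexp2 : Real.exp p.2 * M < 1 / 8 := by
    have e1 : Real.exp p.2 ≤ Real.exp (-R) := Real.exp_le_exp.2 h2.le
    have e2 := mul_le_mul_of_nonneg_right e1 hM0.le
    linarith
  have key : ∀ (a : Fin 2) (v : P4) (c : ℝ), 0 < c → ‖v‖ ≤ c → c * M < 1 / 8 →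
      dd a (kap g) p = fderiv ℝ (SmallPh_K g) (sl p) v → |dd a (kap g) p| < 1 / 8 := by
    intro a v c hc hv hcM he
    rw [he]
    have e1 := (fderiv ℝ (SmallPh_K g) (sl p)).le_opNorm v
    have e2 : ‖fderiv ℝ (SmallPh_K g) (sl p)‖ * ‖v‖ ≤ M * c :=
      mul_le_mul hn' hv (norm_nonneg _) hM0.le
    rw [Real.norm_eq_abs] at e1
    linarith
  constructor
  · refine key 0 ![Real.exp p.1, 0, 0, 0] (Real.exp p.1) (Real.exp_pos _) ?_ hexp1 ?_
    · rw [pi_norm_le_iff_of_nonneg (Real.exp_pos _).le]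
      intro i
      fin_cases i <;> simp [Real.exp_pos, (Real.exp_pos p.1).le]
    · unfold dd
      rw [(SmallPh_kap hg p).fderiv, ContinuousLinearMap.comp_apply]
      congr 1
      funext i
      fin_cases i <;> simp [bv]
  · refine key 1 ![0, 0, Real.exp p.2, 0] (Real.exp p.2) (Real.exp_pos _) ?_ hexp2 ?_
    · rw [pi_norm_le_iff_of_nonneg (Real.exp_pos _).le]
      intro i
      fin_cases i <;> simp [Real.exp_pos, (Real.exp_pos p.2).le]
    · unfold dd
      rw [(SmallPh_kap hg p).fderiv, ContinuousLinearMap.comp_apply]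
      congr 1
      funext i
      fin_cases i <;> simp [bv]

theorem ends_ph1 {g g' : P4 → M4} (h : SphereMetric g g') :
    ∃ C : ℝ, ∀ p : ℝ × ℝ, |ph (gt g) p - (p.2 - p.1)| ≤ C := by
  obtain ⟨C, hC⟩ := kap_bound h.left
  obtain ⟨C', hC'⟩ := kap_bound h.right
  refine ⟨max C C', fun p => ?_⟩
  by_cases hp : Real.exp (2 * p.1) + Real.exp (2 * p.2) ≤ 1
  · rw [ph_chart h.left, add_sub_cancel_left]
    exact (hC p hp).trans (le_max_left _ _)
  · have h1 : Real.exp (2 * (inv2 p).1) + Real.exp (2 * (inv2 p).2) ≤ 1 := by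
      rw [exp_inv2]
      exact inv_le_one_of_one_le₀ (not_le.1 hp).le
    have h2 : (inv2 p).2 - (inv2 p).1 = p.2 - p.1 := by
      unfold inv2
      ring
    rw [ph_glue h, ph_chart h.right, h2, add_sub_cancel_left]
    exact (hC' _ h1).trans (le_max_right _ _)

theorem ends_ph2 {g g' : P4 → M4} (h : SphereMetric g g') :
    ∀ Y : ℝ, ∃ X : ℝ, ∀ p : ℝ × ℝ, |p.2 - p.1| ≤ Y → X ≤ |p.1 + p.2| →
      0 < dd 1 (ph (gt g)) p - dd 0 (ph (gt g)) p := by
  intro Y
  obtain ⟨R1, hR1⟩ := kap_dd h.left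
  obtain ⟨R2, hR2⟩ := kap_dd h.right
  set R : ℝ := max R1 R2 with hR
  have hR1' : R1 ≤ R := le_max_left _ _
  have hR2' : R2 ≤ R := le_max_right _ _
  refine ⟨Y + 2 * R + 2, fun p hY hX => ?_⟩
  have hY1 := (abs_le.1 hY).1
  have hY2 := (abs_le.1 hY).2
  have hlin : ∀ (a : Fin 2) (F : ℝ × ℝ → ℝ), DifferentiableAt ℝ F p →
      dd a (fun q => q.2 - q.1 + F q) p = (bv a).2 - (bv a).1 + dd a F p := by
    intro a F hF
    unfold dd
    have e1 : HasFDerivAt (fun q : ℝ × ℝ => q.2 - q.1 + F q)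
        (ContinuousLinearMap.snd ℝ ℝ ℝ - ContinuousLinearMap.fst ℝ ℝ ℝ + fderiv ℝ F p) p :=
      (hasFDerivAt_snd.sub hasFDerivAt_fst).add hF.hasFDerivAt
    rw [e1.fderiv]
    rfl
  rcases le_abs'.1 hX with hX | hX
  · have h1 : p.1 < -R := by linarith
    have h2 : p.2 < -R := by linarith
    obtain ⟨k0, k1⟩ := hR1 p (by linarith) (by linarith)
    have hd : DifferentiableAt ℝ (kap g) p := (SmallPh_kap h.left p).differentiableAt
    have e0 : ph (gt g) = fun q => q.2 - q.1 + kap g q := funext (ph_chart h.left)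
    rw [e0, hlin 1 _ hd, hlin 0 _ hd]
    have k0' := abs_lt.1 k0
    have k1' := abs_lt.1 k1
    have b1 : (bv 1).2 - (bv 1).1 = 1 := by simp [bv]
    have b0 : (bv 0).2 - (bv 0).1 = -1 := by simp [bv]
    rw [b1, b0]
    linarith
  · have hs : R + 1 ≤ p.1 := by linarith
    have ht : R + 1 ≤ p.2 := by linarith
    have hA := Real.exp_pos (2 * p.1)
    have hB := Real.exp_pos (2 * p.2)
    have hl1 : 2 * p.1 ≤ Real.log (Real.exp (2 * p.1) + Real.exp (2 * p.2)) := by
      rw [Real.le_log_iff_exp_le (by positivity)]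
      linarith
    have hl2 : 2 * p.2 ≤ Real.log (Real.exp (2 * p.1) + Real.exp (2 * p.2)) := by
      rw [Real.le_log_iff_exp_le (by positivity)]
      linarith
    have hq1 : (inv2 p).1 < -R2 := by
      show p.1 - Real.log (Real.exp (2 * p.1) + Real.exp (2 * p.2)) < -R2
      linarith
    have hq2 : (inv2 p).2 < -R2 := by
      show p.2 - Real.log (Real.exp (2 * p.1) + Real.exp (2 * p.2)) < -R2
      linarith
    obtain ⟨k0, k1⟩ := hR2 (inv2 p) hq1 hq2
    have hd : DifferentiableAt ℝ (kap g') (inv2 p) :=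
      (SmallPh_kap h.right (inv2 p)).differentiableAt
    have hd2 : DifferentiableAt ℝ (fun q => kap g' (inv2 q)) p :=
      hd.comp p (inv2_smooth.differentiable (by simp) p)
    have e0 : ph (gt g) = fun q => q.2 - q.1 + kap g' (inv2 q) := by
      funext q
      rw [ph_glue h, ph_chart h.right]
      congr 1
      unfold inv2
      ring
    rw [e0, hlin 1 _ hd2, hlin 0 _ hd2, dd_inv2 p hd, dd_inv2 p hd]
    rw [Fin.sum_univ_two, Fin.sum_univ_two]
    have b1 : (bv 1).2 - (bv 1).1 = 1 := by simp [bv]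
    have b0 : (bv 0).2 - (bv 0).1 = -1 := by simp [bv]
    rw [b1, b0]
    set A := Real.exp (2 * p.1) with hAd
    set B := Real.exp (2 * p.2) with hBd
    have hAB : 0 < A + B := by positivity
    have q00 : |Qm p (emb 0) (emb 0)| ≤ 2 := by
      show |(B - A) / (A + B)| ≤ 2
      rw [abs_div, abs_of_pos hAB, div_le_iff₀ hAB, abs_le]
      constructor <;> linarith
    have q01 : |Qm p (emb 0) (emb 1)| ≤ 2 := by
      show |-2 * B / (A + B)| ≤ 2
      rw [abs_div, abs_of_pos hAB, div_le_iff₀ hAB, abs_le]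
      constructor <;> linarith
    have q10 : |Qm p (emb 1) (emb 0)| ≤ 2 := by
      show |-2 * A / (A + B)| ≤ 2
      rw [abs_div, abs_of_pos hAB, div_le_iff₀ hAB, abs_le]
      constructor <;> linarith
    have q11 : |Qm p (emb 1) (emb 1)| ≤ 2 := by
      show |(A - B) / (A + B)| ≤ 2
      rw [abs_div, abs_of_pos hAB, div_le_iff₀ hAB, abs_le]
      constructor <;> linarith
    have key : ∀ u v : ℝ, |u| ≤ 2 → |v| < 1 / 8 → |u * v| ≤ 1 / 4 := by
      intro u v hu hv
      rw [abs_mul]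
      have := mul_le_mul hu hv.le (abs_nonneg v) (by norm_num : (0 : ℝ) ≤ 2)
      linarith
    have m1 := abs_le.1 (key _ _ q01 k0)
    have m2 := abs_le.1 (key _ _ q11 k1)
    have m3 := abs_le.1 (key _ _ q00 k0)
    have m4 := abs_le.1 (key _ _ q10 k1)
    linarith [m1.1, m1.2, m2.1, m2.2, m3.1, m3.2, m4.1, m4.2]

end Pool.Agent.T2S4
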