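import Pool.Agent.T2S4.SmallTwo
import Pool.Agent.T2S4.SmallB
import Pool.Agent.T2S4.SmallK
import Pool.Agent.T2S4.SmallPh
import Pool.Agent.T2S4.InvG

/-!
# The behaviour at infinity (assembly)

PACKAGE. Prove the theorem from the imported ones: `small_two` with `Bf_glue`, `sg_glue`, `KK_glue`;
`inv_right` for the second chart; `Real.tendsto_exp_comp_nhds_zero` for `sg`.
-/

set_option autoImplicit false

namespace Pool.Agent.T2S4

open Matrix Filter Topology
open scoped ContDiff

theorem ends_gt {g g' : P4 → M4} (h : SphereMetric g g') (hT : TorusInvariant g) :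
    Ends (gt g) where
  B := small_two (small_B h.left hT) (small_B h.right (inv_right h hT)) (Bf_glue h)
  sg := Real.tendsto_exp_comp_nhds_zero.1
    (small_two (small_sg h.left) (small_sg h.right) fun p => by rw [sg_glue h])
  ph1 := ends_ph1 h
  ph2 := ends_ph2 h
  K c := small_two (small_K h.left c) (small_K h.right c) fun p => by
    rw [sg_glue h, KK_glue h]

end Pool.Agent.T2S4
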