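import Pool.Agent.T2S4.Schur
import Pool.Agent.T2S4.TwistC

/-!
# The fibre part of the Einstein equation

PACKAGE. Prove the theorems (helper lemmas allowed, private or prefixed by `Fibre_`).

For `γ = blk h G`, `i, j` fibre indices, `b` a base index: `Γ^b_{l i}` with `l` a fibre index is
`-(1/2) ∑ a, (h⁻¹)_{ba} ∂_a G_{li}` (`ld (bas 2) = ld (bas 3) = 0`, the mixed entries vanish, `blk_inv`), so
`FK i j b = ∑ l, (G⁻¹)_{jl} Γ^b_{li} = -(1/2) ∑ l a, (G⁻¹)_{jl} (h⁻¹)_{ba} ∂_a G_{li}`. `komar` with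
`μ = fib j`: `∑ b, ∂_b (vol · FK i j b) = vol ∑ κ, (γ⁻¹)_{jκ} ric_{κi} = Λ vol δ_{ji}` (`√det (blk h G) = vol`,
`blk_det`; the terms `ν = 2, 3` vanish). This is `fibre_eq`.
`Lop_G`: multiply `fibre_eq` by `G`:
`∑ j, G_{mj} ∂_a (vol ∑ b l, (h⁻¹)_{ab} (G⁻¹)_{jl} ∂_b G_{li}) = ∂_a (vol ∑ b, (h⁻¹)_{ab} ∂_b G_{mi})
 - vol ∑ j l b, ∂_a G_{mj} (h⁻¹)_{ab} (G⁻¹)_{jl} ∂_b G_{li}`, sum over `a`, divide by `vol`.
-/

set_option autoImplicit false

namespace Pool.Agent.T2S4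

open Matrix Filter Topology
open scoped ContDiff

private theorem Fibre_ld_fib (i : Fin 2) (f : ℝ × ℝ → ℝ) (p : ℝ × ℝ) :
    ld (bas (fib i)) f p = 0 := by
  have h : bas (fib i) p = 0 := by
    fin_cases i <;> rfl
  unfold ld
  rw [h, map_zero]

private theorem Fibre_ld_emb (a : Fin 2) (f : ℝ × ℝ → ℝ) (p : ℝ × ℝ) :
    ld (bas (emb a)) f p = dd a f p := by
  have h : bas (emb a) p = bv a := by
    fin_cases a <;> rfl
  unfold ld dd
  rw [h]

private theorem Fibre_sum (F : Fin 4 → ℝ) : ∑ ν, F ν = ∑ a, F (emb a) + ∑ a, F (fib a) := by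
  rw [Fin.sum_univ_four, Fin.sum_univ_two, Fin.sum_univ_two]
  have h0 : emb 0 = 0 := rfl
  have h1 : emb 1 = 1 := rfl
  have h2 : fib 0 = 2 := rfl
  have h3 : fib 1 = 3 := rfl
  rw [h0, h1, h2, h3]
  ring

private theorem Fibre_one (F : Fin 2 → ℝ) (i : Fin 2) :
    (1 : M2) i 0 * F 0 + (1 : M2) i 1 * F 1 = F i := by
  rw [← Fin.sum_univ_two (fun l => (1 : M2) i l * F l)]
  simp [Matrix.one_apply]

private theorem Fibre_onr (F : Fin 2 → ℝ) (j : Fin 2) :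
    F 0 * (1 : M2) 0 j + F 1 * (1 : M2) 1 j = F j := by
  rw [← Fin.sum_univ_two (fun k => F k * (1 : M2) k j)]
  simp [Matrix.one_apply]

private theorem Fibre_ee (h G : M2) (a b : Fin 2) : blk h G (emb a) (emb b) = h a b := by
  fin_cases a <;> fin_cases b <;> rfl

private theorem Fibre_fe (h G : M2) (a b : Fin 2) : blk h G (fib a) (emb b) = 0 := by
  fin_cases a <;> fin_cases b <;> rfl

private theorem Fibre_ef (h G : M2) (a b : Fin 2) : blk h G (emb a) (fib b) = 0 := by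
  fin_cases a <;> fin_cases b <;> rfl

private theorem Fibre_ff (h G : M2) (a b : Fin 2) : blk h G (fib a) (fib b) = G a b := by
  fin_cases a <;> fin_cases b <;> rfl

private theorem Fibre_fr {Λ : ℝ} {h G : ℝ × ℝ → M2} (hg : GoodB Λ h G) :
    Fr Set.univ bas (fun q => blk (h q) (G q)) := by
  refine fr_bas (fun i j => ?_) (fun p => blk_posDef (hg.posh p) (hg.posG p))
  fin_cases i <;> fin_cases j <;>
    first
    | exact hg.smh 0 0
    | exact hg.smh 0 1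
    | exact hg.smh 1 0
    | exact hg.smh 1 1
    | exact hg.smG 0 0
    | exact hg.smG 0 1
    | exact hg.smG 1 0
    | exact hg.smG 1 1
    | exact contDiff_const

private theorem Fibre_smhi {Λ : ℝ} {h G : ℝ × ℝ → M2} (hg : GoodB Λ h G) (a b : Fin 2) :
    ContDiff ℝ ∞ (fun q => (h q)⁻¹ a b) := by
  have hf := Fibre_fr hg
  have h1 := inv_smooth hf.smg hf.det (emb a) (emb b)
  rw [contDiffOn_univ] at h1
  have h2 : (fun q => (h q)⁻¹ a b) = fun q => (blk (h q) (G q))⁻¹ (emb a) (emb b) := by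
    funext q
    rw [blk_inv (hg.posh q) (hg.posG q), Fibre_ee]
  rw [h2]
  exact h1

private theorem Fibre_smGi {Λ : ℝ} {h G : ℝ × ℝ → M2} (hg : GoodB Λ h G) (a b : Fin 2) :
    ContDiff ℝ ∞ (fun q => (G q)⁻¹ a b) := by
  have hf := Fibre_fr hg
  have h1 := inv_smooth hf.smg hf.det (fib a) (fib b)
  rw [contDiffOn_univ] at h1
  have h2 : (fun q => (G q)⁻¹ a b) = fun q => (blk (h q) (G q))⁻¹ (fib a) (fib b) := by
    funext q
    rw [blk_inv (hg.posh q) (hg.posG q), Fibre_ff]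
  rw [h2]
  exact h1

private theorem Fibre_detpos {Λ : ℝ} {h G : ℝ × ℝ → M2} (hg : GoodB Λ h G) (q : ℝ × ℝ) :
    0 < (h q).det * (G q).det := mul_pos (hg.posh q).det_pos (hg.posG q).det_pos

private theorem Fibre_volpos {Λ : ℝ} {h G : ℝ × ℝ → M2} (hg : GoodB Λ h G) (q : ℝ × ℝ) :
    0 < vol h G q := Real.sqrt_pos.2 (Fibre_detpos hg q)

private theorem Fibre_smvol {Λ : ℝ} {h G : ℝ × ℝ → M2} (hg : GoodB Λ h G) :
    ContDiff ℝ ∞ (vol h G) := by
  have h1 : ContDiff ℝ ∞ (fun q => (h q).det * (G q).det) := by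
    simp only [Matrix.det_fin_two]
    exact (((hg.smh 0 0).mul (hg.smh 1 1)).sub ((hg.smh 0 1).mul (hg.smh 1 0))).mul
      (((hg.smG 0 0).mul (hg.smG 1 1)).sub ((hg.smG 0 1).mul (hg.smG 1 0)))
  exact h1.sqrt fun q => (Fibre_detpos hg q).ne'

private theorem Fibre_smdd {f : ℝ × ℝ → ℝ} (hf : ContDiff ℝ ∞ f) (a : Fin 2) :
    ContDiff ℝ ∞ (dd a f) := by
  have h1 : ContDiff ℝ ∞ (fderiv ℝ f) := hf.fderiv_right (by simp)
  exact h1.clm_apply contDiff_const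

private theorem Fibre_da {f : ℝ × ℝ → ℝ} (hf : ContDiff ℝ ∞ f) (p : ℝ × ℝ) :
    DifferentiableAt ℝ f p := hf.contDiffAt.differentiableAt (by simp)

private theorem Fibre_smW {Λ : ℝ} {h G : ℝ × ℝ → M2} (hg : GoodB Λ h G) (a j i : Fin 2) :
    ContDiff ℝ ∞ (fun q => vol h G q * ∑ b, ∑ l, (h q)⁻¹ a b * (G q)⁻¹ j l *
      dd b (fun r => G r l i) q) := by
  refine (Fibre_smvol hg).mul (ContDiff.sum fun b _ => ContDiff.sum fun l _ => ?_)
  exact ((Fibre_smhi hg a b).mul (Fibre_smGi hg j l)).mul (Fibre_smdd (hg.smG l i) b)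

private theorem Fibre_FK {Λ : ℝ} {h G : ℝ × ℝ → M2} (hg : GoodB Λ h G) (q : ℝ × ℝ)
    (j i a : Fin 2) : FK bas (fun q => blk (h q) (G q)) (fib i) (fib j) (emb a) q =
      -(1 / 2) * ∑ b, ∑ l, (h q)⁻¹ a b * (G q)⁻¹ j l * dd b (fun r => G r l i) q := by
  have hi := blk_inv (hg.posh q) (hg.posG q)
  have hc : ∀ l : Fin 2, chrV bas (fun q => blk (h q) (G q)) (emb a) (fib l) (fib i) q =
      -(1 / 2) * ∑ b, (h q)⁻¹ a b * dd b (fun r => G r l i) q := by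
    intro l
    unfold chrV
    rw [Fibre_sum]
    simp only [hi, Fibre_ee, Fibre_ef, Fibre_ld_fib, Fibre_ld_emb, Fibre_ff]
    simp only [Fin.sum_univ_two]
    ring
  unfold FK
  rw [Fibre_sum]
  simp only [hi, Fibre_fe, Fibre_ff, hc]
  simp only [Fin.sum_univ_two]
  ring

private theorem Fibre_cm (c : ℝ) {f : ℝ × ℝ → ℝ} (hf : ContDiff ℝ ∞ f) (a : Fin 2) (p : ℝ × ℝ) :
    dd a (fun q => c * f q) p = c * dd a f p := by
  have h1 : HasFDerivAt (fun q => c * f q) (c • fderiv ℝ f p) p :=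
    (Fibre_da hf p).hasFDerivAt.const_mul c
  unfold dd
  rw [h1.fderiv]
  rfl

private theorem Fibre_mul {f g : ℝ × ℝ → ℝ} (hf : ContDiff ℝ ∞ f) (hg : ContDiff ℝ ∞ g)
    (a : Fin 2) (p : ℝ × ℝ) :
    dd a (fun q => f q * g q) p = dd a f p * g p + f p * dd a g p := by
  have h1 : HasFDerivAt (fun q => f q * g q) (f p • fderiv ℝ g p + g p • fderiv ℝ f p) p :=
    (Fibre_da hf p).hasFDerivAt.mul (Fibre_da hg p).hasFDerivAt
  unfold dd
  rw [h1.fderiv]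
  simp only [_root_.add_apply, _root_.smul_apply, smul_eq_mul]
  ring

private theorem Fibre_add {f g : ℝ × ℝ → ℝ} (hf : ContDiff ℝ ∞ f) (hg : ContDiff ℝ ∞ g)
    (a : Fin 2) (p : ℝ × ℝ) : dd a (fun q => f q + g q) p = dd a f p + dd a g p := by
  have h1 : HasFDerivAt (fun q => f q + g q) (fderiv ℝ f p + fderiv ℝ g p) p :=
    (Fibre_da hf p).hasFDerivAt.add (Fibre_da hg p).hasFDerivAt
  unfold dd
  rw [h1.fderiv]
  rfl

theorem fibre_eq {Λ : ℝ} {h G : ℝ × ℝ → M2} (hg : GoodB Λ h G) (p : ℝ × ℝ) (j i : Fin 2) :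
    ∑ a, dd a (fun q => vol h G q * ∑ b, ∑ l, (h q)⁻¹ a b * (G q)⁻¹ j l *
      dd b (fun r => G r l i) q) p = -2 * Λ * vol h G p * (1 : M2) j i := by
  have hf := Fibre_fr hg
  have hk := komar hf (fun x _ => (blk_posDef (hg.posh x) (hg.posG x)).det_pos)
    (i := fib i) (fun x => by fin_cases i <;> rfl) (Set.mem_univ p) (fib j)
  have hv : ∀ q, √(blk (h q) (G q)).det = vol h G q := by
    intro q
    rw [blk_det]
    rfl
  have hR : ∑ κ, (blk (h p) (G p))⁻¹ (fib j) κ *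
      ricV bas (fun q => blk (h q) (G q)) κ (fib i) p = Λ * (1 : M2) j i := by
    have h1 : ∀ κ, ricV bas (fun q => blk (h q) (G q)) κ (fib i) p =
        Λ * blk (h p) (G p) κ (fib i) := fun κ => hg.ein p κ (fib i)
    have h2 : (G p)⁻¹ * G p = 1 :=
      Matrix.nonsing_inv_mul _ (isUnit_iff_ne_zero.2 (hg.posG p).det_pos.ne')
    have h3 := congrFun (congrFun h2 j) i
    rw [Matrix.mul_apply] at h3
    rw [Fibre_sum]
    simp only [h1, blk_inv (hg.posh p) (hg.posG p), Fibre_fe, Fibre_ff, Fibre_ef]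
    rw [← h3]
    simp only [Fin.sum_univ_two]
    ring
  rw [hR, hv, Fibre_sum] at hk
  simp only [Fibre_ld_fib, Fibre_ld_emb, Finset.sum_const_zero, add_zero] at hk
  have hW : ∀ a, dd a (fun y => √(blk (h y) (G y)).det *
      FK bas (fun q => blk (h q) (G q)) (fib i) (fib j) (emb a) y) p =
      -(1 / 2) * dd a (fun q => vol h G q * ∑ b, ∑ l, (h q)⁻¹ a b * (G q)⁻¹ j l *
        dd b (fun r => G r l i) q) p := by
    intro a
    rw [← Fibre_cm _ (Fibre_smW hg a j i)]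
    congr 1
    funext q
    rw [hv, Fibre_FK hg]
    ring
  simp only [hW] at hk
  rw [← Finset.mul_sum] at hk
  linarith

theorem Lop_G {Λ : ℝ} {h G : ℝ × ℝ → M2} (hg : GoodB Λ h G) (p : ℝ × ℝ) (i j : Fin 2) :
    Lop h G (fun q => G q i j) p = ∑ k, ∑ l, (G p)⁻¹ k l *
      gip h (fun q => G q i k) (fun q => G q l j) p - 2 * Λ * G p i j := by
  have hv := Fibre_volpos hg p
  have hfe := fun k => fibre_eq hg p k j
  -- the divergence form
  have hGi : ∀ q l, ∑ k, G q i k * (G q)⁻¹ k l = (1 : M2) i l := by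
    intro q l
    have h2 : G q * (G q)⁻¹ = 1 :=
      Matrix.mul_nonsing_inv _ (isUnit_iff_ne_zero.2 (hg.posG q).det_pos.ne')
    have h3 := congrFun (congrFun h2 i) l
    rw [Matrix.mul_apply] at h3
    exact h3
  have hfun : ∀ a, (fun q => vol h G q * ∑ b, (h q)⁻¹ a b * dd b (fun r => G r i j) q) =
      fun q => G q i 0 * (vol h G q * ∑ b, ∑ l, (h q)⁻¹ a b * (G q)⁻¹ 0 l *
          dd b (fun r => G r l j) q) +
        G q i 1 * (vol h G q * ∑ b, ∑ l, (h q)⁻¹ a b * (G q)⁻¹ 1 l *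
          dd b (fun r => G r l j) q) := by
    intro a
    funext q
    have e0 := hGi q 0
    have e1 := hGi q 1
    simp only [Fin.sum_univ_two] at e0 e1 ⊢
    have e2 : G q i 0 * (vol h G q * ((h q)⁻¹ a 0 * (G q)⁻¹ 0 0 * dd 0 (fun r => G r 0 j) q +
        (h q)⁻¹ a 0 * (G q)⁻¹ 0 1 * dd 0 (fun r => G r 1 j) q +
        ((h q)⁻¹ a 1 * (G q)⁻¹ 0 0 * dd 1 (fun r => G r 0 j) q +
        (h q)⁻¹ a 1 * (G q)⁻¹ 0 1 * dd 1 (fun r => G r 1 j) q))) +
        G q i 1 * (vol h G q * ((h q)⁻¹ a 0 * (G q)⁻¹ 1 0 * dd 0 (fun r => G r 0 j) q +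
        (h q)⁻¹ a 0 * (G q)⁻¹ 1 1 * dd 0 (fun r => G r 1 j) q +
        ((h q)⁻¹ a 1 * (G q)⁻¹ 1 0 * dd 1 (fun r => G r 0 j) q +
        (h q)⁻¹ a 1 * (G q)⁻¹ 1 1 * dd 1 (fun r => G r 1 j) q))) =
        vol h G q * ((h q)⁻¹ a 0 * ((G q i 0 * (G q)⁻¹ 0 0 + G q i 1 * (G q)⁻¹ 1 0) *
          dd 0 (fun r => G r 0 j) q + (G q i 0 * (G q)⁻¹ 0 1 + G q i 1 * (G q)⁻¹ 1 1) *
          dd 0 (fun r => G r 1 j) q) +
        (h q)⁻¹ a 1 * ((G q i 0 * (G q)⁻¹ 0 0 + G q i 1 * (G q)⁻¹ 1 0) *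
          dd 1 (fun r => G r 0 j) q + (G q i 0 * (G q)⁻¹ 0 1 + G q i 1 * (G q)⁻¹ 1 1) *
          dd 1 (fun r => G r 1 j) q)) := by
      ring
    have e3 := fun b => Fibre_one (fun l => dd b (fun r => G r l j) q) i
    rw [e2, e0, e1, ← e3 0, ← e3 1]
  have hdd : ∀ a, dd a (fun q => vol h G q * ∑ b, (h q)⁻¹ a b * dd b (fun r => G r i j) q) p =
      ∑ k, (dd a (fun r => G r i k) p * (vol h G p * ∑ b, ∑ l, (h p)⁻¹ a b * (G p)⁻¹ k l *
          dd b (fun r => G r l j) p) +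
        G p i k * dd a (fun q => vol h G q * ∑ b, ∑ l, (h q)⁻¹ a b * (G q)⁻¹ k l *
          dd b (fun r => G r l j) q) p) := by
    intro a
    rw [hfun a, Fibre_add ((hg.smG i 0).mul (Fibre_smW hg a 0 j))
      ((hg.smG i 1).mul (Fibre_smW hg a 1 j)), Fibre_mul (hg.smG i 0) (Fibre_smW hg a 0 j),
      Fibre_mul (hg.smG i 1) (Fibre_smW hg a 1 j)]
    symm
    apply Fin.sum_univ_two
  have hS : ∑ a, dd a (fun q => vol h G q * ∑ b, (h q)⁻¹ a b * dd b (fun r => G r i j) q) p =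
      vol h G p * (∑ k, ∑ l, (G p)⁻¹ k l * gip h (fun q => G q i k) (fun q => G q l j) p -
        2 * Λ * G p i j) := by
    simp only [hdd, Finset.sum_add_distrib]
    have h1 : ∑ a, ∑ k, G p i k * dd a (fun q => vol h G q * ∑ b, ∑ l, (h q)⁻¹ a b *
        (G q)⁻¹ k l * dd b (fun r => G r l j) q) p = -2 * Λ * vol h G p * G p i j := by
      rw [Finset.sum_comm]
      have h2 : ∀ k, ∑ a, G p i k * dd a (fun q => vol h G q * ∑ b, ∑ l, (h q)⁻¹ a b *
          (G q)⁻¹ k l * dd b (fun r => G r l j) q) p =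
          G p i k * (-2 * Λ * vol h G p * (1 : M2) k j) := by
        intro k
        rw [← Finset.mul_sum, hfe k]
      simp only [h2]
      have h3 := Fibre_onr (fun k => G p i k) j
      rw [← h3, Fin.sum_univ_two]
      ring
    rw [h1]
    unfold gip
    simp only [Fin.sum_univ_two]
    ring
  unfold Lop
  rw [hS]
  field_simp

end Pool.Agent.T2S4
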