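import Pool.Agent.T2S4.Defs

/-!
# Commuting frames

Definitions (nothing to prove here). `X 0, ..., X 3` are vector fields on an open subset `O` of a
normed space which commute; `γ` is a symmetric matrix valued function. `chrV`, `riemV`, `ricV` are
the formulas for the Christoffel symbols, the curvature and the Ricci tensor, with the derivatives
`ld (X i)` along the fields in place of the partial derivatives. (The fields need not be linearly
independent: on the orbit space `ℝ × ℝ` the fields `X 2, X 3` will be `0`.)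

`Chg O X X' P` is a change of commuting frames: `X' j = ∑ i, P i j X i`.
-/

set_option autoImplicit false

namespace Pool.Agent.T2S4

open Matrix
open scoped ContDiff

/-- The derivative of `f` along the vector field `X`. -/
noncomputable def ld {E : Type} [NormedAddCommGroup E] [NormedSpace ℝ E] (X : E → E) (f : E → ℝ)
    (x : E) : ℝ := fderiv ℝ f x (X x)

/-- Christoffel symbols in a commuting frame. -/
noncomputable def chrV {E : Type} [NormedAddCommGroup E] [NormedSpace ℝ E] (X : Fin 4 → E → E)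
    (γ : E → M4) (k i j : Fin 4) (x : E) : ℝ :=
  1 / 2 * ∑ l, (γ x)⁻¹ k l * (ld (X i) (fun y => γ y l j) x + ld (X j) (fun y => γ y l i) x -
    ld (X l) (fun y => γ y i j) x)

/-- The curvature in a commuting frame. -/
noncomputable def riemV {E : Type} [NormedAddCommGroup E] [NormedSpace ℝ E] (X : Fin 4 → E → E)
    (γ : E → M4) (l k i j : Fin 4) (x : E) : ℝ :=
  ld (X i) (chrV X γ l j k) x - ld (X j) (chrV X γ l i k) x +
    ∑ m, (chrV X γ l i m x * chrV X γ m j k x - chrV X γ l j m x * chrV X γ m i k x)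

/-- The Ricci tensor in a commuting frame. -/
noncomputable def ricV {E : Type} [NormedAddCommGroup E] [NormedSpace ℝ E] (X : Fin 4 → E → E)
    (γ : E → M4) (k j : Fin 4) (x : E) : ℝ := ∑ i, riemV X γ i k i j x

/-- Constant curvature `c` at the point `x`, in a commuting frame. -/
def CC {E : Type} [NormedAddCommGroup E] [NormedSpace ℝ E] (c : ℝ) (X : Fin 4 → E → E)
    (γ : E → M4) (x : E) : Prop :=
  ∀ l k i j, riemV X γ l k i j x = c * ((1 : M4) l i * γ x k j - (1 : M4) l j * γ x k i)

/-- The Einstein equation at the point `x`, in a commuting frame. -/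
def EinV {E : Type} [NormedAddCommGroup E] [NormedSpace ℝ E] (Λ : ℝ) (X : Fin 4 → E → E)
    (γ : E → M4) (x : E) : Prop :=
  ∀ k j, ricV X γ k j x = Λ * γ x k j

/-- Commuting smooth fields and a smooth nondegenerate symmetric matrix function on the open set
`O`. -/
structure Fr {E : Type} [NormedAddCommGroup E] [NormedSpace ℝ E] (O : Set E)
    (X : Fin 4 → E → E) (γ : E → M4) : Prop where
  isOpen : IsOpen O
  smX : ∀ i, ContDiffOn ℝ ∞ (X i) O
  smg : ∀ i j, ContDiffOn ℝ ∞ (fun x => γ x i j) O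
  sym : ∀ x ∈ O, (γ x)ᵀ = γ x
  det : ∀ x ∈ O, (γ x).det ≠ 0
  comm : ∀ i j, ∀ x ∈ O, fderiv ℝ (X j) x (X i x) = fderiv ℝ (X i) x (X j x)

/-- A change of commuting frames. -/
structure Chg {E : Type} [NormedAddCommGroup E] [NormedSpace ℝ E] (O : Set E)
    (X X' : Fin 4 → E → E) (P : E → M4) : Prop where
  smP : ∀ i j, ContDiffOn ℝ ∞ (fun x => P x i j) O
  det : ∀ x ∈ O, (P x).det ≠ 0
  rel : ∀ x ∈ O, ∀ j, X' j x = ∑ i, P x i j • X i x
  closed : ∀ x ∈ O, ∀ k i j, ld (X' i) (fun y => P y k j) x = ld (X' j) (fun y => P y k i) x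

/-- The coordinate fields of a chart. -/
def e4 (i : Fin 4) : P4 → P4 := fun _ => Pi.single i 1

theorem chr_eq (g : P4 → M4) (k i j : Fin 4) : chr g k i j = chrV e4 g k i j := rfl

theorem riem_eq (g : P4 → M4) (l k i j : Fin 4) : riem g l k i j = riemV e4 g l k i j := rfl

theorem ric_eq (g : P4 → M4) (k j : Fin 4) : ric g k j = ricV e4 g k j := rfl

/-- The fields `∂/∂s, ∂/∂t, 0, 0` on the orbit space `ℝ × ℝ`. -/
def bas : Fin 4 → ℝ × ℝ → ℝ × ℝ := ![fun _ => (1, 0), fun _ => (0, 1), fun _ => 0, fun _ => 0]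

/-- The two basis vectors of the orbit space. -/
def bv : Fin 2 → ℝ × ℝ := ![(1, 0), (0, 1)]

/-- Partial derivatives on the orbit space. -/
noncomputable def dd (a : Fin 2) (f : ℝ × ℝ → ℝ) (p : ℝ × ℝ) : ℝ := fderiv ℝ f p (bv a)

/-- Block diagonal matrices. -/
def blk (h G : Matrix (Fin 2) (Fin 2) ℝ) : M4 :=
  !![h 0 0, h 0 1, 0, 0; h 1 0, h 1 1, 0, 0; 0, 0, G 0 0, G 0 1; 0, 0, G 1 0, G 1 1]

/-- The reduced Einstein equations: a smooth positive definite matrix function `γ` on the orbit
space which satisfies `Ric = Λ γ` (metrics on `ℝ × ℝ × T²` which depend only on the point of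
`ℝ × ℝ`). -/
structure Good (Λ : ℝ) (γ : ℝ × ℝ → M4) : Prop where
  sm : ∀ i j, ContDiff ℝ ∞ (fun p => γ p i j)
  pos : ∀ p, (γ p).PosDef
  ein : ∀ p, EinV Λ bas γ p

end Pool.Agent.T2S4
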