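import Pool.Agent.T2S4.Ends

/-!
# The two charts on the orbit space

PACKAGE. Prove the theorems (helper lemmas allowed, private or prefixed by `Glue_`).

With `a = e^s, b = e^t, S = a² + b²`: `inv4 (sl p) = sl (inv2 p)` (`a / S = exp (s - log S)`),
`jac (sl p) * Fm (sl p) = Fm (sl (inv2 p)) * Qm p` (computation), so `gt_glue`. `Qm p * Qm p = 1`.
`inv2 (inv2 p) = p`: `exp (2 s') + exp (2 t') = 1 / S` for `(s', t') = inv2 (s, t)`.
`dd_inv2`: chain rule; the partial derivatives of the components of `inv2` are the entries of `Qm`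
(`∂ inv2_b / ∂ p_a = Qm p b a`).
The entries with fibre indices do not change, so `Bf, sg, ph` are invariant; `KK` is invariant:
`(gt g p)⁻¹ = Q (gt g' q)⁻¹ Qᵀ` (`Q⁻¹ = Q`), and the two gradients transform by `Qᵀ` (`dd_inv2`), `Q² = 1`.
-/

set_option autoImplicit false

namespace Pool.Agent.T2S4

open Matrix Filter Topology
open scoped ContDiff

private theorem Glue_pos (p : ℝ × ℝ) : 0 < Real.exp (2 * p.1) + Real.exp (2 * p.2) := by
  positivity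

private theorem Glue_exp (t : ℝ) : Real.exp (2 * t) = Real.exp t ^ 2 := by
  rw [two_mul, Real.exp_add, sq]

private theorem Glue_nsq (p : ℝ × ℝ) : nsq (sl p) = Real.exp (2 * p.1) + Real.exp (2 * p.2) := by
  rw [Glue_exp, Glue_exp]
  simp [nsq, sl, Fin.sum_univ_four]

private theorem Glue_fst (p : ℝ × ℝ) : Real.exp (inv2 p).1 =
    Real.exp p.1 / (Real.exp (2 * p.1) + Real.exp (2 * p.2)) := by
  unfold inv2
  rw [Real.exp_sub, Real.exp_log (Glue_pos p)]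

private theorem Glue_snd (p : ℝ × ℝ) : Real.exp (inv2 p).2 =
    Real.exp p.2 / (Real.exp (2 * p.1) + Real.exp (2 * p.2)) := by
  unfold inv2
  rw [Real.exp_sub, Real.exp_log (Glue_pos p)]

theorem inv4_sl (p : ℝ × ℝ) : inv4 (sl p) = sl (inv2 p) := by
  have h1 := Glue_fst p
  have h2 := Glue_snd p
  ext i
  unfold inv4
  rw [Glue_nsq]
  fin_cases i
  · simp [sl, h1]
  · simp [sl]
  · simp [sl, h2]
  · simp [sl]

private theorem Glue_jac (p : ℝ × ℝ) :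
    jac (sl p) * Fm (sl p) = Fm (sl (inv2 p)) * Qm p := by
  have h1 := Glue_fst p
  have h2 := Glue_snd p
  have h3 := Glue_pos p
  have hS : Real.exp p.1 ^ 2 + Real.exp p.2 ^ 2 ≠ 0 := by positivity
  ext i j
  rw [Matrix.mul_apply, Matrix.mul_apply, Fin.sum_univ_four, Fin.sum_univ_four]
  unfold jac
  rw [Glue_nsq]
  rw [Glue_exp, Glue_exp] at h1 h2
  simp only [Matrix.one_apply]
  fin_cases i <;> fin_cases j <;>
    simp [Fm, fr4, sl, Qm, h1, h2, Glue_exp] <;> field_simp <;> ring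

theorem gt_glue {g g' : P4 → M4} (h : SphereMetric g g') (p : ℝ × ℝ) :
    gt g p = (Qm p)ᵀ * gt g' (inv2 p) * Qm p := by
  have h0 : sl p ≠ 0 := by
    intro h1
    have h2 := congrFun h1 0
    simp [sl] at h2
  unfold gt
  rw [h.glue _ h0, inv4_sl]
  have h3 : (Fm (sl p))ᵀ * ((jac (sl p))ᵀ * g' (sl (inv2 p)) * jac (sl p)) * Fm (sl p) =
      (jac (sl p) * Fm (sl p))ᵀ * g' (sl (inv2 p)) * (jac (sl p) * Fm (sl p)) := by
    rw [Matrix.transpose_mul]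
    simp only [Matrix.mul_assoc]
  rw [h3, Glue_jac, Matrix.transpose_mul]
  simp only [Matrix.mul_assoc]

theorem Qm_sq (p : ℝ × ℝ) : Qm p * Qm p = 1 := by
  have h3 := (Glue_pos p).ne'
  ext i j
  rw [Matrix.mul_apply, Fin.sum_univ_four]
  fin_cases i <;> fin_cases j <;> simp [Qm] <;> field_simp <;> ring

private theorem Glue_inv (p : ℝ × ℝ) : Real.exp (2 * (inv2 p).1) + Real.exp (2 * (inv2 p).2) =
    (Real.exp (2 * p.1) + Real.exp (2 * p.2))⁻¹ := by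
  have h3 := (Glue_pos p).ne'
  rw [Glue_exp (inv2 p).1, Glue_exp (inv2 p).2, Glue_fst, Glue_snd]
  rw [Glue_exp, Glue_exp] at h3 ⊢
  field_simp

theorem inv2_inv2 (p : ℝ × ℝ) : inv2 (inv2 p) = p := by
  have h1 : inv2 (inv2 p) =
      ((inv2 p).1 - Real.log (Real.exp (2 * (inv2 p).1) + Real.exp (2 * (inv2 p).2)),
        (inv2 p).2 - Real.log (Real.exp (2 * (inv2 p).1) + Real.exp (2 * (inv2 p).2))) := rfl
  rw [h1, Glue_inv, Real.log_inv]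
  unfold inv2
  simp

theorem exp_inv2 (p : ℝ × ℝ) : Real.exp (2 * (inv2 p).1) + Real.exp (2 * (inv2 p).2) =
    (Real.exp (2 * p.1) + Real.exp (2 * p.2))⁻¹ := Glue_inv p

theorem inv2_smooth : ContDiff ℝ ∞ inv2 := by
  have h1 : ContDiff ℝ ∞ (fun p : ℝ × ℝ => Real.exp (2 * p.1) + Real.exp (2 * p.2)) :=
    ((contDiff_const.mul contDiff_fst).exp).add ((contDiff_const.mul contDiff_snd).exp)
  have h2 : ContDiff ℝ ∞ (fun p : ℝ × ℝ => Real.log (Real.exp (2 * p.1) + Real.exp (2 * p.2))) :=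
    h1.log fun p => (Glue_pos p).ne'
  exact (contDiff_fst.sub h2).prodMk (contDiff_snd.sub h2)

private theorem Glue_fderiv (p : ℝ × ℝ) : HasFDerivAt inv2
    ((ContinuousLinearMap.fst ℝ ℝ ℝ - (Real.exp (2 * p.1) + Real.exp (2 * p.2))⁻¹ •
      (Real.exp (2 * p.1) • (2 : ℝ) • ContinuousLinearMap.fst ℝ ℝ ℝ +
        Real.exp (2 * p.2) • (2 : ℝ) • ContinuousLinearMap.snd ℝ ℝ ℝ)).prod
      (ContinuousLinearMap.snd ℝ ℝ ℝ - (Real.exp (2 * p.1) + Real.exp (2 * p.2))⁻¹ •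
      (Real.exp (2 * p.1) • (2 : ℝ) • ContinuousLinearMap.fst ℝ ℝ ℝ +
        Real.exp (2 * p.2) • (2 : ℝ) • ContinuousLinearMap.snd ℝ ℝ ℝ))) p := by
  have h1 : HasFDerivAt (fun q : ℝ × ℝ => Real.exp (2 * q.1))
      (Real.exp (2 * p.1) • (2 : ℝ) • ContinuousLinearMap.fst ℝ ℝ ℝ) p :=
    (hasFDerivAt_fst.const_mul (2 : ℝ)).exp
  have h2 : HasFDerivAt (fun q : ℝ × ℝ => Real.exp (2 * q.2))
      (Real.exp (2 * p.2) • (2 : ℝ) • ContinuousLinearMap.snd ℝ ℝ ℝ) p :=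
    (hasFDerivAt_snd.const_mul (2 : ℝ)).exp
  have h3 := (h1.add h2).log (Glue_pos p).ne'
  exact (hasFDerivAt_fst.sub h3).prodMk (hasFDerivAt_snd.sub h3)

theorem dd_inv2 {f : ℝ × ℝ → ℝ} (p : ℝ × ℝ) (hf : DifferentiableAt ℝ f (inv2 p)) (a : Fin 2) :
    dd a (fun q => f (inv2 q)) p = ∑ b, Qm p (emb b) (emb a) * dd b f (inv2 p) := by
  have h1 := hf.hasFDerivAt.comp p (Glue_fderiv p)
  have h2 : fderiv ℝ (fun q => f (inv2 q)) p = _ := h1.fderiv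
  have h3 := (Glue_pos p).ne'
  have key : ∀ (c d : ℝ), fderiv ℝ f (inv2 p) (c, d) =
      c * fderiv ℝ f (inv2 p) (1, 0) + d * fderiv ℝ f (inv2 p) (0, 1) := by
    intro c d
    have h4 : ((c, d) : ℝ × ℝ) = c • ((1, 0) : ℝ × ℝ) + d • ((0, 1) : ℝ × ℝ) := by
      ext <;> simp
    rw [h4, map_add, map_smul, map_smul]
    rfl
  unfold dd
  rw [h2, ContinuousLinearMap.comp_apply, ContinuousLinearMap.prod_apply, key, Fin.sum_univ_two]
  fin_cases a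
  · simp [bv, emb, Qm]
    field_simp
    ring
  · simp [bv, emb, Qm]
    field_simp
    ring

/-- The entries with fibre indices. -/
private theorem Glue_ent {g g' : P4 → M4} (h : SphereMetric g g') (p : ℝ × ℝ) (i j : Fin 2) :
    gt g p (fib i) (fib j) = gt g' (inv2 p) (fib i) (fib j) := by
  rw [gt_glue h p]
  rw [Matrix.mul_apply, Fin.sum_univ_four]
  simp only [Matrix.mul_apply, Fin.sum_univ_four, Matrix.transpose_apply]
  fin_cases i <;> fin_cases j <;> simp [fib, Qm]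

private theorem Glue_22 {g g' : P4 → M4} (h : SphereMetric g g') (p : ℝ × ℝ) :
    gt g p 2 2 = gt g' (inv2 p) 2 2 := Glue_ent h p 0 0

private theorem Glue_23 {g g' : P4 → M4} (h : SphereMetric g g') (p : ℝ × ℝ) :
    gt g p 2 3 = gt g' (inv2 p) 2 3 := Glue_ent h p 0 1

private theorem Glue_33 {g g' : P4 → M4} (h : SphereMetric g g') (p : ℝ × ℝ) :
    gt g p 3 3 = gt g' (inv2 p) 3 3 := Glue_ent h p 1 1

theorem Bf_glue {g g' : P4 → M4} (h : SphereMetric g g') (p : ℝ × ℝ) :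
    Bf (gt g) p = Bf (gt g') (inv2 p) := by
  unfold Bf rho2
  rw [Glue_22 h, Glue_23 h, Glue_33 h]

theorem sg_glue {g g' : P4 → M4} (h : SphereMetric g g') (p : ℝ × ℝ) :
    sg (gt g) p = sg (gt g') (inv2 p) := by
  unfold sg rho2
  rw [Glue_22 h, Glue_23 h, Glue_33 h]

theorem ph_glue {g g' : P4 → M4} (h : SphereMetric g g') (p : ℝ × ℝ) :
    ph (gt g) p = ph (gt g') (inv2 p) := by
  unfold ph
  rw [Glue_22 h, Glue_33 h]

/-- The inverse matrix. -/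
private theorem Glue_minv {g g' : P4 → M4} (h : SphereMetric g g') (p : ℝ × ℝ) :
    (gt g p)⁻¹ = Qm p * (gt g' (inv2 p))⁻¹ * (Qm p)ᵀ := by
  have h1 : IsUnit (gt g' (inv2 p)).det := (gt_posDef h.right (inv2 p)).det_pos.ne'.isUnit
  refine Matrix.inv_eq_left_inv ?_
  rw [gt_glue h p]
  have h2 : (Qm p)ᵀ * (Qm p)ᵀ = 1 := by
    rw [← Matrix.transpose_mul, Qm_sq, Matrix.transpose_one]
  calc Qm p * (gt g' (inv2 p))⁻¹ * (Qm p)ᵀ * ((Qm p)ᵀ * gt g' (inv2 p) * Qm p)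
      = Qm p * (gt g' (inv2 p))⁻¹ * ((Qm p)ᵀ * (Qm p)ᵀ) * gt g' (inv2 p) * Qm p := by
        simp only [Matrix.mul_assoc]
    _ = Qm p * ((gt g' (inv2 p))⁻¹ * gt g' (inv2 p)) * Qm p := by
        rw [h2, Matrix.mul_one]
        simp only [Matrix.mul_assoc]
    _ = 1 := by
        rw [Matrix.nonsing_inv_mul _ h1, Matrix.mul_one, Qm_sq]

private theorem Glue_diff {g : P4 → M4} (h : IsMetric g) (i : Fin 4) (p : ℝ × ℝ) :
    DifferentiableAt ℝ (fun q => Real.log (gt g q i i) / 2) p := by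
  have h1 : DifferentiableAt ℝ (fun q => gt g q i i) p :=
    (gt_smooth h i i).differentiable (by simp) p
  have h2 : DifferentiableAt ℝ (fun q => Real.log (gt g q i i)) p :=
    h1.log (gt_posDef h p).diag_pos.ne'
  fun_prop

/-- The linear algebra of the change of coordinates. -/
private theorem Glue_alg (Q N : M4) (u w : Fin 2 → ℝ)
    (hz : ∀ a : Fin 2, Q (emb a) 2 = 0 ∧ Q (emb a) 3 = 0)
    (h00 : Q 0 0 * Q 0 0 + Q 0 1 * Q 1 0 = 1) (h01 : Q 0 0 * Q 0 1 + Q 0 1 * Q 1 1 = 0)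
    (h10 : Q 1 0 * Q 0 0 + Q 1 1 * Q 1 0 = 0) (h11 : Q 1 0 * Q 0 1 + Q 1 1 * Q 1 1 = 1) :
    ∑ a, ∑ b, (Q * N * Qᵀ) (emb a) (emb b) * (∑ c, Q (emb c) (emb a) * u c) *
      (∑ d, Q (emb d) (emb b) * w d) = ∑ a, ∑ b, N (emb a) (emb b) * u a * w b := by
  have z0 : Q 0 2 = 0 := (hz 0).1
  have z1 : Q 0 3 = 0 := (hz 0).2
  have z2 : Q 1 2 = 0 := (hz 1).1
  have z3 : Q 1 3 = 0 := (hz 1).2
  have e0 : emb 0 = 0 := rfl
  have e1 : emb 1 = 1 := rfl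
  simp only [Fin.sum_univ_two, e0, e1, Matrix.mul_apply, Fin.sum_univ_four,
    Matrix.transpose_apply, z0, z1, z2, z3]
  trans
      u 0 * w 0 * ((Q 0 0 * Q 0 0 + Q 0 1 * Q 1 0) * N 0 0 * (Q 0 0 * Q 0 0 + Q 0 1 * Q 1 0) +
        (Q 0 0 * Q 0 0 + Q 0 1 * Q 1 0) * N 0 1 * (Q 0 0 * Q 0 1 + Q 0 1 * Q 1 1) +
        (Q 0 0 * Q 0 1 + Q 0 1 * Q 1 1) * N 1 0 * (Q 0 0 * Q 0 0 + Q 0 1 * Q 1 0) +
        (Q 0 0 * Q 0 1 + Q 0 1 * Q 1 1) * N 1 1 * (Q 0 0 * Q 0 1 + Q 0 1 * Q 1 1)) +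
      u 0 * w 1 * ((Q 0 0 * Q 0 0 + Q 0 1 * Q 1 0) * N 0 0 * (Q 1 0 * Q 0 0 + Q 1 1 * Q 1 0) +
        (Q 0 0 * Q 0 0 + Q 0 1 * Q 1 0) * N 0 1 * (Q 1 0 * Q 0 1 + Q 1 1 * Q 1 1) +
        (Q 0 0 * Q 0 1 + Q 0 1 * Q 1 1) * N 1 0 * (Q 1 0 * Q 0 0 + Q 1 1 * Q 1 0) +
        (Q 0 0 * Q 0 1 + Q 0 1 * Q 1 1) * N 1 1 * (Q 1 0 * Q 0 1 + Q 1 1 * Q 1 1)) +
      u 1 * w 0 * ((Q 1 0 * Q 0 0 + Q 1 1 * Q 1 0) * N 0 0 * (Q 0 0 * Q 0 0 + Q 0 1 * Q 1 0) +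
        (Q 1 0 * Q 0 0 + Q 1 1 * Q 1 0) * N 0 1 * (Q 0 0 * Q 0 1 + Q 0 1 * Q 1 1) +
        (Q 1 0 * Q 0 1 + Q 1 1 * Q 1 1) * N 1 0 * (Q 0 0 * Q 0 0 + Q 0 1 * Q 1 0) +
        (Q 1 0 * Q 0 1 + Q 1 1 * Q 1 1) * N 1 1 * (Q 0 0 * Q 0 1 + Q 0 1 * Q 1 1)) +
      u 1 * w 1 * ((Q 1 0 * Q 0 0 + Q 1 1 * Q 1 0) * N 0 0 * (Q 1 0 * Q 0 0 + Q 1 1 * Q 1 0) +
        (Q 1 0 * Q 0 0 + Q 1 1 * Q 1 0) * N 0 1 * (Q 1 0 * Q 0 1 + Q 1 1 * Q 1 1) +
        (Q 1 0 * Q 0 1 + Q 1 1 * Q 1 1) * N 1 0 * (Q 1 0 * Q 0 0 + Q 1 1 * Q 1 0) +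
        (Q 1 0 * Q 0 1 + Q 1 1 * Q 1 1) * N 1 1 * (Q 1 0 * Q 0 1 + Q 1 1 * Q 1 1))
  · ring
  · rw [h00, h01, h10, h11]
    ring

theorem KK_glue {g g' : P4 → M4} (h : SphereMetric g g') (p : ℝ × ℝ) :
    KK (gt g) p = KK (gt g') (inv2 p) := by
  have f2 : (fun q => Real.log (gt g q 2 2) / 2) =
      fun q => (fun r => Real.log (gt g' r 2 2) / 2) (inv2 q) := by
    funext q
    change Real.log (gt g q 2 2) / 2 = Real.log (gt g' (inv2 q) 2 2) / 2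
    rw [Glue_22 h]
  have f3 : (fun q => Real.log (gt g q 3 3) / 2) =
      fun q => (fun r => Real.log (gt g' r 3 3) / 2) (inv2 q) := by
    funext q
    change Real.log (gt g q 3 3) / 2 = Real.log (gt g' (inv2 q) 3 3) / 2
    rw [Glue_33 h]
  unfold KK
  rw [f2, f3, Glue_minv h p]
  simp only [dd_inv2 (f := fun r => Real.log (gt g' r 2 2) / 2) p
    (Glue_diff h.right 2 (inv2 p)), dd_inv2 (f := fun r => Real.log (gt g' r 3 3) / 2) p
    (Glue_diff h.right 3 (inv2 p))]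
  have hQ := Qm_sq p
  have q (i j : Fin 4) := congrFun (congrFun hQ i) j
  have h00 := q 0 0
  have h01 := q 0 1
  have h10 := q 1 0
  have h11 := q 1 1
  simp only [Matrix.mul_apply, Fin.sum_univ_four] at h00 h01 h10 h11
  have hz : ∀ a : Fin 2, Qm p (emb a) 2 = 0 ∧ Qm p (emb a) 3 = 0 := by
    intro a
    fin_cases a <;> simp [Qm, emb]
  have z0 : Qm p 0 2 = 0 := (hz 0).1
  have z1 : Qm p 0 3 = 0 := (hz 0).2
  have z2 : Qm p 1 2 = 0 := (hz 1).1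
  have z3 : Qm p 1 3 = 0 := (hz 1).2
  rw [Glue_alg (Qm p) _ (fun c => dd c (fun r => Real.log (gt g' r 2 2) / 2) (inv2 p))
    (fun c => dd c (fun r => Real.log (gt g' r 3 3) / 2) (inv2 p)) hz
    (by simpa [z0, z1] using h00) (by simpa [z0, z1] using h01)
    (by simpa [z2, z3] using h10) (by simpa [z2, z3] using h11)]

end Pool.Agent.T2S4
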