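import Pool.Agent.T2S4.BlockDefs

/-!
# Homogeneous harmonic functions of two variables

PACKAGE. Prove the theorem (helper lemmas allowed, private or prefixed by `Harm_`).

`f(z) = ∂_x P - i ∂_y P` is complex differentiable on `ℂ` (Cauchy–Riemann equations from `ΔP = 0`
and the symmetry of the second derivative) and `f(t z) = t^(m-1) f(z)` for `t > 0` (differentiate the
homogeneity of `P`). So the entire functions `f(z)` and `f(1) z^(m-1)` agree on the positive real axis,
hence everywhere (identity theorem `AnalyticOnNhd.eq_of_frequently_eq` or similar). Euler's identity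
`m P = x ∂_x P + y ∂_y P = Re (z f(z))`. So `P = Re (c z^m)` with `c = f(1) / m`.
-/

set_option autoImplicit false

namespace Pool.Agent.T2S4

open Matrix Filter Topology
open scoped ContDiff

private theorem Harm_bv : (bv 0 = ((1 : ℝ), (0 : ℝ))) ∧ (bv 1 = ((0 : ℝ), (1 : ℝ))) := by
  constructor <;> simp [bv]

private theorem Harm_split (L : ℝ × ℝ →L[ℝ] ℝ) (v : ℝ × ℝ) :
    L v = v.1 * L (bv 0) + v.2 * L (bv 1) := by
  have h : v = v.1 • (bv 0 : ℝ × ℝ) + v.2 • (bv 1 : ℝ × ℝ) := by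
    rw [Harm_bv.1, Harm_bv.2]
    ext <;> simp
  conv_lhs => rw [h]
  rw [map_add, map_smul, map_smul, smul_eq_mul, smul_eq_mul]

theorem harm_homog {m : ℕ} (hm : 1 ≤ m) {P : ℝ × ℝ → ℝ} (hP : ContDiff ℝ ∞ P)
    (hh : ∀ (t : ℝ) (x : ℝ × ℝ), P (t • x) = t ^ m * P x)
    (hL : ∀ x, dd 0 (dd 0 P) x + dd 1 (dd 1 P) x = 0) :
    ∃ c : ℂ, ∀ x : ℝ × ℝ, P x = (c * (⟨x.1, x.2⟩ : ℂ) ^ m).re := by
  have hP1 : Differentiable ℝ P := hP.differentiable (by simp)
  have hfd : ContDiff ℝ ∞ (fderiv ℝ P) := hP.fderiv_right (by simp)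
  have hda : ∀ a, ContDiff ℝ ∞ (dd a P) := fun a => hfd.clm_apply contDiff_const
  have hdd : ∀ a, Differentiable ℝ (dd a P) := fun a => (hda a).differentiable (by simp)
  -- symmetry of the second derivative
  have hsym : ∀ x, dd 0 (dd 1 P) x = dd 1 (dd 0 P) x := by
    intro x
    have h1 : ∀ a b, dd a (dd b P) x = fderiv ℝ (fderiv ℝ P) x (bv a) (bv b) := by
      intro a b
      have h2 : HasFDerivAt (fderiv ℝ P) (fderiv ℝ (fderiv ℝ P) x) x :=
        ((hfd.differentiable (by simp)) x).hasFDerivAt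
      have h3 := h2.clm_apply (hasFDerivAt_const (bv b) x)
      have h4 : dd a (dd b P) x = fderiv ℝ (fun y => fderiv ℝ P y (bv b)) x (bv a) := rfl
      rw [h4, h3.fderiv]
      simp
    rw [h1, h1]
    have h8 : minSmoothness ℝ 2 ≤ (∞ : WithTop ℕ∞) := by
      simp only [minSmoothness_of_isRCLikeNormedField]
      exact ENat.LEInfty.out
    exact (hP.contDiffAt.isSymmSndFDerivAt h8).eq _ _
  -- the complex function
  let e : ℂ → ℝ × ℝ := fun z => (z.re, z.im)
  let f : ℂ → ℂ := fun z => (dd 0 P (e z) : ℂ) - Complex.I * (dd 1 P (e z) : ℂ)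
  have he : ∀ z, HasFDerivAt e (Complex.reCLM.prod Complex.imCLM) z := fun z =>
    (Complex.reCLM.prod Complex.imCLM).hasFDerivAt
  have hf : Differentiable ℂ f := by
    intro z
    rw [differentiableAt_complex_iff_differentiableAt_real]
    have h1 : ∀ a, HasFDerivAt (fun z => (dd a P (e z) : ℂ))
        (Complex.ofRealCLM.comp ((fderiv ℝ (dd a P) (e z)).comp
          (Complex.reCLM.prod Complex.imCLM))) z := fun a =>
      Complex.ofRealCLM.hasFDerivAt.comp z (((hdd a) (e z)).hasFDerivAt.comp z (he z))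
    have h2 : HasFDerivAt f _ z := (h1 0).sub ((h1 1).const_mul Complex.I)
    refine ⟨h2.differentiableAt, ?_⟩
    rw [h2.fderiv]
    have h3 := hL (e z)
    have h4 := hsym (e z)
    have h5 : ∀ a b, fderiv ℝ (dd a P) (e z) (bv b) = dd b (dd a P) (e z) := fun a b => rfl
    have h6 : ((0 : ℝ), (1 : ℝ)) = (bv 1 : ℝ × ℝ) := Harm_bv.2.symm
    have h7 : ((1 : ℝ), (0 : ℝ)) = (bv 0 : ℝ × ℝ) := Harm_bv.1.symm
    apply Complex.ext
    · simp [h6, h7, h5]
      linarith
    · simp [h6, h7, h5]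
      linarith
  -- homogeneity of the derivative
  have hhom : ∀ (t : ℝ) (x v : ℝ × ℝ), 0 < t →
      fderiv ℝ P (t • x) v = t ^ (m - 1) * fderiv ℝ P x v := by
    intro t x v ht
    have h1 : HasFDerivAt (fun y : ℝ × ℝ => P (t • y)) ((fderiv ℝ P (t • x)).comp
        (t • ContinuousLinearMap.id ℝ (ℝ × ℝ))) x :=
      (hP1 (t • x)).hasFDerivAt.comp x ((hasFDerivAt_id x).const_smul t)
    have h2 : HasFDerivAt (fun y : ℝ × ℝ => P (t • y)) (t ^ m • fderiv ℝ P x) x := by
      have h3 : (fun y : ℝ × ℝ => P (t • y)) = fun y => t ^ m * P y := funext fun y => hh t y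
      rw [h3]
      exact (hP1 x).hasFDerivAt.const_mul (t ^ m)
    have h3 := congrArg (fun L : ℝ × ℝ →L[ℝ] ℝ => L v) (h1.unique h2)
    simp only [ContinuousLinearMap.comp_apply, _root_.smul_apply,
      ContinuousLinearMap.id_apply, map_smul, smul_eq_mul] at h3
    have h4 : t ^ m = t * t ^ (m - 1) := by
      rw [← pow_succ']
      congr 1
      omega
    rw [h4, mul_assoc] at h3
    exact mul_left_cancel₀ ht.ne' h3
  have hEuler : ∀ x : ℝ × ℝ, (m : ℝ) * P x = x.1 * dd 0 P x + x.2 * dd 1 P x := by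
    intro x
    have h1 : HasDerivAt (fun t : ℝ => P (t • x)) (fderiv ℝ P ((1 : ℝ) • x) ((1 : ℝ) • x)) 1 :=
      (hP1 ((1 : ℝ) • x)).hasFDerivAt.comp_hasDerivAt 1 ((hasDerivAt_id (1 : ℝ)).smul_const x)
    have h2 : HasDerivAt (fun t : ℝ => P (t • x)) ((m : ℝ) * 1 ^ (m - 1) * P x) 1 := by
      have h3 : (fun t : ℝ => P (t • x)) = fun t => t ^ m * P x := funext fun t => hh t x
      rw [h3]
      exact (hasDerivAt_pow m (1 : ℝ)).mul_const (P x)
    have h3 := h1.unique h2
    rw [one_smul, one_pow, mul_one] at h3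
    rw [← h3, Harm_split]
    rfl
  -- identity theorem
  have hkey : f = fun z => f 1 * z ^ (m - 1) := by
    have ha : AnalyticOnNhd ℂ f Set.univ := hf.differentiableOn.analyticOnNhd isOpen_univ
    have hb : AnalyticOnNhd ℂ (fun z : ℂ => f 1 * z ^ (m - 1)) Set.univ := by
      refine DifferentiableOn.analyticOnNhd ?_ isOpen_univ
      fun_prop
    refine ha.eq_of_frequently_eq hb (z₀ := 1) ?_
    have h1 : Tendsto (fun n : ℕ => ((1 + 1 / ((n : ℝ) + 1) : ℝ) : ℂ)) atTop (𝓝[≠] 1) := by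
      rw [tendsto_nhdsWithin_iff]
      constructor
      · have h2 : Tendsto (fun n : ℕ => (1 + 1 / ((n : ℝ) + 1) : ℝ)) atTop (𝓝 (1 + 0)) :=
          tendsto_const_nhds.add tendsto_one_div_add_atTop_nhds_zero_nat
        rw [add_zero] at h2
        have h3 := (Complex.continuous_ofReal.tendsto (1 : ℝ)).comp h2
        rw [Complex.ofReal_one] at h3
        exact h3
      · refine Filter.Eventually.of_forall fun n => ?_
        intro h2
        have h3 : (1 + 1 / ((n : ℝ) + 1) : ℝ) = 1 := by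
          have h5 : (((1 + 1 / ((n : ℝ) + 1) : ℝ) : ℂ)) = ((1 : ℝ) : ℂ) := by
            rw [Complex.ofReal_one]
            exact h2
          exact Complex.ofReal_injective h5
        have h4 : (0 : ℝ) < 1 / ((n : ℝ) + 1) := by positivity
        linarith
    refine h1.frequently (Filter.Frequently.of_forall fun n => ?_)
    set t : ℝ := 1 + 1 / ((n : ℝ) + 1) with ht
    have ht0 : 0 < t := by positivity
    have h2 : e (t : ℂ) = t • e 1 := by
      simp [e]
    have h3 : ∀ a, dd a P (e (t : ℂ)) = t ^ (m - 1) * dd a P (e 1) := fun a => by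
      rw [h2]
      exact hhom t (e 1) (bv a) ht0
    simp only [f]
    rw [h3, h3]
    push_cast
    ring
  refine ⟨f 1 / m, fun x => ?_⟩
  have hm0 : (m : ℝ) ≠ 0 := by
    have : 0 < m := hm
    positivity
  have hz : (⟨x.1, x.2⟩ : ℂ) = ⟨x.1, x.2⟩ := rfl
  set z : ℂ := ⟨x.1, x.2⟩ with hzdef
  have hez : e z = x := rfl
  have h1 : (z * f z).re = x.1 * dd 0 P x + x.2 * dd 1 P x := by
    simp only [f, hez]
    simp [hzdef]
  have h2 : z * f z = f 1 * z ^ m := by
    have h3 : f z = f 1 * z ^ (m - 1) := congrFun hkey z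
    have h4 : z ^ m = z * z ^ (m - 1) := by
      rw [← pow_succ']
      congr 1
      omega
    rw [h3, h4]
    ring
  have h3 : f 1 / (m : ℂ) * z ^ m = ((1 / (m : ℝ) : ℝ) : ℂ) * (z * f z) := by
    rw [h2]
    push_cast
    ring
  rw [h3, Complex.re_ofReal_mul, h1, ← hEuler]
  field_simp

end Pool.Agent.T2S4
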