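import Pool.Agent.T2S4.Frame

/-!
# The Levi-Civita connection in a commuting frame

PACKAGE. Prove the theorems (helper lemmas allowed, private or prefixed by `LC_`).

* `chrV_symm`: by symmetry of `γ` on the open set `O` (`Filter.EventuallyEq.fderiv_eq`), the
  expression is symmetric in `i, j`.
* `chrV_metric`: `∑ m, γ_{mj} Γ^m_{li} = 1/2 (X_l γ_{ji} + X_i γ_{jl} - X_j γ_{li})` (multiply by the
  inverse matrix, `γ` symmetric); add the same with `i, j` exchanged.
* `chrV_unique`: the usual permutation argument: put `C_{j,li} = ∑ m, γ_{mj} C^m_{li}`, symmetric in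
  `l, i`; the metric identity says `X_l γ_{ij} = C_{j,li} + C_{i,lj}`. Hence
  `2 C_{j,li} = X_l γ_{ij} + X_i γ_{lj} - X_j γ_{li}`; multiply by the inverse matrix.
* `chrV_trace`: `∑ m, Γ^m_{mi} = 1/2 ∑ k l, (γ⁻¹)_{kl} X_i γ_{kl}` (immediate from the definition and
  symmetry).
* `chrV_smooth`: the Christoffel symbols are smooth on `O` (inverse matrix by `det` and `adjugate`,
  `ContDiffOn.fderiv_of_isOpen`, `ContDiffOn.clm_apply`).
-/

set_option autoImplicit false

namespace Pool.Agent.T2S4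

open Matrix
open scoped ContDiff

variable {E : Type} [NormedAddCommGroup E] [NormedSpace ℝ E]

theorem ld_smooth {O : Set E} (hO : IsOpen O) {X : E → E} (hX : ContDiffOn ℝ ∞ X O) {f : E → ℝ}
    (hf : ContDiffOn ℝ ∞ f O) : ContDiffOn ℝ ∞ (ld X f) O := by
  have h1 : ContDiffOn ℝ ∞ (fderiv ℝ f) O := hf.fderiv_of_isOpen hO (by simp)
  exact h1.clm_apply hX

private theorem LC_det_smooth {O : Set E} {B : E → M4}
    (hs : ∀ i j, ContDiffOn ℝ ∞ (fun x => B x i j) O) : ContDiffOn ℝ ∞ (fun x => (B x).det) O := by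
  simp only [Matrix.det_apply]
  refine ContDiffOn.sum fun σ _ => ?_
  refine ContDiffOn.const_smul _ ?_
  exact contDiffOn_prod fun i _ => hs _ _

theorem inv_smooth {O : Set E} {γ : E → M4} (hs : ∀ i j, ContDiffOn ℝ ∞ (fun x => γ x i j) O)
    (hd : ∀ x ∈ O, (γ x).det ≠ 0) (i j : Fin 4) : ContDiffOn ℝ ∞ (fun x => (γ x)⁻¹ i j) O := by
  have h1 : ContDiffOn ℝ ∞ (fun x => ((γ x).det)⁻¹ * (γ x).adjugate i j) O := by
    refine ((LC_det_smooth hs).inv hd).mul ?_
    simp only [Matrix.adjugate_apply]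
    refine LC_det_smooth fun k l => ?_
    by_cases hk : k = j
    · subst hk
      simp only [Matrix.updateRow_self]
      exact contDiffOn_const
    · simp only [Matrix.updateRow_ne hk]
      exact hs k l
  refine h1.congr fun x _ => ?_
  rw [Matrix.inv_def, Ring.inverse_eq_inv', Matrix.smul_apply, smul_eq_mul]

theorem chrV_smooth {O : Set E} {X : Fin 4 → E → E} {γ : E → M4} (h : Fr O X γ) (k i j : Fin 4) :
    ContDiffOn ℝ ∞ (chrV X γ k i j) O := by
  unfold chrV
  refine contDiffOn_const.mul (ContDiffOn.sum fun l _ => ?_)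
  exact (inv_smooth h.smg h.det k l).mul (((ld_smooth h.isOpen (h.smX i) (h.smg l j)).add
    (ld_smooth h.isOpen (h.smX j) (h.smg l i))).sub
    (ld_smooth h.isOpen (h.smX l) (h.smg i j)))

private theorem LC_apply {O : Set E} {X : Fin 4 → E → E} {γ : E → M4} (h : Fr O X γ) {x : E}
    (hx : x ∈ O) (i j : Fin 4) : γ x i j = γ x j i := by
  have h1 := congrFun (congrFun (h.sym x hx) i) j
  rw [Matrix.transpose_apply] at h1
  exact h1.symm

private theorem LC_ld {O : Set E} {X : Fin 4 → E → E} {γ : E → M4} (h : Fr O X γ) {x : E}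
    (hx : x ∈ O) (l i j : Fin 4) :
    ld (X l) (fun y => γ y i j) x = ld (X l) (fun y => γ y j i) x := by
  have h1 : (fun y => γ y i j) =ᶠ[nhds x] fun y => γ y j i := by
    filter_upwards [h.isOpen.mem_nhds hx] with y hy
    exact LC_apply h hy i j
  unfold ld
  rw [h1.fderiv_eq]

private theorem LC_inv {O : Set E} {X : Fin 4 → E → E} {γ : E → M4} (h : Fr O X γ) {x : E}
    (hx : x ∈ O) (i j : Fin 4) : (γ x)⁻¹ i j = (γ x)⁻¹ j i := by
  have h1 : ((γ x)⁻¹)ᵀ = (γ x)⁻¹ := by
    rw [Matrix.transpose_nonsing_inv, h.sym x hx]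
  have h2 := congrFun (congrFun h1 j) i
  rw [Matrix.transpose_apply] at h2
  exact h2

/-- The Christoffel symbols with lower index. -/
private theorem LC_low {O : Set E} {X : Fin 4 → E → E} {γ : E → M4} (h : Fr O X γ) {x : E}
    (hx : x ∈ O) (k i j : Fin 4) : ∑ m, γ x k m * chrV X γ m i j x =
      1 / 2 * (ld (X i) (fun y => γ y k j) x + ld (X j) (fun y => γ y k i) x -
        ld (X k) (fun y => γ y i j) x) := by
  have hu : IsUnit (γ x).det := isUnit_iff_ne_zero.2 (h.det x hx)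
  have h1 : γ x * (γ x)⁻¹ = 1 := Matrix.mul_nonsing_inv _ hu
  set D : Fin 4 → ℝ := fun l => ld (X i) (fun y => γ y l j) x + ld (X j) (fun y => γ y l i) x -
    ld (X l) (fun y => γ y i j) x with hD
  have h2 : γ x *ᵥ ((γ x)⁻¹ *ᵥ D) = D := by
    rw [Matrix.mulVec_mulVec, h1, Matrix.one_mulVec]
  have h3 := congrFun h2 k
  have h4 : ∑ m, γ x k m * chrV X γ m i j x = 1 / 2 * (γ x *ᵥ ((γ x)⁻¹ *ᵥ D)) k := by
    simp only [Matrix.mulVec, dotProduct, chrV, Finset.mul_sum]
    refine Finset.sum_congr rfl fun m _ => Finset.sum_congr rfl fun l _ => ?_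
    ring
  rw [h4, h3]

theorem chrV_symm {O : Set E} {X : Fin 4 → E → E} {γ : E → M4} (h : Fr O X γ) {x : E} (hx : x ∈ O)
    (k i j : Fin 4) : chrV X γ k i j x = chrV X γ k j i x := by
  unfold chrV
  congr 1
  refine Finset.sum_congr rfl fun l _ => ?_
  rw [LC_ld h hx l i j]
  ring

theorem chrV_metric {O : Set E} {X : Fin 4 → E → E} {γ : E → M4} (h : Fr O X γ) {x : E}
    (hx : x ∈ O) (l i j : Fin 4) : ld (X l) (fun y => γ y i j) x =
      ∑ m, (chrV X γ m l i x * γ x m j + γ x i m * chrV X γ m l j x) := by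
  have h1 := LC_low h hx j l i
  have h2 := LC_low h hx i l j
  rw [Finset.sum_add_distrib, h2]
  have h3 : ∑ m, chrV X γ m l i x * γ x m j = ∑ m, γ x j m * chrV X γ m l i x := by
    refine Finset.sum_congr rfl fun m _ => ?_
    rw [LC_apply h hx m j, mul_comm]
  rw [h3, h1, LC_ld h hx l j i, LC_ld h hx i j l, LC_ld h hx j i l]
  ring

theorem chrV_unique {O : Set E} {X : Fin 4 → E → E} {γ : E → M4} (h : Fr O X γ) {x : E}
    (hx : x ∈ O) (C : Fin 4 → Fin 4 → Fin 4 → ℝ) (hs : ∀ k i j, C k i j = C k j i)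
    (hm : ∀ l i j, ld (X l) (fun y => γ y i j) x = ∑ m, (C m l i * γ x m j + γ x i m * C m l j))
    (k i j : Fin 4) : C k i j = chrV X γ k i j x := by
  have hu : IsUnit (γ x).det := isUnit_iff_ne_zero.2 (h.det x hx)
  have h1 : (γ x)⁻¹ * γ x = 1 := Matrix.nonsing_inv_mul _ hu
  set L : Fin 4 → Fin 4 → Fin 4 → ℝ := fun k i j => ∑ m, γ x k m * C m i j with hL
  have hLs : ∀ k i j, L k i j = L k j i := by
    intro k i j
    simp only [hL]
    refine Finset.sum_congr rfl fun m _ => ?_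
    rw [hs m i j]
  have hm' : ∀ l i j, ld (X l) (fun y => γ y i j) x = L j l i + L i l j := by
    intro l i j
    rw [hm l i j, Finset.sum_add_distrib]
    congr 1
    refine Finset.sum_congr rfl fun m _ => ?_
    rw [LC_apply h hx m j, mul_comm]
  have hL2 : ∀ l, L l i j = 1 / 2 * (ld (X i) (fun y => γ y l j) x +
      ld (X j) (fun y => γ y l i) x - ld (X l) (fun y => γ y i j) x) := by
    intro l
    rw [hm' i l j, hm' j l i, hm' l i j, hLs j i l, hLs i j l, hLs l j i]
    ring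
  have h2 : (γ x)⁻¹ *ᵥ (γ x *ᵥ fun m => C m i j) = fun m => C m i j := by
    rw [Matrix.mulVec_mulVec, h1, Matrix.one_mulVec]
  have h3 := congrFun h2 k
  rw [← h3]
  have h4 : (γ x *ᵥ fun m => C m i j) = fun l => L l i j := rfl
  rw [h4]
  simp only [Matrix.mulVec, dotProduct, chrV, Finset.mul_sum]
  refine Finset.sum_congr rfl fun l _ => ?_
  rw [hL2 l]
  ring

theorem chrV_trace {O : Set E} {X : Fin 4 → E → E} {γ : E → M4} (h : Fr O X γ) {x : E}
    (hx : x ∈ O) (i : Fin 4) : ∑ m, chrV X γ m m i x =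
      1 / 2 * ∑ k, ∑ l, (γ x)⁻¹ k l * ld (X i) (fun y => γ y k l) x := by
  unfold chrV
  rw [← Finset.mul_sum]
  congr 1
  have h1 : ∑ m, ∑ l, (γ x)⁻¹ m l * ld (X m) (fun y => γ y l i) x =
      ∑ m, ∑ l, (γ x)⁻¹ m l * ld (X l) (fun y => γ y m i) x := by
    rw [Finset.sum_comm]
    refine Finset.sum_congr rfl fun m _ => Finset.sum_congr rfl fun l _ => ?_
    rw [LC_inv h hx l m]
  have h2 : ∀ m l : Fin 4, (γ x)⁻¹ m l * (ld (X m) (fun y => γ y l i) x +
      ld (X i) (fun y => γ y l m) x - ld (X l) (fun y => γ y m i) x) =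
      ((γ x)⁻¹ m l * ld (X m) (fun y => γ y l i) x -
      (γ x)⁻¹ m l * ld (X l) (fun y => γ y m i) x) +
      (γ x)⁻¹ m l * ld (X i) (fun y => γ y m l) x := by
    intro m l
    rw [LC_ld h hx i l m]
    ring
  simp only [h2, Finset.sum_add_distrib, Finset.sum_sub_distrib]
  rw [h1, sub_self, zero_add]

end Pool.Agent.T2S4
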