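import Pool.Agent.T2S4.UCDefs

/-!
# Normal form of an elliptic equation at a point

PACKAGE. Prove the theorem (helper lemmas allowed, private or prefixed by `LinCh_`).

Let `A p = L Lᵀ` with `L` lower triangular (Cholesky: `L_00 = √A_00`, `L_10 = A_10 / L_00`,
`L_11 = √(A_11 - L_10²)`), `A'(y) = L⁻¹ A(p + L y) L⁻ᵀ`, `v(y) = u(p + L y)`. Chain rule:
`∇v = Lᵀ (∇u)(p + L y)`, so `A' ∇v = L⁻¹ (A ∇u)(p + L y)` and
`div (A' ∇v) = ∑ i k l, (L⁻¹)_ik L_li ∂_l (A ∇u)_k = ∑ k, ∂_k (A ∇u)_k = 0`.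
-/

set_option autoImplicit false

namespace Pool.Agent.T2S4

open Matrix Filter Topology MeasureTheory
open scoped ContDiff Real

private theorem dd_comp {f : ℝ × ℝ → ℝ} (hf : Differentiable ℝ f) (L : (ℝ × ℝ) ≃L[ℝ] (ℝ × ℝ))
    (p y : ℝ × ℝ) (j : Fin 2) :
    dd j (fun y => f (p + L y)) y = fderiv ℝ f (p + L y) (L (bv j)) := by
  have h1 : HasFDerivAt (fun y => p + L y) (L : (ℝ × ℝ) →L[ℝ] (ℝ × ℝ)) y :=
    (L : (ℝ × ℝ) →L[ℝ] (ℝ × ℝ)).hasFDerivAt.const_add p
  have h2 := (hf (p + L y)).hasFDerivAt.comp y h1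
  have h3 : HasFDerivAt (fun y => f (p + L y))
      ((fderiv ℝ f (p + L y)).comp (L : (ℝ × ℝ) →L[ℝ] (ℝ × ℝ))) y := h2
  rw [dd, h3.fderiv]
  rfl

/-- The linear map with a lower triangular matrix. -/
private noncomputable def tri (a b c : ℝ) (ha : a ≠ 0) (hc : c ≠ 0) :
    (ℝ × ℝ) ≃ₗ[ℝ] (ℝ × ℝ) where
  toFun x := (a * x.1, b * x.1 + c * x.2)
  invFun x := (x.1 / a, (x.2 - b * (x.1 / a)) / c)
  map_add' x y := by
    ext
    · simp only [Prod.fst_add]
      ring
    · simp only [Prod.fst_add, Prod.snd_add]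
      ring
  map_smul' t x := by
    ext
    · simp only [Prod.smul_fst, smul_eq_mul, RingHom.id_apply]
      ring
    · simp only [Prod.smul_fst, Prod.smul_snd, smul_eq_mul, RingHom.id_apply]
      ring
  left_inv x := by
    ext
    · simp only
      field_simp
    · simp only
      field_simp
      ring
  right_inv x := by
    ext
    · simp only
      field_simp
    · simp only
      field_simp
      ring

private noncomputable def triL (a b c : ℝ) (ha : a ≠ 0) (hc : c ≠ 0) :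
    (ℝ × ℝ) ≃L[ℝ] (ℝ × ℝ) := (tri a b c ha hc).toContinuousLinearEquiv

private theorem triL_apply (a b c : ℝ) (ha : a ≠ 0) (hc : c ≠ 0) (x : ℝ × ℝ) :
    triL a b c ha hc x = (a * x.1, b * x.1 + c * x.2) := rfl

private theorem bv0 : bv 0 = ((1, 0) : ℝ × ℝ) := rfl

private theorem bv1 : bv 1 = ((0, 1) : ℝ × ℝ) := rfl

private theorem dd_tri0 {f : ℝ × ℝ → ℝ} (hf : Differentiable ℝ f) {a b c : ℝ} (ha : a ≠ 0)
    (hc : c ≠ 0) (p y : ℝ × ℝ) : dd 0 (fun y => f (p + triL a b c ha hc y)) y =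
      a * dd 0 f (p + triL a b c ha hc y) + b * dd 1 f (p + triL a b c ha hc y) := by
  rw [dd_comp hf]
  have h1 : triL a b c ha hc (bv 0) = a • bv 0 + b • bv 1 := by
    rw [triL_apply, bv0, bv1]
    simp
  rw [h1, map_add, map_smul, map_smul]
  rfl

private theorem dd_tri1 {f : ℝ × ℝ → ℝ} (hf : Differentiable ℝ f) {a b c : ℝ} (ha : a ≠ 0)
    (hc : c ≠ 0) (p y : ℝ × ℝ) : dd 1 (fun y => f (p + triL a b c ha hc y)) y =
      c * dd 1 f (p + triL a b c ha hc y) := by
  rw [dd_comp hf]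
  have h1 : triL a b c ha hc (bv 1) = c • bv 1 := by
    rw [triL_apply, bv1]
    simp
  rw [h1, map_smul]
  rfl

theorem exists_normal {A : ℝ × ℝ → M2} {u : ℝ × ℝ → ℝ}
    (hA : ∀ i j, ContDiff ℝ ∞ (fun x => A x i j)) (hp : ∀ x, (A x).PosDef)
    (hu : ContDiff ℝ ∞ u) (he : ∀ x, ∑ i, dd i (fun y => ∑ j, A y i j * dd j u y) x = 0)
    (p : ℝ × ℝ) : ∃ (L : (ℝ × ℝ) ≃L[ℝ] (ℝ × ℝ)) (A' : ℝ × ℝ → M2),
      UCd A' (fun y => u (p + L y)) := by
  have h00 : 0 < A p 0 0 := (hp p).diag_pos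
  have hsym : A p 1 0 = A p 0 1 := by
    have h := (hp p).isHermitian.apply 0 1
    simpa using h
  have hdet : 0 < A p 0 0 * A p 1 1 - A p 0 1 * A p 0 1 := by
    have h := (hp p).det_pos
    rw [Matrix.det_fin_two, hsym] at h
    exact h
  obtain ⟨a, ha0, haa⟩ : ∃ a : ℝ, 0 < a ∧ a * a = A p 0 0 :=
    ⟨√(A p 0 0), Real.sqrt_pos.2 h00, Real.mul_self_sqrt h00.le⟩
  obtain ⟨b, hb⟩ : ∃ b : ℝ, a * b = A p 0 1 := ⟨A p 0 1 / a, by field_simp⟩
  have hc2 : 0 < A p 1 1 - b * b := by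
    have h1 : 0 < (a * a) * (A p 1 1 - b * b) := by
      have h2 : (a * a) * (A p 1 1 - b * b) = A p 0 0 * A p 1 1 - (a * b) * (a * b) := by
        rw [← haa]
        ring
      rw [h2, hb]
      exact hdet
    exact (mul_pos_iff_of_pos_left (by positivity)).1 h1
  obtain ⟨c, hc0, hcc⟩ : ∃ c : ℝ, 0 < c ∧ c * c = A p 1 1 - b * b :=
    ⟨√(A p 1 1 - b * b), Real.sqrt_pos.2 hc2, Real.mul_self_sqrt hc2.le⟩
  have ha : a ≠ 0 := ha0.ne'
  have hc : c ≠ 0 := hc0.ne'
  let M : M2 := !![a, 0; b, c]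
  let B : M2 := !![1 / a, 0; -b / (a * c), 1 / c]
  have hBM : B * M = 1 := by
    ext i j
    fin_cases i <;> fin_cases j
    · simp [M, B, Matrix.mul_apply, Fin.sum_univ_two, ha]
    · simp [M, B, Matrix.mul_apply, Fin.sum_univ_two]
    · simp [M, B, Matrix.mul_apply, Fin.sum_univ_two]
      field_simp
      ring
    · simp [M, B, Matrix.mul_apply, Fin.sum_univ_two, hc]
  have hMM : M * Mᵀ = A p := by
    ext i j
    fin_cases i <;> fin_cases j
    · simp [M, Matrix.mul_apply, Fin.sum_univ_two, haa]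
    · simp [M, Matrix.mul_apply, Fin.sum_univ_two, hb]
    · simp [M, Matrix.mul_apply, Fin.sum_univ_two, hsym, ← hb]
      ring
    · simp [M, Matrix.mul_apply, Fin.sum_univ_two]
      linarith
  have hud : Differentiable ℝ u := hu.differentiable (by simp)
  have hudd : ∀ j, ContDiff ℝ ∞ (dd j u) := fun j =>
    (hu.fderiv_right (m := ∞) (by simp)).clm_apply contDiff_const
  have hL : ContDiff ℝ ∞ (fun y => p + triL a b c ha hc y) :=
    contDiff_const.add (triL a b c ha hc).contDiff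
  refine ⟨triL a b c ha hc, fun y => B * A (p + triL a b c ha hc y) * Bᵀ, ?_, ?_, ?_, ?_, ?_⟩
  · intro i j
    have h1 : (fun x => (B * A (p + triL a b c ha hc x) * Bᵀ) i j) = fun x =>
        ∑ l, (∑ k, B i k * A (p + triL a b c ha hc x) k l) * B j l := by
      funext x
      rw [Matrix.mul_apply]
      refine Finset.sum_congr rfl fun l _ => ?_
      rw [Matrix.mul_apply, Matrix.transpose_apply]
    rw [h1]
    refine ContDiff.sum fun l _ => ContDiff.mul (ContDiff.sum fun k _ => ?_) contDiff_const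
    exact contDiff_const.mul ((hA k l).comp hL)
  · intro x
    have h1 : B * A (p + triL a b c ha hc x) * Bᵀ = B * A (p + triL a b c ha hc x) * Bᴴ := by
      rw [Matrix.conjTranspose_eq_transpose_of_trivial]
    rw [h1]
    refine (hp _).mul_mul_conjTranspose_same ?_
    intro v w hvw
    have h2 := congrArg (fun t => t ᵥ* M) hvw
    simpa [Matrix.vecMul_vecMul, hBM] using h2
  · change B * A (p + triL a b c ha hc 0) * Bᵀ = 1
    rw [map_zero, add_zero, ← hMM]
    have h1 : B * (M * Mᵀ) * Bᵀ = (B * M) * (B * M)ᵀ := by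
      rw [Matrix.transpose_mul]
      simp only [Matrix.mul_assoc]
    rw [h1, hBM, Matrix.transpose_one, Matrix.mul_one]
  · exact hu.comp hL
  · intro x
    set F : Fin 2 → ℝ × ℝ → ℝ := fun i y => ∑ j, A y i j * dd j u y with hF
    have hFd : ∀ i, Differentiable ℝ (F i) := fun i =>
      (ContDiff.sum fun j _ => (hA i j).mul (hudd j)).differentiable (n := ∞) (by simp)
    have hF' : ∀ i y, F i y = A y i 0 * dd 0 u y + A y i 1 * dd 1 u y := fun i y => by
      rw [hF]
      beta_reduce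
      rw [Fin.sum_univ_two]
    have e0 : (fun y => ∑ j, (B * A (p + triL a b c ha hc y) * Bᵀ) 0 j *
        dd j (fun y => u (p + triL a b c ha hc y)) y) =
        fun y => (1 / a) * F 0 (p + triL a b c ha hc y) := by
      funext y
      rw [Fin.sum_univ_two, dd_tri0 hud, dd_tri1 hud, hF']
      simp only [Matrix.mul_apply, Fin.sum_univ_two, Matrix.transpose_apply, B]
      simp
      field_simp
      ring
    have e1 : (fun y => ∑ j, (B * A (p + triL a b c ha hc y) * Bᵀ) 1 j *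
        dd j (fun y => u (p + triL a b c ha hc y)) y) =
        fun y => (-b / (a * c)) * F 0 (p + triL a b c ha hc y) +
          (1 / c) * F 1 (p + triL a b c ha hc y) := by
      funext y
      rw [Fin.sum_univ_two, dd_tri0 hud, dd_tri1 hud, hF', hF']
      simp only [Matrix.mul_apply, Fin.sum_univ_two, Matrix.transpose_apply, B]
      simp
      field_simp
      ring
    rw [Fin.sum_univ_two]
    rw [e0, e1]
    have hFL : ∀ i, Differentiable ℝ fun y => F i (p + triL a b c ha hc y) := fun i =>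
      (hFd i).comp (hL.differentiable (by simp))
    have d0 : dd 0 (fun y => (1 / a) * F 0 (p + triL a b c ha hc y)) x =
        (1 / a) * dd 0 (fun y => F 0 (p + triL a b c ha hc y)) x := by
      unfold dd
      rw [fderiv_const_mul (hFL 0 x)]
      rfl
    have d1 : dd 1 (fun y => (-b / (a * c)) * F 0 (p + triL a b c ha hc y) +
          (1 / c) * F 1 (p + triL a b c ha hc y)) x =
        (-b / (a * c)) * dd 1 (fun y => F 0 (p + triL a b c ha hc y)) x +
          (1 / c) * dd 1 (fun y => F 1 (p + triL a b c ha hc y)) x := by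
      unfold dd
      rw [fderiv_fun_add ((hFL 0 x).const_mul _) ((hFL 1 x).const_mul _),
        fderiv_const_mul (hFL 0 x), fderiv_const_mul (hFL 1 x)]
      rfl
    rw [d0, d1, dd_tri0 (hFd 0), dd_tri1 (hFd 0), dd_tri1 (hFd 1)]
    have h1 := he (p + triL a b c ha hc x)
    rw [Fin.sum_univ_two] at h1
    change dd 0 (F 0) _ + dd 1 (F 1) _ = 0 at h1
    field_simp
    linear_combination a * h1

end Pool.Agent.T2S4
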