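import Pool.Agent.T2S4.Dense

/-!
# Constant curvature in the second chart

PACKAGE. Prove the theorems (helper lemmas allowed, private or prefixed by `Transfer_`).

Let `O = {y : P4 | y ≠ 0}` in the chart of `g'`, `P y = jac (inv4 y)`, `X' j y = ∑ i, P y i j • e4 i y`
(the coordinate fields of the first chart).
* `inv4_inv4`: `inv4 (inv4 y) = y`; `nsq (inv4 y) = 1 / nsq y`; `jac y * jac (inv4 y) = 1`
  (`jac (inv4 y) i j = δ_ij |y|² - 2 y_i y_j`).
* `Chg O e4 X' P`: `closed`: `P y k j = δ_kj |y|² - 2 y_k y_j` and the derivative of `P y k j` in the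
  direction `X' i` (`X' i y m = δ_mi |y|² - 2 y_m y_i`) is, with `<X' i, y> = - y_i |y|²`:
  `2 δ_kj <X' i, y> - 2 (X' i)_k y_j - 2 y_k (X' i)_j
   = -2 δ_kj y_i |y|² - 2 δ_ki y_j |y|² - 2 δ_ij y_k |y|² + 8 y_i y_j y_k`, symmetric in `i, j`.
* `(P y)ᵀ * g' y * P y = g (inv4 y)` on `O` (`glue` at `x = inv4 y`).
* `ld (X' i) (fun y => f (inv4 y)) y = pd i f (inv4 y)` for `f` differentiable: the derivative of `inv4`
  at `y` is the linear map with matrix `jac y`, and `jac y *ᵥ X' i y = e_i`.
* Hence the curvature of `fun y => g (inv4 y)` in the frame `X'` at `y ∈ O` is that of `g` at `inv4 y`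
  (the derivatives of functions which agree on the open set `O` agree), and `chg_CC` gives the claim
  for `y ≠ 0`. By continuity (`riem_cont`) it holds at `0`.
-/

set_option autoImplicit false

namespace Pool.Agent.T2S4

open Matrix
open scoped ContDiff

/-! ### Rules for the derivative along a field -/

private theorem ld_congr {O : Set P4} (hO : IsOpen O) {X : P4 → P4} {f g : P4 → ℝ} {x : P4}
    (hx : x ∈ O) (h : ∀ y ∈ O, f y = g y) : ld X f x = ld X g x := by
  unfold ld
  rw [Filter.EventuallyEq.fderiv_eq (Filter.mem_of_superset (hO.mem_nhds hx) h)]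

private theorem ld_mul {X : P4 → P4} {f g : P4 → ℝ} {x : P4} (hf : DifferentiableAt ℝ f x)
    (hg : DifferentiableAt ℝ g x) :
    ld X (fun y => f y * g y) x = ld X f x * g x + f x * ld X g x := by
  unfold ld
  rw [fderiv_fun_mul hf hg]
  simp only [_root_.add_apply, _root_.smul_apply, smul_eq_mul]
  ring

private theorem ld_sum {X : P4 → P4} {f : Fin 4 → P4 → ℝ} {x : P4}
    (hf : ∀ i, DifferentiableAt ℝ (f i) x) :
    ld X (fun y => ∑ i, f i y) x = ∑ i, ld X (f i) x := by
  unfold ld
  rw [fderiv_fun_sum fun i _ => hf i]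
  simp only [_root_.sum_apply]

private theorem ld_sub {X : P4 → P4} {f g : P4 → ℝ} {x : P4} (hf : DifferentiableAt ℝ f x)
    (hg : DifferentiableAt ℝ g x) :
    ld X (fun y => f y - g y) x = ld X f x - ld X g x := by
  unfold ld
  rw [fderiv_fun_sub hf hg]
  rfl

private theorem ld_smul {X : P4 → P4} {f : P4 → ℝ} {x : P4} (c : ℝ)
    (hf : DifferentiableAt ℝ f x) : ld X (fun y => c * f y) x = c * ld X f x := by
  unfold ld
  rw [fderiv_const_mul hf]
  rfl

private theorem da_coord (m : Fin 4) (x : P4) : DifferentiableAt ℝ (fun y : P4 => y m) x := by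
  fun_prop

private theorem ld_coord (X : P4 → P4) (m : Fin 4) (x : P4) :
    ld X (fun y => y m) x = X x m := by
  unfold ld
  have h1 : (fun y : P4 => y m) = (ContinuousLinearMap.proj m : P4 →L[ℝ] ℝ) := rfl
  rw [h1, ContinuousLinearMap.fderiv]
  rfl

private theorem cd_nsq : ContDiff ℝ ∞ nsq := by
  unfold nsq
  fun_prop

private theorem da_nsq (x : P4) : DifferentiableAt ℝ nsq x :=
  cd_nsq.contDiffAt.differentiableAt (by simp)

private theorem ld_nsq (X : P4 → P4) (x : P4) : ld X nsq x = 2 * ∑ i, x i * X x i := by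
  have h1 : nsq = fun y : P4 => ∑ i, y i * y i := by
    funext y
    unfold nsq
    exact Finset.sum_congr rfl fun i _ => by ring
  rw [h1, ld_sum fun i => (da_coord i x).fun_mul (da_coord i x), Finset.mul_sum]
  refine Finset.sum_congr rfl fun i _ => ?_
  rw [ld_mul (da_coord i x) (da_coord i x), ld_coord]
  ring

/-! ### The frame of the first chart -/

private theorem nsq_pos {y : P4} (hy : y ≠ 0) : 0 < nsq y := by
  obtain ⟨i, hi⟩ : ∃ i, y i ≠ 0 := by
    by_contra h
    push Not at h
    exact hy (funext h)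
  unfold nsq
  exact Finset.sum_pos' (fun i _ => sq_nonneg _) ⟨i, Finset.mem_univ i, by positivity⟩

private theorem nsq_inv4 {y : P4} (hy : y ≠ 0) : nsq (inv4 y) = 1 / nsq y := by
  have h0 := (nsq_pos hy).ne'
  have h1 : nsq (inv4 y) = nsq y / nsq y ^ 2 := by
    unfold inv4
    conv_lhs => unfold nsq
    simp only [div_pow]
    rw [← Finset.sum_div]
    rfl
  rw [h1]
  field_simp

private theorem inv4_ne {y : P4} (hy : y ≠ 0) : inv4 y ≠ 0 := by
  intro h
  have h1 := nsq_inv4 hy
  have h2 : nsq (inv4 y) = 0 := by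
    rw [h]
    simp [nsq]
  rw [h2] at h1
  have := nsq_pos hy
  have h3 : 0 < 1 / nsq y := by positivity
  linarith

private theorem inv4_inv4 {y : P4} (hy : y ≠ 0) : inv4 (inv4 y) = y := by
  have h0 := (nsq_pos hy).ne'
  funext i
  change inv4 y i / nsq (inv4 y) = y i
  rw [nsq_inv4 hy]
  change y i / nsq y / (1 / nsq y) = y i
  field_simp

/-- The matrix of the change of frames. -/
private noncomputable def PP (y : P4) : M4 := fun i j => (1 : M4) i j * nsq y - 2 * (y i * y j)

/-- The coordinate fields of the first chart. -/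
private noncomputable def XX (j : Fin 4) (y : P4) : P4 := fun m => PP y m j

private theorem jac_inv4 {y : P4} (hy : y ≠ 0) : jac (inv4 y) = PP y := by
  have h0 := (nsq_pos hy).ne'
  ext i j
  unfold jac PP
  rw [nsq_inv4 hy]
  change (1 : M4) i j / (1 / nsq y) - 2 * (y i / nsq y) * (y j / nsq y) / (1 / nsq y) ^ 2 = _
  field_simp

private theorem dot_XX (i : Fin 4) (y : P4) : ∑ m, y m * XX i y m = -(y i * nsq y) := by
  unfold XX PP
  have h1 : ∀ m, y m * ((1 : M4) m i * nsq y - 2 * (y m * y i)) =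
      (1 : M4) m i * (y m * nsq y) - y m ^ 2 * (2 * y i) := fun m => by ring
  simp only [h1]
  rw [Finset.sum_sub_distrib, ← Finset.sum_mul]
  have h2 : ∑ m, (1 : M4) m i * (y m * nsq y) = y i * nsq y := by
    simp [Matrix.one_apply]
  rw [h2]
  change y i * nsq y - nsq y * (2 * y i) = _
  ring

private theorem PP_sq (y : P4) : PP y * PP y = (nsq y ^ 2) • (1 : M4) := by
  ext i j
  rw [Matrix.mul_apply, Matrix.smul_apply, smul_eq_mul]
  have h1 : ∀ m, PP y i m * PP y m j = (1 : M4) i m * (nsq y * PP y m j) -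
      (y m * XX j y m) * (2 * y i) := by
    intro m
    have : PP y i m = (1 : M4) i m * nsq y - 2 * (y i * y m) := rfl
    rw [this]
    change _ = (1 : M4) i m * (nsq y * PP y m j) - (y m * PP y m j) * (2 * y i)
    ring
  simp only [h1]
  rw [Finset.sum_sub_distrib, ← Finset.sum_mul, dot_XX]
  have h2 : ∑ m, (1 : M4) i m * (nsq y * PP y m j) = nsq y * PP y i j := by
    simp [Matrix.one_apply]
  rw [h2]
  unfold PP
  ring

private theorem PP_det {y : P4} (hy : y ≠ 0) : (PP y).det ≠ 0 := by
  intro h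
  have h1 := congrArg Matrix.det (PP_sq y)
  rw [Matrix.det_mul, h, Matrix.det_smul, Matrix.det_one] at h1
  have := nsq_pos hy
  have h2 : 0 < (nsq y ^ 2) ^ Fintype.card (Fin 4) * 1 := by positivity
  rw [← h1] at h2
  simp at h2

private theorem ld_PP (X : P4 → P4) (k j : Fin 4) (x : P4) : ld X (fun y => PP y k j) x =
    (1 : M4) k j * (2 * ∑ m, x m * X x m) - 2 * (X x k * x j + x k * X x j) := by
  unfold PP
  rw [ld_sub ((da_nsq x).const_mul _) (((da_coord k x).fun_mul (da_coord j x)).const_mul _),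
    ld_smul _ (da_nsq x), ld_smul _ ((da_coord k x).fun_mul (da_coord j x)),
    ld_mul (da_coord k x) (da_coord j x), ld_coord, ld_coord, ld_nsq]

private theorem chg_inv : Chg {y : P4 | y ≠ 0} e4 XX PP where
  smP i j := by
    have : ContDiff ℝ ∞ (fun y => PP y i j) := by
      unfold PP
      exact (contDiff_const.mul cd_nsq).sub (by fun_prop)
    exact this.contDiffOn
  det x hx := PP_det hx
  rel x _ j := by
    funext k
    simp [XX, Finset.sum_apply, e4, Pi.single_apply]
  closed x _ k i j := by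
    rw [ld_PP, ld_PP, dot_XX, dot_XX]
    unfold XX PP
    have h1 : (1 : M4) j i = (1 : M4) i j := by
      rw [Matrix.one_apply, Matrix.one_apply]
      simp only [eq_comm]
    rw [h1]
    ring

/-! ### The chain rule -/

private theorem da_inv4 {y : P4} (hy : y ≠ 0) (m : Fin 4) :
    DifferentiableAt ℝ (fun z => inv4 z m) y := by
  have h1 : (fun z : P4 => inv4 z m) = fun z => z m * (nsq z)⁻¹ := by
    funext z
    exact div_eq_mul_inv _ _
  rw [h1]
  exact (da_coord m y).fun_mul ((da_nsq y).fun_inv (nsq_pos hy).ne')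

private theorem isOpen_ne : IsOpen {y : P4 | y ≠ 0} := isOpen_ne_fun continuous_id continuous_const

private theorem ld_inv4 {y : P4} (hy : y ≠ 0) (i m : Fin 4) :
    ld (XX i) (fun z => inv4 z m) y = (1 : M4) m i := by
  have h0 := (nsq_pos hy).ne'
  have h1 : ld (XX i) (fun z => inv4 z m * nsq z) y = ld (XX i) (fun z => z m) y := by
    refine ld_congr isOpen_ne hy fun z hz => ?_
    change z m / nsq z * nsq z = z m
    have := (nsq_pos hz).ne'
    field_simp
  rw [ld_mul (da_inv4 hy m) (da_nsq y), ld_nsq, dot_XX, ld_coord] at h1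
  have h2 : XX i y m = (1 : M4) m i * nsq y - 2 * (y m * y i) := rfl
  have h3 : inv4 y m = y m / nsq y := rfl
  rw [h2, h3] at h1
  have h4 : y m / nsq y * (2 * -(y i * nsq y)) = -(2 * (y m * y i)) := by
    field_simp
  rw [h4] at h1
  have h5 : ld (XX i) (fun z => inv4 z m) y * nsq y = (1 : M4) m i * nsq y := by linarith
  exact mul_right_cancel₀ h0 h5

private theorem ld_comp {y : P4} (hy : y ≠ 0) (i : Fin 4) {f : P4 → ℝ}
    (hf : DifferentiableAt ℝ f (inv4 y)) :
    ld (XX i) (fun z => f (inv4 z)) y = ld (e4 i) f (inv4 y) := by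
  have h1 : DifferentiableAt ℝ inv4 y := differentiableAt_pi.2 fun m => da_inv4 hy m
  unfold ld
  have h2 : (fun z => f (inv4 z)) = f ∘ inv4 := rfl
  rw [h2, fderiv_comp y hf h1, ContinuousLinearMap.comp_apply]
  congr 1
  funext m
  have h3 : fderiv ℝ inv4 y (XX i y) m = ld (XX i) (fun z => inv4 z m) y := by
    unfold ld
    rw [fderiv_pi fun m => da_inv4 hy m]
    rfl
  rw [h3, ld_inv4 hy i m]
  simp [e4, Pi.single_apply, Matrix.one_apply]

private theorem chr_comp {g : P4 → M4} (hg : IsMetric g) {y : P4} (hy : y ≠ 0)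
    (k i j : Fin 4) : chrV XX (fun z => g (inv4 z)) k i j y = chrV e4 g k i j (inv4 y) := by
  have h1 : ∀ a b c : Fin 4, ld (XX a) (fun z => g (inv4 z) b c) y =
      ld (e4 a) (fun x => g x b c) (inv4 y) := fun a b c =>
    ld_comp hy a (f := fun x => g x b c) ((hg.smooth b c).contDiffAt.differentiableAt (by simp))
  unfold chrV
  simp only [h1]

private theorem riem_comp {g : P4 → M4} (hg : IsMetric g) {y : P4} (hy : y ≠ 0)
    (l k i j : Fin 4) :
    riemV XX (fun z => g (inv4 z)) l k i j y = riemV e4 g l k i j (inv4 y) := by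
  have hs : ∀ k i j : Fin 4, DifferentiableAt ℝ (chrV e4 g k i j) (inv4 y) := fun k i j =>
    (((chrV_smooth (fr_chart hg) k i j).contDiffAt (Filter.univ_mem)).differentiableAt (by simp))
  have h1 : ∀ a k i j : Fin 4, ld (XX a) (chrV XX (fun z => g (inv4 z)) k i j) y =
      ld (e4 a) (chrV e4 g k i j) (inv4 y) := by
    intro a k i j
    rw [ld_congr isOpen_ne hy (g := fun z => chrV e4 g k i j (inv4 z)) fun z hz =>
      chr_comp hg hz k i j]
    exact ld_comp hy a (hs k i j)
  unfold riemV
  simp only [h1, chr_comp hg hy]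

theorem const_transfer {g g' : P4 → M4} (h : SphereMetric g g') {c : ℝ}
    (hC : HasConstCurv c g) : HasConstCurv c g' := by
  have hF := fr_chart h.right
  have hFr : Fr {y : P4 | y ≠ 0} e4 g' :=
    ⟨isOpen_ne, fun i => (hF.smX i).mono (Set.subset_univ _),
      fun i j => (hF.smg i j).mono (Set.subset_univ _), fun x _ => hF.sym x (Set.mem_univ x),
      fun x _ => hF.det x (Set.mem_univ x), fun i j x _ => hF.comm i j x (Set.mem_univ x)⟩
  have hγ : ∀ y ∈ {y : P4 | y ≠ 0}, g (inv4 y) = (PP y)ᵀ * g' y * PP y := by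
    intro y hy
    rw [h.glue _ (inv4_ne hy), inv4_inv4 hy, jac_inv4 hy]
  have key : ∀ y : P4, y ≠ 0 → ∀ l k i j : Fin 4, riem g' l k i j y =
      c * ((1 : M4) l i * g' y k j - (1 : M4) l j * g' y k i) := by
    intro y hy
    have h1 : CC c XX (fun z => g (inv4 z)) y := by
      intro l k i j
      rw [riem_comp h.left hy]
      exact hC (inv4 y) l k i j
    exact (chg_CC hFr chg_inv hγ hy c).1 h1
  intro x l k i j
  have hd : Dense {y : P4 | y ≠ 0} := dense_compl_singleton 0
  have h2 : riem g' l k i j =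
      fun x => c * ((1 : M4) l i * g' x k j - (1 : M4) l j * g' x k i) := by
    refine Continuous.ext_on hd (riem_cont h.right l k i j) ?_ fun y hy => key y hy l k i j
    exact continuous_const.mul ((continuous_const.mul (h.right.smooth k j).continuous).sub
      (continuous_const.mul (h.right.smooth k i).continuous))
  rw [h2]

end Pool.Agent.T2S4
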