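import Pool.Agent.T2S4.Ends

/-!
# The twist tends to zero at the corner

PACKAGE. Prove the theorem (helper lemmas allowed, private or prefixed by `TwistLim_`).

On the diagonal `p = (s, s)` all weights are `a = e^s`: `γ_ij = wt_i wt_j g_{τi τj}(sl p)`,
`(γ⁻¹)_ij = a⁻² (g⁻¹)_{τi τj}` (`gt_inv`), `det γ = a^8 det g` (`gt_det`).
`ld (bas 2) = ld (bas 3) = 0`;
`dd 0 γ_ij = ((∂_s wt_i) wt_j + wt_i ∂_s wt_j) g + wt_i wt_j a ∂_0 g`, so
`|ld (bas l) γ_ij| ≤ C a²` as `a → 0` (`TwistLim_ldO`), the same for `dd 1`. Hence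
`|chrV bas γ k i j (s, s)| ≤ C` and `|FK bas γ i 0 1 (s, s)| ≤ C a⁻²`, so
`|twist γ i (s, s)| ≤ C a⁴ a⁻² = C a²`, which tends to `0` as `s → -∞`.
-/

set_option autoImplicit false

namespace Pool.Agent.T2S4

open Matrix Filter Topology
open scoped ContDiff

/-- the slice over the diagonal tends to the origin -/
private theorem TwistLim_sl : Tendsto (fun s : ℝ => sl (s, s)) atBot (𝓝 0) := by
  rw [tendsto_pi_nhds]
  intro k
  fin_cases k
  · exact Real.tendsto_exp_atBot
  · exact tendsto_const_nhds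
  · exact Real.tendsto_exp_atBot
  · exact tendsto_const_nhds

private theorem TwistLim_bdd {φ : P4 → ℝ} (h : Continuous φ) :
    (fun s : ℝ => φ (sl (s, s))) =O[atBot] fun _ => (1 : ℝ) :=
  ((h.tendsto 0).comp TwistLim_sl).isBigO_one ℝ

/-- the exponents of the weights -/
private noncomputable def TwistLim_L : Fin 4 → (ℝ × ℝ →L[ℝ] ℝ) :=
  ![ContinuousLinearMap.fst ℝ ℝ ℝ, ContinuousLinearMap.snd ℝ ℝ ℝ,
    ContinuousLinearMap.fst ℝ ℝ ℝ, ContinuousLinearMap.snd ℝ ℝ ℝ]

private theorem TwistLim_wt (p : ℝ × ℝ) (i : Fin 4) :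
    HasFDerivAt (fun q => wt q i) (wt p i • TwistLim_L i) p := by
  fin_cases i
  · exact (hasFDerivAt_fst (𝕜 := ℝ) (p := p)).exp
  · exact (hasFDerivAt_snd (𝕜 := ℝ) (p := p)).exp
  · exact (hasFDerivAt_fst (𝕜 := ℝ) (p := p)).exp
  · exact (hasFDerivAt_snd (𝕜 := ℝ) (p := p)).exp

private theorem TwistLim_wt_diag (s : ℝ) (i : Fin 4) : wt (s, s) i = Real.exp s := by
  fin_cases i <;> rfl

/-- the derivative of the slice, as a linear map -/
private noncomputable def TwistLim_S (p : ℝ × ℝ) : ℝ × ℝ →L[ℝ] P4 :=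
  ContinuousLinearMap.pi ![Real.exp p.1 • ContinuousLinearMap.fst ℝ ℝ ℝ, 0,
    Real.exp p.2 • ContinuousLinearMap.snd ℝ ℝ ℝ, 0]

private theorem TwistLim_dsl (p : ℝ × ℝ) : HasFDerivAt sl (TwistLim_S p) p := by
  rw [hasFDerivAt_pi']
  intro k
  fin_cases k
  · exact (hasFDerivAt_fst (𝕜 := ℝ) (p := p)).exp
  · exact hasFDerivAt_const (0 : ℝ) p
  · exact (hasFDerivAt_snd (𝕜 := ℝ) (p := p)).exp
  · exact hasFDerivAt_const (0 : ℝ) p

private theorem TwistLim_S_diag (s : ℝ) (v : ℝ × ℝ) :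
    TwistLim_S (s, s) v = Real.exp s • (![v.1, 0, v.2, 0] : P4) := by
  funext k
  fin_cases k <;> simp [TwistLim_S]

private theorem TwistLim_bas (l : Fin 4) (p : ℝ × ℝ) : bas l p = bas l 0 := by
  fin_cases l <;> rfl

private theorem TwistLim_ld {g : P4 → M4} (hg : IsMetric g) (l i j : Fin 4) (s : ℝ) :
    ld (bas l) (fun q => gt g q i j) (s, s) = Real.exp s ^ 2 *
      ((TwistLim_L i (bas l 0) + TwistLim_L j (bas l 0)) * g (sl (s, s)) (tau i) (tau j) +
        Real.exp s * fderiv ℝ (fun x => g x (tau i) (tau j)) (sl (s, s))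
          ![(bas l 0).1, 0, (bas l 0).2, 0]) := by
  have h1 : (fun q => gt g q i j) = fun q => wt q i * wt q j * g (sl q) (tau i) (tau j) :=
    funext fun q => gt_apply g q i j
  have hd : HasFDerivAt (fun x => g x (tau i) (tau j))
      (fderiv ℝ (fun x => g x (tau i) (tau j)) (sl (s, s))) (sl (s, s)) :=
    (((hg.smooth (tau i) (tau j)).differentiable (by simp)) _).hasFDerivAt
  have h2 := ((TwistLim_wt (s, s) i).mul (TwistLim_wt (s, s) j)).mul
    (hd.comp (s, s) (TwistLim_dsl (s, s)))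
  unfold ld
  rw [h1]
  have h3 : HasFDerivAt (fun q => wt q i * wt q j * g (sl q) (tau i) (tau j)) _ (s, s) := h2
  rw [h3.fderiv, TwistLim_bas]
  simp only [_root_.add_apply, _root_.smul_apply, smul_eq_mul,
    ContinuousLinearMap.comp_apply, TwistLim_S_diag, TwistLim_wt_diag, map_smul]
  simp only [Function.comp_apply, Pi.mul_apply, TwistLim_wt_diag]
  ring

private theorem TwistLim_ldO {g : P4 → M4} (hg : IsMetric g) (l i j : Fin 4) :
    (fun s : ℝ => ld (bas l) (fun q => gt g q i j) (s, s)) =O[atBot]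
      fun s => Real.exp s ^ 2 := by
  simp only [TwistLim_ld hg]
  have h1 : (fun s : ℝ => (TwistLim_L i (bas l 0) + TwistLim_L j (bas l 0)) *
      g (sl (s, s)) (tau i) (tau j)) =O[atBot] fun _ => (1 : ℝ) :=
    TwistLim_bdd (φ := fun x => (TwistLim_L i (bas l 0) + TwistLim_L j (bas l 0)) *
      g x (tau i) (tau j)) (continuous_const.mul (hg.smooth _ _).continuous)
  have h2 : (fun s : ℝ => fderiv ℝ (fun x => g x (tau i) (tau j)) (sl (s, s))
      ![(bas l 0).1, 0, (bas l 0).2, 0]) =O[atBot] fun _ => (1 : ℝ) :=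
    TwistLim_bdd (φ := fun x => fderiv ℝ (fun x => g x (tau i) (tau j)) x
      ![(bas l 0).1, 0, (bas l 0).2, 0])
      (((hg.smooth (tau i) (tau j)).continuous_fderiv (by simp)).clm_apply continuous_const)
  have h3 : (fun s : ℝ => Real.exp s) =O[atBot] fun _ => (1 : ℝ) :=
    Real.tendsto_exp_atBot.isBigO_one ℝ
  have h4 := (Asymptotics.isBigO_refl (fun s : ℝ => Real.exp s ^ 2) atBot).mul
    (h1.add ((h3.mul h2).congr_right fun _ => mul_one 1))
  exact h4.congr_right fun _ => mul_one _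

private theorem TwistLim_invO {g : P4 → M4} (hg : IsMetric g) (i j : Fin 4) :
    (fun s : ℝ => (gt g (s, s))⁻¹ i j) =O[atBot] fun s => (Real.exp s ^ 2)⁻¹ := by
  have hc : Continuous fun x => (g x)⁻¹ (tau i) (tau j) := by
    have h1 := inv_smooth (fr_chart hg).smg (fr_chart hg).det (tau i) (tau j)
    exact continuousOn_univ.1 h1.continuousOn
  have h2 : (fun s : ℝ => (gt g (s, s))⁻¹ i j) =
      fun s => (Real.exp s ^ 2)⁻¹ * (g (sl (s, s)))⁻¹ (tau i) (tau j) := by
    funext s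
    rw [gt_inv hg, TwistLim_wt_diag, TwistLim_wt_diag, sq, mul_inv]
  rw [h2]
  have h3 := (Asymptotics.isBigO_refl (fun s : ℝ => (Real.exp s ^ 2)⁻¹) atBot).mul
    (TwistLim_bdd hc)
  exact h3.congr_right fun _ => mul_one _

private theorem TwistLim_chrO {g : P4 → M4} (hg : IsMetric g) (k i j : Fin 4) :
    (fun s : ℝ => chrV bas (gt g) k i j (s, s)) =O[atBot] fun _ => (1 : ℝ) := by
  unfold chrV
  refine Asymptotics.IsBigO.const_mul_left ?_ _
  refine Asymptotics.IsBigO.fun_sum fun l _ => ?_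
  have h1 := (TwistLim_invO hg k l).mul
    (((TwistLim_ldO hg i l j).add (TwistLim_ldO hg j l i)).sub (TwistLim_ldO hg l i j))
  refine h1.congr_right fun s => ?_
  exact inv_mul_cancel₀ (pow_pos (Real.exp_pos s) 2).ne'

private theorem TwistLim_detO {g : P4 → M4} (hg : IsMetric g) :
    (fun s : ℝ => √(gt g (s, s)).det) =O[atBot] fun s => Real.exp s ^ 4 := by
  have hc : Continuous fun x => √(g x).det := by
    refine Real.continuous_sqrt.comp ?_
    refine Continuous.matrix_det ?_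
    exact continuous_matrix fun i j => (hg.smooth i j).continuous
  have h2 : (fun s : ℝ => √(gt g (s, s)).det) =
      fun s => Real.exp s ^ 4 * √(g (sl (s, s))).det := by
    funext s
    have h3 : (Real.exp s * Real.exp s) ^ 4 * (g (sl (s, s))).det =
        (Real.exp s ^ 4) ^ 2 * (g (sl (s, s))).det := by ring
    rw [gt_det, h3, Real.sqrt_mul (by positivity), Real.sqrt_sq (by positivity)]
  rw [h2]
  have h3 := (Asymptotics.isBigO_refl (fun s : ℝ => Real.exp s ^ 4) atBot).mul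
    (TwistLim_bdd hc)
  exact h3.congr_right fun _ => mul_one _

theorem twist_lim {g : P4 → M4} (hg : IsMetric g) (i : Fin 4) :
    Tendsto (fun s : ℝ => twist (gt g) i (s, s)) atBot (𝓝 0) := by
  have h1 : (fun s : ℝ => FK bas (gt g) i 0 1 (s, s)) =O[atBot]
      fun s => (Real.exp s ^ 2)⁻¹ := by
    unfold FK
    refine Asymptotics.IsBigO.fun_sum fun l _ => ?_
    exact ((TwistLim_invO hg 0 l).mul (TwistLim_chrO hg 1 l i)).congr_right
      fun _ => mul_one _
  have h2 : (fun s : ℝ => twist (gt g) i (s, s)) =O[atBot] fun s => Real.exp s ^ 2 := by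
    refine ((TwistLim_detO hg).mul h1).congr_right fun s => ?_
    have h3 : Real.exp s ≠ 0 := (Real.exp_pos s).ne'
    field_simp
  refine h2.trans_tendsto ?_
  have h3 := (Real.tendsto_exp_atBot).pow 2
  rwa [zero_pow two_ne_zero] at h3

end Pool.Agent.T2S4
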