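import Pool.Agent.T2S4.Core
import Pool.Agent.T2S4.Ein
import Pool.Agent.T2S4.EndsGt
import Pool.Agent.T2S4.TwistLim
import Pool.Agent.T2S4.Transfer

/-!
# Einstein metrics on the 4-sphere with torus symmetry have constant curvature
-/

set_option autoImplicit false

namespace Pool.Agent.T2S4

open Matrix Filter Topology
open scoped ContDiff

theorem main_torus {g g' : P4 → M4} (h : SphereMetric g g') (hT : TorusInvariant g) {Λ : ℝ}
    (hE : IsEinstein Λ g) : 0 < Λ ∧ HasConstCurv (Λ / 3) g ∧ HasConstCurv (Λ / 3) g' := by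
  obtain ⟨h1, h2⟩ := core (good_gt h.left hT hE) (fun i => twist_lim h.left (fib i)) (ends_gt h hT)
  have h3 : HasConstCurv (Λ / 3) g :=
    const_of_Om h.left fun x hx => const_Om h.left hT h2 hx
  exact ⟨h1, h3, const_transfer h h3⟩

end Pool.Agent.T2S4
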