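import Pool.Agent.T2S4.Inv

/-!
# The logarithmic polar frame

Definitions, and PACKAGE: prove the theorems (helper lemmas allowed, private or prefixed by
`Polar_`).

On `Om = {z_1 z_2 ≠ 0} ⊆ ℝ⁴` the four linear vector fields `fr4` (two Euler fields, two rotation
fields) commute pairwise and are linearly independent: `det (Fm x) = ± |z_1|² |z_2|²`. `fr4 j` is
linear, `closed` says that `D(fr4 j)(fr4 i) = D(fr4 i)(fr4 j)` (component `k`, `Fm x k j = fr4 j x k`,
`ld (fr4 i)` of a coordinate function `± x_a` is `±` the component `a` of `fr4 i`): all 16 cases by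
computation.
-/

set_option autoImplicit false

namespace Pool.Agent.T2S4

open Matrix
open scoped ContDiff

/-- The points of the chart with a free orbit. -/
def Om : Set P4 := {x | 0 < x 0 ^ 2 + x 1 ^ 2 ∧ 0 < x 2 ^ 2 + x 3 ^ 2}

/-- The commuting frame: the two radial fields and the two rotations. -/
def fr4 : Fin 4 → P4 → P4 :=
  ![fun x => ![x 0, x 1, 0, 0], fun x => ![0, 0, x 2, x 3], fun x => ![-x 1, x 0, 0, 0],
    fun x => ![0, 0, -x 3, x 2]]

/-- The matrix whose columns are the vectors of the frame. -/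
def Fm (x : P4) : M4 := fun i j => fr4 j x i

/-- The point of `ℝ²` with coordinates `s = log |z_1|, t = log |z_2|`. -/
noncomputable def pol (x : P4) : ℝ × ℝ :=
  (Real.log (x 0 ^ 2 + x 1 ^ 2) / 2, Real.log (x 2 ^ 2 + x 3 ^ 2) / 2)

/-- The slice: the point `(e^s, 0, e^t, 0)`. -/
noncomputable def sl (p : ℝ × ℝ) : P4 := ![Real.exp p.1, 0, Real.exp p.2, 0]

/-- The metric in the logarithmic polar frame, on the slice. -/
noncomputable def gt (g : P4 → M4) (p : ℝ × ℝ) : M4 := (Fm (sl p))ᵀ * g (sl p) * Fm (sl p)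

theorem isOpen_Om : IsOpen Om := by
  have h1 : Continuous fun x : P4 => x 0 ^ 2 + x 1 ^ 2 := by fun_prop
  have h2 : Continuous fun x : P4 => x 2 ^ 2 + x 3 ^ 2 := by fun_prop
  exact (isOpen_lt continuous_const h1).inter (isOpen_lt continuous_const h2)

theorem sl_mem (p : ℝ × ℝ) : sl p ∈ Om := by
  have h1 := Real.exp_pos p.1
  have h2 := Real.exp_pos p.2
  refine ⟨?_, ?_⟩
  · show 0 < Real.exp p.1 ^ 2 + (0 : ℝ) ^ 2
    positivity
  · show 0 < Real.exp p.2 ^ 2 + (0 : ℝ) ^ 2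
    positivity

theorem pol_sl (p : ℝ × ℝ) : pol (sl p) = p := by
  have key : ∀ t : ℝ, Real.log (Real.exp t ^ 2 + (0 : ℝ) ^ 2) / 2 = t := by
    intro t
    rw [zero_pow two_ne_zero, add_zero, Real.log_pow, Real.log_exp]
    push_cast
    ring
  exact Prod.ext (key p.1) (key p.2)

private theorem Polar_Fm (x : P4) : Fm x =
    !![x 0, 0, -x 1, 0; x 1, 0, x 0, 0; 0, x 2, 0, -x 3; 0, x 3, 0, x 2] := by
  ext i j
  fin_cases i <;> fin_cases j <;> rfl

theorem det_Fm (x : P4) : (Fm x).det = -((x 0 ^ 2 + x 1 ^ 2) * (x 2 ^ 2 + x 3 ^ 2)) := by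
  rw [Polar_Fm, Matrix.det_succ_row_zero]
  simp [Fin.sum_univ_succ, Matrix.det_fin_three, Matrix.submatrix, Fin.succAbove]
  ring

private theorem Polar_fr {g : P4 → M4} (hg : IsMetric g) {O : Set P4} (hO : IsOpen O) :
    Fr O e4 g where
  isOpen := hO
  smX i := contDiff_const.contDiffOn
  smg i j := (hg.smooth i j).contDiffOn
  sym x _ := by
    have h := (hg.posDef x).isHermitian
    rw [Matrix.IsHermitian, Matrix.conjTranspose_eq_transpose_of_trivial] at h
    exact h
  det x _ := (hg.posDef x).det_pos.ne'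
  comm i j x _ := by
    unfold e4
    simp

theorem fr_chart {g : P4 → M4} (hg : IsMetric g) : Fr Set.univ e4 g := Polar_fr hg isOpen_univ

theorem fr_Om {g : P4 → M4} (hg : IsMetric g) : Fr Om e4 g := Polar_fr hg isOpen_Om

/-- the entries of the matrix are linear -/
private theorem Polar_lin (k j : Fin 4) :
    ∃ L : P4 →L[ℝ] ℝ, ∀ y, Fm y k j = L y := by
  let π : Fin 4 → (P4 →L[ℝ] ℝ) := fun a => ContinuousLinearMap.proj a
  fin_cases j <;> fin_cases k
  · exact ⟨π 0, fun y => rfl⟩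
  · exact ⟨π 1, fun y => rfl⟩
  · exact ⟨0, fun y => rfl⟩
  · exact ⟨0, fun y => rfl⟩
  · exact ⟨0, fun y => rfl⟩
  · exact ⟨0, fun y => rfl⟩
  · exact ⟨π 2, fun y => rfl⟩
  · exact ⟨π 3, fun y => rfl⟩
  · exact ⟨-π 1, fun y => rfl⟩
  · exact ⟨π 0, fun y => rfl⟩
  · exact ⟨0, fun y => rfl⟩
  · exact ⟨0, fun y => rfl⟩
  · exact ⟨0, fun y => rfl⟩
  · exact ⟨0, fun y => rfl⟩
  · exact ⟨-π 3, fun y => rfl⟩
  · exact ⟨π 2, fun y => rfl⟩

private theorem Polar_fderiv (k j : Fin 4) (x v : P4) :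
    fderiv ℝ (fun y => Fm y k j) x v = fr4 j v k := by
  obtain ⟨L, hL⟩ := Polar_lin k j
  have h1 : (fun y => Fm y k j) = L := funext hL
  rw [h1, L.fderiv, ← hL]
  rfl

private theorem Polar_comm (i j k : Fin 4) (x : P4) : fr4 j (fr4 i x) k = fr4 i (fr4 j x) k := by
  fin_cases i <;> fin_cases j <;> fin_cases k <;> simp [fr4]

theorem chg_polar : Chg Om e4 fr4 Fm where
  smP i j := by
    obtain ⟨L, hL⟩ := Polar_lin i j
    have h1 : (fun y => Fm y i j) = L := funext hL
    rw [h1]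
    exact L.contDiff.contDiffOn
  det x hx := by
    rw [det_Fm]
    exact neg_ne_zero.2 (mul_pos hx.1 hx.2).ne'
  rel x _ j := by
    funext k
    simp [Finset.sum_apply, Fm, e4, Pi.single_apply]
  closed x _ k i j := by
    show fderiv ℝ (fun y => Fm y k j) x (fr4 i x) = fderiv ℝ (fun y => Fm y k i) x (fr4 j x)
    rw [Polar_fderiv, Polar_fderiv, Polar_comm]

end Pool.Agent.T2S4
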