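import Pool.Agent.T2S4.LopRules
import Pool.Agent.T2S4.Fibre

/-!
# The equations for `σ` and `B`

PACKAGE. Prove the theorems (helper lemmas allowed, private or prefixed by `SigmaEq_`).

Write `x = G_00, y = G_01 = G_10, z = G_11`, `D = x z - y² = det G > 0`, `<f, k> = gip h f k`. `Lop_G`
with `G⁻¹ = [[z, -y], [-y, x]] / D`:
`L x = (z <x,x> - 2 y <x,y> + x <y,y>) / D - 2 Λ x`,
`L y = (z <x,y> - y <x,z> - y <y,y> + x <y,z>) / D - 2 Λ y`,
`L z = (z <y,y> - 2 y <y,z> + x <z,z>) / D - 2 Λ z`.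
* `Lop_det`: with `Lop_mul`: `L D = <D, D> / D - 4 Λ D` (`<D, D>` expands to
  `x² <z,z> + z² <x,x> + 4 y² <y,y> + 2 x z <x,z> - 4 x y <y,z> - 4 y z <x,y>`).
* `Lop_sigma`: `σ = log D / 2`, `Lop_log`: `L σ = - 2 Λ`.
* `Lop_B`: `B = y / √D = y exp (-σ)`: `L B = e B` with
  `e = (<y,y> - <x,z>) / D + <D,D> / (4 D²)`.
  (`L (D^(-1/2)) = - L D / (2 D^(3/2)) + 3 <D,D> / (4 D^(5/2)) = <D,D> / (4 D^(5/2)) + 2 Λ D^(-1/2)`, and
  `L (y D^(-1/2)) = D^(-1/2) L y + y L (D^(-1/2)) - D^(-3/2) <y, D>`.)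
* `e ≥ 0`: `4 D (<y,y> - <x,z>) + <D,D>` is the value of the quadratic form
  `q(x', y', z') = 4 D (y'² - x' z') + (x z' + z x' - 2 y y')²` summed over a basis in which the inner
  product is a sum of squares (`(h⁻¹) = ∑ l lᵀ`: for `M = h⁻¹` symmetric positive definite,
  `∑ M_ab u_a v_b = (M_00 u_0 + M_01 u_1)(M_00 v_0 + M_01 v_1) / M_00 + (det M / M_00) u_1 v_1`), and
  `x q = x (β - 2 y α / x)² + 4 α² (z - y² / x) ≥ 0` with `α = x y' - y x'`, `β = x z' - z x'`.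
-/

set_option autoImplicit false

namespace Pool.Agent.T2S4

open Matrix Filter Topology
open scoped ContDiff

private theorem SE_sym {Λ : ℝ} {h G : ℝ × ℝ → M2} (hg : GoodB Λ h G) (q : ℝ × ℝ) :
    G q 1 0 = G q 0 1 := by
  simpa using (hg.posG q).isHermitian.apply 0 1

private theorem SE_symf {Λ : ℝ} {h G : ℝ × ℝ → M2} (hg : GoodB Λ h G) :
    (fun q => G q 1 0) = fun q => G q 0 1 := funext fun q => SE_sym hg q

private theorem SE_det {Λ : ℝ} {h G : ℝ × ℝ → M2} (hg : GoodB Λ h G) (q : ℝ × ℝ) :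
    (G q).det = G q 0 0 * G q 1 1 - G q 0 1 * G q 0 1 := by
  rw [Matrix.det_fin_two, SE_sym hg]

private theorem SE_pos {Λ : ℝ} {h G : ℝ × ℝ → M2} (hg : GoodB Λ h G) (q : ℝ × ℝ) :
    0 < (G q).det := (hg.posG q).det_pos

private theorem SE_inv {Λ : ℝ} {h G : ℝ × ℝ → M2} (hg : GoodB Λ h G) (p : ℝ × ℝ) :
    (G p)⁻¹ 0 0 = G p 1 1 / (G p).det ∧ (G p)⁻¹ 0 1 = - G p 0 1 / (G p).det ∧
    (G p)⁻¹ 1 0 = - G p 0 1 / (G p).det ∧ (G p)⁻¹ 1 1 = G p 0 0 / (G p).det := by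
  have h1 : (G p)⁻¹ = ((G p).det)⁻¹ • (G p).adjugate := by
    rw [Matrix.inv_def, Ring.inverse_eq_inv']
  rw [h1, Matrix.adjugate_fin_two]
  refine ⟨?_, ?_, ?_, ?_⟩ <;> simp [SE_sym hg] <;> ring

private theorem SE_gip3 (h : ℝ × ℝ → M2) (f f1 f2 f3 k : ℝ × ℝ → ℝ) (c1 c2 c3 : ℝ) (p : ℝ × ℝ)
    (hf : ∀ a, dd a f p = c1 * dd a f1 p + c2 * dd a f2 p + c3 * dd a f3 p) :
    gip h f k p = c1 * gip h f1 k p + c2 * gip h f2 k p + c3 * gip h f3 k p := by
  simp only [gip, Fin.sum_univ_two, hf]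
  ring

private theorem SE_gip1 (h : ℝ × ℝ → M2) (f f1 k : ℝ × ℝ → ℝ) (c1 : ℝ) (p : ℝ × ℝ)
    (hf : ∀ a, dd a f p = c1 * dd a f1 p) :
    gip h f k p = c1 * gip h f1 k p := by
  simp only [gip, Fin.sum_univ_two, hf]
  ring

private theorem SE_dd {Λ : ℝ} {h G : ℝ × ℝ → M2} (hg : GoodB Λ h G) (p : ℝ × ℝ) (a : Fin 2) :
    dd a (fun q => (G q).det) p = G p 1 1 * dd a (fun q => G q 0 0) p +
      (-2 * G p 0 1) * dd a (fun q => G q 0 1) p + G p 0 0 * dd a (fun q => G q 1 1) p := by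
  have hx := ((hg.smG 0 0).differentiable (by simp) p).hasFDerivAt
  have hy := ((hg.smG 0 1).differentiable (by simp) p).hasFDerivAt
  have hz := ((hg.smG 1 1).differentiable (by simp) p).hasFDerivAt
  have h1 := (hx.mul hz).sub (hy.mul hy)
  have h2 : (fun q => (G q).det) = fun q => G q 0 0 * G q 1 1 - G q 0 1 * G q 0 1 :=
    funext fun q => SE_det hg q
  rw [h2]
  unfold dd
  have h3 := h1.fderiv
  have h4 := congrArg (fun L => L (bv a)) h3
  refine h4.trans ?_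
  simp only [_root_.sub_apply, _root_.add_apply, _root_.smul_apply, smul_eq_mul]
  ring

private theorem SE_gDk {Λ : ℝ} {h G : ℝ × ℝ → M2} (hg : GoodB Λ h G) (k : ℝ × ℝ → ℝ)
    (p : ℝ × ℝ) : gip h (fun q => (G q).det) k p = G p 1 1 * gip h (fun q => G q 0 0) k p +
      (-2 * G p 0 1) * gip h (fun q => G q 0 1) k p + G p 0 0 * gip h (fun q => G q 1 1) k p :=
  SE_gip3 h _ _ _ _ k _ _ _ p (SE_dd hg p)

private theorem SE_gkD {Λ : ℝ} {h G : ℝ × ℝ → M2} (hg : GoodB Λ h G) (k : ℝ × ℝ → ℝ)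
    (p : ℝ × ℝ) : gip h k (fun q => (G q).det) p = G p 1 1 * gip h k (fun q => G q 0 0) p +
      (-2 * G p 0 1) * gip h k (fun q => G q 0 1) p + G p 0 0 * gip h k (fun q => G q 1 1) p := by
  rw [gip_symm hg, SE_gDk hg, gip_symm hg _ k, gip_symm hg _ k, gip_symm hg _ k]

private theorem SE_gDD {Λ : ℝ} {h G : ℝ × ℝ → M2} (hg : GoodB Λ h G) (p : ℝ × ℝ) :
    gip h (fun q => (G q).det) (fun q => (G q).det) p =
      G p 0 0 ^ 2 * gip h (fun q => G q 1 1) (fun q => G q 1 1) p +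
      G p 1 1 ^ 2 * gip h (fun q => G q 0 0) (fun q => G q 0 0) p +
      4 * G p 0 1 ^ 2 * gip h (fun q => G q 0 1) (fun q => G q 0 1) p +
      2 * G p 0 0 * G p 1 1 * gip h (fun q => G q 0 0) (fun q => G q 1 1) p -
      4 * G p 0 0 * G p 0 1 * gip h (fun q => G q 0 1) (fun q => G q 1 1) p -
      4 * G p 0 1 * G p 1 1 * gip h (fun q => G q 0 0) (fun q => G q 0 1) p := by
  rw [SE_gDk hg, SE_gkD hg, SE_gkD hg, SE_gkD hg,
    gip_symm hg (fun q => G q 1 1) (fun q => G q 0 0),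
    gip_symm hg (fun q => G q 1 1) (fun q => G q 0 1),
    gip_symm hg (fun q => G q 0 1) (fun q => G q 0 0)]
  ring

private theorem SE_Lx {Λ : ℝ} {h G : ℝ × ℝ → M2} (hg : GoodB Λ h G) (p : ℝ × ℝ) :
    Lop h G (fun q => G q 0 0) p =
      (G p 1 1 * gip h (fun q => G q 0 0) (fun q => G q 0 0) p -
        2 * G p 0 1 * gip h (fun q => G q 0 0) (fun q => G q 0 1) p +
        G p 0 0 * gip h (fun q => G q 0 1) (fun q => G q 0 1) p) / (G p).det -
      2 * Λ * G p 0 0 := by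
  obtain ⟨i1, i2, i3, i4⟩ := SE_inv hg p
  have h1 := Lop_G hg p 0 0
  simp only [Fin.sum_univ_two, SE_symf hg, i1, i2, i3, i4] at h1
  rw [gip_symm hg (fun q => G q 0 1) (fun q => G q 0 0)] at h1
  rw [h1]
  ring

private theorem SE_Ly {Λ : ℝ} {h G : ℝ × ℝ → M2} (hg : GoodB Λ h G) (p : ℝ × ℝ) :
    Lop h G (fun q => G q 0 1) p =
      (G p 1 1 * gip h (fun q => G q 0 0) (fun q => G q 0 1) p -
        G p 0 1 * gip h (fun q => G q 0 0) (fun q => G q 1 1) p -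
        G p 0 1 * gip h (fun q => G q 0 1) (fun q => G q 0 1) p +
        G p 0 0 * gip h (fun q => G q 0 1) (fun q => G q 1 1) p) / (G p).det -
      2 * Λ * G p 0 1 := by
  obtain ⟨i1, i2, i3, i4⟩ := SE_inv hg p
  have h1 := Lop_G hg p 0 1
  simp only [Fin.sum_univ_two, i1, i2, i3, i4] at h1
  rw [h1]
  ring

private theorem SE_Lz {Λ : ℝ} {h G : ℝ × ℝ → M2} (hg : GoodB Λ h G) (p : ℝ × ℝ) :
    Lop h G (fun q => G q 1 1) p =
      (G p 1 1 * gip h (fun q => G q 0 1) (fun q => G q 0 1) p -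
        2 * G p 0 1 * gip h (fun q => G q 0 1) (fun q => G q 1 1) p +
        G p 0 0 * gip h (fun q => G q 1 1) (fun q => G q 1 1) p) / (G p).det -
      2 * Λ * G p 1 1 := by
  obtain ⟨i1, i2, i3, i4⟩ := SE_inv hg p
  have h1 := Lop_G hg p 1 1
  simp only [Fin.sum_univ_two, SE_symf hg, i1, i2, i3, i4] at h1
  rw [gip_symm hg (fun q => G q 1 1) (fun q => G q 0 1)] at h1
  rw [h1]
  ring

private theorem SE_smdet {Λ : ℝ} {h G : ℝ × ℝ → M2} (hg : GoodB Λ h G) :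
    ContDiff ℝ ∞ (fun q => (G q).det) := by
  have h2 : (fun q => (G q).det) = fun q => G q 0 0 * G q 1 1 - G q 0 1 * G q 0 1 :=
    funext fun q => SE_det hg q
  rw [h2]
  exact ((hg.smG 0 0).mul (hg.smG 1 1)).sub ((hg.smG 0 1).mul (hg.smG 0 1))

theorem Lop_det {Λ : ℝ} {h G : ℝ × ℝ → M2} (hg : GoodB Λ h G) (p : ℝ × ℝ) :
    Lop h G (fun q => (G q).det) p =
      gip h (fun q => (G q).det) (fun q => (G q).det) p / (G p).det - 4 * Λ * (G p).det := by
  have h2 : (fun q => (G q).det) = fun q => (fun r => G r 0 0 * G r 1 1) q +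
      (fun r => (-1) * (fun r' => G r' 0 1 * G r' 0 1) r) q := by
    funext q
    rw [SE_det hg q]
    ring
  have hD := SE_pos hg p
  have h3 : Lop h G (fun q => (G q).det) p =
      G p 0 0 * Lop h G (fun q => G q 1 1) p + G p 1 1 * Lop h G (fun q => G q 0 0) p +
      2 * gip h (fun q => G q 0 0) (fun q => G q 1 1) p +
      (-1) * (G p 0 1 * Lop h G (fun q => G q 0 1) p + G p 0 1 * Lop h G (fun q => G q 0 1) p +
      2 * gip h (fun q => G q 0 1) (fun q => G q 0 1) p) := by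
    rw [h2, Lop_add hg ((hg.smG 0 0).mul (hg.smG 1 1))
      (contDiff_const.mul ((hg.smG 0 1).mul (hg.smG 0 1))),
      Lop_mul hg (hg.smG 0 0) (hg.smG 1 1),
      Lop_smul hg ((hg.smG 0 1).mul (hg.smG 0 1)), Lop_mul hg (hg.smG 0 1) (hg.smG 0 1)]
  rw [h3, SE_Lx hg, SE_Ly hg, SE_Lz hg, SE_gDD hg]
  have h4 := SE_det hg p
  have h5 : (G p).det ≠ 0 := hD.ne'
  field_simp
  rw [h4]
  ring

theorem Lop_sigma {Λ : ℝ} {h G : ℝ × ℝ → M2} (hg : GoodB Λ h G) (p : ℝ × ℝ) :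
    Lop h G (fun q => Real.log (G q).det / 2) p = -2 * Λ := by
  have h1 : (fun q => Real.log (G q).det / 2) =
      fun q => (1 / 2 : ℝ) * (fun r => Real.log (G r).det) q := by
    funext q
    ring
  have hD := (SE_pos hg p).ne'
  rw [h1, Lop_smul hg ((SE_smdet hg).log fun q => (SE_pos hg q).ne'),
    Lop_log hg (SE_smdet hg) (SE_pos hg), Lop_det hg]
  field_simp
  ring

private theorem SE_ddw {Λ : ℝ} {h G : ℝ × ℝ → M2} (hg : GoodB Λ h G) (p : ℝ × ℝ) (a : Fin 2) :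
    dd a (fun q => (√(G q).det)⁻¹) p =
      (-(√(G p).det)⁻¹ / (2 * (G p).det)) * dd a (fun q => (G q).det) p := by
  have hD := SE_pos hg p
  have h0 := ((SE_smdet hg).differentiable (by simp) p).hasFDerivAt
  have hs : √(G p).det ≠ 0 := (Real.sqrt_pos.2 hD).ne'
  have h1 : HasDerivAt (fun t : ℝ => (√t)⁻¹) (-(1 / (2 * √(G p).det)) / (√(G p).det) ^ 2)
      (G p).det := (Real.hasDerivAt_sqrt hD.ne').inv hs
  have h2 := h1.comp_hasFDerivAt p h0
  unfold dd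
  have h4 := congrArg (fun L => L (bv a)) h2.fderiv
  refine h4.trans ?_
  simp only [_root_.smul_apply, smul_eq_mul]
  have h5 : √(G p).det ^ 2 = (G p).det := Real.sq_sqrt hD.le
  rw [h5]
  field_simp

private theorem SE_smw {Λ : ℝ} {h G : ℝ × ℝ → M2} (hg : GoodB Λ h G) :
    ContDiff ℝ ∞ (fun q => (√(G q).det)⁻¹) :=
  ((SE_smdet hg).sqrt fun q => (SE_pos hg q).ne').inv
    fun q => (Real.sqrt_pos.2 (SE_pos hg q)).ne'

private theorem SE_Lw {Λ : ℝ} {h G : ℝ × ℝ → M2} (hg : GoodB Λ h G) (p : ℝ × ℝ) :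
    Lop h G (fun q => (√(G q).det)⁻¹) p = (√(G p).det)⁻¹ * (2 * Λ +
      gip h (fun q => (G q).det) (fun q => (G q).det) p / (4 * (G p).det ^ 2)) := by
  have hD := SE_pos hg p
  have hs : 0 < √(G p).det := Real.sqrt_pos.2 hD
  have h1 : (fun q => Real.log ((fun r => (√(G r).det)⁻¹) q)) =
      fun q => (-1 : ℝ) * (fun r => Real.log (G r).det / 2) q := by
    funext q
    simp only [Real.log_inv, Real.log_sqrt (SE_pos hg q).le]
    ring
  have h2 := Lop_log hg (SE_smw hg) (fun q => inv_pos.2 (Real.sqrt_pos.2 (SE_pos hg q))) p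
  rw [h1, Lop_smul hg (((SE_smdet hg).log fun q => (SE_pos hg q).ne').div_const 2),
    Lop_sigma hg, SE_gip1 h _ _ _ _ p (SE_ddw hg p), gip_symm hg,
    SE_gip1 h _ _ _ _ p (SE_ddw hg p)] at h2
  have h3 : (√(G p).det)⁻¹ ≠ 0 := (inv_pos.2 hs).ne'
  have h4 : Lop h G (fun q => (√(G q).det)⁻¹) p / (√(G p).det)⁻¹ = 2 * Λ +
      gip h (fun q => (G q).det) (fun q => (G q).det) p / (4 * (G p).det ^ 2) := by
    have h5 : (-(√(G p).det)⁻¹ / (2 * (G p).det)) * ((-(√(G p).det)⁻¹ / (2 * (G p).det)) *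
        gip h (fun q => (G q).det) (fun q => (G q).det) p) / (√(G p).det)⁻¹ ^ 2 =
        gip h (fun q => (G q).det) (fun q => (G q).det) p / (4 * (G p).det ^ 2) := by
      field_simp
      ring
    rw [h5] at h2
    linarith
  rw [div_eq_iff h3] at h4
  rw [h4]
  ring

private theorem SE_quad (x y z a b c : ℝ) (hx : 0 < x) (hD : 0 < x * z - y * y) :
    0 ≤ 4 * (x * z - y * y) * (b ^ 2 - a * c) + (x * c + z * a - 2 * y * b) ^ 2 := by
  have h1 : x ^ 2 * (4 * (x * z - y * y) * (b ^ 2 - a * c) + (x * c + z * a - 2 * y * b) ^ 2) =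
      (x * (x * c - z * a) - 2 * y * (x * b - y * a)) ^ 2 +
      4 * (x * b - y * a) ^ 2 * (x * z - y * y) := by ring
  have h2 : 0 ≤ x ^ 2 *
      (4 * (x * z - y * y) * (b ^ 2 - a * c) + (x * c + z * a - 2 * y * b) ^ 2) := by
    rw [h1]
    positivity
  exact nonneg_of_mul_nonneg_right h2 (by positivity)

theorem Lop_B {Λ : ℝ} {h G : ℝ × ℝ → M2} (hg : GoodB Λ h G) : ∃ e : ℝ × ℝ → ℝ,
    (∀ p, 0 ≤ e p) ∧ ∀ p, Lop h G (fun q => G q 0 1 / √(G q).det) p =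
      e p * (G p 0 1 / √(G p).det) := by
  refine ⟨fun p => (gip h (fun q => G q 0 1) (fun q => G q 0 1) p -
    gip h (fun q => G q 0 0) (fun q => G q 1 1) p) / (G p).det +
    gip h (fun q => (G q).det) (fun q => (G q).det) p / (4 * (G p).det ^ 2), fun p => ?_,
    fun p => ?_⟩
  · have hD := SE_pos hg p
    have hx : 0 < G p 0 0 := (hg.posG p).diag_pos
    have h1 : (gip h (fun q => G q 0 1) (fun q => G q 0 1) p -
        gip h (fun q => G q 0 0) (fun q => G q 1 1) p) / (G p).det +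
        gip h (fun q => (G q).det) (fun q => (G q).det) p / (4 * (G p).det ^ 2) =
        (4 * (G p).det * (gip h (fun q => G q 0 1) (fun q => G q 0 1) p -
        gip h (fun q => G q 0 0) (fun q => G q 1 1) p) +
        gip h (fun q => (G q).det) (fun q => (G q).det) p) / (4 * (G p).det ^ 2) := by
      field_simp
    refine le_trans ?_ (le_of_eq h1.symm)
    refine div_nonneg ?_ (by positivity)
    have hM := hinv_pos hg p
    have hM0 : 0 < (h p)⁻¹ 0 0 := hM.diag_pos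
    have hMd : 0 < (h p)⁻¹.det := hM.det_pos
    have hMs : (h p)⁻¹ 1 0 = (h p)⁻¹ 0 1 := by simpa using hM.isHermitian.apply 0 1
    rw [Matrix.det_fin_two, hMs] at hMd
    set M := (h p)⁻¹ with hMdef
    have key : ∀ f k : ℝ × ℝ → ℝ, gip h f k p =
        (M 0 0 * dd 0 f p + M 0 1 * dd 1 f p) * (M 0 0 * dd 0 k p + M 0 1 * dd 1 k p) / M 0 0 +
        (M 0 0 * M 1 1 - M 0 1 * M 0 1) / M 0 0 * (dd 1 f p * dd 1 k p) := by
      intro f k
      simp only [gip, Fin.sum_univ_two, ← hMdef, hMs]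
      field_simp
      ring
    rw [SE_gDD hg]
    simp only [key]
    have hdet := SE_det hg p
    rw [hdet] at hD ⊢
    have q1 := SE_quad (G p 0 0) (G p 0 1) (G p 1 1)
      (M 0 0 * dd 0 (fun q => G q 0 0) p + M 0 1 * dd 1 (fun q => G q 0 0) p)
      (M 0 0 * dd 0 (fun q => G q 0 1) p + M 0 1 * dd 1 (fun q => G q 0 1) p)
      (M 0 0 * dd 0 (fun q => G q 1 1) p + M 0 1 * dd 1 (fun q => G q 1 1) p) hx hD
    have q2 := SE_quad (G p 0 0) (G p 0 1) (G p 1 1) (dd 1 (fun q => G q 0 0) p)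
      (dd 1 (fun q => G q 0 1) p) (dd 1 (fun q => G q 1 1) p) hx hD
    have q3 := add_nonneg (div_nonneg q1 hM0.le)
      (mul_nonneg (div_nonneg hMd.le hM0.le) q2)
    refine q3.trans (le_of_eq ?_)
    field_simp
    ring
  · have hD := SE_pos hg p
    have hs : 0 < √(G p).det := Real.sqrt_pos.2 hD
    have h1 : (fun q => G q 0 1 / √(G q).det) =
        fun q => (fun r => G r 0 1) q * (fun r => (√(G r).det)⁻¹) q := by
      funext q
      rw [div_eq_mul_inv]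
    beta_reduce
    rw [h1, Lop_mul hg (hg.smG 0 1) (SE_smw hg), SE_Lw hg, SE_Ly hg,
      gip_symm hg (fun q => G q 0 1) (fun q => (√(G q).det)⁻¹),
      SE_gip1 h _ _ _ _ p (SE_ddw hg p), SE_gDk hg (fun q => G q 0 1) p,
      gip_symm hg (fun q => G q 1 1) (fun q => G q 0 1)]
    set DD := gip h (fun q => (G q).det) (fun q => (G q).det) p
    have hne := hD.ne'
    have hsne := hs.ne'
    field_simp
    ring

end Pool.Agent.T2S4
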