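import Pool.Agent.T2S4.Glue

/-!
# From the two charts to infinity

PACKAGE. Prove the theorem (helper lemmas allowed, private or prefixed by `SmallTwo_`).

Given `ε`, take `R ≥ 1` for `F` and `F'`. Let `p` be outside of the compact set
`A = [-R', R']² ∪ inv2 ([-R', R']²)` (`inv2` is continuous), `R' = max R 1`. If
`exp(2 p.1) + exp(2 p.2) ≤ 1` then `p.1, p.2 ≤ 0`, so `p ∉ [-R', R']²` gives `p.1 < -R` or `p.2 < -R` and
`|F p| < ε`. Otherwise `q = inv2 p` has `exp(2 q.1) + exp(2 q.2) < 1` (`exp_inv2`), `inv2 q = p` and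
`q ∉ [-R', R']²` (otherwise `p = inv2 q ∈ A`), so `|F p| = |F' q| < ε`. (`Filter.mem_cocompact`.)
-/

set_option autoImplicit false

namespace Pool.Agent.T2S4

open Matrix Filter Topology
open scoped ContDiff

private theorem SmallTwo_box {R R' : ℝ} (hR : R ≤ R') (h1 : 1 ≤ R') {p : ℝ × ℝ}
    (hp : Real.exp (2 * p.1) + Real.exp (2 * p.2) ≤ 1)
    (hn : p ∉ Set.Icc (-R') R' ×ˢ Set.Icc (-R') R') : p.1 < -R ∨ p.2 < -R := by
  have e1 : p.1 ≤ 0 := by
    by_contra hcon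
    push Not at hcon
    have := Real.one_lt_exp_iff.2 (show 0 < 2 * p.1 by linarith)
    have := Real.exp_pos (2 * p.2)
    linarith
  have e2 : p.2 ≤ 0 := by
    by_contra hcon
    push Not at hcon
    have := Real.one_lt_exp_iff.2 (show 0 < 2 * p.2 by linarith)
    have := Real.exp_pos (2 * p.1)
    linarith
  by_contra hcon
  push Not at hcon
  exact hn ⟨⟨by linarith [hcon.1], by linarith⟩, ⟨by linarith [hcon.2], by linarith⟩⟩

theorem small_two {F F' : ℝ × ℝ → ℝ} (h : Small F) (h' : Small F')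
    (hF : ∀ p, F p = F' (inv2 p)) : Tendsto F (cocompact (ℝ × ℝ)) (𝓝 0) := by
  rw [Metric.tendsto_nhds]
  intro ε hε
  obtain ⟨R₁, h₁⟩ := h ε hε
  obtain ⟨R₂, h₂⟩ := h' ε hε
  set R' : ℝ := max (max R₁ R₂) 1 with hR'
  have hR₁ : R₁ ≤ R' := (le_max_left _ _).trans (le_max_left _ _)
  have hR₂ : R₂ ≤ R' := (le_max_right _ _).trans (le_max_left _ _)
  have h1 : 1 ≤ R' := le_max_right _ _
  have hB : IsCompact (Set.Icc (-R') R' ×ˢ Set.Icc (-R') R') := isCompact_Icc.prod isCompact_Icc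
  have hA : IsCompact ((Set.Icc (-R') R' ×ˢ Set.Icc (-R') R') ∪
      inv2 '' (Set.Icc (-R') R' ×ˢ Set.Icc (-R') R')) :=
    hB.union (hB.image inv2_smooth.continuous)
  refine Filter.mem_cocompact.2 ⟨_, hA, fun p hp => ?_⟩
  have hp1 : p ∉ Set.Icc (-R') R' ×ˢ Set.Icc (-R') R' := fun hc => hp (Or.inl hc)
  have hp2 : p ∉ inv2 '' (Set.Icc (-R') R' ×ˢ Set.Icc (-R') R') := fun hc => hp (Or.inr hc)
  change dist (F p) 0 < ε
  rw [Real.dist_eq, sub_zero]
  by_cases hS : Real.exp (2 * p.1) + Real.exp (2 * p.2) ≤ 1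
  · exact h₁ p hS (SmallTwo_box hR₁ h1 hS hp1)
  · push Not at hS
    rw [hF]
    have hq : Real.exp (2 * (inv2 p).1) + Real.exp (2 * (inv2 p).2) ≤ 1 := by
      rw [exp_inv2]
      exact inv_le_one_of_one_le₀ hS.le
    refine h₂ _ hq (SmallTwo_box hR₂ h1 hq fun hc => hp2 ⟨inv2 p, hc, inv2_inv2 p⟩)

end Pool.Agent.T2S4
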