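import Mathlib

/-!
# Unique continuation: the frequency function

PACKAGE (real analysis in one variable). Prove the theorem (helper lemmas allowed, private or
prefixed by `UCFreq_`).

Suppose `H r₁ > 0`, `0 < r₁ < R`. Where `H > 0` let `N = r D / H ≥ 0`. Then
`N' = D / H + r D' / H - r D H' / H² ≥ D/H + r (2 S - C D)/H - r D (H/r + 2 D + C H)/H²
 = 2 r (S H - D²)/H² - 2 C r D / H ≥ - 2 C N`.
So `N e^{2 C r}` is nondecreasing on every interval on which `H > 0`. Let `I` be the set of `r ∈ (0, r₁]`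
such that `H > 0` on `[r, r₁]`. On `I`: `N(r) ≤ N₀ := N(r₁) e^{2 C r₁}`, and
`(log H)' ≤ 1/r + C + 2 N / r ≤ (1 + 2 N₀)/r + C`, so
`log H(r) ≥ log H(r₁) - (1 + 2 N₀) log (r₁ / r) - C r₁`. Hence `H` has a positive lower bound on
`I ∩ [ε, r₁]` for every `ε > 0`; since `H` is continuous, `I = (0, r₁]` (`I` is closed in `(0, r₁]` and
open). So `H(r) ≥ c r^(1 + 2 N₀)`, `c > 0`, for all `r ≤ r₁`, which contradicts `hdec` for a natural
number `n > 1 + 2 N₀` as `r → 0`.
-/

set_option autoImplicit false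

namespace Pool.Agent.T2S4

open Filter Topology

private theorem N_deriv {H D S H' D' C r : ℝ} (hr : 0 < r) (hC : 0 ≤ C) (hH : 0 < H)
    (hD : 0 ≤ D) (hcs : D ^ 2 ≤ H * S) (h1 : |H' - (H / r + 2 * D)| ≤ C * H)
    (h2 : |D' - 2 * S| ≤ C * D) :
    0 ≤ ((1 * D + r * D') * H - r * D * H') / H ^ 2 + 2 * C * (r * D / H) := by
  have h3 := (abs_le.1 h1).2
  have h4 := (abs_le.1 h2).1
  have e1 : ((1 * D + r * D') * H - r * D * H') / H ^ 2 + 2 * C * (r * D / H) =
      ((1 * D + r * D') * H - r * D * H' + 2 * C * r * D * H) / H ^ 2 := by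
    field_simp
  rw [e1]
  apply div_nonneg _ (sq_nonneg H)
  have h5 : r * D * H' ≤ r * D * (H / r + 2 * D + C * H) :=
    mul_le_mul_of_nonneg_left (by linarith) (mul_nonneg hr.le hD)
  have h6 : r * D * (H / r + 2 * D + C * H) = D * H + 2 * r * D ^ 2 + C * r * D * H := by
    field_simp
  have h7 : r * H * (2 * S - C * D) ≤ r * H * D' :=
    mul_le_mul_of_nonneg_left (by linarith) (mul_nonneg hr.le hH.le)
  have h8 : r * D ^ 2 ≤ r * (H * S) := mul_le_mul_of_nonneg_left hcs hr.le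
  nlinarith

private theorem lower {H D S : ℝ → ℝ} {R C : ℝ} (hC : 0 ≤ C)
    (hD : ∀ r, 0 < r → r < R → 0 ≤ D r)
    (hcs : ∀ r, 0 < r → r < R → D r ^ 2 ≤ H r * S r)
    (hH' : ∀ r, 0 < r → r < R → ∃ H' : ℝ, HasDerivAt H H' r ∧ |H' - (H r / r + 2 * D r)| ≤ C * H r)
    (hD' : ∀ r, 0 < r → r < R → ∃ D' : ℝ, HasDerivAt D D' r ∧ |D' - 2 * S r| ≤ C * D r)
    {a b : ℝ} (ha : 0 < a) (hab : a ≤ b) (hb : b < R) (hpos : ∀ r, a ≤ r → r ≤ b → 0 < H r) :
    Real.exp (Real.log (H b) - (1 + 2 * (b * D b / H b * Real.exp (2 * C * b))) * Real.log b -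
      C * b) * a ^ (1 + 2 * (b * D b / H b * Real.exp (2 * C * b))) ≤ H a := by
  set N₀ := b * D b / H b * Real.exp (2 * C * b) with hN₀
  -- the frequency is almost monotone
  have hmono : MonotoneOn (fun r => r * D r / H r * Real.exp (2 * C * r)) (Set.Icc a b) := by
    have hder : ∀ r ∈ Set.Icc a b, ∃ g : ℝ, 0 ≤ g ∧
        HasDerivAt (fun r => r * D r / H r * Real.exp (2 * C * r)) g r := by
      rintro r ⟨h1, h2⟩
      have hr : 0 < r := ha.trans_le h1
      have hrR : r < R := h2.trans_lt hb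
      have hHr := hpos r h1 h2
      obtain ⟨H', hH1, hH2⟩ := hH' r hr hrR
      obtain ⟨D', hD1, hD2⟩ := hD' r hr hrR
      have h3 := (((hasDerivAt_id r).mul hD1).div hH1 hHr.ne').mul
        (((hasDerivAt_id r).const_mul (2 * C)).exp)
      refine ⟨_, ?_, h3⟩
      have h4 := N_deriv hr hC hHr (hD r hr hrR) (hcs r hr hrR) hH2 hD2
      have h5 := mul_nonneg h4 (Real.exp_pos (2 * C * r)).le
      simp only [id, Pi.mul_apply, Pi.div_apply]
      calc (0 : ℝ) ≤ _ := h5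
        _ = _ := by ring
    refine monotoneOn_of_deriv_nonneg (convex_Icc a b) ?_ ?_ ?_
    · intro r hr
      obtain ⟨g, -, hg⟩ := hder r hr
      exact hg.continuousAt.continuousWithinAt
    · intro r hr
      obtain ⟨g, -, hg⟩ := hder r (interior_subset hr)
      exact hg.differentiableAt.differentiableWithinAt
    · intro r hr
      obtain ⟨g, hg0, hg⟩ := hder r (interior_subset hr)
      rw [hg.deriv]
      exact hg0
  have hN : ∀ r ∈ Set.Icc a b, r * D r / H r ≤ N₀ := by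
    intro r hr
    have h1 := hmono hr (Set.right_mem_Icc.2 hab) hr.2
    have hr0 : 0 < r := ha.trans_le hr.1
    have h2 : 0 ≤ r * D r / H r :=
      div_nonneg (mul_nonneg hr0.le (hD r hr0 (hr.2.trans_lt hb))) (hpos r hr.1 hr.2).le
    have h3 : 1 ≤ Real.exp (2 * C * r) := Real.one_le_exp (by positivity)
    calc r * D r / H r = r * D r / H r * 1 := by ring
      _ ≤ r * D r / H r * Real.exp (2 * C * r) := mul_le_mul_of_nonneg_left h3 h2
      _ ≤ N₀ := h1
  -- the logarithm of `H`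
  have hanti : AntitoneOn (fun r => Real.log (H r) - (1 + 2 * N₀) * Real.log r - C * r)
      (Set.Icc a b) := by
    have hder : ∀ r ∈ Set.Icc a b, ∃ g : ℝ, g ≤ 0 ∧
        HasDerivAt (fun r => Real.log (H r) - (1 + 2 * N₀) * Real.log r - C * r) g r := by
      rintro r ⟨h1, h2⟩
      have hr : 0 < r := ha.trans_le h1
      have hrR : r < R := h2.trans_lt hb
      have hHr := hpos r h1 h2
      obtain ⟨H', hH1, hH2⟩ := hH' r hr hrR
      have h3 := ((hH1.log hHr.ne').sub (((Real.hasDerivAt_log hr.ne').const_mul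
        (1 + 2 * N₀)))).sub ((hasDerivAt_id r).const_mul C)
      refine ⟨_, ?_, h3⟩
      have h4 := (abs_le.1 hH2).2
      have h5 : H' / H r ≤ (H r / r + 2 * D r + C * H r) / H r :=
        div_le_div_of_nonneg_right (by linarith) hHr.le
      have h6 : (H r / r + 2 * D r + C * H r) / H r = (1 + 2 * (r * D r / H r)) / r + C := by
        field_simp
      have h7 : (1 + 2 * (r * D r / H r)) / r ≤ (1 + 2 * N₀) / r :=
        div_le_div_of_nonneg_right (by linarith [hN r ⟨h1, h2⟩]) hr.le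
      have h8 : (1 + 2 * N₀) * r⁻¹ = (1 + 2 * N₀) / r := by rw [div_eq_mul_inv]
      rw [h8]
      linarith
    refine antitoneOn_of_deriv_nonpos (convex_Icc a b) ?_ ?_ ?_
    · intro r hr
      obtain ⟨g, -, hg⟩ := hder r hr
      exact hg.continuousAt.continuousWithinAt
    · intro r hr
      obtain ⟨g, -, hg⟩ := hder r (interior_subset hr)
      exact hg.differentiableAt.differentiableWithinAt
    · intro r hr
      obtain ⟨g, hg0, hg⟩ := hder r (interior_subset hr)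
      rw [hg.deriv]
      exact hg0
  have h1 := hanti (Set.left_mem_Icc.2 hab) (Set.right_mem_Icc.2 hab) hab
  beta_reduce at h1
  have hHa := hpos a le_rfl hab
  rw [Real.rpow_def_of_pos ha, ← Real.exp_add]
  have h2 : 0 ≤ C * a := mul_nonneg hC ha.le
  calc Real.exp _ ≤ Real.exp (Real.log (H a)) := by
        apply Real.exp_le_exp.2
        linarith
    _ = H a := Real.exp_log hHa

theorem uc_freq {H D S : ℝ → ℝ} {R C : ℝ} (hR : 0 < R) (hC : 0 ≤ C)
    (hH : ∀ r, 0 < r → r < R → 0 ≤ H r) (hD : ∀ r, 0 < r → r < R → 0 ≤ D r)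
    (hcs : ∀ r, 0 < r → r < R → D r ^ 2 ≤ H r * S r)
    (hH' : ∀ r, 0 < r → r < R → ∃ H' : ℝ, HasDerivAt H H' r ∧ |H' - (H r / r + 2 * D r)| ≤ C * H r)
    (hD' : ∀ r, 0 < r → r < R → ∃ D' : ℝ, HasDerivAt D D' r ∧ |D' - 2 * S r| ≤ C * D r)
    (hdec : ∀ n : ℕ, ∃ K : ℝ, ∀ r, 0 < r → r < R → H r ≤ K * r ^ n) :
    ∀ r, 0 < r → r < R → H r = 0 := by
  intro b hb hbR
  by_contra hne
  have hHb : 0 < H b := lt_of_le_of_ne (hH b hb hbR) (Ne.symm hne)
  have hcont : ∀ r, 0 < r → r < R → ContinuousAt H r := by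
    intro r h1 h2
    obtain ⟨H', h3, -⟩ := hH' r h1 h2
    exact h3.continuousAt
  obtain ⟨p, c, hp, hc, hlow⟩ : ∃ p c : ℝ, 0 ≤ p ∧ 0 < c ∧ ∀ a, 0 < a → a ≤ b →
      (∀ r, a ≤ r → r ≤ b → 0 < H r) → c * a ^ p ≤ H a := by
    refine ⟨_, _, ?_, Real.exp_pos _, fun a ha hab hpos =>
      lower hC hD hcs hH' hD' ha hab hbR hpos⟩
    have h1 : 0 ≤ b * D b / H b * Real.exp (2 * C * b) :=
      mul_nonneg (div_nonneg (mul_nonneg hb.le (hD b hb hbR)) hHb.le) (Real.exp_pos _).le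
    linarith
  -- `H` is positive on `(0, b]`
  have hpos : ∀ a, 0 < a → a ≤ b → 0 < H a := by
    intro a ha hab
    by_contra hna
    have hHa : H a = 0 := le_antisymm (not_lt.1 hna) (hH a ha (hab.trans_lt hbR))
    let Z : Set ℝ := {r | r ∈ Set.Icc a b ∧ H r = 0}
    have hZa : a ∈ Z := ⟨⟨le_rfl, hab⟩, hHa⟩
    have hZb : BddAbove Z := ⟨b, fun r hr => hr.1.2⟩
    have hZc : IsClosed Z := by
      have h1 : ContinuousOn H (Set.Icc a b) := fun r hr =>
        (hcont r (ha.trans_le hr.1) (hr.2.trans_lt hbR)).continuousWithinAt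
      have h2 := h1.preimage_isClosed_of_isClosed isClosed_Icc (isClosed_singleton (x := (0 : ℝ)))
      exact h2
    have hs : sSup Z ∈ Z := hZc.csSup_mem ⟨a, hZa⟩ hZb
    obtain ⟨⟨hs1, hs2⟩, hs3⟩ := hs
    have hs0 : 0 < sSup Z := ha.trans_le hs1
    have hsb : sSup Z < b := by
      rcases hs2.lt_or_eq with h | h
      · exact h
      · rw [h] at hs3
        exact absurd hs3 hne
    have h1 : ∀ r, sSup Z < r → r ≤ b → c * sSup Z ^ p ≤ H r := by
      intro r h1 h2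
      have h3 : ∀ t, r ≤ t → t ≤ b → 0 < H t := by
        intro t h3 h4
        have h5 : t ∉ Z := fun h => absurd (le_csSup hZb h) (not_le.2 (h1.trans_le h3))
        have h6 : H t ≠ 0 := fun h => h5 ⟨⟨hs1.trans (h1.le.trans h3), h4⟩, h⟩
        exact lt_of_le_of_ne (hH t (hs0.trans (h1.trans_le h3)) (h4.trans_lt hbR)) (Ne.symm h6)
      refine le_trans ?_ (hlow r (hs0.trans h1) h2 h3)
      exact mul_le_mul_of_nonneg_left (Real.rpow_le_rpow hs0.le h1.le hp) hc.le
    have h2 : c * sSup Z ^ p ≤ H (sSup Z) := by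
      have h3 : Tendsto H (𝓝[>] sSup Z) (𝓝 (H (sSup Z))) :=
        (hcont _ hs0 (hsb.trans hbR)).mono_left nhdsWithin_le_nhds
      refine ge_of_tendsto h3 ?_
      filter_upwards [Ioo_mem_nhdsGT hsb] with r hr
      exact h1 r hr.1 hr.2.le
    rw [hs3] at h2
    have h3 : 0 < c * sSup Z ^ p := mul_pos hc (Real.rpow_pos_of_pos hs0 p)
    linarith
  -- the contradiction
  obtain ⟨K, hK⟩ := hdec (⌈p⌉₊ + 1)
  have h1 : ∀ a, 0 < a → a ≤ b → a ≤ 1 → c ≤ K * a := by
    intro a ha hab ha1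
    have h2 := hlow a ha hab fun r h3 h4 => hpos r (ha.trans_le h3) h4
    have h3 := hK a ha (hab.trans_lt hbR)
    have h4 : a ^ (⌈p⌉₊ : ℝ) ≤ a ^ p :=
      Real.rpow_le_rpow_of_exponent_ge ha ha1 (Nat.le_ceil p)
    rw [Real.rpow_natCast] at h4
    have h5 : 0 < a ^ ⌈p⌉₊ := pow_pos ha _
    have h6 : c * a ^ ⌈p⌉₊ ≤ K * a * a ^ ⌈p⌉₊ := by
      calc c * a ^ ⌈p⌉₊ ≤ c * a ^ p := mul_le_mul_of_nonneg_left h4 hc.le
        _ ≤ H a := h2
        _ ≤ K * a ^ (⌈p⌉₊ + 1) := h3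
        _ = K * a * a ^ ⌈p⌉₊ := by ring
    exact le_of_mul_le_mul_right h6 h5
  have hK0 : 0 < |K| + 1 := by positivity
  let a := min (min b 1) (c / (2 * (|K| + 1)))
  have ha0 : 0 < a := lt_min (lt_min hb one_pos) (by positivity)
  have h2 := h1 a ha0 ((min_le_left _ _).trans (min_le_left _ _))
    ((min_le_left _ _).trans (min_le_right _ _))
  have h3 : a ≤ c / (2 * (|K| + 1)) := min_le_right _ _
  have h4 : K * a ≤ (|K| + 1) * (c / (2 * (|K| + 1))) := by
    calc K * a ≤ (|K| + 1) * a := mul_le_mul_of_nonneg_right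
          ((le_abs_self K).trans (by linarith)) ha0.le
      _ ≤ _ := mul_le_mul_of_nonneg_left h3 hK0.le
  have h5 : (|K| + 1) * (c / (2 * (|K| + 1))) = c / 2 := by
    field_simp
  linarith

end Pool.Agent.T2S4
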