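import Pool.Agent.T2S4.UCRel
import Pool.Agent.T2S4.UCFreq
import Pool.Agent.T2S4.LinCh

/-!
# Unique continuation

PACKAGE. Prove the theorems (helper lemmas allowed, private or prefixed by `UC_`).

* `uc_local`: `uc_freq` for `Hu, Du, Su` (`Hu_deriv`, `Du_deriv`, `uc_rellich`, `uc_cs`): if
  `|u x| ≤ K ‖x‖^n` near `0` for every `n` then `Hu r = 0` for `0 < r < R`, so `u = 0` on the circles
  (`am > 0`, continuity of the integrand), hence `u = 0` near `0`. (`hdec`: on the bounded region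
  `Hu r ≤ K r^(2n+1)`.)
* `uc_taylor`: if all derivatives of the smooth function `u` vanish at `0` then `|u x| ≤ K ‖x‖^n` near
  `0` (Taylor's theorem; for example by induction with the mean value inequality applied to the
  iterated derivatives, or `ContDiffAt` Taylor expansions along segments).
* `unique_cont`: the set `Z` of the points at which all iterated derivatives of `u` vanish is closed
  (the iterated derivatives are continuous), nonempty, and open: by `exists_normal` at a point `p` of `Z`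
  and `uc_local` for `v y = u (p + L y)` (whose derivatives vanish at `0`), `u` vanishes near `p`. The plane
  is connected.
-/

set_option autoImplicit false

namespace Pool.Agent.T2S4

open Matrix Filter Topology MeasureTheory
open scoped ContDiff Real

/-- Vanishing of all derivatives at the origin gives decay of every polynomial order. -/
private theorem UC_taylor_aux (n : ℕ) : ∀ (F : Type) [NormedAddCommGroup F] [NormedSpace ℝ F]
    (u : ℝ × ℝ → F), ContDiff ℝ ∞ u → (∀ n : ℕ, iteratedFDeriv ℝ n u 0 = 0) →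
    ∃ K : ℝ, ∀ x : ℝ × ℝ, ‖x‖ ≤ 1 → ‖u x‖ ≤ K * ‖x‖ ^ n := by
  induction n with
  | zero =>
    intro F _ _ u hu _
    obtain ⟨K, hK⟩ := (isCompact_closedBall (0 : ℝ × ℝ) 1).exists_bound_of_continuousOn
      hu.continuous.continuousOn
    refine ⟨K, fun x hx => ?_⟩
    rw [pow_zero, mul_one]
    exact hK x (mem_closedBall_zero_iff.2 hx)
  | succ n ih =>
    intro F _ _ u hu h0
    have hd : ContDiff ℝ ∞ (fderiv ℝ u) := hu.fderiv_right (m := ∞) (by norm_cast)
    have hd0 : ∀ m : ℕ, iteratedFDeriv ℝ m (fderiv ℝ u) 0 = 0 := by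
      intro m
      rw [← norm_eq_zero, norm_iteratedFDeriv_fderiv, h0 (m + 1), norm_zero]
    obtain ⟨K, hK⟩ := ih _ (fderiv ℝ u) hd hd0
    have hu0 : u 0 = 0 := by
      have := h0 0
      rw [← norm_eq_zero, norm_iteratedFDeriv_zero, norm_eq_zero] at this
      exact this
    refine ⟨|K|, fun x hx => ?_⟩
    have h1 : ‖u x - u 0‖ ≤ (|K| * ‖x‖ ^ n) * ‖x - 0‖ := by
      refine (convex_closedBall (0 : ℝ × ℝ) ‖x‖).norm_image_sub_le_of_norm_fderiv_le
        (f := u) (fun y _ => (hu.differentiable (by norm_cast)).differentiableAt) ?_ ?_ ?_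
      · intro y hy
        have hy' : ‖y‖ ≤ ‖x‖ := mem_closedBall_zero_iff.1 hy
        refine (hK y (hy'.trans hx)).trans ?_
        have h2 : ‖y‖ ^ n ≤ ‖x‖ ^ n := pow_le_pow_left₀ (norm_nonneg _) hy' n
        calc K * ‖y‖ ^ n ≤ |K| * ‖y‖ ^ n :=
              mul_le_mul_of_nonneg_right (le_abs_self K) (by positivity)
          _ ≤ |K| * ‖x‖ ^ n := mul_le_mul_of_nonneg_left h2 (abs_nonneg K)
      · exact mem_closedBall_zero_iff.2 (by simp)
      · exact mem_closedBall_zero_iff.2 le_rfl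
    rw [hu0, sub_zero, sub_zero] at h1
    rw [pow_succ, ← mul_assoc]
    exact h1

theorem uc_taylor {u : ℝ × ℝ → ℝ} (hu : ContDiff ℝ ∞ u)
    (h0 : ∀ n : ℕ, iteratedFDeriv ℝ n u 0 = 0) (n : ℕ) :
    ∃ K : ℝ, ∀ x : ℝ × ℝ, ‖x‖ ≤ 1 → |u x| ≤ K * ‖x‖ ^ n :=
  UC_taylor_aux n ℝ u hu h0

private theorem UC_ev_norm {r : ℝ} (hr : 0 ≤ r) (θ : ℝ) : ‖ev r θ‖ ≤ r := by
  unfold ev
  rw [Prod.norm_def]
  refine max_le ?_ ?_
  · simp only [Real.norm_eq_abs]
    rw [abs_mul, abs_of_nonneg hr]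
    calc r * |Real.cos θ| ≤ r * 1 := mul_le_mul_of_nonneg_left (Real.abs_cos_le_one θ) hr
      _ = r := mul_one r
  · simp only [Real.norm_eq_abs]
    rw [abs_mul, abs_of_nonneg hr]
    calc r * |Real.sin θ| ≤ r * 1 := mul_le_mul_of_nonneg_left (Real.abs_sin_le_one θ) hr
      _ = r := mul_one r

private theorem UC_ev_cont : Continuous (fun p : ℝ × ℝ => ev p.1 p.2) := by
  unfold ev
  fun_prop

private theorem UC_nu_cont (i : Fin 2) : Continuous (fun p : ℝ × ℝ => nu p.2 i) := by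
  unfold nu
  fin_cases i
  · simp only [Fin.zero_eta, Fin.isValue, cons_val_zero]
    fun_prop
  · simp only [Fin.mk_one, Fin.isValue, cons_val_one]
    fun_prop

private theorem UC_am_cont {A : ℝ × ℝ → M2} (hA : ∀ i j, ContDiff ℝ ∞ (fun x => A x i j)) :
    Continuous (fun p : ℝ × ℝ => am A p.1 p.2) := by
  unfold am
  refine continuous_finsetSum _ fun i _ => continuous_finsetSum _ fun j _ => ?_
  exact (((hA i j).continuous.comp UC_ev_cont).mul (UC_nu_cont i)).mul (UC_nu_cont j)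

private theorem UC_am_pos {A : ℝ × ℝ → M2} (hA : ∀ x, (A x).PosDef) (r θ : ℝ) :
    0 < am A r θ := by
  have hne : nu θ ≠ 0 := by
    intro h
    have h1 : Real.cos θ = 0 := congrFun h 0
    have h2 : Real.sin θ = 0 := congrFun h 1
    have h3 := Real.cos_sq_add_sin_sq θ
    rw [h1, h2] at h3
    norm_num at h3
  have h := (hA (ev r θ)).dotProduct_mulVec_pos hne
  have e : am A r θ = star (nu θ) ⬝ᵥ (A (ev r θ) *ᵥ nu θ) := by
    unfold am
    simp only [dotProduct, mulVec, Fin.sum_univ_two, star_trivial]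
    ring
  rw [e]
  exact h

/-- Polar coordinates of a point near the origin. -/
private theorem UC_polar (x : ℝ × ℝ) (hx : x ≠ 0) : ∃ r θ : ℝ, 0 < r ∧ r ≤ 2 * ‖x‖ ∧ 0 ≤ θ ∧
    θ ≤ 2 * π ∧ ev r θ = x := by
  set c : ℂ := ⟨x.1, x.2⟩ with hc
  have hc0 : c ≠ 0 := by
    intro h
    apply hx
    have h1 : c.re = 0 := by rw [h]; rfl
    have h2 : c.im = 0 := by rw [h]; rfl
    exact Prod.ext h1 h2
  have hr : 0 < ‖c‖ := norm_pos_iff.2 hc0
  have h1 : ‖c‖ ≤ 2 * ‖x‖ := by
    have h2 := Complex.norm_le_abs_re_add_abs_im c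
    have h3 : |c.re| ≤ ‖x‖ := norm_fst_le x
    have h4 : |c.im| ≤ ‖x‖ := norm_snd_le x
    linarith
  have e1 : ‖c‖ * Real.cos c.arg = x.1 := Complex.norm_mul_cos_arg c
  have e2 : ‖c‖ * Real.sin c.arg = x.2 := Complex.norm_mul_sin_arg c
  have hπ := Real.pi_pos
  by_cases h : 0 ≤ c.arg
  · refine ⟨‖c‖, c.arg, hr, h1, h, ?_, ?_⟩
    · have := Complex.arg_le_pi c
      linarith
    · unfold ev
      exact Prod.ext e1 e2
  · refine ⟨‖c‖, c.arg + 2 * π, hr, h1, ?_, ?_, ?_⟩
    · have := Complex.neg_pi_lt_arg c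
      linarith
    · push Not at h
      linarith
    · unfold ev
      rw [Real.cos_add_two_pi, Real.sin_add_two_pi]
      exact Prod.ext e1 e2

theorem uc_local {A : ℝ × ℝ → M2} {u : ℝ × ℝ → ℝ} (h : UCd A u)
    (h0 : ∀ n : ℕ, iteratedFDeriv ℝ n u 0 = 0) : ∀ᶠ x in 𝓝 (0 : ℝ × ℝ), u x = 0 := by
  obtain ⟨R1, C1, hR1, hC1, hH⟩ := Hu_deriv h
  obtain ⟨R2, C2, hR2, hC2, hD⟩ := uc_rellich h
  set R : ℝ := min (min R1 R2) 1 with hR
  set C : ℝ := max C1 C2 with hC
  have hR0 : 0 < R := lt_min (lt_min hR1 hR2) one_pos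
  have hRR1 : R ≤ R1 := (min_le_left _ _).trans (min_le_left _ _)
  have hRR2 : R ≤ R2 := (min_le_left _ _).trans (min_le_right _ _)
  have hRR3 : R ≤ 1 := min_le_right _ _
  have hC0 : 0 ≤ C := hC1.trans (le_max_left _ _)
  -- the bound of the coefficient
  obtain ⟨M, hM⟩ := (isCompact_Icc (a := (0 : ℝ)) (b := 1)).prod
    (isCompact_Icc (a := (0 : ℝ)) (b := 2 * π)) |>.exists_bound_of_continuousOn
    (UC_am_cont h.smA).continuousOn
  have hπ := Real.pi_pos
  have hM0 : 0 ≤ M := (norm_nonneg _).trans (hM (0, 0) ⟨⟨le_rfl, zero_le_one⟩, ⟨le_rfl,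
    by positivity⟩⟩)
  have hcont : ∀ r, Continuous (fun θ => am A r θ * u (ev r θ) ^ 2 * r) := by
    intro r
    have h1 : Continuous (fun θ => am A r θ) :=
      (UC_am_cont h.smA).comp (continuous_const.prodMk continuous_id)
    have h2 : Continuous (fun θ => u (ev r θ)) :=
      h.smu.continuous.comp (UC_ev_cont.comp (continuous_const.prodMk continuous_id))
    exact (h1.mul (h2.pow 2)).mul continuous_const
  have key : ∀ r, 0 < r → r < R → Hu A u r = 0 := by
    refine uc_freq (H := Hu A u) (D := Du A u) (S := Su A u) hR0 hC0 ?_ ?_ ?_ ?_ ?_ ?_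
    · intro r h1 _
      exact Hu_nonneg h h1
    · intro r h1 _
      exact Du_nonneg h h1
    · intro r h1 _
      exact uc_cs h h1
    · intro r h1 h2
      obtain ⟨H', hH1, hH2⟩ := hH r h1 (h2.trans_le hRR1)
      refine ⟨H', hH1, hH2.trans ?_⟩
      exact mul_le_mul_of_nonneg_right (le_max_left _ _) (Hu_nonneg h h1)
    · intro r h1 h2
      refine ⟨_, Du_deriv h h1, (hD r h1 (h2.trans_le hRR2)).trans ?_⟩
      exact mul_le_mul_of_nonneg_right (le_max_right _ _) (Du_nonneg h h1)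
    · intro n
      obtain ⟨K, hK⟩ := uc_taylor h.smu h0 n
      refine ⟨M * K ^ 2 * (2 * π), fun r h1 h2 => ?_⟩
      have hr1 : r ≤ 1 := h2.le.trans hRR3
      have h3 : ∀ θ ∈ Set.Icc (0 : ℝ) (2 * π), am A r θ * u (ev r θ) ^ 2 * r ≤
          M * K ^ 2 * r ^ n := by
        intro θ hθ
        have h4 : am A r θ ≤ M :=
          (le_abs_self _).trans (hM (r, θ) ⟨⟨h1.le, hr1⟩, hθ⟩)
        have h5 : |u (ev r θ)| ≤ K * ‖ev r θ‖ ^ n := hK _ ((UC_ev_norm h1.le θ).trans hr1)
        have h6 : u (ev r θ) ^ 2 ≤ K ^ 2 * r ^ n := by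
          have h7 : |u (ev r θ)| ^ 2 ≤ (K * ‖ev r θ‖ ^ n) ^ 2 :=
            pow_le_pow_left₀ (abs_nonneg _) h5 2
          rw [sq_abs] at h7
          refine h7.trans ?_
          rw [mul_pow]
          refine mul_le_mul_of_nonneg_left ?_ (sq_nonneg K)
          calc (‖ev r θ‖ ^ n) ^ 2 ≤ (r ^ n) ^ 2 := by
                refine pow_le_pow_left₀ (by positivity) ?_ 2
                exact pow_le_pow_left₀ (norm_nonneg _) (UC_ev_norm h1.le θ) n
            _ = r ^ n * r ^ n := by ring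
            _ ≤ r ^ n * 1 := by
                refine mul_le_mul_of_nonneg_left ?_ (by positivity)
                exact pow_le_one₀ h1.le hr1
            _ = r ^ n := mul_one _
        calc am A r θ * u (ev r θ) ^ 2 * r ≤ am A r θ * u (ev r θ) ^ 2 * 1 := by
              refine mul_le_mul_of_nonneg_left hr1 ?_
              exact mul_nonneg (UC_am_pos h.posA r θ).le (sq_nonneg _)
          _ = am A r θ * u (ev r θ) ^ 2 := mul_one _
          _ ≤ M * u (ev r θ) ^ 2 := mul_le_mul_of_nonneg_right h4 (sq_nonneg _)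
          _ ≤ M * (K ^ 2 * r ^ n) := mul_le_mul_of_nonneg_left h6 hM0
          _ = M * K ^ 2 * r ^ n := by ring
      have h4 : Hu A u r ≤ ∫ _θ in (0 : ℝ)..(2 * π), M * K ^ 2 * r ^ n := by
        unfold Hu
        refine intervalIntegral.integral_mono_on (by positivity)
          ((hcont r).intervalIntegrable _ _) (continuous_const.intervalIntegrable _ _) h3
      refine h4.trans (le_of_eq ?_)
      rw [intervalIntegral.integral_const, smul_eq_mul, sub_zero]
      ring
  -- the function vanishes near the origin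
  have hu0 : u 0 = 0 := by
    have := h0 0
    rw [← norm_eq_zero, norm_iteratedFDeriv_zero, norm_eq_zero] at this
    exact this
  have hball : Metric.ball (0 : ℝ × ℝ) (R / 2) ∈ 𝓝 (0 : ℝ × ℝ) :=
    Metric.ball_mem_nhds _ (by positivity)
  filter_upwards [hball] with x hx
  by_cases hx0 : x = 0
  · rw [hx0, hu0]
  obtain ⟨r, θ, hr, hr2, hθ1, hθ2, rfl⟩ := UC_polar x hx0
  have hrR : r < R := by
    have : ‖ev r θ‖ < R / 2 := mem_ball_zero_iff.1 hx
    linarith
  by_contra hne
  have hpos : 0 < Hu A u r := by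
    unfold Hu
    refine intervalIntegral.integral_pos (by positivity) (hcont r).continuousOn ?_
      ⟨θ, ⟨hθ1, hθ2⟩, ?_⟩
    · intro t _
      exact mul_nonneg (mul_nonneg (UC_am_pos h.posA r t).le (sq_nonneg _)) hr.le
    · exact mul_pos (mul_pos (UC_am_pos h.posA r θ) (by positivity)) hr
  rw [key r hr hrR] at hpos
  exact lt_irrefl _ hpos

theorem unique_cont {A : ℝ × ℝ → M2} {u : ℝ × ℝ → ℝ}
    (hA : ∀ i j, ContDiff ℝ ∞ (fun x => A x i j)) (hp : ∀ x, (A x).PosDef)
    (hu : ContDiff ℝ ∞ u) (he : ∀ x, ∑ i, dd i (fun y => ∑ j, A y i j * dd j u y) x = 0)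
    {p : ℝ × ℝ} (h0 : ∀ n : ℕ, iteratedFDeriv ℝ n u p = 0) : ∀ q, u q = 0 := by
  set Z : Set (ℝ × ℝ) := {q | ∀ n : ℕ, iteratedFDeriv ℝ n u q = 0} with hZ
  have hclosed : IsClosed Z := by
    have e : Z = ⋂ n : ℕ, {q | iteratedFDeriv ℝ n u q = 0} := by
      ext q
      simp [hZ]
    rw [e]
    refine isClosed_iInter fun n => ?_
    exact isClosed_eq (hu.continuous_iteratedFDeriv (by exact_mod_cast le_top)) continuous_const
  have hopen : IsOpen Z := by
    rw [isOpen_iff_mem_nhds]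
    intro q hq
    obtain ⟨L, A', hUC⟩ := exists_normal hA hp hu he q
    have hv0 : ∀ n : ℕ, iteratedFDeriv ℝ n (fun y => u (q + L y)) 0 = 0 := by
      intro n
      have h1 : (fun y => u (q + L y)) = (fun z => u (q + z)) ∘ (L : (ℝ × ℝ) →L[ℝ] (ℝ × ℝ)) := rfl
      have h2 : ContDiff ℝ ∞ (fun z => u (q + z)) := hu.comp (contDiff_const.add contDiff_id)
      rw [h1, ContinuousLinearMap.iteratedFDeriv_comp_right _ h2 0 (i := n)
        (by exact_mod_cast le_top), iteratedFDeriv_comp_add_left]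
      have h3 : q + (L : (ℝ × ℝ) →L[ℝ] (ℝ × ℝ)) 0 = q := by
        rw [map_zero, add_zero]
      rw [h3, hq n]
      ext m
      simp
    have h1 := uc_local hUC hv0
    -- transport to a neighbourhood of `q`
    have h2 : Tendsto (fun x => L.symm (x - q)) (𝓝 q) (𝓝 0) := by
      have h3 : Continuous (fun x => L.symm (x - q)) :=
        L.symm.continuous.comp (continuous_id.sub continuous_const)
      have h4 := h3.tendsto q
      rwa [sub_self, map_zero] at h4
    have h5 : ∀ᶠ x in 𝓝 q, u x = 0 := by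
      filter_upwards [h2.eventually h1] with x hx
      have e : q + L (L.symm (x - q)) = x := by
        rw [ContinuousLinearEquiv.apply_symm_apply]
        abel
      rw [e] at hx
      exact hx
    have h6 : ∀ᶠ x in 𝓝 q, ∀ᶠ y in 𝓝 x, u y = 0 := eventually_eventually_nhds.2 h5
    filter_upwards [h6] with x hx
    intro n
    have h7 : u =ᶠ[𝓝 x] (fun _ => (0 : ℝ)) := hx
    have h8 := (h7.iteratedFDeriv ℝ n).eq_of_nhds
    rw [h8, iteratedFDeriv_fun_zero]
    rfl
  have huniv : Z = Set.univ := IsClopen.eq_univ ⟨hclosed, hopen⟩ ⟨p, h0⟩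
  intro q
  have hq : q ∈ Z := by rw [huniv]; exact Set.mem_univ q
  have := hq 0
  rw [← norm_eq_zero, norm_iteratedFDeriv_zero, norm_eq_zero] at this
  exact this

end Pool.Agent.T2S4
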