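import Pool.Agent.T2S4.UCDefs

/-!
# The divergence theorem on discs in polar coordinates

PACKAGE. Prove the theorems (helper lemmas allowed, private or prefixed by `UCFlux_`).

`flux_deriv`: differentiate under the integral (`intervalIntegral.hasDerivAt_integral_of_dominated_loc_of_deriv_le`
or `hasDerivAt_integral_of_contDiffOn`-type lemmas; the integrand is `C¹` in `(r, θ)`, `r > 0`). With
`F_r = F_0 cos θ + F_1 sin θ`, `F_θ = -F_0 sin θ + F_1 cos θ` (evaluated at `ev r θ`):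
`∂_r (r F_r) + ∂_θ F_θ = r div F`, and `∫ ∂_θ F_θ dθ = 0` over a period.
`flux_zero`: if `F` is bounded near `0` then `flux F r → 0`.
-/

set_option autoImplicit false

namespace Pool.Agent.T2S4

open Matrix Filter Topology MeasureTheory
open scoped ContDiff Real

private theorem ev_ne {r θ : ℝ} (hr : r ≠ 0) : ev r θ ≠ 0 := by
  intro h
  have h1 : r * Real.cos θ = 0 := congrArg Prod.fst h
  have h2 : r * Real.sin θ = 0 := congrArg Prod.snd h
  have h3 := Real.cos_sq_add_sin_sq θ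
  have h4 : Real.cos θ = 0 := (mul_eq_zero.1 h1).resolve_left hr
  have h5 : Real.sin θ = 0 := (mul_eq_zero.1 h2).resolve_left hr
  rw [h4, h5] at h3
  norm_num at h3

private theorem ev_norm {r θ : ℝ} (hr : 0 ≤ r) : ‖ev r θ‖ ≤ r := by
  unfold ev
  rw [Prod.norm_def]
  refine max_le ?_ ?_
  · rw [norm_mul, Real.norm_of_nonneg hr, Real.norm_eq_abs]
    exact mul_le_of_le_one_right hr (Real.abs_cos_le_one θ)
  · rw [norm_mul, Real.norm_of_nonneg hr, Real.norm_eq_abs]
    exact mul_le_of_le_one_right hr (Real.abs_sin_le_one θ)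

private theorem ev_cont : Continuous fun p : ℝ × ℝ => ev p.1 p.2 := by
  unfold ev
  fun_prop

private theorem ev_hr (r θ : ℝ) :
    HasDerivAt (fun ρ => ev ρ θ) (Real.cos θ, Real.sin θ) r := by
  unfold ev
  refine HasDerivAt.prodMk ?_ ?_
  · simpa using (hasDerivAt_id r).mul_const (Real.cos θ)
  · simpa using (hasDerivAt_id r).mul_const (Real.sin θ)

private theorem ev_ht (r θ : ℝ) :
    HasDerivAt (fun t => ev r t) (-(r * Real.sin θ), r * Real.cos θ) θ := by
  unfold ev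
  refine HasDerivAt.prodMk ?_ ?_
  · have h1 := (Real.hasDerivAt_cos θ).const_mul r
    rw [mul_neg] at h1
    exact h1
  · exact (Real.hasDerivAt_sin θ).const_mul r

section

variable {F : Fin 2 → ℝ × ℝ → ℝ} (hF : ∀ i, ContDiffOn ℝ 1 (F i) {x | x ≠ 0})

private theorem op : IsOpen {x : ℝ × ℝ | x ≠ 0} := isOpen_ne

include hF

private theorem hd (i : Fin 2) {x : ℝ × ℝ} (hx : x ≠ 0) :
    HasFDerivAt (F i) (fderiv ℝ (F i) x) x :=
  (((hF i).contDiffAt (op.mem_nhds hx)).differentiableAt (by norm_num)).hasFDerivAt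

private theorem hc (i : Fin 2) :
    ContinuousOn (fun p : ℝ × ℝ => F i (ev p.1 p.2)) {p | p.1 ≠ 0} :=
  (hF i).continuousOn.comp ev_cont.continuousOn fun _ hp => ev_ne hp

private theorem hc' (i : Fin 2) :
    ContinuousOn (fun p : ℝ × ℝ => fderiv ℝ (F i) (ev p.1 p.2)) {p | p.1 ≠ 0} :=
  ((hF i).continuousOn_fderiv_of_isOpen op le_rfl).comp ev_cont.continuousOn
    fun _ hp => ev_ne hp

end

/-- The radial derivative of the integrand. -/
private noncomputable def Gr (F : Fin 2 → ℝ × ℝ → ℝ) (r θ : ℝ) : ℝ :=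
  (∑ i, fderiv ℝ (F i) (ev r θ) (Real.cos θ, Real.sin θ) * nu θ i) * r +
    (∑ i, F i (ev r θ) * nu θ i)

private theorem nu_cont (i : Fin 2) : Continuous fun θ => nu θ i := by
  unfold nu
  fin_cases i
  · exact Real.continuous_cos
  · exact Real.continuous_sin

private theorem gr_cont {F : Fin 2 → ℝ × ℝ → ℝ} (hF : ∀ i, ContDiffOn ℝ 1 (F i) {x | x ≠ 0}) :
    ContinuousOn (fun p : ℝ × ℝ => Gr F p.1 p.2) {p | p.1 ≠ 0} := by
  unfold Gr
  refine ContinuousOn.add (ContinuousOn.mul ?_ continuous_fst.continuousOn) ?_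
  · refine continuousOn_finsetSum _ fun i _ => ContinuousOn.mul ?_
      ((nu_cont i).comp continuous_snd).continuousOn
    refine (hc' hF i).clm_apply ?_
    exact Continuous.continuousOn (by fun_prop)
  · exact continuousOn_finsetSum _ fun i _ => (hc hF i).mul
      ((nu_cont i).comp continuous_snd).continuousOn

private theorem g_cont {F : Fin 2 → ℝ × ℝ → ℝ} (hF : ∀ i, ContDiffOn ℝ 1 (F i) {x | x ≠ 0}) :
    ContinuousOn (fun p : ℝ × ℝ => (∑ i, F i (ev p.1 p.2) * nu p.2 i) * p.1) {p | p.1 ≠ 0} := by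
  refine ContinuousOn.mul ?_ continuous_fst.continuousOn
  exact continuousOn_finsetSum _ fun i _ => (hc hF i).mul
    ((nu_cont i).comp continuous_snd).continuousOn

private theorem slice {g : ℝ × ℝ → ℝ} (hg : ContinuousOn g {p | p.1 ≠ 0}) {r : ℝ} (hr : r ≠ 0) :
    Continuous fun θ => g (r, θ) := by
  rw [← continuousOn_univ]
  exact hg.comp (by fun_prop) fun _ _ => hr

theorem flux_deriv {F : Fin 2 → ℝ × ℝ → ℝ} (hF : ∀ i, ContDiffOn ℝ 1 (F i) {x | x ≠ 0}) {r : ℝ}
    (hr : 0 < r) : HasDerivAt (flux F) (∫ θ in (0 : ℝ)..(2 * π), diver F (ev r θ) * r) r := by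
  -- the bound on a compact set
  have hK : IsCompact (Set.Icc (r / 2) (2 * r) ×ˢ Set.Icc (0 : ℝ) (2 * π)) :=
    isCompact_Icc.prod isCompact_Icc
  have hsub : Set.Icc (r / 2) (2 * r) ×ˢ Set.Icc (0 : ℝ) (2 * π) ⊆ {p : ℝ × ℝ | p.1 ≠ 0} := by
    rintro ⟨p, t⟩ ⟨h1, -⟩
    have h2 : r / 2 ≤ p := h1.1
    have h3 : 0 < p := lt_of_lt_of_le (half_pos hr) h2
    exact h3.ne'
  obtain ⟨C, hC⟩ := hK.exists_bound_of_continuousOn ((gr_cont hF).mono hsub)
  have hs : Set.Ioo (r / 2) (2 * r) ∈ 𝓝 r := Ioo_mem_nhds (by linarith) (by linarith)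
  have h1 : HasDerivAt (fun ρ => ∫ θ in (0 : ℝ)..(2 * π), (∑ i, F i (ev ρ θ) * nu θ i) * ρ)
      (∫ θ in (0 : ℝ)..(2 * π), Gr F r θ) r := by
    refine (intervalIntegral.hasDerivAt_integral_of_dominated_loc_of_deriv_le
      (bound := fun _ => C) (F' := fun ρ θ => Gr F ρ θ) hs ?_ ?_ ?_ ?_ ?_ ?_).2
    · filter_upwards [hs] with ρ hρ
      have : ρ ≠ 0 := (lt_trans (half_pos hr) hρ.1).ne'
      exact (slice (g_cont hF) this).aestronglyMeasurable
    · exact (slice (g_cont hF) hr.ne').intervalIntegrable _ _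
    · exact (slice (gr_cont hF) hr.ne').aestronglyMeasurable
    · refine Eventually.of_forall fun θ hθ ρ hρ => ?_
      rw [Set.uIoc_of_le (by positivity)] at hθ
      exact hC (ρ, θ) ⟨⟨hρ.1.le, hρ.2.le⟩, ⟨hθ.1.le, hθ.2⟩⟩
    · exact intervalIntegrable_const
    · refine Eventually.of_forall fun θ _ ρ hρ => ?_
      have hρ0 : ρ ≠ 0 := (lt_trans (half_pos hr) hρ.1).ne'
      unfold Gr
      have h2 : HasDerivAt (fun ρ => ∑ i, F i (ev ρ θ) * nu θ i)
          (∑ i, fderiv ℝ (F i) (ev ρ θ) (Real.cos θ, Real.sin θ) * nu θ i) ρ := by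
        refine HasDerivAt.fun_sum fun i _ => HasDerivAt.mul_const ?_ _
        have h5 := hd hF i (ev_ne (θ := θ) hρ0)
        exact HasFDerivAt.comp_hasDerivAt (f := fun ρ => ev ρ θ) ρ h5 (ev_hr ρ θ)
      have h3 := h2.fun_mul (hasDerivAt_id' ρ)
      rw [mul_one] at h3
      exact h3
  -- the angular part
  set H : ℝ → ℝ := fun θ => -(F 0 (ev r θ) * Real.sin θ) + F 1 (ev r θ) * Real.cos θ with hH
  set H' : ℝ → ℝ := fun θ => diver F (ev r θ) * r - Gr F r θ with hH'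
  have hdiv : Continuous fun θ => diver F (ev r θ) * r := by
    unfold diver dd
    refine Continuous.mul (continuous_finsetSum _ fun i _ => ?_) continuous_const
    exact (slice (g := fun p => fderiv ℝ (F i) (ev p.1 p.2) (bv i))
      ((hc' hF i).clm_apply continuousOn_const) hr.ne')
  have hH'c : Continuous H' := hdiv.sub (slice (gr_cont hF) hr.ne')
  have hHd : ∀ θ, HasDerivAt H (H' θ) θ := by
    intro θ
    have h2 : ∀ i, HasDerivAt (fun t => F i (ev r t))
        (fderiv ℝ (F i) (ev r θ) (-(r * Real.sin θ), r * Real.cos θ)) θ := fun i =>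
      (hd hF i (ev_ne hr.ne')).comp_hasDerivAt θ (ev_ht r θ)
    have h3 := (((h2 0).mul (Real.hasDerivAt_sin θ)).neg).add
      ((h2 1).mul (Real.hasDerivAt_cos θ))
    refine h3.congr_deriv ?_
    simp only [hH', Gr, diver, dd, Fin.sum_univ_two]
    have h4 : ∀ (i : Fin 2) (a b : ℝ), fderiv ℝ (F i) (ev r θ) (a, b) =
        a * fderiv ℝ (F i) (ev r θ) (bv 0) + b * fderiv ℝ (F i) (ev r θ) (bv 1) := by
      intro i a b
      have h5 : ((a, b) : ℝ × ℝ) = a • bv 0 + b • bv 1 := by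
        simp [bv]
      rw [h5, map_add, map_smul, map_smul, smul_eq_mul, smul_eq_mul]
    rw [h4 0 (-(r * Real.sin θ)), h4 1 (-(r * Real.sin θ)), h4 0 (Real.cos θ), h4 1 (Real.cos θ)]
    have h6 : nu θ 0 = Real.cos θ := rfl
    have h7 : nu θ 1 = Real.sin θ := rfl
    rw [h6, h7]
    have h8 := Real.cos_sq_add_sin_sq θ
    set c := Real.cos θ
    set s := Real.sin θ
    set a0 := fderiv ℝ (F 0) (ev r θ) (bv 0)
    set b0 := fderiv ℝ (F 0) (ev r θ) (bv 1)
    set a1 := fderiv ℝ (F 1) (ev r θ) (bv 0)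
    set b1 := fderiv ℝ (F 1) (ev r θ) (bv 1)
    linear_combination (r * a0 + r * b1) * h8
  have h2 : ∫ θ in (0 : ℝ)..(2 * π), H' θ = 0 := by
    rw [intervalIntegral.integral_eq_sub_of_hasDerivAt (fun θ _ => hHd θ)
      (hH'c.intervalIntegrable _ _)]
    simp [hH, ev]
  have h3 : ∫ θ in (0 : ℝ)..(2 * π), diver F (ev r θ) * r =
      ∫ θ in (0 : ℝ)..(2 * π), Gr F r θ := by
    rw [← sub_eq_zero, ← intervalIntegral.integral_sub (hdiv.intervalIntegrable _ _)
      ((slice (gr_cont hF) hr.ne').intervalIntegrable _ _)]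
    exact h2
  rw [h3]
  exact h1

theorem flux_zero {F : Fin 2 → ℝ × ℝ → ℝ} {R C : ℝ} (hR : 0 < R)
    (hb : ∀ i x, x ≠ 0 → ‖x‖ < R → |F i x| ≤ C) : Tendsto (flux F) (𝓝[>] 0) (𝓝 0) := by
  have hlim : Tendsto (fun r : ℝ => (2 * C * r) * |2 * π - 0|) (𝓝[>] 0) (𝓝 0) := by
    have h1 : Continuous fun r : ℝ => (2 * C * r) * |2 * π - 0| := by fun_prop
    have h2 := h1.tendsto 0
    rw [mul_zero, zero_mul] at h2
    exact h2.mono_left nhdsWithin_le_nhds
  refine squeeze_zero_norm' ?_ hlim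
  filter_upwards [Ioo_mem_nhdsGT hR] with r hr
  have hr0 : 0 < r := hr.1
  unfold flux
  refine intervalIntegral.norm_integral_le_of_norm_le_const fun θ _ => ?_
  have h1 : ∀ i, |F i (ev r θ)| ≤ C := fun i =>
    hb i _ (ev_ne hr0.ne') (lt_of_le_of_lt (ev_norm hr0.le) hr.2)
  have hC : 0 ≤ C := (abs_nonneg _).trans (h1 0)
  rw [Fin.sum_univ_two, norm_mul, Real.norm_of_nonneg hr0.le]
  refine mul_le_mul_of_nonneg_right ?_ hr0.le
  have h6 : nu θ 0 = Real.cos θ := rfl
  have h7 : nu θ 1 = Real.sin θ := rfl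
  rw [h6, h7]
  refine (norm_add_le _ _).trans ?_
  rw [norm_mul, norm_mul, Real.norm_eq_abs, Real.norm_eq_abs, Real.norm_eq_abs, Real.norm_eq_abs]
  have h2 := mul_le_mul (h1 0) (Real.abs_cos_le_one θ) (abs_nonneg _) hC
  have h3 := mul_le_mul (h1 1) (Real.abs_sin_le_one θ) (abs_nonneg _) hC
  linarith

end Pool.Agent.T2S4
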