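import Pool.Agent.T2S4.UCFlux

/-!
# Unique continuation: the derivative of `H`

PACKAGE. Prove the theorems (helper lemmas allowed, private or prefixed by `UCH_`).

* `Du_deriv`: `Du = flux (u A ∇u)` (smooth field), its divergence is `⟨A ∇u, ∇u⟩ + u div(A ∇u) = qm`.
  So `Du' = ∫ qm r dθ ≥ 0`, and `Du → 0` as `r → 0` (`flux_zero`), so `Du ≥ 0` on `(0, ∞)`.
* `Hu_deriv`: `r Hu(r) = flux (u² A x) r` (`⟨A x, ν⟩ = r ⟨A ν, ν⟩`), and
  `div (u² A x) = 2 u ⟨∇u, A x⟩ + u² div(A x)`, `div(A x) = ∑ i, A_ii + ∑ i j, x_j ∂_i A_ij = 2 + O(|x|)`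
  and `am = 1 + O(r)`. So `(r H)' = 2 r D + ∫ u² (2 + O(r)) r dθ = 2 r D + 2 H + O(r) H`, i.e.
  `|H' - (H / r + 2 D)| ≤ C H` for `0 < r < R`. (On a small disc `am ≥ 1/2`.)
* `cs`: Cauchy–Schwarz: `Du² ≤ Hu Su` (`u b r = (√am u √r) (b / √am √r)`); for example from
  `0 ≤ ∫ (t √am u + b / √am)² r dθ` for all real `t` (`discrim_le_zero`).
-/

set_option autoImplicit false

namespace Pool.Agent.T2S4

open Matrix Filter Topology MeasureTheory
open scoped ContDiff Real

private lemma dd_smooth {u : ℝ × ℝ → ℝ} (h : ContDiff ℝ ∞ u) (j : Fin 2) :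
    ContDiff ℝ ∞ (dd j u) :=
  (h.fderiv_right (m := ∞) (by simp)).clm_apply contDiff_const

private lemma ev_cont (r : ℝ) : Continuous (ev r) := by
  unfold ev
  fun_prop

private lemma nu_cont (i : Fin 2) : Continuous (fun θ => nu θ i) := by
  fin_cases i <;> simp [nu] <;> fun_prop

private lemma am_cont {A : ℝ × ℝ → M2} (hA : ∀ i j, ContDiff ℝ ∞ (fun x => A x i j)) (r : ℝ) :
    Continuous (am A r) := by
  unfold am
  refine continuous_finsetSum _ fun i _ => continuous_finsetSum _ fun j _ => ?_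
  exact (((hA i j).continuous.comp (ev_cont r)).mul (nu_cont i)).mul (nu_cont j)

private lemma bm_cont {A : ℝ × ℝ → M2} {u : ℝ × ℝ → ℝ}
    (hA : ∀ i j, ContDiff ℝ ∞ (fun x => A x i j)) (hu : ContDiff ℝ ∞ u) (r : ℝ) :
    Continuous (bm A u r) := by
  unfold bm
  refine continuous_finsetSum _ fun i _ => continuous_finsetSum _ fun j _ => ?_
  exact (((hA i j).continuous.comp (ev_cont r)).mul (nu_cont i)).mul
    ((dd_smooth hu j).continuous.comp (ev_cont r))

private lemma am_pos {A : ℝ × ℝ → M2} (hA : ∀ x, (A x).PosDef) (r θ : ℝ) : 0 < am A r θ := by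
  have hne : nu θ ≠ 0 := by
    intro h0
    have h1 := congrFun h0 0
    have h2 := congrFun h0 1
    simp [nu] at h1 h2
    have := Real.cos_sq_add_sin_sq θ
    rw [h1, h2] at this
    norm_num at this
  have h := (hA (ev r θ)).dotProduct_mulVec_pos hne
  have he : am A r θ = star (nu θ) ⬝ᵥ (A (ev r θ)) *ᵥ nu θ := by
    simp only [am, dotProduct, mulVec, Fin.sum_univ_two, Pi.star_apply, star_trivial]
    ring
  rw [he]
  exact h

private lemma qm_nonneg {A : ℝ × ℝ → M2} (hA : ∀ x, (A x).PosDef) (u : ℝ × ℝ → ℝ) (x : ℝ × ℝ) :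
    0 ≤ qm A u x := by
  have h := (hA x).posSemidef.dotProduct_mulVec_nonneg (fun i => dd i u x)
  have he : qm A u x = star (fun i => dd i u x) ⬝ᵥ (A x) *ᵥ (fun i => dd i u x) := by
    simp only [qm, dotProduct, mulVec, Fin.sum_univ_two, Pi.star_apply, star_trivial]
    ring
  rw [he]
  exact h

private lemma A_symm {A : ℝ × ℝ → M2} (hA : ∀ x, (A x).PosDef) (x : ℝ × ℝ) :
    A x 1 0 = A x 0 1 := by
  have := (hA x).isHermitian.apply 0 1
  simpa using this

/-- The field `u A ∇u`. -/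
private noncomputable def Fu (A : ℝ × ℝ → M2) (u : ℝ × ℝ → ℝ) (i : Fin 2) (x : ℝ × ℝ) : ℝ :=
  u x * ∑ j, A x i j * dd j u x

private lemma Fu_smooth {A : ℝ × ℝ → M2} {u : ℝ × ℝ → ℝ} (h : UCd A u) (i : Fin 2) :
    ContDiff ℝ ∞ (Fu A u i) := by
  unfold Fu
  exact h.smu.mul (ContDiff.sum fun j _ => (h.smA i j).mul (dd_smooth h.smu j))

private lemma Du_eq (A : ℝ × ℝ → M2) (u : ℝ × ℝ → ℝ) : Du A u = flux (Fu A u) := by
  funext r
  unfold Du flux
  congr 1
  funext θ
  simp only [Fu, bm, Fin.sum_univ_two]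
  ring

private lemma dd_mul {f g : ℝ × ℝ → ℝ} {x : ℝ × ℝ} (hf : DifferentiableAt ℝ f x)
    (hg : DifferentiableAt ℝ g x) (i : Fin 2) :
    dd i (fun y => f y * g y) x = f x * dd i g x + g x * dd i f x := by
  unfold dd
  rw [fderiv_fun_mul hf hg]
  simp

private lemma diver_Fu {A : ℝ × ℝ → M2} {u : ℝ × ℝ → ℝ} (h : UCd A u) (x : ℝ × ℝ) :
    diver (Fu A u) x = qm A u x := by
  have hd : ∀ i : Fin 2, DifferentiableAt ℝ (fun y => ∑ j, A y i j * dd j u y) x := fun i =>
    ((ContDiff.sum fun j _ => (h.smA i j).mul (dd_smooth h.smu j)).differentiable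
      (by simp)).differentiableAt
  have hu : DifferentiableAt ℝ u x := (h.smu.differentiable (by simp)).differentiableAt
  have e : ∀ i : Fin 2, dd i (Fu A u i) x = u x * dd i (fun y => ∑ j, A y i j * dd j u y) x +
      (∑ j, A x i j * dd j u x) * dd i u x := fun i => dd_mul hu (hd i) i
  have h0 := h.eq x
  unfold diver
  rw [Finset.sum_congr rfl fun i _ => e i, Finset.sum_add_distrib, ← Finset.mul_sum, h0]
  simp only [qm, Fin.sum_univ_two]
  ring

theorem Du_deriv {A : ℝ × ℝ → M2} {u : ℝ × ℝ → ℝ} (h : UCd A u) {r : ℝ} (hr : 0 < r) :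
    HasDerivAt (Du A u) (∫ θ in (0 : ℝ)..(2 * π), qm A u (ev r θ) * r) r := by
  have h1 := flux_deriv (F := Fu A u)
    (fun i => ((Fu_smooth h i).of_le (by simp)).contDiffOn) hr
  rw [← Du_eq] at h1
  simpa only [diver_Fu h] using h1

private lemma Du_tendsto {A : ℝ × ℝ → M2} {u : ℝ × ℝ → ℝ} (h : UCd A u) :
    Tendsto (Du A u) (𝓝[>] 0) (𝓝 0) := by
  rw [Du_eq]
  have hb : ∀ i, ∃ C, ∀ x ∈ Metric.closedBall (0 : ℝ × ℝ) 1, ‖Fu A u i x‖ ≤ C := fun i =>
    (isCompact_closedBall _ _).exists_bound_of_continuousOn (Fu_smooth h i).continuous.continuousOn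
  choose C hC using hb
  refine flux_zero (R := 1) (C := max (C 0) (C 1)) one_pos ?_
  intro i x _ hx
  have hx' : x ∈ Metric.closedBall (0 : ℝ × ℝ) 1 := by
    rw [mem_closedBall_zero_iff]
    exact hx.le
  have := hC i x hx'
  rw [Real.norm_eq_abs] at this
  fin_cases i
  · exact this.trans (le_max_left _ _)
  · exact this.trans (le_max_right _ _)

theorem Du_nonneg {A : ℝ × ℝ → M2} {u : ℝ × ℝ → ℝ} (h : UCd A u) {r : ℝ} (hr : 0 < r) :
    0 ≤ Du A u r := by
  have hmono : MonotoneOn (Du A u) (Set.Ioi 0) := by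
    refine monotoneOn_of_deriv_nonneg (convex_Ioi 0) ?_ ?_ ?_
    · intro x hx
      exact (Du_deriv h hx).continuousAt.continuousWithinAt
    · intro x hx
      rw [interior_Ioi] at hx
      exact (Du_deriv h hx).differentiableAt.differentiableWithinAt
    · intro x hx
      rw [interior_Ioi] at hx
      rw [(Du_deriv h hx).deriv]
      exact intervalIntegral.integral_nonneg (by positivity)
        fun θ _ => mul_nonneg (qm_nonneg h.posA u _) (le_of_lt hx)
  refine le_of_tendsto (Du_tendsto h) ?_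
  have : Set.Ioo (0 : ℝ) r ∈ 𝓝[>] (0 : ℝ) := Ioo_mem_nhdsGT hr
  filter_upwards [this] with s hs
  exact hmono hs.1 hr hs.2.le

theorem Hu_nonneg {A : ℝ × ℝ → M2} {u : ℝ × ℝ → ℝ} (h : UCd A u) {r : ℝ} (hr : 0 < r) :
    0 ≤ Hu A u r := by
  unfold Hu
  exact intervalIntegral.integral_nonneg (by positivity)
    fun θ _ => mul_nonneg (mul_nonneg (am_pos h.posA r θ).le (sq_nonneg _)) hr.le

/-- The coordinates. -/
private def co (j : Fin 2) (x : ℝ × ℝ) : ℝ := ![x.1, x.2] j

private lemma co_smooth (j : Fin 2) : ContDiff ℝ ∞ (co j) := by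
  fin_cases j
  · exact contDiff_fst
  · exact contDiff_snd

private lemma co_ev (r θ : ℝ) (j : Fin 2) : co j (ev r θ) = r * nu θ j := by
  fin_cases j <;> simp [co, ev, nu]

private lemma dd_co (i j : Fin 2) (x : ℝ × ℝ) : dd i (co j) x = if i = j then 1 else 0 := by
  have h0 : fderiv ℝ (co 0) x = ContinuousLinearMap.fst ℝ ℝ ℝ :=
    (hasFDerivAt_fst (𝕜 := ℝ) (p := x)).fderiv
  have h1 : fderiv ℝ (co 1) x = ContinuousLinearMap.snd ℝ ℝ ℝ :=
    (hasFDerivAt_snd (𝕜 := ℝ) (p := x)).fderiv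
  fin_cases i <;> fin_cases j <;> simp [dd, h0, h1, bv]

/-- The field `u² A x`. -/
private noncomputable def Gu (A : ℝ × ℝ → M2) (u : ℝ × ℝ → ℝ) (i : Fin 2) (x : ℝ × ℝ) : ℝ :=
  u x ^ 2 * ∑ j, A x i j * co j x

private lemma Ax_smooth {A : ℝ × ℝ → M2} (hA : ∀ i j, ContDiff ℝ ∞ (fun x => A x i j))
    (i : Fin 2) : ContDiff ℝ ∞ (fun x => ∑ j, A x i j * co j x) :=
  ContDiff.sum fun j _ => (hA i j).mul (co_smooth j)

private lemma Gu_smooth {A : ℝ × ℝ → M2} {u : ℝ × ℝ → ℝ} (h : UCd A u) (i : Fin 2) :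
    ContDiff ℝ ∞ (Gu A u i) := by
  unfold Gu
  exact (h.smu.pow 2).mul (Ax_smooth h.smA i)

private lemma Gu_flux (A : ℝ × ℝ → M2) (u : ℝ × ℝ → ℝ) (r : ℝ) :
    flux (Gu A u) r = r * Hu A u r := by
  unfold Hu flux
  rw [← intervalIntegral.integral_const_mul]
  congr 1
  funext θ
  simp only [Gu, am, co_ev, Fin.sum_univ_two]
  ring

/-- The divergence of `A x`. -/
private noncomputable def dA (A : ℝ × ℝ → M2) (x : ℝ × ℝ) : ℝ :=
  ∑ i, dd i (fun y => ∑ j, A y i j * co j y) x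

private lemma dA_smooth {A : ℝ × ℝ → M2} (hA : ∀ i j, ContDiff ℝ ∞ (fun x => A x i j)) :
    ContDiff ℝ ∞ (dA A) :=
  ContDiff.sum fun i _ => dd_smooth (Ax_smooth hA i) i

private lemma dA_zero {A : ℝ × ℝ → M2} (hA : ∀ i j, ContDiff ℝ ∞ (fun x => A x i j))
    (h0 : A 0 = 1) : dA A 0 = 2 := by
  have hd : ∀ i j : Fin 2, DifferentiableAt ℝ (fun x => A x i j) 0 := fun i j =>
    ((hA i j).differentiable (by simp)).differentiableAt
  have hc : ∀ j : Fin 2, DifferentiableAt ℝ (co j) 0 := fun j =>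
    ((co_smooth j).differentiable (by simp)).differentiableAt
  have e : ∀ i : Fin 2, dd i (fun y => ∑ j, A y i j * co j y) 0 = 1 := by
    intro i
    have e1 : dd i (fun y => ∑ j, A y i j * co j y) 0 =
        ∑ j, dd i (fun y => A y i j * co j y) 0 := by
      have hm : ∀ j ∈ (Finset.univ : Finset (Fin 2)),
          DifferentiableAt ℝ (fun y => A y i j * co j y) 0 := fun j _ => (hd i j).mul (hc j)
      unfold dd
      rw [fderiv_fun_sum hm]
      simp
    rw [e1]
    have e2 : ∀ j, dd i (fun y => A y i j * co j y) 0 = if i = j then 1 else 0 := by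
      intro j
      rw [dd_mul (hd i j) (hc j), dd_co, h0]
      have : co j 0 = 0 := by fin_cases j <;> simp [co]
      rw [this, Matrix.one_apply]
      split_ifs <;> simp
    rw [Finset.sum_congr rfl fun j _ => e2 j]
    simp
  unfold dA
  rw [Finset.sum_congr rfl fun i _ => e i]
  simp

private lemma diver_Gu {A : ℝ × ℝ → M2} {u : ℝ × ℝ → ℝ} (h : UCd A u) (r θ : ℝ) :
    diver (Gu A u) (ev r θ) = 2 * r * (u (ev r θ) * bm A u r θ) +
      u (ev r θ) ^ 2 * dA A (ev r θ) := by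
  have hd : ∀ i : Fin 2, DifferentiableAt ℝ (fun y => ∑ j, A y i j * co j y) (ev r θ) := fun i =>
    ((Ax_smooth h.smA i).differentiable (by simp)).differentiableAt
  have hu : DifferentiableAt ℝ u (ev r θ) := (h.smu.differentiable (by simp)).differentiableAt
  have hu2 : DifferentiableAt ℝ (fun y => u y ^ 2) (ev r θ) := hu.pow 2
  have e0 : ∀ i : Fin 2, dd i (fun y => u y ^ 2) (ev r θ) =
      2 * u (ev r θ) * dd i u (ev r θ) := by
    intro i
    have : (fun y => u y ^ 2) = fun y => u y * u y := by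
      funext y
      ring
    rw [this, dd_mul hu hu]
    ring
  have e : ∀ i : Fin 2, dd i (Gu A u i) (ev r θ) =
      u (ev r θ) ^ 2 * dd i (fun y => ∑ j, A y i j * co j y) (ev r θ) +
      (∑ j, A (ev r θ) i j * co j (ev r θ)) * (2 * u (ev r θ) * dd i u (ev r θ)) := by
    intro i
    have := dd_mul hu2 (hd i) i
    rw [e0] at this
    exact this
  unfold diver dA
  rw [Finset.sum_congr rfl fun i _ => e i, Finset.sum_add_distrib, ← Finset.mul_sum]
  simp only [bm, co_ev, Fin.sum_univ_two, A_symm h.posA]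
  ring

private lemma am_eq (A : ℝ × ℝ → M2) (r θ : ℝ) :
    am A r θ = 1 + ((A (ev r θ) 0 0 - 1) * nu θ 0 * nu θ 0 + A (ev r θ) 0 1 * nu θ 0 * nu θ 1 +
      A (ev r θ) 1 0 * nu θ 1 * nu θ 0 + (A (ev r θ) 1 1 - 1) * nu θ 1 * nu θ 1) := by
  have h := Real.cos_sq_add_sin_sq θ
  simp only [am, Fin.sum_univ_two, nu, Matrix.cons_val_zero, Matrix.cons_val_one]
  linear_combination h

/-- A smooth function is Lipschitz at the origin. -/
private lemma lip0 {f : ℝ × ℝ → ℝ} (hf : ContDiff ℝ ∞ f) :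
    ∃ R C : ℝ, 0 < R ∧ 0 ≤ C ∧ ∀ x, ‖x‖ < R → |f x - f 0| ≤ C * ‖x‖ := by
  have hd : DifferentiableAt ℝ f 0 := (hf.differentiable (by simp)).differentiableAt
  have hO := hd.isBigO_sub
  obtain ⟨C, hC0, hC⟩ := hO.exists_nonneg
  rw [Asymptotics.IsBigOWith, Metric.eventually_nhds_iff_ball] at hC
  obtain ⟨R, hR, h⟩ := hC
  refine ⟨R, C, hR, hC0, fun x hx => ?_⟩
  have := h x (by simpa using hx)
  simpa using this

private lemma ev_norm (r θ : ℝ) (hr : 0 < r) : ‖ev r θ‖ ≤ r := by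
  rw [Prod.norm_def]
  simp only [ev, Real.norm_eq_abs, abs_mul, abs_of_pos hr]
  refine max_le ?_ ?_
  · have := Real.abs_cos_le_one θ
    nlinarith
  · have := Real.abs_sin_le_one θ
    nlinarith

private lemma nu_abs (θ : ℝ) (i : Fin 2) : |nu θ i| ≤ 1 := by
  fin_cases i
  · simpa [nu] using Real.abs_cos_le_one θ
  · simpa [nu] using Real.abs_sin_le_one θ

private lemma small {A : ℝ × ℝ → M2} {u : ℝ × ℝ → ℝ} (h : UCd A u) : ∃ R C : ℝ, 0 < R ∧ 0 ≤ C ∧
    ∀ r θ, 0 < r → r < R → |dA A (ev r θ) - 2 * am A r θ| ≤ C * r * am A r θ := by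
  obtain ⟨R0, C0, hR0, hC0, h0⟩ := lip0 (dA_smooth h.smA)
  have hl := fun i j => lip0 (h.smA i j)
  choose R1 C1 hR1 hC1 h1 using hl
  rw [dA_zero h.smA h.A0] at h0
  obtain ⟨R2, hR2, hR2'⟩ : ∃ R2, 0 < R2 ∧ ∀ i j, R2 ≤ R1 i j := by
    refine ⟨min (min (R1 0 0) (R1 0 1)) (min (R1 1 0) (R1 1 1)), ?_, ?_⟩
    · exact lt_min (lt_min (hR1 _ _) (hR1 _ _)) (lt_min (hR1 _ _) (hR1 _ _))
    · intro i j
      fin_cases i <;> fin_cases j <;> simp
  set C2 : ℝ := C1 0 0 + C1 0 1 + C1 1 0 + C1 1 1 with hC2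
  have hC2n : 0 ≤ C2 := by
    have := hC1 0 0
    have := hC1 0 1
    have := hC1 1 0
    have := hC1 1 1
    positivity
  have key : ∀ r θ, 0 < r → r < R2 → |am A r θ - 1| ≤ C2 * r := by
    intro r θ hr hrR
    have hn := ev_norm r θ hr
    have hb : ∀ i j, |A (ev r θ) i j - (1 : M2) i j| ≤ C1 i j * r := by
      intro i j
      have := h1 i j (ev r θ) (lt_of_le_of_lt hn (lt_of_lt_of_le hrR (hR2' i j)))
      rw [h.A0] at this
      exact this.trans (mul_le_mul_of_nonneg_left hn (hC1 i j))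
    have hc : ∀ i j, |(A (ev r θ) i j - (1 : M2) i j) * nu θ i * nu θ j| ≤ C1 i j * r := by
      intro i j
      rw [abs_mul, abs_mul]
      have h3 := nu_abs θ i
      have h4 := nu_abs θ j
      have h5 := hb i j
      calc |A (ev r θ) i j - (1 : M2) i j| * |nu θ i| * |nu θ j|
          ≤ |A (ev r θ) i j - (1 : M2) i j| * 1 * 1 := by gcongr
        _ ≤ C1 i j * r := by simpa using h5
    have e : am A r θ - 1 = (A (ev r θ) 0 0 - (1 : M2) 0 0) * nu θ 0 * nu θ 0 +
        (A (ev r θ) 0 1 - (1 : M2) 0 1) * nu θ 0 * nu θ 1 +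
        (A (ev r θ) 1 0 - (1 : M2) 1 0) * nu θ 1 * nu θ 0 +
        (A (ev r θ) 1 1 - (1 : M2) 1 1) * nu θ 1 * nu θ 1 := by
      rw [am_eq]
      simp
    rw [e]
    have a1 := abs_add_le ((A (ev r θ) 0 0 - (1 : M2) 0 0) * nu θ 0 * nu θ 0 +
        (A (ev r θ) 0 1 - (1 : M2) 0 1) * nu θ 0 * nu θ 1 +
        (A (ev r θ) 1 0 - (1 : M2) 1 0) * nu θ 1 * nu θ 0)
        ((A (ev r θ) 1 1 - (1 : M2) 1 1) * nu θ 1 * nu θ 1)
    have a2 := abs_add_le ((A (ev r θ) 0 0 - (1 : M2) 0 0) * nu θ 0 * nu θ 0 +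
        (A (ev r θ) 0 1 - (1 : M2) 0 1) * nu θ 0 * nu θ 1)
        ((A (ev r θ) 1 0 - (1 : M2) 1 0) * nu θ 1 * nu θ 0)
    have a3 := abs_add_le ((A (ev r θ) 0 0 - (1 : M2) 0 0) * nu θ 0 * nu θ 0)
        ((A (ev r θ) 0 1 - (1 : M2) 0 1) * nu θ 0 * nu θ 1)
    have b1 := hc 0 0
    have b2 := hc 0 1
    have b3 := hc 1 0
    have b4 := hc 1 1
    rw [hC2]
    nlinarith
  refine ⟨min R0 (min R2 (1 / (2 * (C2 + 1)))), 2 * (C0 + 2 * C2), ?_, by positivity, ?_⟩
  · exact lt_min hR0 (lt_min hR2 (by positivity))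
  intro r θ hr hrR
  have hr0 : r < R0 := lt_of_lt_of_le hrR (min_le_left _ _)
  have hr2 : r < R2 := lt_of_lt_of_le hrR ((min_le_right _ _).trans (min_le_left _ _))
  have hr3 : r < 1 / (2 * (C2 + 1)) :=
    lt_of_lt_of_le hrR ((min_le_right _ _).trans (min_le_right _ _))
  have k1 := key r θ hr hr2
  have hn := ev_norm r θ hr
  have k2 : |dA A (ev r θ) - 2| ≤ C0 * r :=
    (h0 _ (lt_of_le_of_lt hn hr0)).trans (mul_le_mul_of_nonneg_left hn hC0)
  have k3 : 1 / 2 ≤ am A r θ := by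
    rw [lt_div_iff₀ (by positivity)] at hr3
    have := (abs_le.1 k1).1
    nlinarith
  have k4 : |dA A (ev r θ) - 2 * am A r θ| ≤ C0 * r + 2 * (C2 * r) := by
    have e : dA A (ev r θ) - 2 * am A r θ = (dA A (ev r θ) - 2) + (-2) * (am A r θ - 1) := by ring
    rw [e]
    refine (abs_add_le _ _).trans ?_
    rw [abs_mul]
    norm_num
    linarith
  refine k4.trans ?_
  have hpos : 0 ≤ (C0 + 2 * C2) * r := by positivity
  nlinarith

theorem Hu_deriv {A : ℝ × ℝ → M2} {u : ℝ × ℝ → ℝ} (h : UCd A u) : ∃ R C : ℝ, 0 < R ∧ 0 ≤ C ∧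
    ∀ r, 0 < r → r < R → ∃ H' : ℝ, HasDerivAt (Hu A u) H' r ∧
      |H' - (Hu A u r / r + 2 * Du A u r)| ≤ C * Hu A u r := by
  obtain ⟨R, C, hR, hC, hs⟩ := small h
  refine ⟨R, C, hR, hC, fun r hr hrR => ?_⟩
  have h1 := flux_deriv (F := Gu A u)
    (fun i => ((Gu_smooth h i).of_le (by simp)).contDiffOn) hr
  set I : ℝ := ∫ θ in (0 : ℝ)..(2 * π), diver (Gu A u) (ev r θ) * r with hI
  have h2 : HasDerivAt (fun s => flux (Gu A u) s / s)
      ((I * r - flux (Gu A u) r * 1) / r ^ 2) r := h1.div (hasDerivAt_id r) hr.ne'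
  have h3 : HasDerivAt (Hu A u) ((I * r - flux (Gu A u) r * 1) / r ^ 2) r := by
    refine h2.congr_of_eventuallyEq ?_
    filter_upwards [lt_mem_nhds hr] with s hs
    rw [Gu_flux]
    field_simp
  refine ⟨_, h3, ?_⟩
  have cu : Continuous (fun θ => u (ev r θ)) := h.smu.continuous.comp (ev_cont r)
  have cb := bm_cont h.smA h.smu r
  have ca := am_cont h.smA r
  have cd : Continuous (fun θ => dA A (ev r θ)) := (dA_smooth h.smA).continuous.comp (ev_cont r)
  have t1 : Continuous (fun θ => 2 * r * (u (ev r θ) * bm A u r θ * r)) :=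
    continuous_const.mul ((cu.mul cb).mul continuous_const)
  have t2 : Continuous (fun θ => 2 * (am A r θ * u (ev r θ) ^ 2 * r)) :=
    continuous_const.mul ((ca.mul (cu.pow 2)).mul continuous_const)
  have t3 : Continuous (fun θ => u (ev r θ) ^ 2 * (dA A (ev r θ) - 2 * am A r θ) * r) :=
    ((cu.pow 2).mul (cd.sub (continuous_const.mul ca))).mul continuous_const
  have t4 : Continuous (fun θ => C * r * (am A r θ * u (ev r θ) ^ 2 * r)) :=
    continuous_const.mul ((ca.mul (cu.pow 2)).mul continuous_const)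
  have hI2 : I = 2 * r * Du A u r + 2 * Hu A u r +
      ∫ θ in (0 : ℝ)..(2 * π), u (ev r θ) ^ 2 * (dA A (ev r θ) - 2 * am A r θ) * r := by
    unfold Du Hu
    rw [← intervalIntegral.integral_const_mul, ← intervalIntegral.integral_const_mul,
      ← intervalIntegral.integral_add, ← intervalIntegral.integral_add]
    · rw [hI]
      congr 1
      funext θ
      rw [diver_Gu h]
      ring
    · exact (t1.add t2).intervalIntegrable _ _
    · exact t3.intervalIntegrable _ _
    · exact t1.intervalIntegrable _ _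
    · exact t2.intervalIntegrable _ _
  have hJ : |∫ θ in (0 : ℝ)..(2 * π), u (ev r θ) ^ 2 * (dA A (ev r θ) - 2 * am A r θ) * r| ≤
      C * r * Hu A u r := by
    unfold Hu
    rw [← intervalIntegral.integral_const_mul]
    refine (intervalIntegral.abs_integral_le_integral_abs (by positivity)).trans ?_
    refine intervalIntegral.integral_mono_on (by positivity) ?_ ?_ ?_
    · exact t3.abs.intervalIntegrable _ _
    · exact t4.intervalIntegrable _ _
    · intro θ _
      have h5 := hs r θ hr hrR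
      rw [abs_mul, abs_mul, abs_of_pos hr, abs_of_nonneg (sq_nonneg (u (ev r θ)))]
      calc u (ev r θ) ^ 2 * |dA A (ev r θ) - 2 * am A r θ| * r
          ≤ u (ev r θ) ^ 2 * (C * r * am A r θ) * r := by gcongr
        _ = C * r * (am A r θ * u (ev r θ) ^ 2 * r) := by ring
  have e : (I * r - flux (Gu A u) r * 1) / r ^ 2 - (Hu A u r / r + 2 * Du A u r) =
      (∫ θ in (0 : ℝ)..(2 * π), u (ev r θ) ^ 2 * (dA A (ev r θ) - 2 * am A r θ) * r) / r := by
    rw [hI2, Gu_flux]
    field_simp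
    ring
  rw [e, abs_div, abs_of_pos hr, div_le_iff₀ hr]
  calc |∫ θ in (0 : ℝ)..(2 * π), u (ev r θ) ^ 2 * (dA A (ev r θ) - 2 * am A r θ) * r| ≤
      C * r * Hu A u r := hJ
    _ = C * Hu A u r * r := by ring

theorem uc_cs {A : ℝ × ℝ → M2} {u : ℝ × ℝ → ℝ} (h : UCd A u) {r : ℝ} (hr : 0 < r) :
    Du A u r ^ 2 ≤ Hu A u r * Su A u r := by
  have cu : Continuous (fun θ => u (ev r θ)) := h.smu.continuous.comp (ev_cont r)
  have cb := bm_cont h.smA h.smu r
  have ca := am_cont h.smA r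
  have hne : ∀ θ, am A r θ ≠ 0 := fun θ => (am_pos h.posA r θ).ne'
  have cs : Continuous (fun θ => bm A u r θ ^ 2 / am A r θ * r) :=
    ((cb.pow 2).div ca hne).mul continuous_const
  have key : ∀ t : ℝ, 0 ≤ Hu A u r * (t * t) + (2 * Du A u r) * t + Su A u r := by
    intro t
    have t1 : Continuous (fun θ => t * t * (am A r θ * u (ev r θ) ^ 2 * r)) :=
      continuous_const.mul ((ca.mul (cu.pow 2)).mul continuous_const)
    have t2 : Continuous (fun θ => 2 * t * (u (ev r θ) * bm A u r θ * r)) :=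
      continuous_const.mul ((cu.mul cb).mul continuous_const)
    have e : Hu A u r * (t * t) + (2 * Du A u r) * t + Su A u r =
        ∫ θ in (0 : ℝ)..(2 * π), (t * am A r θ * u (ev r θ) + bm A u r θ) ^ 2 / am A r θ * r := by
      have e1 : Hu A u r * (t * t) = (t * t) * Hu A u r := by ring
      have e2 : (2 * Du A u r) * t = (2 * t) * Du A u r := by ring
      rw [e1, e2]
      unfold Hu Du Su
      rw [← intervalIntegral.integral_const_mul, ← intervalIntegral.integral_const_mul,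
        ← intervalIntegral.integral_add, ← intervalIntegral.integral_add]
      · congr 1
        funext θ
        have := hne θ
        field_simp
        ring
      · exact (t1.add t2).intervalIntegrable _ _
      · exact cs.intervalIntegrable _ _
      · exact t1.intervalIntegrable _ _
      · exact t2.intervalIntegrable _ _
    rw [e]
    refine intervalIntegral.integral_nonneg (by positivity) fun θ _ => ?_
    have := am_pos h.posA r θ
    positivity
  have hd := discrim_le_zero key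
  unfold discrim at hd
  nlinarith

end Pool.Agent.T2S4
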