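import Pool.Agent.T2S4.UCH

/-!
# Unique continuation: the Rellich identity

PACKAGE. Prove the theorem (helper lemmas allowed, private or prefixed by `UCRel_`).

For `x ≠ 0` let `β(x) = |x|² A x / ⟨A x, x⟩` (`|x|` the euclidean norm) and
`F = β ⟨A ∇u, ∇u⟩ - 2 ⟨β, ∇u⟩ A ∇u`, smooth on `x ≠ 0`.
* On the circle of radius `r`: `⟨β, ν⟩ = r`, `⟨β, ∇u⟩ = r bm / am`, so `flux F r = r D'(r) - 2 r Su(r)`
  with `D' = ∫ qm r dθ`.
* `div F = (div β) q - 2 ⟨(Dβ)ᵀ ∇u, A ∇u⟩ + ∑ k, β_k ⟨(∂_k A) ∇u, ∇u⟩` with `q = qm` (the terms with second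
  derivatives of `u` cancel: `⟨β, ∇q⟩` contributes `2 ⟨D²u A ∇u, β⟩` and `-2 ⟨∇⟨β, ∇u⟩, A ∇u⟩`
  contributes `-2 ⟨D²u β, A ∇u⟩`; `div(A ∇u) = 0`).
* `β = x + ε` with `ε_i = (|x|² ((A - 1) x)_i - x_i ⟨(A - 1) x, x⟩) / ⟨A x, x⟩`; the numerator is
  `O(|x|⁴)` with derivative `O(|x|³)`, the denominator is `≥ |x|² / 2` with derivative `O(|x|)`; so
  `Dβ = 1 + O(|x|)`, `β = O(|x|)`, and `|div F| ≤ C |x| |∇u|² ≤ C' |x| q` near `0`.
* So `|d/dr flux F| ≤ C r ∫ q r dθ = C r D'(r)`, and `flux F → 0` at `0`; hence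
  `|flux F r| ≤ C r D(r)` (`D' ≥ 0`, `D → 0` at `0`: compare the derivatives of `± flux F` with that of
  `C r₀ D` on `(0, r₀]`, monotone functions with limit `0`). Dividing by `r`: `|D' - 2 S| ≤ C D`.
-/

set_option autoImplicit false

namespace Pool.Agent.T2S4

open Matrix Filter Topology MeasureTheory
open scoped ContDiff Real

/-- `f` is differentiable at `x` with derivative `c` in the direction `k`. -/
private def Hd (k : Fin 2) (f : ℝ × ℝ → ℝ) (x : ℝ × ℝ) (c : ℝ) : Prop :=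
  DifferentiableAt ℝ f x ∧ dd k f x = c

private lemma Hd.mk' {k : Fin 2} {f : ℝ × ℝ → ℝ} {x : ℝ × ℝ} (hf : DifferentiableAt ℝ f x) :
    Hd k f x (dd k f x) := ⟨hf, rfl⟩

private lemma Hd.mul {k : Fin 2} {f g : ℝ × ℝ → ℝ} {x : ℝ × ℝ} {c d : ℝ} (hf : Hd k f x c)
    (hg : Hd k g x d) : Hd k (fun y => f y * g y) x (c * g x + f x * d) := by
  obtain ⟨hf1, hf2⟩ := hf
  obtain ⟨hg1, hg2⟩ := hg
  refine ⟨hf1.mul hg1, ?_⟩
  rw [← hf2, ← hg2]
  have := (hf1.hasFDerivAt.mul hg1.hasFDerivAt).fderiv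
  unfold dd
  change fderiv ℝ (fun y => f y * g y) x _ = _
  rw [show (fun y => f y * g y) = f * g from rfl, this]
  simp
  ring

private lemma Hd.add {k : Fin 2} {f g : ℝ × ℝ → ℝ} {x : ℝ × ℝ} {c d : ℝ} (hf : Hd k f x c)
    (hg : Hd k g x d) : Hd k (fun y => f y + g y) x (c + d) := by
  obtain ⟨hf1, hf2⟩ := hf
  obtain ⟨hg1, hg2⟩ := hg
  refine ⟨hf1.add hg1, ?_⟩
  rw [← hf2, ← hg2]
  have := (hf1.hasFDerivAt.add hg1.hasFDerivAt).fderiv
  unfold dd
  rw [show (fun y => f y + g y) = f + g from rfl, this]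
  simp

private lemma Hd.sub {k : Fin 2} {f g : ℝ × ℝ → ℝ} {x : ℝ × ℝ} {c d : ℝ} (hf : Hd k f x c)
    (hg : Hd k g x d) : Hd k (fun y => f y - g y) x (c - d) := by
  obtain ⟨hf1, hf2⟩ := hf
  obtain ⟨hg1, hg2⟩ := hg
  refine ⟨hf1.sub hg1, ?_⟩
  rw [← hf2, ← hg2]
  have := (hf1.hasFDerivAt.sub hg1.hasFDerivAt).fderiv
  unfold dd
  rw [show (fun y => f y - g y) = f - g from rfl, this]
  simp

private lemma Hd.const {k : Fin 2} (c : ℝ) (x : ℝ × ℝ) : Hd k (fun _ => c) x 0 := by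
  refine ⟨differentiableAt_const c, ?_⟩
  unfold dd
  simp

private lemma Hd.inv {k : Fin 2} {g : ℝ × ℝ → ℝ} {x : ℝ × ℝ} {d : ℝ} (hg : Hd k g x d)
    (h0 : g x ≠ 0) : Hd k (fun y => (g y)⁻¹) x (-d / g x ^ 2) := by
  obtain ⟨hg1, hg2⟩ := hg
  refine ⟨hg1.inv h0, ?_⟩
  rw [← hg2]
  have := ((hasDerivAt_inv h0).comp_hasFDerivAt x hg1.hasFDerivAt).fderiv
  unfold dd
  rw [show (fun y => (g y)⁻¹) = Inv.inv ∘ g from rfl, this]
  simp
  ring

private lemma Hd.div {k : Fin 2} {f g : ℝ × ℝ → ℝ} {x : ℝ × ℝ} {c d : ℝ} (hf : Hd k f x c)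
    (hg : Hd k g x d) (h0 : g x ≠ 0) :
    Hd k (fun y => f y / g y) x ((c * g x - f x * d) / g x ^ 2) := by
  have := hf.mul (hg.inv h0)
  have e : c * (g x)⁻¹ + f x * (-d / g x ^ 2) = (c * g x - f x * d) / g x ^ 2 := by
    field_simp
    ring
  rw [e] at this
  simpa only [div_eq_mul_inv] using this

private lemma Hd.fst (k : Fin 2) (x : ℝ × ℝ) : Hd k (fun y => y.1) x (if k = 0 then 1 else 0) := by
  refine ⟨differentiableAt_fst, ?_⟩
  unfold dd
  rw [show (fun y : ℝ × ℝ => y.1) = Prod.fst from rfl, fderiv_fst]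
  fin_cases k <;> simp [bv]

private lemma Hd.snd (k : Fin 2) (x : ℝ × ℝ) : Hd k (fun y => y.2) x (if k = 1 then 1 else 0) := by
  refine ⟨differentiableAt_snd, ?_⟩
  unfold dd
  rw [show (fun y : ℝ × ℝ => y.2) = Prod.snd from rfl, fderiv_snd]
  fin_cases k <;> simp [bv]

private noncomputable def Pv (A : ℝ × ℝ → M2) (i : Fin 2) (x : ℝ × ℝ) : ℝ :=
  A x i 0 * x.1 + A x i 1 * x.2

private noncomputable def av (A : ℝ × ℝ → M2) (x : ℝ × ℝ) : ℝ :=
  Pv A 0 x * x.1 + Pv A 1 x * x.2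

private noncomputable def bet (A : ℝ × ℝ → M2) (i : Fin 2) (x : ℝ × ℝ) : ℝ :=
  (x.1 * x.1 + x.2 * x.2) * Pv A i x / av A x

private noncomputable def wv (A : ℝ × ℝ → M2) (u : ℝ × ℝ → ℝ) (i : Fin 2) (x : ℝ × ℝ) : ℝ :=
  A x i 0 * dd 0 u x + A x i 1 * dd 1 u x

private noncomputable def FF (A : ℝ × ℝ → M2) (u : ℝ × ℝ → ℝ) (i : Fin 2) (x : ℝ × ℝ) : ℝ :=
  bet A i x * qm A u x - 2 * (bet A 0 x * dd 0 u x + bet A 1 x * dd 1 u x) * wv A u i x

private lemma sym10 {A : ℝ × ℝ → M2} {u : ℝ × ℝ → ℝ} (h : UCd A u) (x : ℝ × ℝ) :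
    A x 1 0 = A x 0 1 := by
  have := (h.posA x).isHermitian.apply 0 1
  simpa using this

private lemma av_pos {A : ℝ × ℝ → M2} {u : ℝ × ℝ → ℝ} (h : UCd A u) {x : ℝ × ℝ} (hx : x ≠ 0) :
    0 < av A x := by
  have hv : (![x.1, x.2] : Fin 2 → ℝ) ≠ 0 := by
    intro h0
    apply hx
    have h1 := congrFun h0 0
    have h2 := congrFun h0 1
    simp at h1 h2
    exact Prod.ext h1 h2
  have := (h.posA x).dotProduct_mulVec_pos hv
  simp [dotProduct, mulVec, Fin.sum_univ_two] at this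
  unfold av Pv
  linarith

private lemma smdd {u : ℝ × ℝ → ℝ} (hu : ContDiff ℝ ∞ u) (k : Fin 2) : ContDiff ℝ ∞ (dd k u) := by
  have h1 : ContDiff ℝ ∞ (fderiv ℝ u) := hu.fderiv_right (by simp)
  exact h1.clm_apply contDiff_const

private lemma ddsymm {u : ℝ × ℝ → ℝ} (hu : ContDiff ℝ ∞ u) (x : ℝ × ℝ) :
    dd 0 (dd 1 u) x = dd 1 (dd 0 u) x := by
  have hs : IsSymmSndFDerivAt ℝ u x :=
    hu.contDiffAt.isSymmSndFDerivAt (by
      rw [minSmoothness_of_isRCLikeNormedField]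
      exact WithTop.coe_le_coe.2 le_top)
  have h1 : ContDiff ℝ ∞ (fderiv ℝ u) := hu.fderiv_right (by simp)
  have hd : DifferentiableAt ℝ (fderiv ℝ u) x := h1.differentiable (by simp) x
  have key : ∀ i j : Fin 2, dd i (dd j u) x = fderiv ℝ (fderiv ℝ u) x (bv i) (bv j) := by
    intro i j
    unfold dd
    rw [fderiv_clm_apply hd (differentiableAt_const _)]
    simp
  rw [key, key]
  exact hs.eq _ _

private lemma dif {f : ℝ × ℝ → ℝ} (hf : ContDiff ℝ ∞ f) (x : ℝ × ℝ) : DifferentiableAt ℝ f x :=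
  hf.differentiable (by simp) x

private lemma wv_hd {A : ℝ × ℝ → M2} {u : ℝ × ℝ → ℝ} (h : UCd A u) (k i : Fin 2) (x : ℝ × ℝ) :
    Hd k (wv A u i) x ((dd k (fun y => A y i 0) x * dd 0 u x + A x i 0 * dd k (dd 0 u) x) +
      (dd k (fun y => A y i 1) x * dd 1 u x + A x i 1 * dd k (dd 1 u) x)) :=
  ((Hd.mk' (dif (h.smA i 0) x)).mul (Hd.mk' (dif (smdd h.smu 0) x))).add
    ((Hd.mk' (dif (h.smA i 1) x)).mul (Hd.mk' (dif (smdd h.smu 1) x)))

private lemma qm_eq (A : ℝ × ℝ → M2) (u : ℝ × ℝ → ℝ) :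
    qm A u = fun x => wv A u 0 x * dd 0 u x + wv A u 1 x * dd 1 u x := by
  funext x
  unfold qm wv
  simp only [Fin.sum_univ_two]
  ring

private lemma Pv_hd {A : ℝ × ℝ → M2} {u : ℝ × ℝ → ℝ} (h : UCd A u) (k i : Fin 2) (x : ℝ × ℝ) :
    Hd k (Pv A i) x ((dd k (fun y => A y i 0) x * x.1 + A x i 0 * (if k = 0 then 1 else 0)) +
      (dd k (fun y => A y i 1) x * x.2 + A x i 1 * (if k = 1 then 1 else 0))) :=
  ((Hd.mk' (dif (h.smA i 0) x)).mul (Hd.fst k x)).add
    ((Hd.mk' (dif (h.smA i 1) x)).mul (Hd.snd k x))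

private lemma bet_hd {A : ℝ × ℝ → M2} {u : ℝ × ℝ → ℝ} (h : UCd A u) (k i : Fin 2) {x : ℝ × ℝ}
    (hx : x ≠ 0) : Hd k (bet A i) x (dd k (bet A i) x) := by
  refine Hd.mk' ?_
  have h1 : Hd k (fun y : ℝ × ℝ => y.1 * y.1 + y.2 * y.2) x _ :=
    ((Hd.fst k x).mul (Hd.fst k x)).add ((Hd.snd k x).mul (Hd.snd k x))
  have h2 := ((Pv_hd h k 0 x).mul (Hd.fst k x)).add ((Pv_hd h k 1 x).mul (Hd.snd k x))
  exact ((h1.mul (Pv_hd h k i x)).div h2 (av_pos h hx).ne').1

private lemma div_FF {A : ℝ × ℝ → M2} {u : ℝ × ℝ → ℝ} (h : UCd A u) {x : ℝ × ℝ} (hx : x ≠ 0) :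
    diver (FF A u) x = (dd 0 (bet A 0) x + dd 1 (bet A 1) x) * qm A u x
      + ∑ k, bet A k x * ∑ i, ∑ j, dd k (fun y => A y i j) x * dd i u x * dd j u x
      - 2 * ∑ k, ∑ j, dd k (bet A j) x * dd j u x * wv A u k x := by
  have hq : ∀ k, Hd k (qm A u) x _ := fun k => by
    rw [qm_eq]
    exact ((wv_hd h k 0 x).mul (Hd.mk' (dif (smdd h.smu 0) x))).add
      ((wv_hd h k 1 x).mul (Hd.mk' (dif (smdd h.smu 1) x)))
  have hb : ∀ k, Hd k (fun x => 2 * (bet A 0 x * dd 0 u x + bet A 1 x * dd 1 u x)) x _ :=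
    fun k => (Hd.const 2 x).mul (((bet_hd h k 0 hx).mul (Hd.mk' (dif (smdd h.smu 0) x))).add
      ((bet_hd h k 1 hx).mul (Hd.mk' (dif (smdd h.smu 1) x))))
  have hF : ∀ i, Hd i (FF A u i) x _ := fun i =>
    ((bet_hd h i i hx).mul (hq i)).sub ((hb i).mul (wv_hd h i i x))
  have he := h.eq x
  have he2 : ∀ i, dd i (fun y => ∑ j, A y i j * dd j u y) x = dd i (wv A u i) x := fun i => by
    have : (fun y => ∑ j, A y i j * dd j u y) = wv A u i := by
      funext y
      simp [wv, Fin.sum_univ_two]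
    rw [this]
  have hs := ddsymm h.smu x
  have s10 := sym10 h x
  have s10d : ∀ k, dd k (fun y => A y 1 0) x = dd k (fun y => A y 0 1) x := by
    intro k
    have : (fun y => A y 1 0) = (fun y => A y 0 1) := funext (sym10 h)
    rw [this]
  rw [Fin.sum_univ_two, he2, he2, (wv_hd h 0 0 x).2, (wv_hd h 1 1 x).2] at he
  unfold diver
  rw [Fin.sum_univ_two, (hF 0).2, (hF 1).2]
  simp only [Fin.sum_univ_two, s10d, qm, wv, s10] at he ⊢
  rw [hs] at he ⊢
  linear_combination (-2 * (bet A 0 x * dd 0 u x + bet A 1 x * dd 1 u x)) * he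

private lemma amul {a b c d : ℝ} (ha : |a| ≤ c) (hb : |b| ≤ d) : |a * b| ≤ c * d := by
  rw [abs_mul]
  exact mul_le_mul ha hb (abs_nonneg _) ((abs_nonneg _).trans ha)

private lemma num_bound {x y δ e f g h t : ℝ} (hx : |x| ≤ 1) (hy : |y| ≤ 1) (hδ : |δ| ≤ 1)
    (he : |e| ≤ 2 * t) (hf : |f| ≤ 3 * t) (hg : |g| ≤ 4 * t) (hh : |h| ≤ 8 * t) (h0 : 0 ≤ t)
    (ht : t ≤ 1 / 8) :
    |((2 * x * (y + e) + δ + f) * (1 + g) - (y + e) * (2 * x + h)) / (1 + g) ^ 2 - δ| ≤
      200 * t := by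
  have hg1 : 1 / 2 ≤ 1 + g := by
    have := (abs_le.1 hg).1
    linarith
  have hg2 : (1 : ℝ) / 4 ≤ (1 + g) ^ 2 := by nlinarith
  have hg0 : (1 + g) ^ 2 ≠ 0 := by positivity
  have e1 : ((2 * x * (y + e) + δ + f) * (1 + g) - (y + e) * (2 * x + h)) / (1 + g) ^ 2 - δ =
      (2 * (x * y * g) + 2 * (x * e * g) + f + f * g - δ * g - δ * (g * g) - y * h - e * h) /
        (1 + g) ^ 2 := by
    field_simp
    ring
  rw [e1, abs_div, abs_of_pos (show 0 < (1 + g) ^ 2 by positivity), div_le_iff₀ (by positivity)]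
  have t1 := amul (amul hx hy) hg
  have t2 := amul (amul hx he) hg
  have t3 := amul hf hg
  have t4 := amul hδ hg
  have t5 := amul hδ (amul hg hg)
  have t6 := amul hy hh
  have t7 := amul he hh
  have htt : t * t ≤ 1 / 8 * t := mul_le_mul_of_nonneg_right ht h0
  rw [abs_le] at *
  constructor
  · nlinarith [t1.1, t1.2, t2.1, t2.2]
  · nlinarith [t1.1, t1.2, t2.1, t2.2]

/-- The bounds for the coefficients near the origin. -/
private def Bd (A : ℝ × ℝ → M2) (K : ℝ) : Prop :=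
  1 ≤ K ∧ ∀ x : ℝ × ℝ, ‖x‖ ≤ 1 → (∀ i j, |A x i j - (if i = j then 1 else 0)| ≤ K * ‖x‖) ∧
    ∀ k i j, |dd k (fun y => A y i j) x| ≤ K

private lemma exists_Bd {A : ℝ × ℝ → M2} {u : ℝ × ℝ → ℝ} (h : UCd A u) : ∃ K, Bd A K := by
  have h1 : ∀ i j, ∃ C, ∀ x ∈ Metric.closedBall (0 : ℝ × ℝ) 1,
      ‖fderiv ℝ (fun y => A y i j) x‖ ≤ C := fun i j =>
    (isCompact_closedBall (0 : ℝ × ℝ) 1).exists_bound_of_continuousOn
      ((h.smA i j).continuous_fderiv (by simp)).continuousOn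
  choose C hC using h1
  refine ⟨1 + ∑ i, ∑ j, |C i j|, ?_, ?_⟩
  · have : 0 ≤ ∑ i, ∑ j, |C i j| :=
      Finset.sum_nonneg fun i _ => Finset.sum_nonneg fun j _ => abs_nonneg _
    linarith
  have hle : ∀ i j, C i j ≤ 1 + ∑ i, ∑ j, |C i j| := by
    intro i j
    have h2 : |C i j| ≤ ∑ j, |C i j| :=
      Finset.single_le_sum (f := fun j => |C i j|) (fun j _ => abs_nonneg _) (Finset.mem_univ j)
    have h3 : ∑ j, |C i j| ≤ ∑ i, ∑ j, |C i j| :=
      Finset.single_le_sum (f := fun i => ∑ j, |C i j|)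
        (fun i _ => Finset.sum_nonneg fun j _ => abs_nonneg _) (Finset.mem_univ i)
    linarith [le_abs_self (C i j)]
  set K := 1 + ∑ i, ∑ j, |C i j| with hK
  have hK0 : ∀ i j x, ‖x‖ ≤ 1 → ‖fderiv ℝ (fun y => A y i j) x‖ ≤ K := fun i j x hx =>
    (hC i j x (by simpa using hx)).trans (hle i j)
  intro x hx
  constructor
  · intro i j
    have h4 := Convex.norm_image_sub_le_of_norm_fderiv_le (𝕜 := ℝ) (f := fun y => A y i j)
      (s := Metric.closedBall (0 : ℝ × ℝ) 1) (C := K) (x := 0) (y := x)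
      (fun y _ => dif (h.smA i j) y) (fun y hy => hK0 i j y (by simpa using hy))
      (convex_closedBall _ _) (by simp) (by simpa using hx)
    simpa [h.A0, Matrix.one_apply] using h4
  · intro k i j
    unfold dd
    have h5 := (fderiv ℝ (fun y => A y i j) x).le_opNorm (bv k)
    have h6 : ‖bv k‖ ≤ 1 := by fin_cases k <;> simp [bv]
    calc |fderiv ℝ (fun y => A y i j) x (bv k)| ≤ ‖fderiv ℝ (fun y => A y i j) x‖ * ‖bv k‖ := h5
      _ ≤ K * 1 := mul_le_mul (hK0 i j x hx) h6 (norm_nonneg _)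
          ((norm_nonneg _).trans (hK0 i j x hx))
      _ = K := mul_one K

private lemma ev_norm {r θ : ℝ} (hr : 0 < r) : ‖ev r θ‖ ≤ r := by
  unfold ev
  rw [Prod.norm_def]
  refine max_le ?_ ?_
  · simp only [Real.norm_eq_abs, abs_mul, abs_of_pos hr]
    have := Real.abs_cos_le_one θ
    nlinarith
  · simp only [Real.norm_eq_abs, abs_mul, abs_of_pos hr]
    have := Real.abs_sin_le_one θ
    nlinarith

private lemma ev_ne {r θ : ℝ} (hr : 0 < r) : ev r θ ≠ 0 := by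
  intro h0
  have h1 : r * Real.cos θ = 0 := congrArg Prod.fst h0
  have h2 : r * Real.sin θ = 0 := congrArg Prod.snd h0
  have h3 := Real.cos_sq_add_sin_sq θ
  have h4 : Real.cos θ = 0 := (mul_eq_zero.1 h1).resolve_left hr.ne'
  have h5 : Real.sin θ = 0 := (mul_eq_zero.1 h2).resolve_left hr.ne'
  rw [h4, h5] at h3
  norm_num at h3

private lemma coef {A : ℝ × ℝ → M2} {K : ℝ} (hK : Bd A K) {r θ : ℝ} (hr : 0 < r)
    (hrK : K * r ≤ 1 / 8) :
    (∀ i j, |A (ev r θ) i j - (if i = j then 1 else 0)| ≤ K * r) ∧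
      ∀ k i j, |dd k (fun y => A y i j) (ev r θ)| ≤ K := by
  have hr1 : r ≤ 1 := by nlinarith [hK.1]
  obtain ⟨h1, h2⟩ := hK.2 (ev r θ) ((ev_norm hr).trans hr1)
  exact ⟨fun i j => (h1 i j).trans (mul_le_mul_of_nonneg_left (ev_norm hr) (by linarith [hK.1])),
    h2⟩

private lemma bet_est {A : ℝ × ℝ → M2} {u : ℝ × ℝ → ℝ} (h : UCd A u) {K : ℝ} (hK : Bd A K)
    {r θ : ℝ} (hr : 0 < r) (hrK : K * r ≤ 1 / 8) :
    (∀ k i, |dd k (bet A i) (ev r θ) - (if k = i then 1 else 0)| ≤ 200 * (K * r)) ∧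
      ∀ i, |bet A i (ev r θ)| ≤ 3 * r := by
  obtain ⟨hA, hD⟩ := coef hK (θ := θ) hr hrK
  have hx0 := ev_ne (θ := θ) hr
  have hK1 := hK.1
  have hc1 := Real.abs_cos_le_one θ
  have hs1 := Real.abs_sin_le_one θ
  have hcs := Real.cos_sq_add_sin_sq θ
  have hx1 : (ev r θ).1 = r * Real.cos θ := rfl
  have hx2 : (ev r θ).2 = r * Real.sin θ := rfl
  set x := ev r θ with hx
  set c := Real.cos θ with hc
  set s := Real.sin θ with hs
  set δ : Fin 2 → Fin 2 → ℝ := fun i j => if i = j then 1 else 0 with hδ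
  set n : Fin 2 → ℝ := fun i => δ i 0 * c + δ i 1 * s with hn
  set E : Fin 2 → Fin 2 → ℝ := fun i j => A x i j - δ i j with hE
  set D : Fin 2 → Fin 2 → Fin 2 → ℝ := fun k i j => dd k (fun y => A y i j) x with hDD
  set e : Fin 2 → ℝ := fun i => E i 0 * c + E i 1 * s with he
  set f : Fin 2 → Fin 2 → ℝ := fun k i => E i k + r * (D k i 0 * c + D k i 1 * s) with hf
  set g : ℝ := e 0 * c + e 1 * s with hg
  set k' : Fin 2 → ℝ := fun k => f k 0 * c + f k 1 * s + e k with hk'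
  have hEb : ∀ i j, |E i j| ≤ K * r := hA
  have hDb : ∀ k i j, |D k i j| ≤ K := hD
  have hKr : 0 ≤ K * r := by positivity
  have hδb : ∀ i j, |δ i j| ≤ 1 := by
    intro i j
    simp only [hδ]
    split_ifs <;> simp
  have hnb : ∀ i, |n i| ≤ 1 := by
    intro i
    fin_cases i <;> simp [hn, hδ, hc1, hs1]
  have heb : ∀ i, |e i| ≤ 2 * (K * r) := by
    intro i
    have h1 := amul (hEb i 0) hc1
    have h2 := amul (hEb i 1) hs1
    have := abs_add_le (E i 0 * c) (E i 1 * s)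
    simp only [he]
    linarith
  have hfb : ∀ k i, |f k i| ≤ 3 * (K * r) := by
    intro k i
    have h1 := amul (hDb k i 0) hc1
    have h2 := amul (hDb k i 1) hs1
    have h3 := abs_add_le (D k i 0 * c) (D k i 1 * s)
    have h4 : |D k i 0 * c + D k i 1 * s| ≤ 2 * K := by linarith
    have h5 := amul (le_of_eq (abs_of_pos hr)) h4
    have h6 := abs_add_le (E i k) (r * (D k i 0 * c + D k i 1 * s))
    have h7 := hEb i k
    simp only [hf]
    linarith
  have hgb : |g| ≤ 4 * (K * r) := by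
    have h1 := amul (heb 0) hc1
    have h2 := amul (heb 1) hs1
    have := abs_add_le (e 0 * c) (e 1 * s)
    simp only [hg]
    linarith
  have hhb : ∀ k, |k' k| ≤ 8 * (K * r) := by
    intro k
    have h1 := amul (hfb k 0) hc1
    have h2 := amul (hfb k 1) hs1
    have h3 := abs_add_le (f k 0 * c) (f k 1 * s)
    have h4 := abs_add_le (f k 0 * c + f k 1 * s) (e k)
    have h5 := heb k
    simp only [hk']
    linarith
  have hAE : ∀ i j, A x i j = δ i j + E i j := by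
    intro i j
    simp only [hE]
    ring
  have hgp : 1 / 2 ≤ 1 + g := by
    have := (abs_le.1 hgb).1
    linarith
  have hn2 : x.1 * x.1 + x.2 * x.2 = r ^ 2 := by
    rw [hx1, hx2]
    linear_combination r ^ 2 * hcs
  have hP : ∀ i, Pv A i x = r * (n i + e i) := by
    intro i
    simp only [Pv, hAE, hx1, hx2, hn, he]
    ring
  have ha : av A x = r ^ 2 * (1 + g) := by
    simp only [av, hP, hx1, hx2, hg]
    simp only [hn, hδ]
    simp
    linear_combination r ^ 2 * hcs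
  constructor
  · intro k i
    have key : dd k (bet A i) x =
        ((2 * n k * (n i + e i) + δ k i + f k i) * (1 + g) - (n i + e i) * (2 * n k + k' k)) /
          (1 + g) ^ 2 := by
      have h1 : Hd k (fun y : ℝ × ℝ => y.1 * y.1 + y.2 * y.2) x _ :=
        ((Hd.fst k x).mul (Hd.fst k x)).add ((Hd.snd k x).mul (Hd.snd k x))
      have h2 := ((Pv_hd h k 0 x).mul (Hd.fst k x)).add ((Pv_hd h k 1 x).mul (Hd.snd k x))
      have h3 := ((h1.mul (Pv_hd h k i x)).div h2 (av_pos h hx0).ne').2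
      have hdP : ∀ i, (D k i 0 * x.1 + A x i 0 * δ k 0) + (D k i 1 * x.2 + A x i 1 * δ k 1) =
          δ k i + f k i := by
        intro i
        simp only [hAE, hx1, hx2, hf]
        have e1 : (δ i 0 + E i 0) * δ k 0 + (δ i 1 + E i 1) * δ k 1 = δ k i + E i k := by
          simp only [hδ]
          fin_cases k <;> fin_cases i <;> simp
        linear_combination e1
      have hdn : (δ k 0 * x.1 + x.1 * δ k 0) + (δ k 1 * x.2 + x.2 * δ k 1) = 2 * r * n k := by
        simp only [hx1, hx2, hn]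
        ring
      have hda : ((δ k 0 + f k 0) * x.1 + Pv A 0 x * δ k 0) +
          ((δ k 1 + f k 1) * x.2 + Pv A 1 x * δ k 1) = r * (2 * n k + k' k) := by
        simp only [hP, hx1, hx2, hk']
        have e1 : (n 0 + e 0) * δ k 0 + (n 1 + e 1) * δ k 1 = n k + e k := by
          simp only [hδ]
          fin_cases k <;> simp
        have e2 : δ k 0 * c + δ k 1 * s = n k := rfl
        linear_combination r * e1 + r * e2
      have h4 : dd k (bet A i) x = ((((δ k 0 * x.1 + x.1 * δ k 0) + (δ k 1 * x.2 + x.2 * δ k 1)) *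
          Pv A i x + (x.1 * x.1 + x.2 * x.2) *
            ((D k i 0 * x.1 + A x i 0 * δ k 0) + (D k i 1 * x.2 + A x i 1 * δ k 1))) * av A x -
          ((x.1 * x.1 + x.2 * x.2) * Pv A i x) *
          ((((D k 0 0 * x.1 + A x 0 0 * δ k 0) + (D k 0 1 * x.2 + A x 0 1 * δ k 1)) * x.1 +
              Pv A 0 x * δ k 0) +
            (((D k 1 0 * x.1 + A x 1 0 * δ k 0) + (D k 1 1 * x.2 + A x 1 1 * δ k 1)) * x.2 +
              Pv A 1 x * δ k 1))) / av A x ^ 2 := h3
      rw [h4, hdP, hdP, hdP, hdn, hda, hn2, hP, ha]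
      have hg0 : 1 + g ≠ 0 := by linarith
      field_simp
      ring
    rw [key]
    exact num_bound (hnb k) (hnb i) (hδb k i) (heb i) (hfb k i) hgb (hhb k) hKr hrK
  · intro i
    unfold bet
    rw [hn2, hP, ha]
    have e1 : r ^ 2 * (r * (n i + e i)) / (r ^ 2 * (1 + g)) = r * ((n i + e i) / (1 + g)) := by
      field_simp
    rw [e1, abs_mul, abs_of_pos hr, mul_comm]
    refine mul_le_mul_of_nonneg_right ?_ hr.le
    rw [abs_div, abs_of_pos (by linarith : 0 < 1 + g), div_le_iff₀ (by linarith)]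
    have := abs_add_le (n i) (e i)
    have h1 := hnb i
    have h2 := heb i
    linarith

private lemma div_est {A : ℝ × ℝ → M2} {u : ℝ × ℝ → ℝ} (h : UCd A u) {K : ℝ} (hK : Bd A K)
    {r θ : ℝ} (hr : 0 < r) (hrK : K * r ≤ 1 / 8) :
    |diver (FF A u) (ev r θ)| ≤ 11000 * (K * r) * qm A u (ev r θ) := by
  obtain ⟨hA, hD⟩ := coef hK (θ := θ) hr hrK
  obtain ⟨hb, hb'⟩ := bet_est h hK (θ := θ) hr hrK
  have hx0 := ev_ne (θ := θ) hr
  have hK1 := hK.1
  rw [div_FF h hx0]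
  set x := ev r θ with hx
  have hKr : 0 ≤ K * r := by positivity
  set v : Fin 2 → ℝ := fun i => dd i u x with hv
  set N : ℝ := v 0 ^ 2 + v 1 ^ 2 with hN
  have hN0 : 0 ≤ N := by positivity
  have hvv : ∀ i j, |v i * v j| ≤ N := by
    have hsq : ∀ i, v i ^ 2 ≤ N := by
      rw [Fin.forall_fin_two]
      constructor
      · linarith [sq_nonneg (v 1)]
      · linarith [sq_nonneg (v 0)]
    intro i j
    have h1 := hsq i
    have h2 := hsq j
    rw [abs_le]
    constructor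
    · nlinarith [sq_nonneg (v i + v j)]
    · nlinarith [sq_nonneg (v i - v j)]
  set E : Fin 2 → Fin 2 → ℝ := fun i j => A x i j - (if i = j then 1 else 0) with hE
  have hEb : ∀ i j, |E i j| ≤ K * r := hA
  have hAE : ∀ i j, A x i j = (if i = j then 1 else 0) + E i j := by
    intro i j
    simp only [hE]
    ring
  set G : Fin 2 → Fin 2 → ℝ := fun i j => dd i (bet A j) x - (if i = j then 1 else 0) with hG
  have hGb : ∀ i j, |G i j| ≤ 200 * (K * r) := hb
  have hBG : ∀ i j, dd i (bet A j) x = (if i = j then 1 else 0) + G i j := by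
    intro i j
    simp only [hG]
    ring
  have hAb : ∀ i j, |A x i j| ≤ 3 / 2 := by
    intro i j
    rw [hAE]
    have h1 := abs_add_le (if i = j then (1 : ℝ) else 0) (E i j)
    have h2 : |(if i = j then (1 : ℝ) else 0)| ≤ 1 := by split_ifs <;> simp
    have h3 := hEb i j
    linarith
  have hq : qm A u x = N + (E 0 0 * (v 0 * v 0) + E 0 1 * (v 0 * v 1) + E 1 0 * (v 1 * v 0) +
      E 1 1 * (v 1 * v 1)) := by
    simp only [qm, Fin.sum_univ_two, hAE, hN]
    simp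
    ring
  have hq1 : |E 0 0 * (v 0 * v 0) + E 0 1 * (v 0 * v 1) + E 1 0 * (v 1 * v 0) +
      E 1 1 * (v 1 * v 1)| ≤ N / 2 := by
    have a1 := amul (hEb 0 0) (hvv 0 0)
    have a2 := amul (hEb 0 1) (hvv 0 1)
    have a3 := amul (hEb 1 0) (hvv 1 0)
    have a4 := amul (hEb 1 1) (hvv 1 1)
    have a5 : K * r * N ≤ 1 / 8 * N := mul_le_mul_of_nonneg_right hrK hN0
    rw [abs_le] at *
    constructor <;> linarith [a1.1, a1.2, a2.1, a2.2, a3.1, a3.2, a4.1, a4.2]
  have hq2 : N / 2 ≤ qm A u x := by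
    rw [hq]
    linarith [(abs_le.1 hq1).1]
  have hq3 : qm A u x ≤ 3 / 2 * N := by
    rw [hq]
    linarith [(abs_le.1 hq1).2]
  have hqa : |qm A u x| ≤ 3 / 2 * N := by
    rw [abs_of_nonneg (by linarith)]
    exact hq3
  have hwv : ∀ j k, |v j * wv A u k x| ≤ 3 * N := by
    intro j k
    have a1 := amul (hAb k 0) (hvv j 0)
    have a2 := amul (hAb k 1) (hvv j 1)
    have a3 := abs_add_le (A x k 0 * (v j * v 0)) (A x k 1 * (v j * v 1))
    have e1 : v j * wv A u k x = A x k 0 * (v j * v 0) + A x k 1 * (v j * v 1) := by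
      simp only [wv, hv]
      ring
    rw [e1]
    linarith
  have hdv : ∀ k i j, |dd k (fun y => A y i j) x * (v i * v j)| ≤ K * N :=
    fun k i j => amul (hD k i j) (hvv i j)
  have hbd : ∀ k i j, |bet A k x * (dd k (fun y => A y i j) x * (v i * v j))| ≤
      3 * r * (K * N) := fun k i j => amul (hb' k) (hdv k i j)
  have hgw : ∀ k j, |G k j * (v j * wv A u k x)| ≤ 200 * (K * r) * (3 * N) :=
    fun k j => amul (hGb k j) (hwv j k)
  have hgq : ∀ k, |G k k * qm A u x| ≤ 200 * (K * r) * (3 / 2 * N) :=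
    fun k => amul (hGb k k) hqa
  have hid : v 0 * wv A u 0 x + v 1 * wv A u 1 x = qm A u x := by
    rw [qm_eq]
    simp only [hv]
    ring
  have e2 : (dd 0 (bet A 0) x + dd 1 (bet A 1) x) * qm A u x
      + ∑ k, bet A k x * ∑ i, ∑ j, dd k (fun y => A y i j) x * dd i u x * dd j u x
      - 2 * ∑ k, ∑ j, dd k (bet A j) x * dd j u x * wv A u k x =
      G 0 0 * qm A u x + G 1 1 * qm A u x +
      ∑ k, ∑ i, ∑ j, bet A k x * (dd k (fun y => A y i j) x * (v i * v j)) -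
      2 * ∑ k, ∑ j, G k j * (v j * wv A u k x) := by
    simp only [Fin.sum_univ_two, hBG]
    simp
    linear_combination (-2) * hid
  rw [e2]
  simp only [Fin.sum_univ_two]
  have b1 := fun k i j => (abs_le.1 (hbd k i j)).1
  have b2 := fun k i j => (abs_le.1 (hbd k i j)).2
  have b3 := fun k j => (abs_le.1 (hgw k j)).1
  have b4 := fun k j => (abs_le.1 (hgw k j)).2
  have b5 := fun k => (abs_le.1 (hgq k)).1
  have b6 := fun k => (abs_le.1 (hgq k)).2
  have c1 : K * r * N ≤ K * r * (2 * qm A u x) := mul_le_mul_of_nonneg_left (by linarith) hKr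
  rw [abs_le]
  constructor
  · linarith [b1 0 0 0, b1 0 0 1, b1 0 1 0, b1 0 1 1, b1 1 0 0, b1 1 0 1, b1 1 1 0, b1 1 1 1,
      b4 0 0, b4 0 1, b4 1 0, b4 1 1, b5 0, b5 1, mul_nonneg hKr hN0]
  · linarith [b2 0 0 0, b2 0 0 1, b2 0 1 0, b2 0 1 1, b2 1 0 0, b2 1 0 1, b2 1 1 0, b2 1 1 1,
      b3 0 0, b3 0 1, b3 1 0, b3 1 1, b6 0, b6 1, mul_nonneg hKr hN0]

private lemma ev_cont (r : ℝ) : Continuous (ev r) := by
  unfold ev
  fun_prop

private lemma qm_cont {A : ℝ × ℝ → M2} {u : ℝ × ℝ → ℝ} (h : UCd A u) : Continuous (qm A u) := by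
  have hA := fun i j => (h.smA i j).continuous
  have hu := fun i => (smdd h.smu i).continuous
  unfold qm
  exact continuous_finsetSum _ fun i _ => continuous_finsetSum _ fun j _ =>
    ((hA i j).mul (hu i)).mul (hu j)

private lemma am_eq {A : ℝ × ℝ → M2} {r θ : ℝ} : av A (ev r θ) = r ^ 2 * am A r θ := by
  unfold av Pv am ev nu
  simp only [Fin.sum_univ_two]
  simp
  ring

private lemma am_pos {A : ℝ × ℝ → M2} {u : ℝ × ℝ → ℝ} (h : UCd A u) {r θ : ℝ} (hr : 0 < r) :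
    0 < am A r θ := by
  have h1 := av_pos h (ev_ne (θ := θ) hr)
  rw [am_eq] at h1
  have h2 : 0 < r ^ 2 := by positivity
  exact (pos_iff_pos_of_mul_pos h1).1 h2

private lemma am_cont {A : ℝ × ℝ → M2} {u : ℝ × ℝ → ℝ} (h : UCd A u) (r : ℝ) :
    Continuous (am A r) := by
  have hA := fun i j => (h.smA i j).continuous.comp (ev_cont r)
  have hn : ∀ i, Continuous fun θ => nu θ i := by
    intro i
    unfold nu
    fin_cases i
    · exact Real.continuous_cos
    · exact Real.continuous_sin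
  unfold am
  exact continuous_finsetSum _ fun i _ => continuous_finsetSum _ fun j _ =>
    ((hA i j).mul (hn i)).mul (hn j)

private lemma bm_cont {A : ℝ × ℝ → M2} {u : ℝ × ℝ → ℝ} (h : UCd A u) (r : ℝ) :
    Continuous (bm A u r) := by
  have hA := fun i j => (h.smA i j).continuous.comp (ev_cont r)
  have hu := fun i => (smdd h.smu i).continuous.comp (ev_cont r)
  have hn : ∀ i, Continuous fun θ => nu θ i := by
    intro i
    unfold nu
    fin_cases i
    · exact Real.continuous_cos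
    · exact Real.continuous_sin
  unfold bm
  exact continuous_finsetSum _ fun i _ => continuous_finsetSum _ fun j _ =>
    ((hA i j).mul (hn i)).mul (hu j)

private lemma flux_FF {A : ℝ × ℝ → M2} {u : ℝ × ℝ → ℝ} (h : UCd A u) {r : ℝ} (hr : 0 < r) :
    flux (FF A u) r =
      r * ((∫ θ in (0 : ℝ)..(2 * π), qm A u (ev r θ) * r) - 2 * Su A u r) := by
  unfold flux Su
  have h1 : IntervalIntegrable (fun θ => qm A u (ev r θ) * r) volume 0 (2 * π) :=
    (((qm_cont h).comp (ev_cont r)).mul continuous_const).intervalIntegrable _ _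
  have h2 : IntervalIntegrable (fun θ => bm A u r θ ^ 2 / am A r θ * r) volume 0 (2 * π) :=
    ((((bm_cont h r).pow 2).div (am_cont h r) fun θ => (am_pos h hr).ne').mul
      continuous_const).intervalIntegrable _ _
  rw [← intervalIntegral.integral_const_mul, ← intervalIntegral.integral_sub h1
    (h2.const_mul 2), ← intervalIntegral.integral_const_mul]
  apply intervalIntegral.integral_congr
  intro θ _
  simp only
  have ha := (am_pos (θ := θ) h hr).ne'
  have hn2 : (ev r θ).1 * (ev r θ).1 + (ev r θ).2 * (ev r θ).2 = r ^ 2 := by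
    unfold ev
    linear_combination r ^ 2 * Real.cos_sq_add_sin_sq θ
  have hb : ∀ i, bet A i (ev r θ) = r * (A (ev r θ) i 0 * nu θ 0 + A (ev r θ) i 1 * nu θ 1) /
      am A r θ := by
    intro i
    have hP : Pv A i (ev r θ) = r * (A (ev r θ) i 0 * nu θ 0 + A (ev r θ) i 1 * nu θ 1) := by
      unfold Pv ev nu
      simp
      ring
    unfold bet
    rw [hn2, hP, am_eq]
    field_simp
  have hs := sym10 h (ev r θ)
  have hbm : bm A u r θ = nu θ 0 * wv A u 0 (ev r θ) + nu θ 1 * wv A u 1 (ev r θ) := by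
    unfold bm wv
    simp only [Fin.sum_univ_two]
    ring
  have hbv : bet A 0 (ev r θ) * dd 0 u (ev r θ) + bet A 1 (ev r θ) * dd 1 u (ev r θ) =
      r * bm A u r θ / am A r θ := by
    rw [hb, hb, hbm]
    unfold wv
    rw [hs]
    ring
  have hbn : bet A 0 (ev r θ) * nu θ 0 + bet A 1 (ev r θ) * nu θ 1 = r := by
    rw [hb, hb]
    have : am A r θ = (A (ev r θ) 0 0 * nu θ 0 + A (ev r θ) 0 1 * nu θ 1) * nu θ 0 +
        (A (ev r θ) 1 0 * nu θ 0 + A (ev r θ) 1 1 * nu θ 1) * nu θ 1 := by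
      unfold am
      simp only [Fin.sum_univ_two]
      ring
    field_simp
    rw [this]
    ring
  rw [Fin.sum_univ_two]
  unfold FF
  rw [hbv]
  have e1 : bm A u r θ ^ 2 / am A r θ = bm A u r θ / am A r θ *
      (nu θ 0 * wv A u 0 (ev r θ) + nu θ 1 * wv A u 1 (ev r θ)) := by
    rw [← hbm]
    ring
  rw [e1]
  linear_combination (qm A u (ev r θ) * r) * hbn

private lemma FF_smooth {A : ℝ × ℝ → M2} {u : ℝ × ℝ → ℝ} (h : UCd A u) (i : Fin 2) :
    ContDiffOn ℝ 1 (FF A u i) {x | x ≠ 0} := by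
  have hA : ∀ i j, ContDiffOn ℝ 1 (fun x => A x i j) {x | x ≠ 0} := fun i j =>
    ((h.smA i j).of_le (by exact_mod_cast le_top)).contDiffOn
  have hu : ∀ i, ContDiffOn ℝ 1 (dd i u) {x | x ≠ 0} := fun i =>
    ((smdd h.smu i).of_le (by exact_mod_cast le_top)).contDiffOn
  have h1 : ContDiffOn ℝ 1 (fun x : ℝ × ℝ => x.1) {x | x ≠ 0} := contDiff_fst.contDiffOn
  have h2 : ContDiffOn ℝ 1 (fun x : ℝ × ℝ => x.2) {x | x ≠ 0} := contDiff_snd.contDiffOn
  have hP : ∀ i, ContDiffOn ℝ 1 (Pv A i) {x | x ≠ 0} := fun i =>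
    ((hA i 0).mul h1).add ((hA i 1).mul h2)
  have ha : ContDiffOn ℝ 1 (av A) {x | x ≠ 0} := ((hP 0).mul h1).add ((hP 1).mul h2)
  have hb : ∀ i, ContDiffOn ℝ 1 (bet A i) {x | x ≠ 0} := fun i =>
    (((h1.mul h1).add (h2.mul h2)).mul (hP i)).div ha fun x hx => (av_pos h hx).ne'
  have hw : ∀ i, ContDiffOn ℝ 1 (wv A u i) {x | x ≠ 0} := fun i =>
    ((hA i 0).mul (hu 0)).add ((hA i 1).mul (hu 1))
  have hq : ContDiffOn ℝ 1 (qm A u) {x | x ≠ 0} := by
    rw [qm_eq]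
    exact ((hw 0).mul (hu 0)).add ((hw 1).mul (hu 1))
  exact ((hb i).mul hq).sub ((contDiffOn_const.mul
    (((hb 0).mul (hu 0)).add ((hb 1).mul (hu 1)))).mul (hw i))

private lemma exists_polar {x : ℝ × ℝ} (hx : x ≠ 0) :
    ∃ r θ : ℝ, 0 < r ∧ r ≤ 2 * ‖x‖ ∧ x = ev r θ := by
  set z : ℂ := ⟨x.1, x.2⟩ with hz
  have hz0 : z ≠ 0 := by
    intro h0
    apply hx
    exact Prod.ext (congrArg Complex.re h0) (congrArg Complex.im h0)
  refine ⟨‖z‖, Complex.arg z, norm_pos_iff.2 hz0, ?_, ?_⟩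
  · have h1 := Complex.norm_le_abs_re_add_abs_im z
    have h2 : |z.re| ≤ ‖x‖ := norm_fst_le x
    have h3 : |z.im| ≤ ‖x‖ := norm_snd_le x
    linarith
  · unfold ev
    rw [Complex.norm_mul_cos_arg, Complex.norm_mul_sin_arg]

private lemma FF_bdd {A : ℝ × ℝ → M2} {u : ℝ × ℝ → ℝ} (h : UCd A u) {K : ℝ} (hK : Bd A K) :
    ∃ R C : ℝ, 0 < R ∧ ∀ i x, x ≠ 0 → ‖x‖ < R → |FF A u i x| ≤ C := by
  have hK1 := hK.1
  have hbd : ∀ f : ℝ × ℝ → ℝ, Continuous f → ∃ C, ∀ x, ‖x‖ ≤ 1 → |f x| ≤ C := by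
    intro f hf
    obtain ⟨C, hC⟩ := (isCompact_closedBall (0 : ℝ × ℝ) 1).exists_bound_of_continuousOn
      hf.continuousOn
    exact ⟨C, fun x hx => hC x (by simpa using hx)⟩
  have hwc : ∀ i, Continuous (wv A u i) := fun i =>
    ((h.smA i 0).continuous.mul (smdd h.smu 0).continuous).add
      ((h.smA i 1).continuous.mul (smdd h.smu 1).continuous)
  obtain ⟨Cq, hCq⟩ := hbd _ (qm_cont h)
  obtain ⟨C0, hC0⟩ := hbd _ (smdd h.smu 0).continuous
  obtain ⟨C1, hC1⟩ := hbd _ (smdd h.smu 1).continuous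
  choose W hW using fun i => hbd _ (hwc i)
  refine ⟨1 / (16 * K), 3 * Cq + 2 * (3 * C0 + 3 * C1) * (|W 0| + |W 1|), by positivity, ?_⟩
  intro i x hx hxR
  have h16 : 0 < 16 * K := by linarith
  have hx1 : ‖x‖ ≤ 1 := by
    rw [lt_div_iff₀ h16] at hxR
    nlinarith [norm_nonneg x]
  have hW' : |wv A u i x| ≤ |W 0| + |W 1| := by
    have h1 := hW i x hx1
    have h2 : W i ≤ |W 0| + |W 1| := by
      have h3 : ∀ i, W i ≤ |W 0| + |W 1| := by
        rw [Fin.forall_fin_two]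
        constructor
        · linarith [le_abs_self (W 0), abs_nonneg (W 1)]
        · linarith [le_abs_self (W 1), abs_nonneg (W 0)]
      exact h3 i
    exact h1.trans h2
  obtain ⟨r, θ, hr, hrx, hxe⟩ := exists_polar hx
  have hrK : K * r ≤ 1 / 8 := by
    rw [lt_div_iff₀ h16] at hxR
    nlinarith
  have hr1 : r ≤ 1 := by nlinarith
  have hb : ∀ i, |bet A i x| ≤ 3 := by
    intro i
    rw [hxe]
    have := (bet_est h hK (θ := θ) hr hrK).2 i
    linarith
  unfold FF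
  have a1 := amul (hb i) (hCq x hx1)
  have a2 := amul (hb 0) (hC0 x hx1)
  have a3 := amul (hb 1) (hC1 x hx1)
  have a4 := abs_add_le (bet A 0 x * dd 0 u x) (bet A 1 x * dd 1 u x)
  have a5 : |2 * (bet A 0 x * dd 0 u x + bet A 1 x * dd 1 u x)| ≤ 2 * (3 * C0 + 3 * C1) := by
    rw [abs_mul, abs_two]
    linarith
  have a6 := amul a5 hW'
  have a7 := abs_sub (bet A i x * qm A u x)
    (2 * (bet A 0 x * dd 0 u x + bet A 1 x * dd 1 u x) * wv A u i x)
  linarith

theorem uc_rellich {A : ℝ × ℝ → M2} {u : ℝ × ℝ → ℝ} (h : UCd A u) : ∃ R C : ℝ, 0 < R ∧ 0 ≤ C ∧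
    ∀ r, 0 < r → r < R → |(∫ θ in (0 : ℝ)..(2 * π), qm A u (ev r θ) * r) - 2 * Su A u r| ≤
      C * Du A u r := by
  obtain ⟨K, hK⟩ := exists_Bd h
  have hK1 := hK.1
  refine ⟨1 / (8 * K), 11000 * K, by positivity, by positivity, ?_⟩
  intro r hr hrR
  have h8 : 0 < 8 * K := by linarith
  have hrK : K * r ≤ 1 / 8 := by
    rw [lt_div_iff₀ h8] at hrR
    linarith
  obtain ⟨R₁, C₁, hR₁, hC₁⟩ := FF_bdd h hK
  have hlim := flux_zero (F := FF A u) hR₁ hC₁
  -- the derivative of the flux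
  have hder : ∀ s, 0 < s → HasDerivAt (flux (FF A u))
      (∫ θ in (0 : ℝ)..(2 * π), diver (FF A u) (ev s θ) * s) s := fun s hs =>
    flux_deriv (FF_smooth h) hs
  have hD : ∀ s, 0 < s → HasDerivAt (Du A u) (∫ θ in (0 : ℝ)..(2 * π), qm A u (ev s θ) * s) s :=
    fun s hs => Du_deriv h hs
  have hest : ∀ s, 0 < s → s ≤ r → |∫ θ in (0 : ℝ)..(2 * π), diver (FF A u) (ev s θ) * s| ≤
      11000 * K * r * ∫ θ in (0 : ℝ)..(2 * π), qm A u (ev s θ) * s := by
    intro s hs hsr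
    have hsK : K * s ≤ 1 / 8 := (mul_le_mul_of_nonneg_left hsr (by linarith)).trans hrK
    rw [← intervalIntegral.integral_const_mul, ← Real.norm_eq_abs]
    refine intervalIntegral.norm_integral_le_of_norm_le (by positivity) ?_ ?_
    · refine Filter.Eventually.of_forall fun θ _ => ?_
      rw [Real.norm_eq_abs, abs_mul, abs_of_pos hs]
      have h1 := div_est h hK (θ := θ) hs hsK
      have hq0 : 0 ≤ qm A u (ev s θ) := by
        by_contra hneg
        have h2 : 0 ≤ 11000 * (K * s) * qm A u (ev s θ) := (abs_nonneg _).trans h1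
        have h3 : 0 < 11000 * (K * s) := by positivity
        exact hneg ((mul_nonneg_iff_of_pos_left h3).1 h2)
      calc |diver (FF A u) (ev s θ)| * s ≤ (11000 * (K * s) * qm A u (ev s θ)) * s :=
            mul_le_mul_of_nonneg_right h1 hs.le
        _ ≤ (11000 * (K * r) * qm A u (ev s θ)) * s := by
            refine mul_le_mul_of_nonneg_right (mul_le_mul_of_nonneg_right ?_ hq0) hs.le
            have := mul_le_mul_of_nonneg_left hsr (show 0 ≤ K by linarith)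
            linarith
        _ = 11000 * K * r * (qm A u (ev s θ) * s) := by ring
    · exact (continuous_const.mul
        (((qm_cont h).comp (ev_cont s)).mul continuous_const)).intervalIntegrable _ _
  -- comparison
  have hcmp : ∀ σ : ℝ, |σ| = 1 → 0 ≤ 11000 * K * r * Du A u r + σ * flux (FF A u) r := by
    intro σ hσ
    set G : ℝ → ℝ := fun s => 11000 * K * r * Du A u s + σ * flux (FF A u) s with hG
    have hGd : ∀ s, 0 < s → HasDerivAt G (11000 * K * r *
        (∫ θ in (0 : ℝ)..(2 * π), qm A u (ev s θ) * s) +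
          σ * (∫ θ in (0 : ℝ)..(2 * π), diver (FF A u) (ev s θ) * s)) s := fun s hs =>
      ((hD s hs).const_mul _).add ((hder s hs).const_mul _)
    have hmono : MonotoneOn G (Set.Ioc 0 r) := by
      refine monotoneOn_of_deriv_nonneg (convex_Ioc 0 r) ?_ ?_ ?_
      · exact fun s hs => (hGd s hs.1).continuousAt.continuousWithinAt
      · intro s hs
        rw [interior_Ioc] at hs
        exact (hGd s hs.1).differentiableAt.differentiableWithinAt
      · intro s hs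
        rw [interior_Ioc] at hs
        rw [(hGd s hs.1).deriv]
        have h1 := hest s hs.1 hs.2.le
        have h2 : |σ * ∫ θ in (0 : ℝ)..(2 * π), diver (FF A u) (ev s θ) * s| ≤
            11000 * K * r * ∫ θ in (0 : ℝ)..(2 * π), qm A u (ev s θ) * s := by
          rw [abs_mul, hσ, one_mul]
          exact h1
        linarith [(abs_le.1 h2).1]
    have hev : ∀ᶠ s in 𝓝[>] (0 : ℝ), σ * flux (FF A u) s ≤ G r := by
      filter_upwards [Ioc_mem_nhdsGT hr] with s hs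
      have h1 : G s ≤ G r := hmono hs ⟨hr, le_rfl⟩ hs.2
      have h2 : 0 ≤ 11000 * K * r * Du A u s :=
        mul_nonneg (by positivity) (Du_nonneg h hs.1)
      have h3 : G s = 11000 * K * r * Du A u s + σ * flux (FF A u) s := rfl
      linarith
    have hl : Tendsto (fun s => σ * flux (FF A u) s) (𝓝[>] 0) (𝓝 (σ * 0)) := hlim.const_mul σ
    rw [mul_zero] at hl
    exact le_of_tendsto hl hev
  have h1 := hcmp 1 (by simp)
  have h2 := hcmp (-1) (by simp)
  rw [flux_FF h hr] at h1 h2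
  have h3 : r * |(∫ θ in (0 : ℝ)..(2 * π), qm A u (ev r θ) * r) - 2 * Su A u r| ≤
      r * (11000 * K * Du A u r) := by
    rw [← abs_of_pos hr, ← abs_mul, abs_of_pos hr, abs_le]
    constructor
    · linarith
    · linarith
  exact le_of_mul_le_mul_left h3 hr

end Pool.Agent.T2S4
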